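import Pool.Agent.FRM.StmtsB
import Pool.Agent.DC.HomMap
import Pool.Agent.DC.DIMF

/-! Module BCH: base change of close models along local extensions of valuation rings. -/

set_option autoImplicit false

noncomputable section

namespace Pool.Agent.FRM

open scoped Classical
open MvPolynomial Pool.Agent.LibDb3ab1 Pool.Agent.DC

namespace BCH_

/-- A retraction of an extension of fields. -/
theorem exists_retract {L K : Type} [Field L] [Field K] (μ : L →+* K) :
    ∃ ρ : K →+ L, ρ 1 = 1 ∧ ∀ (a : L) (x : K), ρ (μ a * x) = a * ρ x := by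
  letI : Algebra L K := μ.toAlgebra
  obtain ⟨g, hg⟩ := (Algebra.linearMap L K).exists_leftInverse_of_injective
    (LinearMap.ker_eq_bot.2 (algebraMap L K).injective)
  have h1 : ∀ a : L, g (μ a) = a := fun a => LinearMap.congr_fun hg a
  refine ⟨g.toAddMonoidHom, ?_, ?_⟩
  · have := h1 1
    rwa [map_one] at this
  · intro a x
    have h2 : μ a * x = a • x := rfl
    rw [h2]
    exact g.map_smul a x

/-- The extension of an ideal to a larger base field, restricted. -/
theorem comap_map {L K : Type} [Field L] [Field K] (μ : L →+* K) {σ : Type}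
    (P : Ideal (MvPolynomial σ L)) : (P.map (MvPolynomial.map μ)).comap (MvPolynomial.map μ) = P := by
  obtain ⟨ρ, h1, h2⟩ := exists_retract μ
  -- the coefficientwise retraction
  let R : MvPolynomial σ K → MvPolynomial σ L :=
    fun F => ∑ m ∈ F.support, monomial m (ρ (coeff m F))
  have hR : ∀ (F : MvPolynomial σ K) m, coeff m (R F) = ρ (coeff m F) := by
    intro F m
    simp only [R, coeff_sum, coeff_monomial, Finset.sum_ite_eq']
    split_ifs with h
    · rfl
    · rw [notMem_support_iff.1 h, map_zero]
  have hRadd : ∀ F G, R (F + G) = R F + R G := by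
    intro F G
    ext m
    rw [hR, coeff_add, coeff_add, hR, hR, map_add]
  have hR0 : R 0 = 0 := by
    ext m
    rw [hR, coeff_zero, coeff_zero, map_zero]
  have hRmul : ∀ (G : MvPolynomial σ K) (F : MvPolynomial σ L),
      R (G * MvPolynomial.map μ F) = R G * F := by
    intro G F
    ext m
    rw [hR, coeff_mul, coeff_mul, map_sum]
    refine Finset.sum_congr rfl fun x _ => ?_
    rw [hR, coeff_map, mul_comm, h2, mul_comm]
  have hR1 : ∀ F : MvPolynomial σ L, R (MvPolynomial.map μ F) = F := by
    intro F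
    ext m
    rw [hR, coeff_map]
    have := h2 (coeff m F) 1
    rwa [mul_one, h1, mul_one] at this
  apply le_antisymm
  · intro F hF
    rw [Ideal.mem_comap] at hF
    have key : ∀ G ∈ P.map (MvPolynomial.map μ), ∀ a, R (a * G) ∈ P := by
      intro G hG
      induction hG using Submodule.span_induction with
      | mem x hx =>
        obtain ⟨y, hy, rfl⟩ := hx
        intro a
        rw [hRmul]
        exact Ideal.mul_mem_left _ _ hy
      | zero => intro a; rw [mul_zero, hR0]; exact Ideal.zero_mem _
      | add x y _ _ hx hy =>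
        intro a
        rw [mul_add, hRadd]
        exact Ideal.add_mem _ (hx a) (hy a)
      | smul b x _ hx =>
        intro a
        rw [smul_eq_mul, ← mul_assoc]
        exact hx _
    have := key _ hF 1
    rwa [one_mul, hR1] at this
  · exact Ideal.le_comap_map

end BCH_

theorem bch_proof : Stmt_Bch := by
  intro p N d _ J E L _ V t P z h K _ V' μ μV hμ hV hprime
  set P' : Ideal (MvPolynomial (Fin (N + 1)) K) := P.map (MvPolynomial.map μ) with hP'
  have hle : P ≤ P'.comap (MvPolynomial.map μ) := Ideal.le_comap_map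
  -- the quotient map
  let q : MvPolynomial (Fin (N + 1)) L ⧸ P →+* MvPolynomial (Fin (N + 1)) K ⧸ P' :=
    Ideal.quotientMap P' (MvPolynomial.map μ) hle
  have hqinj : Function.Injective q := by
    apply Ideal.quotientMap_injective'
    rw [hP', BCH_.comap_map]
  have hqmk : ∀ F, q (Ideal.Quotient.mk _ F) = Ideal.Quotient.mk _ (MvPolynomial.map μ F) :=
    fun F => rfl
  have hcomp : μ.comp V.subtype = V'.subtype.comp μV := RingHom.ext fun x => (hμ x).symm
  have hv : q.comp (vmap V P) = (vmap V' P').comp (MvPolynomial.map μV) := by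
    refine RingHom.ext fun F => ?_
    simp only [vmap, RingHom.comp_apply, hqmk, MvPolynomial.map_map]
    rw [hcomp]
  have hzm : q.comp (zmap V P z) =
      (zmap V' P' (fun i => MvPolynomial.map μV (z i))).comp (MvPolynomial.map μV) := by
    unfold zmap
    rw [← RingHom.comp_assoc, hv, RingHom.comp_assoc, RingHom.comp_assoc]
    congr 1
    refine MvPolynomial.ringHom_ext (fun a => ?_) fun i => ?_
    · simp
    · simp
  have hkm : q.comp (kmap P (fun i => MvPolynomial.map V.subtype (z i))) =
      (kmap P' fun i => MvPolynomial.map V'.subtype (MvPolynomial.map μV (z i))).comp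
        (MvPolynomial.map μ) := by
    refine MvPolynomial.ringHom_ext (fun a => ?_) fun i => ?_
    · simp only [kmap, RingHom.comp_apply, hqmk, MvPolynomial.map_C, AlgHom.toRingHom_eq_coe,
        RingHom.coe_coe, MvPolynomial.aeval_C, MvPolynomial.algebraMap_eq]
    · simp only [kmap, RingHom.comp_apply, hqmk, MvPolynomial.map_X, AlgHom.toRingHom_eq_coe,
        RingHom.coe_coe, MvPolynomial.aeval_X, MvPolynomial.map_map]
      rw [hcomp]
  have hqX : ∀ i, q (Ideal.Quotient.mk _ (X i)) = Ideal.Quotient.mk _ (X i) := by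
    intro i
    rw [hqmk, MvPolynomial.map_X]
  have hred : ∀ F : MvPolynomial (Fin (N + 1)) ℤ, MvPolynomial.map μ (red L F) = red K F := by
    intro F
    have h0 : μ.comp (Int.castRingHom L) = Int.castRingHom K := RingHom.ext_int _ _
    rw [red, red, MvPolynomial.map_map, h0]
  have hinj : Function.Injective μV := by
    intro x y hxy
    apply Subtype.ext
    apply μ.injective
    rw [← hμ, ← hμ, hxy]
  have htt : ((μV t : V') : K) = μ (t : L) := hμ t
  refine ⟨hprime, hom_map μ P h.hom, ?_, ?_, ?_, ?_, ?_, ?_, ?_⟩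
  · rw [hP', dimf_proof L K μ (N + 1) P]
    exact h.dim
  · intro h0
    apply h.t_ne
    apply hinj
    rw [h0, map_zero]
  · intro h0
    apply h.t_nonunit
    have ht0 : (t : L) ≠ 0 := fun h1 => h.t_ne (Subtype.ext h1)
    obtain ⟨u, hu⟩ := h0
    have hVm : ∀ x : L, μ x ∈ V' → x ∈ V := by
      intro x hx
      have : x ∈ V'.comap μ := hx
      rwa [hV] at this
    have h2 : (t : L)⁻¹ ∈ V := by
      apply hVm
      rw [map_inv₀, ← htt, ← hu]
      have h3 : (((u⁻¹ : V'ˣ) : V') : K) = (((u : V') : K))⁻¹ := by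
        apply eq_inv_of_mul_eq_one_left
        exact congrArg (fun x : V' => (x : K)) u.inv_mul
      rw [← h3]
      exact ((u⁻¹ : V'ˣ) : V').2
    refine IsUnit.of_mul_eq_one (⟨(t : L)⁻¹, h2⟩ : V) ?_
    apply Subtype.ext
    change (t : L) * (t : L)⁻¹ = 1
    exact mul_inv_cancel₀ ht0
  · intro i
    exact (h.z_hom i).map μV
  · intro i
    obtain ⟨f, hf, hf0⟩ := h.z_int i
    refine ⟨f.map (MvPolynomial.map μV), hf.map _, ?_⟩
    rw [Polynomial.eval₂_map, ← hzm, ← hqX, ← Polynomial.hom_eval₂, hf0, map_zero]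
  · intro i
    obtain ⟨f, hf0, hf1⟩ := h.z_sep i
    refine ⟨f.map (MvPolynomial.map μ), ?_, ?_⟩
    · rw [Polynomial.eval₂_map, ← hkm, ← hqX, ← Polynomial.hom_eval₂, hf0, map_zero]
    · rw [Polynomial.derivative_map, Polynomial.eval₂_map, ← hkm, ← hqX,
        ← Polynomial.hom_eval₂]
      intro h0
      exact hf1 (hqinj (by rw [h0, map_zero]))
  · intro j
    obtain ⟨f, hf, hf0⟩ := h.close j
    have e1 : q (Ideal.Quotient.mk P (C (((t : L)⁻¹) ^ (p + 1)) *
        (red L (E.g j) ^ p + C ((t : L) ^ p) * red L (E.g₁ j)))) =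
        Ideal.Quotient.mk P' (C ((((μV t : V') : K)⁻¹) ^ (p + 1)) *
          (red K (E.g j) ^ p + C (((μV t : V') : K) ^ p) * red K (E.g₁ j))) := by
      rw [hqmk]
      congr 1
      simp only [map_mul, map_add, map_pow, MvPolynomial.map_C, hred, htt, map_inv₀]
    rw [← e1]
    refine ⟨f.map (MvPolynomial.map μV), hf.map _, ?_⟩
    rw [Polynomial.eval₂_map, ← hv, ← Polynomial.hom_eval₂, hf0, map_zero]

end Pool.Agent.FRM
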