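import Pool.Agent.FRM.Stmts
import Pool.Agent.DC.HOMEXT

/-!
# Module BDI: elements which are bounded on the unit polydisc are integral
-/

set_option autoImplicit false

noncomputable section

namespace Pool.Agent.FRM

open scoped Classical
open MvPolynomial Pool.Agent.LibDb3ab1 Pool.Agent.DC

namespace BDI_

/-- homogeneous polynomials at proportional points -/
theorem eval_scale {k Ω : Type} [Field k] [Field Ω] {n m : ℕ} (φ : k →+* Ω)
    (x y : Fin n → Ω) (c : Ω) (hxy : ∀ i, y i = c * x i) (F : MvPolynomial (Fin n) k)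
    (hF : F.IsHomogeneous m) : eval₂ φ y F = c ^ m * eval₂ φ x F := by
  rw [eval₂_eq', eval₂_eq', Finset.mul_sum]
  refine Finset.sum_congr rfl fun d hd => ?_
  have h1 : ∏ i, y i ^ d i = c ^ m * ∏ i, x i ^ d i := by
    have h2 : ∑ i, d i = m := by
      have h3 := hF (mem_support_iff.1 hd)
      rw [← h3, Finsupp.weight_apply, Finsupp.sum_fintype _ _ (fun i => by rw [zero_smul])]
      exact Finset.sum_congr rfl fun i _ => by simp
    rw [← h2, ← Finset.prod_pow_eq_pow_sum, ← Finset.prod_mul_distrib]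
    exact Finset.prod_congr rfl fun i _ => by rw [hxy, mul_pow]
  rw [h1]; ring

theorem zero_scale {k Ω : Type} [Field k] [Field Ω] {n : ℕ} {P : Ideal (MvPolynomial (Fin n) k)}
    (hom : Homog P) (φ : k →+* Ω) (x y : Fin n → Ω) (c : Ω) (hc : c ≠ 0)
    (hxy : ∀ i, y i = c * x i) (hy : ∀ F ∈ P, eval₂ φ y F = 0) : ∀ F ∈ P, eval₂ φ x F = 0 := by
  intro F hF
  rw [← MvPolynomial.sum_homogeneousComponent F, ← MvPolynomial.coe_eval₂Hom, map_sum]
  apply Finset.sum_eq_zero
  intro m _
  rw [MvPolynomial.coe_eval₂Hom]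
  have h1 := hy _ (hom F hF m)
  rw [eval_scale φ x y c hxy _ (homogeneousComponent_isHomogeneous m F)] at h1
  exact (mul_eq_zero.mp h1).resolve_left (pow_ne_zero _ hc)

/-- a vector over the fraction field of a valuation ring is a multiple of a unimodular one -/
theorem normalise {W Ω : Type} [CommRing W] [IsDomain W] [ValuationRing W] [Field Ω]
    [Algebra W Ω] [IsFractionRing W Ω] {N : ℕ} (y : Fin (N + 1) → Ω) (hy : y ≠ 0) :
    ∃ (c : Ω) (y' : Fin (N + 1) → W), c ≠ 0 ∧ (∃ l, y' l = 1) ∧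
      ∀ i, y i = c * algebraMap W Ω (y' i) := by
  obtain ⟨l, hl⟩ := Finite.exists_max fun i => ValuationRing.valuation W Ω (y i)
  have hyl : y l ≠ 0 := by
    intro h0
    apply hy
    funext i
    have h1 := hl i
    rw [h0, map_zero] at h1
    have h2 : ValuationRing.valuation W Ω (y i) = 0 := le_antisymm h1 zero_le
    rw [map_eq_zero] at h2
    exact h2
  have hv : ValuationRing.valuation W Ω (y l) ≠ 0 := by
    rw [Ne, map_eq_zero]; exact hyl
  have h3 : ∀ i, ∃ w : W, algebraMap W Ω w = y i / y l := by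
    intro i
    rw [← ValuationRing.mem_integer_iff, Valuation.mem_integer_iff, map_div₀]
    exact (div_le_one₀ (zero_lt_iff.2 hv)).2 (hl i)
  choose y' hy' using h3
  refine ⟨y l, y', hyl, ⟨l, ?_⟩, fun i => ?_⟩
  · apply IsFractionRing.injective W Ω
    rw [hy', div_self hyl, map_one]
  · rw [hy', mul_div_cancel₀ _ hyl]

/-- the residue field of `W` is infinite -/
theorem inf_residue (W Ω : Type) [CommRing W] [IsDomain W] [ValuationRing W] [Field Ω]
    [Algebra W Ω] [IsFractionRing W Ω] [IsAlgClosed Ω] :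
    Infinite (IsLocalRing.ResidueField W) := by
  have h : IsAlgClosed (IsLocalRing.ResidueField W) := by
    apply IsAlgClosed.of_exists_root
    intro p hp hirr
    have hlift : p ∈ Polynomial.lifts (IsLocalRing.residue W) := by
      rw [Polynomial.lifts_iff_coeff_lifts]
      intro n
      exact IsLocalRing.residue_surjective (p.coeff n)
    obtain ⟨q, hq, hqd, hqm⟩ := Polynomial.lifts_and_natDegree_eq_and_monic hlift hp
    have hd : q.degree ≠ 0 := by
      intro h0
      have h1 : q.natDegree = 0 := Polynomial.natDegree_eq_of_degree_eq_some h0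
      rw [hqd] at h1
      exact hirr.natDegree_pos.ne' h1
    have hinj := IsFractionRing.injective W Ω
    obtain ⟨x, hx⟩ := IsAlgClosed.exists_root (q.map (algebraMap W Ω)) (by
      rw [Polynomial.degree_map_eq_of_injective hinj]; exact hd)
    have hint : IsIntegral W x := ⟨q, hqm, by rw [← Polynomial.eval_map]; exact hx⟩
    obtain ⟨w, hw⟩ := IsIntegrallyClosed.isIntegral_iff.1 hint
    refine ⟨IsLocalRing.residue W w, ?_⟩
    have h2 : q.eval w = 0 := by
      apply hinj
      rw [map_zero, ← Polynomial.eval_map_apply, hw]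
      exact hx
    rw [← hq, Polynomial.eval_map_apply, h2, map_zero]
  infer_instance

/-- a monic polynomial over `Ω` all of whose roots are in `W` has its coefficients in `W` -/
theorem coeffs_of_roots {W Ω : Type} [CommRing W] [Field Ω] [Algebra W Ω] [IsAlgClosed Ω]
    (g : Polynomial Ω) (hg : g.Monic)
    (hr : ∀ θ : Ω, g.eval θ = 0 → ∃ w : W, algebraMap W Ω w = θ) (n : ℕ) :
    ∃ w : W, algebraMap W Ω w = g.coeff n := by
  have h1 : g ∈ Polynomial.lifts (algebraMap W Ω) := by
    rw [(IsAlgClosed.splits g).eq_prod_roots_of_monic hg]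
    apply multiset_prod_mem
    intro a ha
    rw [Multiset.mem_map] at ha
    obtain ⟨θ, hθ, rfl⟩ := ha
    obtain ⟨w, hw⟩ := hr θ ((Polynomial.mem_roots hg.ne_zero).1 hθ)
    rw [Polynomial.mem_lifts]
    exact ⟨Polynomial.X - Polynomial.C w, by simp [hw]⟩
  rw [Polynomial.lifts_iff_coeff_lifts] at h1
  exact h1 n

/-- `zmap` is the restriction of `kmap` -/
theorem zmap_eq {N r : ℕ} {k : Type} [Field k] (V : ValuationSubring k)
    (P : Ideal (MvPolynomial (Fin (N + 1)) k)) (z : Fin r → MvPolynomial (Fin (N + 1)) V) :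
    zmap V P z = (kmap P fun i => MvPolynomial.map V.subtype (z i)).comp
      (MvPolynomial.map V.subtype) := by
  apply MvPolynomial.ringHom_ext
  · intro a
    simp [zmap, vmap, kmap]
  · intro i
    simp [zmap, vmap, kmap]

theorem kmap_C {N r : ℕ} {k : Type} [Field k] (P : Ideal (MvPolynomial (Fin (N + 1)) k))
    (z : Fin r → MvPolynomial (Fin (N + 1)) k) (a : k) :
    kmap P z (C a) = Ideal.Quotient.mk P (C a) := by
  simp [kmap]

theorem kmap_X {N r : ℕ} {k : Type} [Field k] (P : Ideal (MvPolynomial (Fin (N + 1)) k))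
    (z : Fin r → MvPolynomial (Fin (N + 1)) k) (i : Fin r) :
    kmap P z (X i) = Ideal.Quotient.mk P (z i) := by
  simp [kmap]

theorem kmap_int {N r : ℕ} {k : Type} [Field k] (P : Ideal (MvPolynomial (Fin (N + 1)) k))
    (z : Fin r → MvPolynomial (Fin (N + 1)) k)
    (h : ∀ i, (kmap P z).IsIntegralElem (Ideal.Quotient.mk P (X i))) : (kmap P z).IsIntegral := by
  intro b
  obtain ⟨F, rfl⟩ := Ideal.Quotient.mk_surjective b
  induction F using MvPolynomial.induction_on with
  | C a =>
    rw [← kmap_C P z a]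
    exact RingHom.isIntegralElem_map _
  | add F G hF hG => rw [map_add]; exact hF.add _ hG
  | mul_X F i hF => rw [map_mul]; exact hF.mul _ (h i)

/-- extension of homomorphisms -/
theorem ext_core {R B Ω : Type} [CommRing R] [IsDomain R] [IsIntegrallyClosed R] [CommRing B]
    [IsDomain B] [Field Ω] [IsAlgClosed Ω] (i : R →+* B) (hinj : Function.Injective i)
    (hint : i.IsIntegral) (b : B) :
    ∃ f : Polynomial R, f.Monic ∧ f.eval₂ i b = 0 ∧
      ∀ (φ : R →+* Ω) (θ : Ω), (f.map φ).eval θ = 0 →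
        ∃ ψ : B →+* Ω, ψ.comp i = φ ∧ ψ b = θ := by
  let : Algebra R B := i.toAlgebra
  have hfs : FaithfulSMul R B := (faithfulSMul_iff_algebraMap_injective R B).2 hinj
  have hbi : IsIntegral R b := hint _
  refine ⟨minpoly R b, minpoly.monic hbi, minpoly.aeval R b, ?_⟩
  intro φ θ hθ
  let g : Polynomial R →+* B := Polynomial.eval₂RingHom i b
  let φ0 : Polynomial R →+* Ω := Polynomial.eval₂RingHom φ θ
  have hker : ∀ p ∈ RingHom.ker g, φ0 p = 0 := by
    intro p hp
    have h1 : Polynomial.aeval b p = 0 := hp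
    obtain ⟨q, hq⟩ := minpoly.isIntegrallyClosed_dvd hbi h1
    have h2 : φ0 (minpoly R b) = 0 := by
      rw [Polynomial.eval_map] at hθ
      exact hθ
    rw [hq, map_mul, h2, zero_mul]
  have hi1 : (RingHom.kerLift g).IsIntegral := by
    intro x
    obtain ⟨p, hp, hpx⟩ := hint x
    refine ⟨p.map ((Ideal.Quotient.mk (RingHom.ker g)).comp Polynomial.C), hp.map _, ?_⟩
    rw [Polynomial.eval₂_map]
    have h1 : (RingHom.kerLift g).comp ((Ideal.Quotient.mk (RingHom.ker g)).comp Polynomial.C) =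
        i := by
      apply RingHom.ext
      intro a
      rw [RingHom.comp_apply, RingHom.comp_apply, RingHom.kerLift_mk]
      exact Polynomial.eval₂_C _ _
    rw [h1]
    exact hpx
  obtain ⟨ψ, hψ⟩ := Pool.Agent.DC.homext_proof (Polynomial R ⧸
    RingHom.ker g) B Ω (RingHom.kerLift g)
    (RingHom.kerLift_injective g) hi1 (Ideal.Quotient.lift (RingHom.ker g) φ0 hker)
  have hψg : ∀ p, ψ (g p) = φ0 p := by
    intro p
    have h1 := RingHom.congr_fun hψ (Ideal.Quotient.mk (RingHom.ker g) p)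
    rw [RingHom.comp_apply, RingHom.kerLift_mk, Ideal.Quotient.lift_mk] at h1
    exact h1
  refine ⟨ψ, ?_, ?_⟩
  · apply RingHom.ext
    intro a
    have h1 := hψg (Polynomial.C a)
    have h2 : g (Polynomial.C a) = i a := Polynomial.eval₂_C _ _
    have h3 : φ0 (Polynomial.C a) = φ a := Polynomial.eval₂_C _ _
    rw [h2, h3] at h1
    exact h1
  · have h1 := hψg Polynomial.X
    have h2 : g Polynomial.X = b := Polynomial.eval₂_X _ _
    have h3 : φ0 Polynomial.X = θ := Polynomial.eval₂_X _ _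
    rw [h2, h3] at h1
    exact h1

/-- extension of points -/
theorem ext_point {N r : ℕ} {ka Ω : Type} [Field ka] [Field Ω] [IsAlgClosed Ω] (β : ka →+* Ω)
    (P : Ideal (MvPolynomial (Fin (N + 1)) ka)) (hP : P.IsPrime)
    (z : Fin r → MvPolynomial (Fin (N + 1)) ka) (hint : (kmap P z).IsIntegral)
    (hinj : Function.Injective (kmap P z)) (b : MvPolynomial (Fin (N + 1)) ka) :
    ∃ f : Polynomial (MvPolynomial (Fin r) ka), f.Monic ∧
      f.eval₂ (kmap P z) (Ideal.Quotient.mk P b) = 0 ∧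
      ∀ (ζ : Fin r → Ω) (θ : Ω), (f.map (eval₂Hom β ζ)).eval θ = 0 →
        ∃ y : Fin (N + 1) → Ω, (∀ F ∈ P, eval₂ β y F = 0) ∧ (∀ i, eval₂ β y (z i) = ζ i) ∧
          eval₂ β y b = θ := by
  have hdom : IsDomain (MvPolynomial (Fin (N + 1)) ka ⧸ P) := Ideal.Quotient.isDomain P
  obtain ⟨f, hf, hfb, hext⟩ := ext_core (Ω := Ω) (kmap P z) hinj hint (Ideal.Quotient.mk P b)
  refine ⟨f, hf, hfb, ?_⟩
  intro ζ θ hθ
  obtain ⟨ψ, hψi, hψb⟩ := hext (eval₂Hom β ζ) θ hθ
  have hψz : ∀ a, ψ (kmap P z a) = eval₂ β ζ a := fun a => RingHom.congr_fun hψi a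
  have hψF : ∀ F, ψ (Ideal.Quotient.mk P F) =
      eval₂ β (fun i => ψ (Ideal.Quotient.mk P (X i))) F := by
    intro F
    have h1 : ψ.comp (Ideal.Quotient.mk P) =
        eval₂Hom β (fun i => ψ (Ideal.Quotient.mk P (X i))) := by
      apply MvPolynomial.ringHom_ext
      · intro a
        rw [RingHom.comp_apply, ← kmap_C P z a, hψz, eval₂_C, eval₂Hom_C]
      · intro i
        rw [RingHom.comp_apply, eval₂Hom_X']
    exact RingHom.congr_fun h1 F
  refine ⟨fun i => ψ (Ideal.Quotient.mk P (X i)), ?_, ?_, ?_⟩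
  · intro F hF
    rw [← hψF, Ideal.Quotient.eq_zero_iff_mem.2 hF, map_zero]
  · intro i
    rw [← hψF, ← kmap_X P z i, hψz, eval₂_X]
  · rw [← hψF]
    exact hψb

end BDI_

theorem bdi_proof (hGAU : Stmt_Gau) : Stmt_Bdi := by
  intro W Ω ka _ _ _ _ _ _ _ _ β Wa hWa N r P hP hhom z hz hint hinj hunit b m hm hb hbW
  have hinf := BDI_.inf_residue W Ω
  obtain ⟨f, hf, hfb, hpt⟩ := BDI_.ext_point (Ω := Ω) β P hP
    (fun i => MvPolynomial.map Wa.subtype (z i)) (BDI_.kmap_int P _ hint) hinj b
  -- the coefficients of `f` have coefficients in `Wa`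
  have key : ∀ (n : ℕ) (d : Fin r →₀ ℕ), (f.coeff n).coeff d ∈ Wa := by
    intro n d
    have h1 : ∀ ζ : Fin r → W, ∃ w : W, algebraMap W Ω w =
        eval (fun i => algebraMap W Ω (ζ i)) (MvPolynomial.map β (f.coeff n)) := by
      intro ζ
      have h2 := BDI_.coeffs_of_roots (W := W)
        (f.map (eval₂Hom β fun i => algebraMap W Ω (ζ i))) (hf.map _) (by
          intro θ hθ
          obtain ⟨y, hyP, hyz, hyb⟩ := hpt _ θ hθ
          by_cases hy0 : y = 0
          · refine ⟨0, ?_⟩
            rw [map_zero, ← hyb, BDI_.eval_scale β y y 0 (fun i => by rw [hy0]; simp) b hb,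
              zero_pow hm.ne', zero_mul]
          · obtain ⟨c, y', hc, hl, hyy⟩ := BDI_.normalise (W := W) y hy0
            have hy'P := BDI_.zero_scale hhom β (fun i => algebraMap W Ω (y' i)) y c hc hyy hyP
            obtain ⟨i, w, hw, hwz⟩ := hunit y' hl hy'P
            have h3 := hyz i
            have h4 : eval₂ β (fun i => algebraMap W Ω (y' i))
                (MvPolynomial.map Wa.subtype (z i)) = algebraMap W Ω w := by
              rw [hwz, MvPolynomial.eval₂_map]
            rw [BDI_.eval_scale β (fun i => algebraMap W Ω (y' i)) y c hyy _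
              ((hz i).map Wa.subtype), h4, pow_one] at h3
            obtain ⟨u, rfl⟩ := hw
            have h5 : c = algebraMap W Ω (ζ i * ((u⁻¹ : Wˣ) : W)) := by
              rw [map_mul, ← h3, mul_assoc, ← map_mul, Units.mul_inv, map_one, mul_one]
            obtain ⟨w', hw'⟩ := hbW y' hl hy'P
            refine ⟨(ζ i * ((u⁻¹ : Wˣ) : W)) ^ m * w', ?_⟩
            rw [map_mul, map_pow, ← h5, hw', ← hyb,
              BDI_.eval_scale β (fun i => algebraMap W Ω (y' i)) y c hyy _ hb]) n
      obtain ⟨w, hw⟩ := h2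
      refine ⟨w, ?_⟩
      rw [hw, Polynomial.coeff_map, MvPolynomial.eval_map]
      rfl
    obtain ⟨w, hw⟩ := hGAU W Ω r (MvPolynomial.map β (f.coeff n)) h1 d
    rw [hWa]
    exact ⟨w, by rw [hw, MvPolynomial.coeff_map]⟩
  have hlift : f ∈ Polynomial.lifts (MvPolynomial.map (σ := Fin r) Wa.subtype) := by
    rw [Polynomial.lifts_iff_coeff_lifts]
    intro n
    rw [MvPolynomial.mem_range_map_iff_coeffs_subset]
    intro a ha
    rw [Finset.mem_coe, MvPolynomial.mem_coeffs_iff] at ha
    obtain ⟨d, -, rfl⟩ := ha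
    exact ⟨⟨_, key n d⟩, rfl⟩
  obtain ⟨q, hq, -, hqm⟩ := Polynomial.lifts_and_natDegree_eq_and_monic hlift hf
  refine ⟨q, hqm, ?_⟩
  rw [BDI_.zmap_eq, ← Polynomial.eval₂_map, hq]
  exact hfb

end Pool.Agent.FRM
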