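import Pool.Agent.FRM.Stmts

/-!
# CLO: a closed algebraically closed subfield of `ℂ_[p]` is everything
-/

set_option autoImplicit false

noncomputable section

namespace Pool.Agent.FRM

open scoped Classical
open Pool.Agent.LibDb3ab1 Pool.Agent.DC

theorem clo_proof : Stmt_Clo := by
  intro p _ C₁ _ _ κ hκ
  have hcl : ∀ x : ℂ_[p], (∀ ε > 0, ∃ c, ‖x - κ c‖ < ε) → ∃ c, κ c = x := by
    intro x hx
    apply hκ
    intro n
    obtain ⟨c, hc⟩ := hx (‖(p : ℂ_[p])‖ ^ n) (pow_pos (norm_p_pos p) n)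
    exact ⟨c, hc.le⟩
  have hQ : ∀ a : ℚ_[p], ∃ c, κ c = algebraMap ℚ_[p] ℂ_[p] a := by
    intro a
    apply hcl
    intro ε hε
    obtain ⟨r, hr⟩ := Padic.rat_dense p a hε
    refine ⟨(r : C₁), ?_⟩
    rw [map_ratCast, ← map_ratCast (algebraMap ℚ_[p] ℂ_[p]) r, ← map_sub, norm_algebraMap']
    exact hr
  choose g hg using hQ
  let θ : ℚ_[p] →+* C₁ :=
    { toFun := g
      map_one' := κ.injective (by rw [hg, map_one, map_one])
      map_mul' := fun a b => κ.injective (by rw [hg, map_mul, map_mul, hg, hg])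
      map_zero' := κ.injective (by rw [hg, map_zero, map_zero])
      map_add' := fun a b => κ.injective (by rw [hg, map_add, map_add, hg, hg]) }
  have hθ : κ.comp θ = algebraMap ℚ_[p] ℂ_[p] := RingHom.ext hg
  have hA : ∀ x : PadicAlgCl p, ∃ c, κ c = (x : ℂ_[p]) := by
    intro x
    have hx : IsIntegral ℚ_[p] x := Algebra.IsIntegral.isIntegral x
    set f := minpoly ℚ_[p] x with hf
    have hf0 : f ≠ 0 := minpoly.ne_zero hx
    have h1 : ((f.map θ).map κ).eval (x : ℂ_[p]) = 0 := by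
      rw [Polynomial.map_map, hθ, Polynomial.eval_map_algebraMap, PadicComplex.coe_eq,
        Polynomial.aeval_algebraMap_apply, hf, minpoly.aeval, map_zero]
    have h2 : (x : ℂ_[p]) ∈ ((f.map θ).map κ).roots := by
      rw [Polynomial.mem_roots', Polynomial.IsRoot.def]
      exact ⟨by rw [Polynomial.map_map]; exact (Polynomial.map_ne_zero_iff (κ.comp θ).injective).2 hf0, h1⟩
    rw [Polynomial.Splits.roots_map (IsAlgClosed.splits _)] at h2
    obtain ⟨c, _, hc⟩ := Multiset.mem_map.1 h2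
    exact ⟨c, hc⟩
  intro x
  apply hcl
  intro ε hε
  obtain ⟨y, hy⟩ := (UniformSpace.Completion.denseRange_coe (α := PadicAlgCl p)).exists_dist_lt x hε
  obtain ⟨c, hc⟩ := hA y
  refine ⟨c, ?_⟩
  rw [hc, ← dist_eq_norm]
  exact hy

end Pool.Agent.FRM
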