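import Pool.Agent.FRM.StmtsB

/-!
# CMA: extension of the constants to the algebraic closure of `F_p`
-/

set_option autoImplicit false

noncomputable section

namespace Pool.Agent.FRM

open scoped Classical

namespace CMA_

/-- extension of valuation rings along a field extension -/
theorem ext_val {L Ω : Type} [Field L] [Field Ω] (f : L →+* Ω) (V : ValuationSubring L) :
    ∃ W : ValuationSubring Ω, W.comap f = V := by
  obtain ⟨W, hW, hloc⟩ := IsLocalRing.exists_factor_valuationRing (f.comp V.subtype : V →+* Ω)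
  refine ⟨W, SetLike.ext fun x => ?_⟩
  rw [ValuationSubring.mem_comap]
  constructor
  · intro hx
    by_contra hxV
    have hx0 : x ≠ 0 := by
      rintro rfl
      exact hxV (zero_mem V)
    have h1 : x⁻¹ ∈ V := (V.mem_or_inv_mem x).resolve_left hxV
    have h2 : IsUnit ((f.comp V.subtype).codRestrict W.toSubring hW ⟨x⁻¹, h1⟩) := by
      refine IsUnit.of_mul_eq_one ⟨f x, hx⟩ ?_
      apply Subtype.ext
      show f (x⁻¹) * f x = 1
      rw [← map_mul, inv_mul_cancel₀ hx0, map_one]
    have h3 : IsUnit (⟨x⁻¹, h1⟩ : V) := hloc.map_nonunit _ h2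
    obtain ⟨y, hy⟩ := h3.exists_right_inv
    have h4 : x⁻¹ * (y : L) = 1 := congrArg Subtype.val hy
    have h5 : (y : L) = x := by
      rw [inv_mul_eq_iff_eq_mul₀ hx0, mul_one] at h4
      exact h4
    exact hxV (h5 ▸ y.2)
  · intro hx
    exact hW ⟨x, hx⟩

/-- algebraic elements over an algebraically closed field -/
theorem alg_mem {F Ω : Type} [Field F] [IsAlgClosed F] [Field Ω] (i : F →+* Ω)
    (Q : Polynomial F) (hQ : Q ≠ 0) (x : Ω) (hx : Q.eval₂ i x = 0) : ∃ a, i a = x := by
  let := i.toAlgebra
  have h1 : IsAlgebraic F x := ⟨Q, hQ, hx⟩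
  have h2 : IsIntegral F x := h1.isIntegral
  have h3 := IsAlgClosed.degree_eq_one_of_irreducible F (minpoly.irreducible h2)
  obtain ⟨a, ha⟩ := minpoly.mem_range_of_degree_eq_one F x h3
  exact ⟨a, ha⟩

theorem exists_alg {k₀ k₁ : Type} [Field k₀] [Field k₁] [IsAlgClosed k₁] (σ : k₀ →+* k₁) :
    ∃ (ka : Type) (_ : Field ka) (_ : IsAlgClosed ka) (α : k₀ →+* ka) (β : ka →+* k₁),
      β.comp α = σ ∧ α.IsIntegral := by
  let := σ.toAlgebra
  have h1 : IsAlgClosure k₀ (algebraicClosure k₀ k₁) := inferInstance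
  refine ⟨algebraicClosure k₀ k₁, inferInstance, h1.isAlgClosed, algebraMap _ _,
    algebraMap (algebraicClosure k₀ k₁) k₁, ?_, ?_⟩
  · exact (IsScalarTower.algebraMap_eq k₀ (algebraicClosure k₀ k₁) k₁).symm
  · exact algebraMap_isIntegral_iff.mpr (Algebra.IsAlgebraic.isIntegral (K := k₀))

/-- polynomials over `F[X]` from polynomials over `F(X)` -/
theorem clear {F A : Type} [Field F] [Field A] (g : RatFunc F →+* A) (x : A)
    (Q : Polynomial (RatFunc F)) (hQ : Q ≠ 0) (hx : Q.eval₂ g x = 0) :
    ∃ P : Polynomial (Polynomial F), P ≠ 0 ∧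
      P.eval₂ (g.comp (algebraMap (Polynomial F) (RatFunc F))) x = 0 := by
  refine ⟨IsLocalization.integerNormalization (nonZeroDivisors (Polynomial F)) Q, ?_, ?_⟩
  · intro h
    exact hQ (IsFractionRing.integerNormalization_eq_zero_iff.1 h)
  · exact IsLocalization.integerNormalization_eval₂_eq_zero _ g Q hx

theorem main (hDVG : Stmt_Dvg) {F Ω : Type} [Field F] [IsAlgClosed F] [Field Ω] (i : F →+* Ω)
    (W : ValuationSubring Ω) (hi : ∀ a, i a ∈ W) (t : Ω) (ht : t ∈ W) (ht' : t⁻¹ ∉ W)
    (S : Set Ω) (hS : S.Finite)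
    (halg : ∀ b ∈ S, ∃ P : Polynomial (Polynomial F), P ≠ 0 ∧
      P.eval₂ (Polynomial.eval₂RingHom i t) b = 0) :
    ∃ (L' : Type) (_ : Field L') (ι : L' →+* Ω) (c : F →+* (W.comap ι)),
      IsDiscreteValuationRing (W.comap ι) ∧
      Function.Bijective ((IsLocalRing.residue (W.comap ι)).comp c) ∧
      (∀ a, ι (c a) = i a) ∧ (∃ x, ι x = t) ∧ ∀ b ∈ S, ∃ x, ι x = b := by
  have ht0 : t ≠ 0 := by
    rintro rfl
    exact ht' (by rw [inv_zero]; exact zero_mem W)
  have hinj : Function.Injective (Polynomial.eval₂RingHom i t) := by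
    rw [injective_iff_map_eq_zero]
    intro Q hQ
    by_contra hQ0
    obtain ⟨a, ha⟩ := alg_mem i Q hQ0 t hQ
    exact ht' (by rw [← ha, ← map_inv₀]; exact hi _)
  set j : RatFunc F →+* Ω := IsFractionRing.lift hinj with hj
  have hj1 : ∀ f : Polynomial F, j (algebraMap (Polynomial F) (RatFunc F) f) =
      Polynomial.eval₂RingHom i t f := fun f => IsFractionRing.lift_algebraMap hinj f
  have hjC : ∀ a : F, j (RatFunc.C a) = i a := by
    intro a
    rw [← RatFunc.algebraMap_C, hj1]
    exact Polynomial.eval₂_C i t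
  have hjX : j RatFunc.X = t := by
    rw [← RatFunc.algebraMap_X, hj1]
    exact Polynomial.eval₂_X i t
  let : Algebra (RatFunc F) Ω := j.toAlgebra
  have hfin : Finite S := hS
  have hint : ∀ b ∈ S, IsIntegral (RatFunc F) b := by
    intro b hb
    obtain ⟨P, hP, hPb⟩ := halg b hb
    refine IsAlgebraic.isIntegral ⟨P.map (algebraMap (Polynomial F) (RatFunc F)), ?_, ?_⟩
    · rw [Ne, Polynomial.map_eq_zero_iff (RatFunc.algebraMap_injective F)]
      exact hP
    · rw [Polynomial.aeval_def, Polynomial.eval₂_map]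
      have h1 : (algebraMap (RatFunc F) Ω).comp (algebraMap (Polynomial F) (RatFunc F)) =
          Polynomial.eval₂RingHom i t := RingHom.ext hj1
      rw [h1]
      exact hPb
  have hfd : FiniteDimensional (RatFunc F) (IntermediateField.adjoin (RatFunc F) S) :=
    IntermediateField.finiteDimensional_adjoin hint
  set L' := IntermediateField.adjoin (RatFunc F) S with hL'
  set ι : L' →+* Ω := algebraMap L' Ω with hι
  have hιj : ∀ x : RatFunc F, ι (algebraMap (RatFunc F) L' x) = j x := fun x => rfl
  have hcm : ∀ a : F, algebraMap (RatFunc F) L' (RatFunc.C a) ∈ W.comap ι := by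
    intro a
    rw [ValuationSubring.mem_comap, hιj, hjC]
    exact hi a
  have htm : algebraMap (RatFunc F) L' RatFunc.X ∈ W.comap ι := by
    rw [ValuationSubring.mem_comap, hιj, hjX]
    exact ht
  have htm' : (algebraMap (RatFunc F) L' RatFunc.X)⁻¹ ∉ W.comap ι := by
    rw [ValuationSubring.mem_comap, map_inv₀, hιj, hjX]
    exact ht'
  have hdvr : IsDiscreteValuationRing (W.comap ι) := hDVG F L' (W.comap ι) hcm htm htm'
  let c : F →+* (W.comap ι) :=
    ((algebraMap (RatFunc F) L').comp RatFunc.C).codRestrict (W.comap ι).toSubring hcm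
  refine ⟨L', inferInstance, ι, c, hdvr, ⟨RingHom.injective _, ?_⟩, ?_, ?_, ?_⟩
  · intro r
    obtain ⟨x, rfl⟩ := IsLocalRing.residue_surjective r
    set tV : (W.comap ι) := ⟨algebraMap (RatFunc F) L' RatFunc.X, htm⟩ with htV
    have htV0 : tV ≠ 0 := by
      intro h
      have h1 : ι (tV : L') = 0 := by rw [h]; exact map_zero ι
      apply ht0
      rw [← hjX, ← hιj]
      exact h1
    have htVr : IsLocalRing.residue (W.comap ι) tV = 0 := by
      rw [IsLocalRing.residue_eq_zero_iff, IsLocalRing.mem_maximalIdeal, mem_nonunits_iff]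
      intro hu
      obtain ⟨y, hy⟩ := hu.exists_right_inv
      have h1 : (tV : L') * (y : L') = 1 := congrArg Subtype.val hy
      have h2 : (algebraMap (RatFunc F) L' RatFunc.X)⁻¹ = (y : L') :=
        inv_eq_of_mul_eq_one_right h1
      exact htm' (h2 ▸ y.2)
    obtain ⟨Q, hQ, hQx⟩ : IsAlgebraic (RatFunc F) (x : L') := Algebra.IsAlgebraic.isAlgebraic _
    obtain ⟨P, hP, hPx⟩ := clear (algebraMap (RatFunc F) L') (x : L') Q hQ hQx
    have he : (W.comap ι).subtype.comp (Polynomial.eval₂RingHom c tV) =
        (algebraMap (RatFunc F) L').comp (algebraMap (Polynomial F) (RatFunc F)) := by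
      refine Polynomial.ringHom_ext (fun a => ?_) ?_
      · rw [RingHom.comp_apply, RingHom.comp_apply, RatFunc.algebraMap_C,
          Polynomial.coe_eval₂RingHom, Polynomial.eval₂_C]
        rfl
      · rw [RingHom.comp_apply, RingHom.comp_apply, RatFunc.algebraMap_X,
          Polynomial.coe_eval₂RingHom, Polynomial.eval₂_X]
        rfl
    have hPx' : P.eval₂ (Polynomial.eval₂RingHom c tV) x = 0 := by
      have h1 : (W.comap ι).subtype (P.eval₂ (Polynomial.eval₂RingHom c tV) x) = 0 := by
        rw [Polynomial.hom_eval₂, he]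
        exact hPx
      exact Subtype.ext h1
    obtain ⟨n, P₁, hP₁, hPP⟩ := WfDvdMonoid.max_power_factor' (x := (Polynomial.C
      (Polynomial.X : Polynomial F) : Polynomial (Polynomial F))) hP (by
        rw [Polynomial.isUnit_C]
        exact Polynomial.not_isUnit_X)
    have hP₁x : P₁.eval₂ (Polynomial.eval₂RingHom c tV) x = 0 := by
      rw [hPP, Polynomial.eval₂_mul, Polynomial.eval₂_pow, Polynomial.eval₂_C,
        Polynomial.coe_eval₂RingHom, Polynomial.eval₂_X] at hPx'
      rcases mul_eq_zero.1 hPx' with h1 | h1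
      · exact absurd h1 (pow_ne_zero n htV0)
      · exact h1
    have hQ0 : P₁.map (Polynomial.evalRingHom (0 : F)) ≠ 0 := by
      intro h
      apply hP₁
      rw [Polynomial.C_dvd_iff_dvd_coeff]
      intro m
      rw [Polynomial.X_dvd_iff]
      have h1 := congrArg (fun q => Polynomial.coeff q m) h
      simp only [Polynomial.coeff_map, Polynomial.coeff_zero, Polynomial.coe_evalRingHom] at h1
      rw [Polynomial.coeff_zero_eq_eval_zero]
      exact h1
    have hr : (IsLocalRing.residue (W.comap ι)).comp (Polynomial.eval₂RingHom c tV) =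
        ((IsLocalRing.residue (W.comap ι)).comp c).comp (Polynomial.evalRingHom (0 : F)) := by
      refine Polynomial.ringHom_ext (fun a => ?_) ?_
      · simp only [RingHom.comp_apply, Polynomial.coe_eval₂RingHom, Polynomial.eval₂_C,
          Polynomial.coe_evalRingHom, Polynomial.eval_C]
      · simp only [RingHom.comp_apply, Polynomial.coe_eval₂RingHom, Polynomial.eval₂_X,
          Polynomial.coe_evalRingHom, Polynomial.eval_X, map_zero]
        exact htVr
    refine alg_mem _ _ hQ0 _ ?_
    rw [Polynomial.eval₂_map, ← hr, ← Polynomial.hom_eval₂, hP₁x, map_zero]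
  · intro a
    exact hjC a
  · exact ⟨algebraMap (RatFunc F) L' RatFunc.X, hjX⟩
  · intro b hb
    exact ⟨⟨b, IntermediateField.subset_adjoin _ _ hb⟩, rfl⟩

/-- factorisation of a ring homomorphism of fields -/
theorem factor {L L' Ω : Type} [Field L] [Field L'] [Field Ω] (f : L →+* Ω) (ι : L' →+* Ω)
    (h : ∀ x, ∃ y, ι y = f x) : ∃ μ : L →+* L', ∀ x, ι (μ x) = f x := by
  choose g hg using h
  refine ⟨{ toFun := g, map_one' := ?_, map_mul' := ?_, map_zero' := ?_, map_add' := ?_ }, hg⟩
  · apply ι.injective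
    rw [hg, map_one, map_one]
  · intro a b
    apply ι.injective
    rw [hg, map_mul, map_mul, hg, hg]
  · apply ι.injective
    rw [hg, map_zero, map_zero]
  · intro a b
    apply ι.injective
    rw [hg, map_add, map_add, hg, hg]

end CMA_

open CMA_

theorem cma_proof (hDVG : Stmt_Dvg) : Stmt_Cma := by
  intro p _ L _ _ _ V hX hX'
  obtain ⟨W, hW⟩ := ext_val (algebraMap L (AlgebraicClosure L)) V
  set f : L →+* AlgebraicClosure L := algebraMap L (AlgebraicClosure L) with hf
  set g : RatFunc (ZMod p) →+* L := algebraMap (RatFunc (ZMod p)) L with hg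
  obtain ⟨F, _, _, α, β, hαβ, hint⟩ := exists_alg (f.comp (g.comp RatFunc.C))
  have hβ : ∀ a, β a ∈ W := by
    intro x
    obtain ⟨q, hq, hqx⟩ := hint x
    have h1 : IsIntegral W (β x) := by
      have : CharP L p := charP_of_injective_ringHom (g.comp RatFunc.C).injective p
      have : CharP (AlgebraicClosure L) p := charP_of_injective_ringHom f.injective p
      have : CharP W p := RingHom.charP W.subtype Subtype.val_injective p
      refine ⟨q.map (ZMod.castHom (dvd_refl p) W), hq.map _, ?_⟩
      rw [Polynomial.eval₂_map, RingHom.ext_zmod ((algebraMap W (AlgebraicClosure L)).comp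
        (ZMod.castHom (dvd_refl p) W)) (β.comp α), ← Polynomial.hom_eval₂, hqx, map_zero]
    obtain ⟨y, hy⟩ := IsIntegrallyClosed.isIntegral_iff.1 h1
    rw [← hy]
    exact y.2
  have hmem : ∀ x, f x ∈ W ↔ x ∈ V := by
    intro x
    rw [← ValuationSubring.mem_comap, hW]
  let b := Module.finBasis (RatFunc (ZMod p)) L
  obtain ⟨L', _, ι, c, hdvr, hbij, hc, ⟨x₀, hx₀⟩, hSx⟩ := main hDVG β W hβ (f (g RatFunc.X))
    ((hmem _).2 hX) (by
      rw [← map_inv₀, hmem]
      exact hX') (Set.range fun k => f (b k)) (Set.finite_range _) (by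
      rintro _ ⟨k, rfl⟩
      obtain ⟨Q, hQ, hQx⟩ : IsAlgebraic (RatFunc (ZMod p)) (b k) :=
        Algebra.IsAlgebraic.isAlgebraic _
      obtain ⟨P, hP, hPx⟩ := clear g (b k) Q hQ hQx
      refine ⟨P.map (Polynomial.mapRingHom α), ?_, ?_⟩
      · rw [Ne, Polynomial.map_eq_zero_iff (Polynomial.map_injective α α.injective)]
        exact hP
      · rw [Polynomial.eval₂_map]
        have h1 : (Polynomial.eval₂RingHom β (f (g RatFunc.X))).comp (Polynomial.mapRingHom α) =
            f.comp (g.comp (algebraMap (Polynomial (ZMod p)) (RatFunc (ZMod p)))) := by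
          refine Polynomial.ringHom_ext (fun a => ?_) ?_
          · rw [RingHom.comp_apply, Polynomial.coe_mapRingHom, Polynomial.map_C,
              Polynomial.coe_eval₂RingHom, Polynomial.eval₂_C, RingHom.comp_apply,
              RingHom.comp_apply, RatFunc.algebraMap_C]
            exact congrArg (fun h : ZMod p →+* AlgebraicClosure L => h a) hαβ
          · rw [RingHom.comp_apply, Polynomial.coe_mapRingHom, Polynomial.map_X,
              Polynomial.coe_eval₂RingHom, Polynomial.eval₂_X, RingHom.comp_apply,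
              RingHom.comp_apply, RatFunc.algebraMap_X]
        rw [h1, ← Polynomial.hom_eval₂, hPx, map_zero])
  -- the image of `L` is contained in the image of `L'`
  have hrange : ∀ x : L, ∃ y, ι y = f x := by
    have hC : ∀ a : ZMod p, f (g (RatFunc.C a)) ∈ ι.fieldRange := by
      intro a
      refine ⟨c (α a), ?_⟩
      rw [hc]
      exact congrArg (fun h : ZMod p →+* AlgebraicClosure L => h a) hαβ
    have hP : ∀ q : Polynomial (ZMod p),
        f (g (algebraMap (Polynomial (ZMod p)) (RatFunc (ZMod p)) q)) ∈ ι.fieldRange := by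
      intro q
      induction q using Polynomial.induction_on' with
      | add q r hq hr =>
        rw [map_add, map_add, map_add]
        exact add_mem hq hr
      | monomial n a =>
        rw [← Polynomial.C_mul_X_pow_eq_monomial, map_mul, map_mul, map_mul, map_pow, map_pow,
          map_pow, RatFunc.algebraMap_C, RatFunc.algebraMap_X]
        exact mul_mem (hC a) (pow_mem (show f (g RatFunc.X) ∈ ι.fieldRange from ⟨x₀, hx₀⟩) n)
    have hR : ∀ q : RatFunc (ZMod p), f (g q) ∈ ι.fieldRange := by
      intro q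
      rw [← RatFunc.num_div_denom q, map_div₀, map_div₀]
      exact div_mem (hP _) (hP _)
    intro x
    change f x ∈ ι.fieldRange
    rw [← b.sum_repr x, map_sum]
    refine sum_mem fun k _ => ?_
    rw [Algebra.smul_def, map_mul]
    exact mul_mem (hR _) (hSx _ ⟨k, rfl⟩)
  obtain ⟨μ, hμ⟩ := factor f ι hrange
  let : Algebra (ZMod p) F := α.toAlgebra
  have hF : Algebra.IsIntegral (ZMod p) F := algebraMap_isIntegral_iff.1 hint
  refine ⟨L', inferInstance, W.comap ι, μ, F, inferInstance, inferInstance, inferInstance, c,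
    SetLike.ext fun x => ?_, hdvr, inferInstance, hbij⟩
  rw [ValuationSubring.mem_comap, ValuationSubring.mem_comap, hμ, hmem]

end Pool.Agent.FRM
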