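import Pool.Agent.FRM.StmtsB

set_option autoImplicit false
set_option linter.style.haveILetI false

namespace Pool.Agent.FRM

open IsLocalRing

namespace CMB_

section Compl

variable {R : Type} [CommRing R] [IsDomain R] [IsDiscreteValuationRing R]

theorem inj : Function.Injective (algebraMap R (AdicCompletion (maximalIdeal R) R)) := by
  intro x y h
  exact AdicCompletion.of_injective (maximalIdeal R) R h

theorem fact (π : R) (hπ : Irreducible π) (x : AdicCompletion (maximalIdeal R) R) (hx : x ≠ 0) :
    ∃ n : ℕ, Associated ((algebraMap R (AdicCompletion (maximalIdeal R) R) π) ^ n) x := by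
  classical
  set ϖ := algebraMap R (AdicCompletion (maximalIdeal R) R) π with hϖ
  have hm : maximalIdeal (AdicCompletion (maximalIdeal R) R) = Ideal.span {ϖ} := by
    have h1 : ∀ J : Ideal R, J = Ideal.span {π} →
        Ideal.map (algebraMap R (AdicCompletion (maximalIdeal R) R)) J = Ideal.span {ϖ} := by
      rintro J rfl
      rw [Ideal.map_span, Set.image_singleton]
    rw [AdicCompletion.maximalIdeal_eq_map]
    exact h1 _ hπ.maximalIdeal_eq
  have hex : ∃ n : ℕ, x ∉ Ideal.span {ϖ ^ n} := by
    by_contra hcon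
    push Not at hcon
    apply hx
    refine IsHausdorff.haus' (I := maximalIdeal (AdicCompletion (maximalIdeal R) R)) x ?_
    intro n
    rw [smul_eq_mul, Ideal.mul_top, SModEq.zero, hm, Ideal.span_singleton_pow]
    exact hcon n
  have h0 : Nat.find hex ≠ 0 := by
    intro h
    have h1 := Nat.find_spec hex
    rw [h] at h1
    apply h1
    rw [pow_zero, Ideal.span_singleton_one]
    trivial
  obtain ⟨k, hk⟩ := Nat.exists_eq_succ_of_ne_zero h0
  have h1 : x ∈ Ideal.span {ϖ ^ k} := by
    by_contra hcon
    have h2 := Nat.find_min' hex hcon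
    omega
  have h2 : x ∉ Ideal.span {ϖ ^ (k + 1)} := by
    have h3 := Nat.find_spec hex
    rw [hk] at h3
    exact h3
  rw [Ideal.mem_span_singleton] at h1 h2
  obtain ⟨y, hy⟩ := h1
  have hyu : IsUnit y := by
    by_contra hcon
    have h3 : y ∈ maximalIdeal (AdicCompletion (maximalIdeal R) R) := by
      rw [mem_maximalIdeal]
      exact hcon
    rw [hm, Ideal.mem_span_singleton] at h3
    obtain ⟨z, hz⟩ := h3
    apply h2
    refine ⟨z, ?_⟩
    rw [hy, hz, pow_succ, mul_assoc]
  obtain ⟨u, hu⟩ := hyu
  exact ⟨k, u, by rw [hu, hy]⟩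

theorem noZero : NoZeroDivisors (AdicCompletion (maximalIdeal R) R) := by
  obtain ⟨π, hπ⟩ := IsDiscreteValuationRing.exists_irreducible R
  constructor
  intro a b hab
  by_contra hcon
  push Not at hcon
  obtain ⟨n, u, hu⟩ := fact π hπ a hcon.1
  obtain ⟨m, v, hv⟩ := fact π hπ b hcon.2
  rw [← hu, ← hv] at hab
  have h1 : algebraMap R (AdicCompletion (maximalIdeal R) R) (π ^ (n + m)) = 0 := by
    rw [map_pow, pow_add]
    have h2 : algebraMap R (AdicCompletion (maximalIdeal R) R) π ^ n *
        algebraMap R (AdicCompletion (maximalIdeal R) R) π ^ m * ((u * v : (AdicCompletion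
          (maximalIdeal R) R)ˣ) : AdicCompletion (maximalIdeal R) R) = 0 := by
      rw [← hab, Units.val_mul]
      ring
    exact (Units.mul_left_eq_zero _).1 h2
  rw [← map_zero (algebraMap R (AdicCompletion (maximalIdeal R) R))] at h1
  exact hπ.ne_zero (eq_zero_of_pow_eq_zero (inj h1))

theorem isDom : IsDomain (AdicCompletion (maximalIdeal R) R) := by
  haveI := noZero (R := R)
  exact NoZeroDivisors.to_isDomain _

theorem isDvr : @IsDiscreteValuationRing (AdicCompletion (maximalIdeal R) R) _ isDom := by
  haveI := isDom (R := R)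
  obtain ⟨π, hπ⟩ := IsDiscreteValuationRing.exists_irreducible R
  apply IsDiscreteValuationRing.ofHasUnitMulPowIrreducibleFactorization
  refine ⟨algebraMap R (AdicCompletion (maximalIdeal R) R) π, ?_, fun hx => fact π hπ _ hx⟩
  have hnu : ¬IsUnit (algebraMap R (AdicCompletion (maximalIdeal R) R) π) := fun h =>
    hπ.not_isUnit (isUnit_of_map_unit _ _ h)
  have hne : algebraMap R (AdicCompletion (maximalIdeal R) R) π ≠ 0 := by
    rw [Ne, ← map_zero (algebraMap R (AdicCompletion (maximalIdeal R) R)), inj.eq_iff]
    exact hπ.ne_zero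
  refine ⟨hnu, fun a b hab => ?_⟩
  have ha : a ≠ 0 := by
    rintro rfl
    rw [zero_mul] at hab
    exact hne hab
  have hb : b ≠ 0 := by
    rintro rfl
    rw [mul_zero] at hab
    exact hne hab
  obtain ⟨n, u, hu⟩ := fact π hπ a ha
  obtain ⟨m, v, hv⟩ := fact π hπ b hb
  rcases Nat.eq_zero_or_pos n with hn | hn
  · left
    rw [← hu, hn, pow_zero, one_mul]
    exact u.isUnit
  rcases Nat.eq_zero_or_pos m with hm | hm
  · right
    rw [← hv, hm, pow_zero, one_mul]
    exact v.isUnit
  exfalso
  obtain ⟨n', rfl⟩ := Nat.exists_eq_succ_of_ne_zero hn.ne'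
  obtain ⟨m', rfl⟩ := Nat.exists_eq_succ_of_ne_zero hm.ne'
  apply hnu
  rw [← hu, ← hv] at hab
  refine IsUnit.of_mul_eq_one (algebraMap R (AdicCompletion (maximalIdeal R) R) π ^ (n' + m') *
    u * v) (mul_left_cancel₀ hne ?_)
  rw [mul_one]
  conv_rhs => rw [hab]
  rw [Nat.succ_eq_add_one, Nat.succ_eq_add_one]
  ring

end Compl

theorem main {L : Type} [Field L] (V : ValuationSubring L) [IsDiscreteValuationRing V]
    (A : Type) [CommRing A] [IsDomain A] [IsDiscreteValuationRing A]
    [IsAdicComplete (maximalIdeal A) A] (f : V →+* A) [IsLocalHom f]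
    (hf : Function.Injective f) (hres : Function.Bijective (ResidueField.map f))
    {F : Type} [Field F] (c : F →+* V) (hc : Function.Bijective ((residue V).comp c)) :
    ∃ (K : Type) (_ : Field K) (V' : ValuationSubring K) (μ : L →+* K) (c' : F →+* V'),
      V'.comap μ = V ∧ IsDiscreteValuationRing V' ∧
      IsAdicComplete (IsLocalRing.maximalIdeal V') V' ∧
      Function.Bijective ((IsLocalRing.residue V').comp c') ∧
      ∀ x : F, ((c' x : V') : K) = μ (c x : V) := by
  let K := FractionRing A
  have hA : Function.Injective (algebraMap A K) := IsFractionRing.injective A K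
  let V' : ValuationSubring K :=
    { (algebraMap A K).range with
      mem_or_inv_mem' := fun x => by
        rcases ValuationRing.isInteger_or_isInteger A x with ⟨a, ha⟩ | ⟨a, ha⟩
        · exact Or.inl ⟨a, ha⟩
        · exact Or.inr ⟨a, ha⟩ }
  have hV' : ∀ x : K, x ∈ V' ↔ ∃ a : A, algebraMap A K a = x := fun x => Iff.rfl
  let g : A →+* V' :=
    { toFun := fun a => ⟨algebraMap A K a, a, rfl⟩
      map_one' := Subtype.ext (map_one _)
      map_mul' := fun a b => Subtype.ext (map_mul _ _ _)
      map_zero' := Subtype.ext (map_zero _)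
      map_add' := fun a b => Subtype.ext (map_add _ _ _) }
  have hg : Function.Bijective g := by
    constructor
    · intro a b hab
      exact hA (congrArg Subtype.val hab)
    · rintro ⟨x, a, ha⟩
      exact ⟨a, Subtype.ext ha⟩
  let e : A ≃+* V' := RingEquiv.ofBijective g hg
  have hdvr : IsDiscreteValuationRing V' :=
    IsDiscreteValuationRing.RingEquivClass.isDiscreteValuationRing e
  have hinj : Function.Injective ((algebraMap A K).comp f) := hA.comp hf
  let μ : L →+* K := IsFractionRing.lift (A := V) hinj
  have hμ : ∀ v : V, μ (v : L) = algebraMap A K (f v) := fun v =>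
    IsFractionRing.lift_algebraMap hinj v
  refine ⟨K, inferInstance, V', μ, (e : A →+* V').comp (f.comp c), ?_, hdvr, ?_, ?_, ?_⟩
  · ext x
    rw [ValuationSubring.mem_comap]
    constructor
    · rintro ⟨a, ha⟩
      rcases V.mem_or_inv_mem x with h | h
      · exact h
      · by_contra hcon
        have hx0 : x ≠ 0 := by
          rintro rfl
          exact hcon V.zero_mem
        have h1 : ¬IsUnit (⟨x⁻¹, h⟩ : V) := by
          rintro ⟨w, hw⟩
          apply hcon
          have h3 : x⁻¹ * (((w⁻¹ : Vˣ) : V) : L) = 1 := by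
            have h4 : ((⟨x⁻¹, h⟩ : V) * ((w⁻¹ : Vˣ) : V) : V) = 1 := by
              rw [← hw]
              exact Units.mul_inv w
            exact congrArg (fun y : V => (y : L)) h4
          have h5 : (((w⁻¹ : Vˣ) : V) : L) = x := by
            have h6 := congrArg (fun y => x * y) h3
            simp only [mul_one] at h6
            rw [← mul_assoc, mul_inv_cancel₀ hx0, one_mul] at h6
            exact h6
          rw [← h5]
          exact ((w⁻¹ : Vˣ) : V).2
        apply h1
        apply isUnit_of_map_unit f
        refine IsUnit.of_mul_eq_one a (hA ?_)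
        rw [map_mul, ← hμ ⟨x⁻¹, h⟩]
        change μ x⁻¹ * algebraMap A K a = _
        rw [ha, ← map_mul, inv_mul_cancel₀ hx0, map_one, map_one]
    · intro hx
      exact ⟨f ⟨x, hx⟩, (hμ ⟨x, hx⟩).symm⟩
  · have h1 := (IsAdicComplete.congr_ringEquiv (maximalIdeal A) e).2 inferInstance
    rw [IsLocalRing.map_ringEquiv_maximalIdeal] at h1
    exact h1
  · have h1 : ⇑((residue V').comp ((e : A →+* V').comp (f.comp c))) =
        (ResidueField.mapEquiv e) ∘ (ResidueField.map f) ∘ ((residue V).comp c) := by
      funext x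
      rfl
    rw [h1]
    exact (ResidueField.mapEquiv e).bijective.comp (hres.comp hc)
  · intro x
    exact (hμ (c x)).symm

end CMB_

theorem cmb_proof : Stmt_Cmb := by
  intro L _ V hV F _ c hc
  haveI := CMB_.isDom (R := V)
  haveI := CMB_.isDvr (R := V)
  exact CMB_.main V (AdicCompletion (maximalIdeal V) V)
    (algebraMap V (AdicCompletion (maximalIdeal V) V)) CMB_.inj
    (AdicCompletion.residueField_map_bijective V) c hc

end Pool.Agent.FRM
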