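import Pool.Agent.FRM.Stmts
import Pool.Agent.DC.CLA
import Pool.Agent.DC.CLB
import Pool.Agent.DC.CLC
import Pool.Agent.DC.CLR
import Pool.Agent.DC.SCX
import Pool.Agent.DC.INTG

/-!
# Module DEN: elements which are algebraic over `F_p(ϖ)` are dense in the tilt of `𝓞_ℂ_[p]`
-/

set_option autoImplicit false

noncomputable section

namespace Pool.Agent.FRM

open scoped Classical
open Pool.Agent.LibDb3ab1 Pool.Agent.DC

namespace DEN_

/-- Elements of `F_p[t]` at a nonzero nonunit of a local domain. -/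
theorem evt_inj {p : ℕ} [Fact p.Prime] {A : Type} [CommRing A] [IsDomain A] [IsLocalRing A]
    [CharP A p] {a : A} (ha0 : a ≠ 0) (hau : ¬IsUnit a) : Function.Injective (evt p a) := by
  rw [injective_iff_map_eq_zero]
  intro q hq
  by_contra hq0
  obtain ⟨n, r, hr, hqr⟩ : ∃ (n : ℕ) (r : Polynomial (ZMod p)), r.coeff 0 ≠ 0 ∧
      q = Polynomial.X ^ n * r := by
    obtain ⟨r, hr⟩ := Polynomial.exists_eq_pow_rootMultiplicity_mul_and_not_dvd q hq0 0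
    refine ⟨q.rootMultiplicity 0, r, ?_, ?_⟩
    · intro h0
      apply hr.2
      rw [Polynomial.C_0, sub_zero, Polynomial.X_dvd_iff]
      exact h0
    · have h1 := hr.1
      rw [Polynomial.C_0, sub_zero] at h1
      exact h1
  have h1 : evt p a q = a ^ n * evt p a r := by
    rw [hqr, map_mul, map_pow]
    congr 1
    congr 1
    exact Polynomial.eval₂_X _ _
  rw [hq] at h1
  have h2 : evt p a r = 0 := (mul_eq_zero.1 h1.symm).resolve_left (pow_ne_zero n ha0)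
  obtain ⟨s, hs⟩ : Polynomial.X ∣ r - Polynomial.C (r.coeff 0) := by
    rw [Polynomial.X_dvd_iff]; simp
  have h3 : r = Polynomial.C (r.coeff 0) + Polynomial.X * s := by rw [← hs]; ring
  have h4 : evt p a r = ZMod.castHom (dvd_refl p) A (r.coeff 0) + a * evt p a s := by
    conv_lhs => rw [h3]
    rw [map_add, map_mul]
    have e1 : evt p a (Polynomial.C (r.coeff 0)) = ZMod.castHom (dvd_refl p) A (r.coeff 0) :=
      Polynomial.eval₂_C _ _
    have e2 : evt p a Polynomial.X = a := Polynomial.eval₂_X _ _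
    rw [e1, e2]
  rw [h2] at h4
  have h5 : IsUnit (ZMod.castHom (dvd_refl p) A (r.coeff 0)) := (isUnit_iff_ne_zero.2 hr).map _
  have h6 : ZMod.castHom (dvd_refl p) A (r.coeff 0) ∈ IsLocalRing.maximalIdeal A := by
    have h7 : ZMod.castHom (dvd_refl p) A (r.coeff 0) = -(a * evt p a s) := by
      linear_combination -h4
    rw [h7]
    apply neg_mem
    exact Ideal.mul_mem_right _ _ ((IsLocalRing.mem_maximalIdeal _).2 hau)
  exact (IsLocalRing.mem_maximalIdeal _).1 h6 h5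

theorem evt_comp {p : ℕ} [Fact p.Prime] {A B : Type} [CommRing A] [CommRing B] [CharP A p]
    [CharP B p] (f : A →+* B) (a : A) : f.comp (evt p a) = evt p (f a) := by
  apply Polynomial.ringHom_ext
  · intro c
    have e1 : evt p a (Polynomial.C c) = ZMod.castHom (dvd_refl p) A c := Polynomial.eval₂_C _ _
    have e2 : evt p (f a) (Polynomial.C c) = ZMod.castHom (dvd_refl p) B c :=
      Polynomial.eval₂_C _ _
    rw [RingHom.comp_apply, e1, e2]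
    exact RingHom.congr_fun (RingHom.ext_zmod (f.comp (ZMod.castHom (dvd_refl p) A))
      (ZMod.castHom (dvd_refl p) B)) c
  · have e1 : evt p a Polynomial.X = a := Polynomial.eval₂_X _ _
    have e2 : evt p (f a) Polynomial.X = f a := Polynomial.eval₂_X _ _
    rw [RingHom.comp_apply, e1, e2]

/-- elements algebraic over `F_p[a]` are algebraic over the ring -/
theorem AlgT.over {p : ℕ} [Fact p.Prime] {A B : Type} [CommRing A] [IsDomain A] [IsLocalRing A]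
    [CommRing B] [CharP A p] [CharP B p] (f : A →+* B) {a : A} (ha0 : a ≠ 0) (hau : ¬IsUnit a)
    {x : B} (hx : AlgT p (f a) x) : ∃ g : Polynomial A, g ≠ 0 ∧ g.eval₂ f x = 0 := by
  obtain ⟨F, hF, hFx⟩ := hx
  refine ⟨F.map (evt p a), ?_, ?_⟩
  · rw [Ne, Polynomial.map_eq_zero_iff (evt_inj ha0 hau)]
    exact hF
  · rw [Polynomial.eval₂_map, evt_comp]
    exact hFx

theorem AlgT.map {p : ℕ} [Fact p.Prime] {A B : Type} [CommRing A] [CommRing B] [CharP A p]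
    [CharP B p] (f : A →+* B) {a x : A} (hx : AlgT p a x) : AlgT p (f a) (f x) := by
  obtain ⟨F, hF, hFx⟩ := hx
  refine ⟨F, hF, ?_⟩
  rw [← evt_comp, ← Polynomial.hom_eval₂, hFx, map_zero]

end DEN_

theorem den_proof (hKZ : Stmt_KZ) (hCLO : Stmt_Clo) : Stmt_Den := by
  intro p _
  obtain ⟨K, _, O, _, _, ι, hV, b, hu, hdens⟩ := hKZ p
  set ϖ : PreTilt 𝓞_ℂ_[p] p := b.ϖV hV with hϖdef
  have hPU : PU ϖ := ((pux_proof O p b).2 ℂ_[p] ι 𝓞_ℂ_[p] hV).2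
  have hscx := scx_proof O p b
  have hp0V : (p : 𝓞_ℂ_[p]) ≠ 0 := hV.p_ne_zero b.hp0
  have hunt : PreTilt.untilt ϖ = (p : 𝓞_ℂ_[p]) := by
    have h1 := b.hϖ
    rw [hu, one_mul] at h1
    rw [hϖdef, TB.ϖV, untilt_tmap, ← h1, map_natCast]
  have hϖV : (p : 𝓞_ℂ_[p]) = 1 * PreTilt.untilt ϖ := by rw [one_mul, hunt]
  have hb0 : b.ϖ ≠ 0 := by
    intro h0
    have h1 := b.hϖ
    rw [h0, untilt_zero, mul_zero] at h1
    have h2 : (p : K) = 0 := by
      have h3 := congrArg (fun x : O => (x : K)) h1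
      simpa using h3
    exact b.hp0 h2
  have hbu : ¬IsUnit b.ϖ := by
    intro h0
    apply (Fact.out : ¬IsUnit (p : O))
    rw [b.hϖ]
    exact b.hu.mul (isUnit_untilt.2 h0)
  have hroot := exists_root_tilt (exists_root_valuationSubring 𝓞_ℂ_[p]) isUnit_one hp0V hϖV
  let alg1 : Algebra (Polynomial (ZMod p)) (PreTilt 𝓞_ℂ_[p] p) := (evt p ϖ).toAlgebra
  let L : Subring (PreTilt 𝓞_ℂ_[p] p) := CLAX.Lim (Polynomial (ZMod p)) ϖ
  have halgT : ∀ a : PreTilt 𝓞_ℂ_[p] p, IsAlgebraic (Polynomial (ZMod p)) a → AlgT p ϖ a :=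
    fun a ha => ha
  have halgT' : ∀ a : PreTilt 𝓞_ℂ_[p] p, AlgT p ϖ a → IsAlgebraic (Polynomial (ZMod p)) a :=
    fun a ha => ha
  have hover : ∀ a : PreTilt 𝓞_ℂ_[p] p, AlgT p ϖ a →
      ∃ f : Polynomial (PreTilt O p), f ≠ 0 ∧ f.eval₂ (tmap hV.incl) a = 0 :=
    fun a ha => DEN_.AlgT.over (tmap hV.incl) hb0 hbu ha
  have hL : LSub b hV L := by
    refine ⟨?_, ?_, ?_, ?_, ?_, ?_⟩
    · intro x N
      obtain ⟨a, ha, hxa⟩ := hdens x N
      refine ⟨tmap hV.incl a, halgT' _ (DEN_.AlgT.map (tmap hV.incl) ha), ?_⟩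
      rw [← map_sub, hϖdef, TB.ϖV, ← map_pow]
      exact map_dvd _ hxa
    · intro y hy
      exact CLAX.Lim_closed hy
    · intro f hf hd hc
      obtain ⟨y, hy⟩ := hroot f hf hd.ne'
      exact ⟨y, CLAX.Lim_root hPU.ne_zero hroot f hf hd hc hy, hy⟩
    · intro x y hx hx0 hxy
      exact CLAX.Lim_div hPU hx hx0 hxy
    · intro y hy N
      obtain ⟨a, ha, ha2⟩ := hy N
      exact ⟨a, CLAX.alg_mem_Lim ha, hover a (halgT a ha), ha2⟩
    · intro x hx hxu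
      let alg2 : Algebra (PreTilt O p) (PreTilt 𝓞_ℂ_[p] p) := (tmap hV.incl).toAlgebra
      refine CLAX.Lim_rank (R := PreTilt O p) (T := PreTilt 𝓞_ℂ_[p] p) (ϖ := b.ϖ)
        (fun x y h => ((hscx.2.2.2 ℂ_[p] ι 𝓞_ℂ_[p] hV).2.2 x y).mp h) hscx.2.2.1
        (tmap_injective hV) hPU.not_unit ?_ hxu
      intro N
      obtain ⟨a, ha, ha2⟩ := hx N
      exact ⟨a, hover a (halgT a ha), ha2⟩
  obtain ⟨A, hA⟩ := clb_proof O p b ℂ_[p] ι 𝓞_ℂ_[p] hV L hL
  obtain ⟨C₁, _, ι₁, O₁, h₁, κ, _, _, hκι, hO₁, hAO, hrank⟩ :=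
    clc_proof O p b ℂ_[p] ι 𝓞_ℂ_[p] hV L A hL hA
  have halg : IsAlgClosed C₁ := clr_proof O p intg_proof b ℂ_[p] ι 𝓞_ℂ_[p] hV L A hL hA C₁ ι₁ O₁ h₁ κ
    hκι hO₁ hAO hrank
  have hpn : ‖(p : ℂ_[p])‖ < 1 := norm_p_lt p
  have hpp : 0 < ‖(p : ℂ_[p])‖ := norm_p_pos p
  have hp0 : (p : ℂ_[p]) ≠ 0 := norm_pos_iff.1 hpp
  have hκp : κ (p : C₁) = (p : ℂ_[p]) := map_natCast κ p
  have hsurj : Function.Surjective κ := by
    apply hCLO p C₁ κ
    intro x hx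
    obtain ⟨m, hm⟩ : ∃ m : ℕ, ‖(p : ℂ_[p]) ^ m * x‖ ≤ 1 := by
      by_cases hx0 : x = 0
      · exact ⟨0, by rw [hx0, mul_zero, norm_zero]; exact zero_le_one⟩
      · obtain ⟨m, hm⟩ := exists_pow_lt_of_lt_one (inv_pos.2 (norm_pos_iff.2 hx0)) hpn
        refine ⟨m, ?_⟩
        rw [norm_mul, norm_pow]
        have h1 := mul_lt_mul_of_pos_right hm (norm_pos_iff.2 hx0)
        rw [inv_mul_cancel₀ (norm_pos_iff.2 hx0).ne'] at h1
        exact h1.le
    have hmem : (⟨(p : ℂ_[p]) ^ m * x, (mem_int p).2 hm⟩ : 𝓞_ℂ_[p]) ∈ A := by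
      apply hA.closed
      intro N
      obtain ⟨c, hc⟩ := hx N
      have h1 : ‖(p : ℂ_[p]) ^ m * x - κ ((p : C₁) ^ m * c)‖ ≤ ‖(p : ℂ_[p])‖ ^ N := by
        rw [map_mul, map_pow, hκp, ← mul_sub, norm_mul, norm_pow]
        calc ‖(p : ℂ_[p])‖ ^ m * ‖x - κ c‖ ≤ 1 * ‖(p : ℂ_[p])‖ ^ N :=
              mul_le_mul (pow_le_one₀ hpp.le hpn.le) hc (norm_nonneg _) zero_le_one
          _ = _ := one_mul _
      have h2 : κ ((p : C₁) ^ m * c) ∈ 𝓞_ℂ_[p] := by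
        have h3 : κ ((p : C₁) ^ m * c) = (p : ℂ_[p]) ^ m * x -
            ((p : ℂ_[p]) ^ m * x - κ ((p : C₁) ^ m * c)) := by ring
        rw [h3]
        apply sub_mem ((mem_int p).2 hm)
        rw [mem_int]
        exact h1.trans (pow_le_one₀ hpp.le hpn.le)
      refine ⟨⟨κ ((p : C₁) ^ m * c), h2⟩, ?_, ?_⟩
      · rw [hAO]
        exact ⟨⟨_, (hO₁ _).2 h2⟩, rfl⟩
      · rw [pow_dvd_int]
        exact h1
    rw [hAO] at hmem
    obtain ⟨o, ho⟩ := hmem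
    refine ⟨(o : C₁) / (p : C₁) ^ m, ?_⟩
    rw [map_div₀, map_pow, hκp, ho]
    exact mul_div_cancel_left₀ x (pow_ne_zero m hp0)
  have hAtop : ∀ a : 𝓞_ℂ_[p], a ∈ A := by
    intro a
    rw [hAO]
    obtain ⟨c, hc⟩ := hsurj (a : ℂ_[p])
    exact ⟨⟨c, (hO₁ c).2 (by rw [hc]; exact a.2)⟩, hc⟩
  have hLtop : ∀ y : PreTilt 𝓞_ℂ_[p] p, y ∈ L := by
    intro y
    apply hL.closed
    intro N
    obtain ⟨m, hm⟩ : ∃ m : ℕ, N ≤ p ^ m :=
      ⟨N, (Nat.lt_pow_self (Fact.out : p.Prime).one_lt).le⟩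
    obtain ⟨z, hz, x', -, hx'⟩ := hA.exp (PreTilt.untilt (rt p m y)) (hAtop _)
    refine ⟨z ^ p ^ m, L.pow_mem hz _, ?_⟩
    have h1 : ϖ ∣ rt p m y - z := by
      rw [← coeff_zero_eq_zero_iff isUnit_one hϖV, map_sub, sub_eq_zero,
        ← PreTilt.mk_untilt_eq_coeff_zero, ← PreTilt.mk_untilt_eq_coeff_zero, hx',
        Ideal.Quotient.eq, add_sub_cancel_left]
      exact Ideal.mul_mem_right _ _ (Ideal.mem_span_singleton_self _)
    have h2 : y - z ^ p ^ m = (rt p m y - z) ^ p ^ m := by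
      rw [sub_pow_char_pow, rt_pow]
    rw [h2]
    exact (pow_dvd_pow _ hm).trans (pow_dvd_pow_of_dvd h1 _)
  exact ⟨ϖ, hunt, fun y n => by
    obtain ⟨a, ha, hya⟩ := hLtop y n
    exact ⟨a, halgT a ha, hya⟩⟩

end Pool.Agent.FRM
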