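import Pool.Agent.FRM.Stmts
import Pool.Agent.DC.DESC
import Pool.Agent.DC.HOMEXT

/-!
# Module DSC: descent of close models to finite extensions of `F_p(t)`
-/

set_option autoImplicit false
set_option linter.style.haveILetI false

noncomputable section

namespace Pool.Agent.FRM

open scoped Classical
open MvPolynomial Pool.Agent.LibDb3ab1 Pool.Agent.DC

namespace DSC_

lemma lift_mv {R S σ : Type} [CommRing R] [CommRing S] (g : R →+* S) (F : MvPolynomial σ S)
    (h : ∀ m, F.coeff m ∈ Set.range g) : ∃ F' : MvPolynomial σ R, MvPolynomial.map g F' = F := by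
  refine (MvPolynomial.mem_range_map_iff_coeffs_subset (f := g) (x := F)).2 ?_
  intro c hc
  obtain ⟨m, -, hm⟩ := MvPolynomial.mem_coeffs_iff.1 (Finset.mem_coe.1 hc)
  rw [hm]
  exact h m

lemma lift_poly {R S σ : Type} [CommRing R] [CommRing S] (g : R →+* S)
    (f : Polynomial (MvPolynomial σ S)) (h : ∀ n m, (f.coeff n).coeff m ∈ Set.range g) :
    ∃ f' : Polynomial (MvPolynomial σ R), f'.map (MvPolynomial.map g) = f := by
  rw [← Polynomial.mem_lifts, Polynomial.lifts_iff_coeff_lifts]
  intro n
  exact lift_mv g (f.coeff n) (h n)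

lemma fin_mv {R σ : Type} [CommRing R] (F : MvPolynomial σ R) :
    {c | ∃ m, c = F.coeff m}.Finite := by
  refine ((Set.finite_singleton (0 : R)).union (F.support.finite_toSet.image
    fun m => F.coeff m)).subset ?_
  rintro c ⟨m, rfl⟩
  by_cases hn : F.coeff m = 0
  · exact Or.inl hn
  · exact Or.inr ⟨m, Finset.mem_coe.2 (MvPolynomial.mem_support_iff.2 hn), rfl⟩

lemma fin_poly {R σ : Type} [CommRing R] (f : Polynomial (MvPolynomial σ R)) :
    {c | ∃ n m, c = (f.coeff n).coeff m}.Finite := by
  refine ((Set.finite_singleton (0 : R)).union (f.support.finite_toSet.biUnion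
    fun n _ => fin_mv (f.coeff n))).subset ?_
  rintro c ⟨n, m, rfl⟩
  by_cases hn : (f.coeff n).coeff m = 0
  · exact Or.inl hn
  · refine Or.inr (Set.mem_biUnion (x := n) ?_ ⟨m, rfl⟩)
    rw [Finset.mem_coe, Polynomial.mem_support_iff]
    intro h
    apply hn
    rw [h, MvPolynomial.coeff_zero]

section kap

variable {L ka : Type} [Field L] [Field ka] (V : ValuationSubring ka) (ι : L →+* ka)

/-- the map of the valuation rings -/
def kap : V.comap ι →+* V where
  toFun x := ⟨ι x, x.2⟩
  map_one' := Subtype.ext (map_one ι)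
  map_mul' x y := Subtype.ext (map_mul ι (x : L) (y : L))
  map_zero' := Subtype.ext (map_zero ι)
  map_add' x y := Subtype.ext (map_add ι (x : L) (y : L))

lemma kap_coe (x : V.comap ι) : ((kap V ι x : V) : ka) = ι x := rfl

lemma kap_inj : Function.Injective (kap V ι) := by
  intro x y h
  apply Subtype.ext
  apply ι.injective
  exact congrArg (fun z : V => (z : ka)) h

lemma kap_range {c : V} (h : (c : ka) ∈ Set.range ι) : c ∈ Set.range (kap V ι) := by
  obtain ⟨x, hx⟩ := h
  refine ⟨⟨x, ?_⟩, Subtype.ext hx⟩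
  rw [ValuationSubring.mem_comap, hx]
  exact c.2

lemma kap_comp : V.subtype.comp (kap V ι) = ι.comp (V.comap ι).subtype := rfl

end kap

/-- descent of integrality -/
lemma int_desc {A' A B' B : Type} [CommRing A'] [CommRing A] [CommRing B'] [CommRing B]
    (q : B' →+* B) (hq : Function.Injective q) (u' : A' →+* B') (u : A →+* B) (κ : A' →+* A)
    (hκ : Function.Injective κ) (hc : q.comp u' = u.comp κ) (b' : B') (f : Polynomial A)
    (f' : Polynomial A') (hf' : f'.map κ = f) (hm : f.Monic) (h0 : f.eval₂ u (q b') = 0) :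
    u'.IsIntegralElem b' := by
  refine ⟨f', ?_, ?_⟩
  · refine Polynomial.monic_of_injective hκ ?_
    rw [hf']
    exact hm
  · apply hq
    rw [Polynomial.hom_eval₂, hc, ← Polynomial.eval₂_map, hf', h0, map_zero]

lemma eval_desc {A' A B' B : Type} [CommRing A'] [CommRing A] [CommRing B'] [CommRing B]
    (q : B' →+* B) (u' : A' →+* B') (u : A →+* B) (κ : A' →+* A)
    (hc : q.comp u' = u.comp κ) (b' : B') (f' : Polynomial A') :
    q (f'.eval₂ u' b') = (f'.map κ).eval₂ u (q b') := by
  rw [Polynomial.hom_eval₂, hc, ← Polynomial.eval₂_map]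

/-- the finite data of a close model -/
lemma exists_data {p N d : ℕ} {J : Type} [Finite J] (E : Eqs p N J) {ka : Type} [Field ka]
    (V : ValuationSubring ka) (t : V) (P : Ideal (MvPolynomial (Fin (N + 1)) ka))
    (z : Fin (d + 1) → MvPolynomial (Fin (N + 1)) V) (h : IsClose E d V t P z) :
    ∃ S : Set ka, S.Finite ∧ ∀ (L : Type) [Field L] (ι : L →+* ka), ι.IsIntegral →
      S ⊆ Set.range ι → ∃ (tL : V.comap ι) (zL : Fin (d + 1) → MvPolynomial (Fin (N + 1)) (V.comap ι)),
        IsClose E d (V.comap ι) tL (P.comap (MvPolynomial.map ι)) zL ∧ ι tL = t ∧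
        (P.comap (MvPolynomial.map ι)).map (MvPolynomial.map ι) = P := by
  have hz := h.z_int
  have hs := h.z_sep
  have hc := h.close
  choose fz hfz hfz0 using hz
  choose fs hfs hfs' using hs
  choose fc hfc hfc0 using hc
  obtain ⟨G, hG⟩ := (isNoetherianRing_iff_ideal_fg _).1 inferInstance P
  obtain ⟨S, hSdef⟩ : ∃ S : Set ka, S = {(t : ka)} ∪ (⋃ F ∈ G, {c | ∃ m, c = F.coeff m}) ∪
    (⋃ i, V.subtype '' {c | ∃ m, c = (z i).coeff m}) ∪
    (⋃ i, V.subtype '' {c | ∃ n m, c = ((fz i).coeff n).coeff m}) ∪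
    (⋃ i, {c | ∃ n m, c = ((fs i).coeff n).coeff m}) ∪
    (⋃ j, V.subtype '' {c | ∃ n m, c = ((fc j).coeff n).coeff m}) := ⟨_, rfl⟩
  refine ⟨S, ?_, ?_⟩
  · rw [hSdef]
    refine Set.Finite.union (Set.Finite.union (Set.Finite.union (Set.Finite.union
      (Set.Finite.union (Set.finite_singleton _) ?_) ?_) ?_) ?_) ?_
    · exact G.finite_toSet.biUnion fun F _ => fin_mv F
    · exact Set.finite_iUnion fun i => (fin_mv (z i)).image _
    · exact Set.finite_iUnion fun i => (fin_poly (fz i)).image _
    · exact Set.finite_iUnion fun i => fin_poly (fs i)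
    · exact Set.finite_iUnion fun j => (fin_poly (fc j)).image _
  · intro L _ ι hι hS
    have m1 : (t : ka) ∈ Set.range ι := hS (by rw [hSdef]; simp)
    have m2 : ∀ F ∈ G, ∀ m, F.coeff m ∈ Set.range ι := fun F hF m => hS (by
      rw [hSdef]
      refine Or.inl (Or.inl (Or.inl (Or.inl (Or.inr ?_))))
      exact Set.mem_biUnion (x := F) (Finset.mem_coe.2 hF) ⟨m, rfl⟩)
    have m3 : ∀ i m, (z i).coeff m ∈ Set.range (kap V ι) := fun i m => kap_range V ι (hS (by
      rw [hSdef]
      refine Or.inl (Or.inl (Or.inl (Or.inr ?_)))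
      exact Set.mem_iUnion.2 ⟨i, ⟨(z i).coeff m, ⟨m, rfl⟩, rfl⟩⟩))
    have m4 : ∀ i n m, ((fz i).coeff n).coeff m ∈ Set.range (kap V ι) := fun i n m =>
      kap_range V ι (hS (by
        rw [hSdef]
        refine Or.inl (Or.inl (Or.inr ?_))
        exact Set.mem_iUnion.2 ⟨i, ⟨((fz i).coeff n).coeff m, ⟨n, m, rfl⟩, rfl⟩⟩))
    have m5 : ∀ i n m, ((fs i).coeff n).coeff m ∈ Set.range ι := fun i n m => hS (by
        rw [hSdef]
        refine Or.inl (Or.inr ?_)
        exact Set.mem_iUnion.2 ⟨i, ⟨n, m, rfl⟩⟩)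
    have m6 : ∀ j n m, ((fc j).coeff n).coeff m ∈ Set.range (kap V ι) := fun j n m =>
      kap_range V ι (hS (by
        rw [hSdef]
        refine Or.inr ?_
        exact Set.mem_iUnion.2 ⟨j, ⟨((fc j).coeff n).coeff m, ⟨n, m, rfl⟩, rfl⟩⟩))
    obtain ⟨d1, d2, d3, -⟩ := desc_proof homext_proof L ka ι hι N P h.prime h.hom
    -- the lifts
    obtain ⟨tL, htL⟩ := kap_range V ι (c := t) m1
    have htL' : ι tL = t := by
      rw [← kap_coe, htL]
    choose zL hzL using fun i => lift_mv (kap V ι) (z i) (m3 i)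
    choose fz' hfz' using fun i => lift_poly (kap V ι) (fz i) (m4 i)
    choose fs' hfs'' using fun i => lift_poly ι (fs i) (m5 i)
    choose fc' hfc' using fun j => lift_poly (kap V ι) (fc j) (m6 j)
    -- the quotient map
    let q : MvPolynomial (Fin (N + 1)) L ⧸ P.comap (MvPolynomial.map ι) →+*
      MvPolynomial (Fin (N + 1)) ka ⧸ P := Ideal.quotientMap P (MvPolynomial.map ι) le_rfl
    have hqinj : Function.Injective q := Ideal.quotientMap_injective' le_rfl
    have hqmk : ∀ F, q (Ideal.Quotient.mk _ F) = Ideal.Quotient.mk _ (MvPolynomial.map ι F) :=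
      fun F => rfl
    have hv : q.comp (vmap (V.comap ι) (P.comap (MvPolynomial.map ι))) =
        (vmap V P).comp (MvPolynomial.map (kap V ι)) := by
      refine RingHom.ext fun F => ?_
      simp only [vmap, RingHom.comp_apply, hqmk, MvPolynomial.map_map]
      rw [kap_comp]
    have hzm : q.comp (zmap (V.comap ι) (P.comap (MvPolynomial.map ι)) zL) =
        (zmap V P z).comp (MvPolynomial.map (kap V ι)) := by
      unfold zmap
      rw [← RingHom.comp_assoc, hv, RingHom.comp_assoc, RingHom.comp_assoc]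
      congr 1
      refine MvPolynomial.ringHom_ext (fun a => ?_) fun i => ?_
      · simp
      · simp [hzL]
    have hkm : q.comp (kmap (P.comap (MvPolynomial.map ι))
        (fun i => MvPolynomial.map (V.comap ι).subtype (zL i))) =
        (kmap P fun i => MvPolynomial.map V.subtype (z i)).comp (MvPolynomial.map ι) := by
      refine MvPolynomial.ringHom_ext (fun a => ?_) fun i => ?_
      · simp only [kmap, RingHom.comp_apply, hqmk, MvPolynomial.map_C, AlgHom.toRingHom_eq_coe,
          RingHom.coe_coe, MvPolynomial.aeval_C, MvPolynomial.algebraMap_eq]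
      · simp only [kmap, RingHom.comp_apply, hqmk, MvPolynomial.map_X, AlgHom.toRingHom_eq_coe,
          RingHom.coe_coe, MvPolynomial.aeval_X, MvPolynomial.map_map]
        rw [← kap_comp, ← MvPolynomial.map_map, hzL]
    have hqX : ∀ i, q (Ideal.Quotient.mk _ (X i)) = Ideal.Quotient.mk _ (X i) := by
      intro i
      rw [hqmk, MvPolynomial.map_X]
    have hκi : Function.Injective (MvPolynomial.map (σ := Fin (d + 1)) (kap V ι)) :=
      MvPolynomial.map_injective _ (kap_inj V ι)
    have hκi' : Function.Injective (MvPolynomial.map (σ := Fin (N + 1)) (kap V ι)) :=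
      MvPolynomial.map_injective _ (kap_inj V ι)
    have hred : ∀ F : MvPolynomial (Fin (N + 1)) ℤ, MvPolynomial.map ι (red L F) = red ka F := by
      intro F
      have h0 : ι.comp (Int.castRingHom L) = Int.castRingHom ka := RingHom.ext_int _ _
      rw [red, red, MvPolynomial.map_map, h0]
    refine ⟨tL, zL, ?_, htL', ?_⟩
    · refine ⟨d1, d2, ?_, ?_, ?_, ?_, ?_, ?_, ?_⟩
      · rw [d3]
        exact h.dim
      · intro h0
        apply h.t_ne
        rw [← htL, h0, map_zero]
      · intro h0
        apply h.t_nonunit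
        rw [← htL]
        exact h0.map _
      · intro i
        have h1 := h.z_hom i
        rw [← hzL i] at h1
        intro c hc
        refine h1 (d := c) ?_
        rw [MvPolynomial.coeff_map]
        intro h2
        exact hc (kap_inj V ι (by rw [h2, map_zero]))
      · intro i
        refine int_desc q hqinj _ (zmap V P z) _ hκi hzm _ (fz i) (fz' i) (hfz' i) (hfz i) ?_
        rw [hqX]
        exact hfz0 i
      · intro i
        refine ⟨fs' i, ?_, ?_⟩
        · apply hqinj
          rw [eval_desc q _ _ _ hkm, hfs'', hqX, map_zero]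
          exact hfs i
        · intro h0
          apply hfs' i
          have h1 := eval_desc q _ _ _ hkm (Ideal.Quotient.mk _ (X i)) (fs' i).derivative
          rw [h0, map_zero, ← Polynomial.derivative_map, hfs'', hqX] at h1
          exact h1.symm
      · intro j
        refine int_desc q hqinj _ (vmap V P) _ hκi' hv _ (fc j) (fc' j) (hfc' j) (hfc j) ?_
        rw [hqmk]
        have h1 := hfc0 j
        have h2 : MvPolynomial.map ι (C (((tL : L)⁻¹) ^ (p + 1)) *
            (red L (E.g j) ^ p + C ((tL : L) ^ p) * red L (E.g₁ j))) =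
            C (((t : ka)⁻¹) ^ (p + 1)) * (red ka (E.g j) ^ p + C ((t : ka) ^ p) * red ka (E.g₁ j)) := by
          simp only [map_mul, map_add, map_pow, hred, MvPolynomial.map_C, map_inv₀, htL']
        rw [h2]
        exact h1
    · apply le_antisymm
      · exact Ideal.map_comap_le
      · rw [← hG, Ideal.span_le]
        intro F hF
        obtain ⟨F', hF'⟩ := lift_mv ι F (m2 F (Finset.mem_coe.1 hF))
        rw [← hF']
        refine Ideal.mem_map_of_mem _ ?_
        rw [Ideal.mem_comap, hF']
        exact Ideal.subset_span hF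

/-- `t` is transcendental -/
lemma evt_inj (p : ℕ) [Fact p.Prime] {ka : Type} [Field ka] [CharP ka p] (V : ValuationSubring ka)
    (t : ka) (_h0 : t ≠ 0) (hV : t⁻¹ ∉ V) : Function.Injective (evt p t) := by
  letI : Algebra (ZMod p) ka := ZMod.algebra ka p
  have hev : ∀ f : Polynomial (ZMod p), evt p t f = Polynomial.aeval t f := by
    intro f
    rw [Polynomial.aeval_def, evt, Polynomial.coe_eval₂RingHom]
    congr 1
  rw [injective_iff_map_eq_zero]
  intro f hf
  by_contra hne
  apply hV
  have h1 : IsAlgebraic (ZMod p) t := ⟨f, hne, by rw [← hev]; exact hf⟩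
  have h2 : IsIntegral (ZMod p) t⁻¹ := h1.inv.isIntegral
  obtain ⟨g, hg, hg0⟩ := h2
  haveI : CharP V p := V.subtype.charP Subtype.val_injective p
  have h3 : V.subtype.comp (ZMod.castHom (dvd_refl p) V) = algebraMap (ZMod p) ka :=
    Subsingleton.elim _ _
  have h4 : IsIntegral V t⁻¹ := by
    refine ⟨g.map (ZMod.castHom (dvd_refl p) V), hg.map _, ?_⟩
    have h5 : algebraMap V ka = V.subtype := rfl
    rw [Polynomial.eval₂_map, h5, h3]
    exact hg0
  obtain ⟨y, hy⟩ := (IsIntegrallyClosed.isIntegral_iff (R := V) (K := ka)).1 h4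
  rw [← hy]
  exact y.2

end DSC_

open DSC_ in
theorem dsc_proof (hDvr : Stmt_Dvr) : Stmt_Dsc := by
  intro p N d _ J _ E ka _ _ _ V t halg P z h
  have htn : (t : ka) ≠ 0 := fun h0 => h.t_ne (Subtype.ext h0)
  have htinv : (t : ka)⁻¹ ∉ V := by
    intro h0
    apply h.t_nonunit
    refine IsUnit.of_mul_eq_one ⟨(t : ka)⁻¹, h0⟩ (Subtype.ext ?_)
    exact mul_inv_cancel₀ htn
  have hinj := evt_inj p V (t : ka) htn htinv
  obtain ⟨φ, hφ⟩ : ∃ φ : RatFunc (ZMod p) →+* ka,
      ∀ f : Polynomial (ZMod p), φ (algebraMap _ _ f) = evt p (t : ka) f :=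
    ⟨IsFractionRing.lift (K := RatFunc (ZMod p)) hinj, fun f =>
      IsFractionRing.lift_algebraMap hinj f⟩
  letI : Algebra (RatFunc (ZMod p)) ka := φ.toAlgebra
  have hφX : algebraMap (RatFunc (ZMod p)) ka RatFunc.X = t := by
    change φ RatFunc.X = t
    rw [← RatFunc.algebraMap_X, hφ]
    simp [evt]
  have hal : ∀ x : ka, IsIntegral (RatFunc (ZMod p)) x := by
    intro x
    obtain ⟨f, hf, hfx⟩ := halg x
    have h1 : IsAlgebraic (RatFunc (ZMod p)) x := by
      refine ⟨f.map (algebraMap (Polynomial (ZMod p)) (RatFunc (ZMod p))), ?_, ?_⟩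
      · rwa [Ne, Polynomial.map_eq_zero_iff (IsFractionRing.injective _ _)]
      · rw [Polynomial.aeval_def, Polynomial.eval₂_map]
        have h2 : (algebraMap (RatFunc (ZMod p)) ka).comp
            (algebraMap (Polynomial (ZMod p)) (RatFunc (ZMod p))) = evt p (t : ka) :=
          RingHom.ext fun f => hφ f
        rw [h2]
        exact hfx
    exact h1.isIntegral
  obtain ⟨S, hSf, hS⟩ := exists_data E V t P z h
  obtain ⟨L, hL⟩ : ∃ L : IntermediateField (RatFunc (ZMod p)) ka,
    L = IntermediateField.adjoin (RatFunc (ZMod p)) S := ⟨_, rfl⟩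
  haveI : Finite S := hSf
  haveI hfd : FiniteDimensional (RatFunc (ZMod p)) L := by
    rw [hL]
    exact IntermediateField.finiteDimensional_adjoin (fun x _ => hal x)
  haveI : Algebra.IsIntegral (RatFunc (ZMod p)) ka := ⟨hal⟩
  haveI : Algebra.IsIntegral L ka := ⟨fun x => (hal x).tower_top⟩
  haveI : Algebra.IsAlgebraic L ka := inferInstance
  have hι : (algebraMap L ka).IsIntegral := Algebra.IsIntegral.isIntegral
  have hSL : S ⊆ Set.range (algebraMap L ka) := by
    intro x hx
    refine ⟨⟨x, ?_⟩, rfl⟩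
    rw [hL]
    exact IntermediateField.subset_adjoin _ _ hx
  obtain ⟨tL, zL, hc, htL, hmap⟩ := hS L (algebraMap L ka) hι hSL
  have hcoe : (tL : L) = algebraMap (RatFunc (ZMod p)) L RatFunc.X := by
    apply (algebraMap L ka).injective
    rw [htL, ← hφX, ← IsScalarTower.algebraMap_apply]
  refine ⟨{ L := L, V := V.comap (algebraMap L ka), dvr := ?_, t := tL, coe_t := hcoe,
            P := P.comap (MvPolynomial.map (algebraMap L ka)), z := zL, close := hc, geom := ?_ }⟩
  · refine hDvr p L (V.comap (algebraMap L ka)) ?_ ?_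
    · rw [← hcoe]
      exact tL.2
    · rw [← hcoe, ValuationSubring.mem_comap, map_inv₀, htL]
      exact htinv
  · haveI : IsAlgClosure L ka := ⟨inferInstance, inferInstance⟩
    let e : AlgebraicClosure L ≃ₐ[L] ka := IsAlgClosure.equiv L (AlgebraicClosure L) ka
    obtain ⟨me, hme⟩ : ∃ me : MvPolynomial (Fin (N + 1)) (AlgebraicClosure L) →+*
        MvPolynomial (Fin (N + 1)) ka, me = MvPolynomial.map (e : AlgebraicClosure L →+* ka) :=
      ⟨_, rfl⟩
    have hbij : Function.Bijective me := by
      rw [hme]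
      exact ⟨MvPolynomial.map_injective _ e.injective, MvPolynomial.map_surjective _ e.surjective⟩
    have hcomp : me.comp (MvPolynomial.map (algebraMap L (AlgebraicClosure L))) =
        MvPolynomial.map (algebraMap L ka) := by
      have h0 : (e : AlgebraicClosure L →+* ka).comp (algebraMap L (AlgebraicClosure L)) =
          algebraMap L ka := RingHom.ext fun a => e.commutes a
      rw [hme]
      refine RingHom.ext fun F => ?_
      rw [RingHom.comp_apply, MvPolynomial.map_map, h0]
    have h1 : ((P.comap (MvPolynomial.map (algebraMap L ka))).map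
        (MvPolynomial.map (σ := Fin (N + 1)) (algebraMap L (AlgebraicClosure L)))).map me = P := by
      rw [Ideal.map_map, hcomp]
      exact hmap
    have h2 := Ideal.comap_map_of_bijective me hbij (I := (P.comap (MvPolynomial.map
      (algebraMap L ka))).map (MvPolynomial.map (σ := Fin (N + 1))
        (algebraMap L (AlgebraicClosure L))))
    rw [h1] at h2
    rw [← h2]
    haveI := h.prime
    exact Ideal.comap_isPrime _ _

end Pool.Agent.FRM
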