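import Pool.Agent.FRM.StmtsB

/-!
Module DVG: valuation rings of finite extensions of `F(t)` are discrete (problem MP_db3ab1_ag).
-/

set_option autoImplicit false

noncomputable section

namespace Pool.Agent.FRM

namespace DVG_

open Polynomial

/-- Chains of divisors in a ring. -/
def Chain {R : Type} [CommRing R] (τ : R) (k : ℕ) (f : ℕ → R) : Prop :=
  f 0 = τ ∧ (∀ i < k, f (i + 1) ∣ f i ∧ ¬ f i ∣ f (i + 1)) ∧ ∀ i ≤ k, ¬ IsUnit (f i)

lemma chain_dvd {R : Type} [CommRing R] {τ : R} {k : ℕ} {f : ℕ → R} (h : Chain τ k f) (i : ℕ) :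
    ∀ j, i ≤ j → j ≤ k → f j ∣ f i := by
  intro j hij
  induction j, hij using Nat.le_induction with
  | base => intro _; exact dvd_rfl
  | succ j hij ih =>
    intro hj
    exact (h.2.1 j (by omega)).1.trans (ih (by omega))

lemma chain_ndvd {R : Type} [CommRing R] {τ : R} {k : ℕ} {f : ℕ → R} (h : Chain τ k f) {i j : ℕ}
    (hij : i < j) (hj : j ≤ k) : ¬ f i ∣ f j := by
  intro hd
  exact (h.2.1 i (by omega)).2 (hd.trans (chain_dvd h (i + 1) j (by omega) hj))

/-- The coefficients of a relation vanish at `0`. -/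
lemma rel0 {A R : Type} [CommRing A] [CommRing R] [IsDomain R] [IsLocalRing R] (ψ : A →+* R) (P : A → Prop)
    (τ : R) (hτ : τ ≠ 0) (hu : ∀ a, ¬ P a → IsUnit (ψ a)) (hd : ∀ a, P a → τ ∣ ψ a) {k : ℕ} {f : ℕ → R}
    (h : Chain τ k f) (g : Fin (k + 1) → A) (hg : ∑ i, ψ (g i) * f (i : ℕ) = 0) (i : Fin (k + 1)) :
    P (g i) := by
  classical
  by_contra hi
  obtain ⟨i0, hi0, hmax⟩ := (Finset.univ.filter fun i => ¬ P (g i)).exists_max_image (fun i => i)
    ⟨i, by simpa using hi⟩
  have hi0' : ¬ P (g i0) := by simpa using hi0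
  have hf0 : f (i0 : ℕ) ≠ 0 := by
    intro h0
    have h1 : f (i0 : ℕ) ∣ f 0 := chain_dvd h 0 _ (Nat.zero_le _) (by omega)
    rw [h0, h.1] at h1
    exact hτ (zero_dvd_iff.1 h1)
  have hterm : ∀ j ∈ Finset.univ.erase i0, ψ (g j) * f (j : ℕ) ∈
      Ideal.span {f (i0 : ℕ)} * IsLocalRing.maximalIdeal R := by
    intro j hj
    rw [Ideal.mem_span_singleton_mul]
    have hne : j ≠ i0 := Finset.ne_of_mem_erase hj
    rcases lt_or_gt_of_ne hne with hlt | hgt
    · obtain ⟨c, hc⟩ := chain_dvd h (j : ℕ) (i0 : ℕ) (le_of_lt hlt) (by omega)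
      have hcn : c ∈ IsLocalRing.maximalIdeal R := by
        rw [IsLocalRing.mem_maximalIdeal, mem_nonunits_iff]
        intro hcu
        apply chain_ndvd h (show (j : ℕ) < (i0 : ℕ) from hlt) (by omega)
        obtain ⟨c', hc'⟩ := hcu.exists_right_inv
        exact ⟨c', by rw [hc, mul_assoc, hc', mul_one]⟩
      refine ⟨ψ (g j) * c, Ideal.mul_mem_left _ _ hcn, ?_⟩
      rw [hc]; ring
    · have hPj : P (g j) := by
        by_contra hnP
        have := hmax j (by simpa using hnP)
        exact absurd hgt (not_lt.2 this)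
      obtain ⟨d, hd'⟩ := hd _ hPj
      obtain ⟨e, he⟩ := chain_dvd h 0 (i0 : ℕ) (Nat.zero_le _) (by omega)
      have hfj : f (j : ℕ) ∈ IsLocalRing.maximalIdeal R := by
        rw [IsLocalRing.mem_maximalIdeal, mem_nonunits_iff]
        exact h.2.2 _ (by omega)
      refine ⟨e * d * f (j : ℕ), Ideal.mul_mem_left _ _ hfj, ?_⟩
      rw [hd', ← h.1, he]; ring
  have hsum := Ideal.sum_mem _ hterm
  rw [Ideal.mem_span_singleton_mul] at hsum
  obtain ⟨m, hm, hmeq⟩ := hsum
  have h2 : ψ (g i0) * f (i0 : ℕ) + f (i0 : ℕ) * m = 0 := by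
    rw [hmeq, Finset.add_sum_erase _ (fun j : Fin (k + 1) => ψ (g j) * f (j : ℕ)) (Finset.mem_univ i0)]
    exact hg
  have h3 : f (i0 : ℕ) * (ψ (g i0) + m) = 0 := by rw [← h2]; ring
  have h4 : ψ (g i0) + m = 0 := (mul_eq_zero.1 h3).resolve_left hf0
  have h5 : ψ (g i0) ∈ IsLocalRing.maximalIdeal R := by
    have h6 : ψ (g i0) = -m := by rw [eq_neg_iff_add_eq_zero]; exact h4
    rw [h6]
    exact neg_mem hm
  rw [IsLocalRing.mem_maximalIdeal, mem_nonunits_iff] at h5
  exact h5 (hu _ hi0')

/-- A valuation ring in which all nonzero elements divide powers of `τ` and chains are bounded is discrete. -/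
lemma main {R : Type} [CommRing R] [IsDomain R] [ValuationRing R] (τ : R) (hτ : τ ≠ 0) (hτu : ¬ IsUnit τ)
    (hx : ∀ x : R, x ≠ 0 → ∃ m : ℕ, x ∣ τ ^ m) (n : ℕ)
    (hb : ∀ (k : ℕ) (f : ℕ → R), Chain τ k f → k + 1 ≤ n) : IsDiscreteValuationRing R := by
  classical
  have h0 : ∃ f, Chain τ 0 f := ⟨fun _ => τ, rfl, fun i hi => absurd hi (Nat.not_lt_zero i), fun _ _ => hτu⟩
  have hk : ∃ k, (∃ f, Chain τ k f) ∧ ¬ ∃ f, Chain τ (k + 1) f := by
    by_contra hcon
    push Not at hcon
    have hall : ∀ k, ∃ f, Chain τ k f := by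
      intro k
      induction k with
      | zero => exact h0
      | succ k ih => exact hcon k ih
    obtain ⟨f, hf⟩ := hall n
    have := hb n f hf
    omega
  obtain ⟨k, ⟨f, hf⟩, hno⟩ := hk
  obtain ⟨π, hπ⟩ : ∃ π, π = f k := ⟨_, rfl⟩
  have hπu : ¬ IsUnit π := hπ ▸ hf.2.2 k le_rfl
  have hπτ : π ∣ τ := by
    have := chain_dvd hf 0 k (Nat.zero_le _) le_rfl
    rwa [hf.1, ← hπ] at this
  have hπ0 : π ≠ 0 := by
    rintro rfl
    exact hτ (zero_dvd_iff.1 hπτ)
  have hdiv : ∀ y : R, ¬ IsUnit y → π ∣ y := by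
    intro y hy
    by_contra hnd
    apply hno
    refine ⟨fun i => if i ≤ k then f i else y, ?_, ?_, ?_⟩
    · simp [hf.1]
    · intro i hi
      by_cases hik : i < k
      · have h1 : i + 1 ≤ k := hik
        have h2 : i ≤ k := hik.le
        simp only [h1, h2, if_true]
        exact hf.2.1 i hik
      · have hik' : i = k := by omega
        subst hik'
        have h1 : ¬ (i + 1 ≤ i) := by omega
        simp only [h1, le_refl, if_true, if_false]
        rw [← hπ]
        exact ⟨(ValuationRing.dvd_total π y).resolve_left hnd, hnd⟩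
    · intro i _
      by_cases hik : i ≤ k
      · simp only [hik, if_true]
        exact hf.2.2 i hik
      · simp only [hik, if_false]
        exact hy
  -- powers of `π`
  have hpow : ∀ N : ℕ, π ^ (N + 1) ∣ τ → N + 1 ≤ n := by
    intro N hN
    refine hb N (fun i => if i = 0 then τ else π ^ (N + 1 - i)) ⟨by simp, ?_, ?_⟩
    · intro i hi
      by_cases hi0 : i = 0
      · subst hi0
        simp only [if_true, zero_add, one_ne_zero, if_false]
        have e : N + 1 - 1 = N := by omega
        rw [e]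
        refine ⟨(pow_dvd_pow π (Nat.le_succ N)).trans hN, fun hd => ?_⟩
        exact hπu ((pow_dvd_pow_iff hπ0 hπu).1 (hN.trans hd) |> fun h => absurd h (by omega))
      · have hi1 : i + 1 ≠ 0 := by omega
        simp only [hi0, hi1, if_false]
        refine ⟨pow_dvd_pow π (by omega), fun hd => ?_⟩
        exact absurd ((pow_dvd_pow_iff hπ0 hπu).1 hd) (by omega)
    · intro i hi
      by_cases hi0 : i = 0
      · simp only [hi0, if_true]
        exact hτu
      · simp only [hi0, if_false]
        intro hu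
        have : N + 1 - i ≠ 0 := by omega
        exact hπu ((isUnit_pow_iff this).1 hu)
  have hτn : τ ∣ π ^ (n + 1) := by
    rcases ValuationRing.dvd_total τ (π ^ (n + 1)) with h | h
    · exact h
    · have := hpow n h
      omega
  have hprime : Prime π := by
    refine ⟨hπ0, hπu, fun a b hab => ?_⟩
    by_contra hcon
    push Not at hcon
    have ha : IsUnit a := by
      by_contra h
      exact hcon.1 (hdiv a h)
    have hbu : IsUnit b := by
      by_contra h
      exact hcon.2 (hdiv b h)
    exact hπu (isUnit_of_dvd_unit hab (ha.mul hbu))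
  apply IsDiscreteValuationRing.ofHasUnitMulPowIrreducibleFactorization
  refine ⟨π, hprime.irreducible, ?_⟩
  intro x hx0
  obtain ⟨m, hm⟩ := hx x hx0
  have hfin : ∃ N, ¬ π ^ (N + 1) ∣ x ∧ π ^ N ∣ x := by
    by_contra hcon
    push Not at hcon
    have hall : ∀ N, π ^ N ∣ x := by
      intro N
      induction N with
      | zero => rw [pow_zero]; exact one_dvd x
      | succ N ih =>
        by_contra h
        exact hcon N h ih
    have h1 : π ^ ((n + 1) * m + 1) ∣ π ^ ((n + 1) * m) := by
      refine (hall _).trans (hm.trans ?_)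
      rw [pow_mul]
      exact pow_dvd_pow_of_dvd hτn m
    exact absurd ((pow_dvd_pow_iff hπ0 hπu).1 h1) (by omega)
  obtain ⟨N, hN1, y, hy⟩ := hfin
  refine ⟨N, ?_⟩
  have hyu : IsUnit y := by
    by_contra h
    obtain ⟨c, hc⟩ := hdiv y h
    apply hN1
    exact ⟨c, by rw [hy, hc]; ring⟩
  rw [hy]
  exact associated_mul_unit_right _ _ hyu

end DVG_

open DVG_ Polynomial in
theorem dvg_proof : Stmt_Dvg := by
  intro F L _ _ _ _ V hc ht hti
  let φ : F[X] →+* L := (algebraMap (RatFunc F) L).comp (algebraMap F[X] (RatFunc F))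
  have hφX : φ X = algebraMap (RatFunc F) L RatFunc.X := by
    show (algebraMap (RatFunc F) L) (algebraMap F[X] (RatFunc F) X) = _
    rw [RatFunc.algebraMap_X]
  have hφinj : Function.Injective φ :=
    (algebraMap (RatFunc F) L).injective.comp (IsFractionRing.injective F[X] (RatFunc F))
  have hφmem : ∀ f, φ f ∈ V := by
    intro f
    induction f using Polynomial.induction_on' with
    | add f g hf hg => rw [map_add]; exact add_mem hf hg
    | monomial n a =>
      rw [← Polynomial.C_mul_X_pow_eq_monomial, map_mul, map_pow, hφX]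
      refine mul_mem ?_ (pow_mem ht n)
      have h1 : φ (C a) = algebraMap (RatFunc F) L (RatFunc.C a) := by
        show (algebraMap (RatFunc F) L) (algebraMap F[X] (RatFunc F) (C a)) = _
        rw [RatFunc.algebraMap_C]
      rw [h1]
      exact hc a
  let ψ : F[X] →+* V := φ.codRestrict V.toSubring hφmem
  have hψ : ∀ f, ((ψ f : V) : L) = φ f := fun f => rfl
  obtain ⟨τ, hτ⟩ : ∃ τ : V, τ = ψ X := ⟨_, rfl⟩
  have hτ0 : τ ≠ 0 := by
    intro h0
    have h1 : φ X = 0 := by
      rw [← hψ, ← hτ, h0]; rfl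
    exact Polynomial.X_ne_zero (hφinj (by rw [h1, map_zero]))
  have hτu : ¬ IsUnit τ := by
    intro hu
    obtain ⟨b, hb⟩ := hu.exists_right_inv
    apply hti
    have h1 : algebraMap (RatFunc F) L RatFunc.X * (b : L) = 1 := by
      rw [← hφX, ← hψ, ← hτ]
      exact congrArg Subtype.val hb
    rw [inv_eq_of_mul_eq_one_right h1]
    exact b.2
  have hinj : Function.Injective ψ := by
    intro a b hab
    exact hφinj (congrArg Subtype.val hab)
  have hunit : ∀ f : F[X], ¬ f.coeff 0 = 0 → IsUnit (ψ f) := by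
    intro f hf
    by_contra hnu
    have h1 : ψ f ∈ IsLocalRing.maximalIdeal V := by
      rw [IsLocalRing.mem_maximalIdeal, mem_nonunits_iff]
      exact hnu
    have h2 : τ ∈ IsLocalRing.maximalIdeal V := by
      rw [IsLocalRing.mem_maximalIdeal, mem_nonunits_iff]
      exact hτu
    have h3 : ψ (C (f.coeff 0)) ∈ IsLocalRing.maximalIdeal V := by
      have h4 : ψ (C (f.coeff 0)) = ψ f - ψ (divX f) * τ := by
        have h5 := congrArg ψ (Polynomial.divX_mul_X_add f)
        rw [map_add, map_mul, ← hτ] at h5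
        rw [← h5]; ring
      rw [h4]
      exact sub_mem h1 (Ideal.mul_mem_left _ _ h2)
    rw [IsLocalRing.mem_maximalIdeal, mem_nonunits_iff] at h3
    exact h3 ((Polynomial.isUnit_C.2 (isUnit_iff_ne_zero.2 hf)).map ψ)
  have hdvd : ∀ f : F[X], f.coeff 0 = 0 → τ ∣ ψ f := by
    intro f hf
    rw [hτ]
    exact map_dvd ψ (Polynomial.X_dvd_iff.2 hf)
  letI : Algebra F[X] L := φ.toAlgebra
  haveI : IsScalarTower F[X] (RatFunc F) L := IsScalarTower.of_algebraMap_eq' rfl
  refine main τ hτ0 hτu ?_ (Module.finrank (RatFunc F) L) ?_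
  · -- every nonzero element divides a power of `τ`
    intro x hx
    have halg : Algebra.IsAlgebraic F[X] L :=
      (IsFractionRing.comap_isAlgebraic_iff (A := F[X]) (K := RatFunc F) (C := L)).2 inferInstance
    letI : Algebra F[X] V := ψ.toAlgebra
    have hxa : IsAlgebraic F[X] x := by
      obtain ⟨q, hq0, hq⟩ := halg.isAlgebraic (x : L)
      refine ⟨q, hq0, ?_⟩
      apply Subtype.ext
      have h1 := Polynomial.hom_eval₂ q (algebraMap F[X] V) V.subtype x
      exact h1.trans hq
    obtain ⟨r, hr0, hr⟩ := hxa.exists_nonzero_dvd (mem_nonZeroDivisors_of_ne_zero hx)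
    -- `r = X ^ m * s` with `s(0) ≠ 0`
    obtain ⟨s, hs, hsX⟩ := Polynomial.exists_eq_pow_rootMultiplicity_mul_and_not_dvd r hr0 0
    obtain ⟨m, hm⟩ : ∃ m, m = r.rootMultiplicity 0 := ⟨_, rfl⟩
    rw [← hm] at hs
    refine ⟨m, hr.trans ?_⟩
    have h1 : (algebraMap F[X] V) r = ψ r := rfl
    rw [h1, hs, map_mul, map_pow, map_zero, sub_zero, ← hτ]
    have h2 : IsUnit (ψ s) := by
      apply hunit
      intro h3
      apply hsX
      rw [map_zero, sub_zero]
      exact Polynomial.X_dvd_iff.2 h3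
    obtain ⟨c, hc⟩ := h2.exists_right_inv
    refine ⟨c, ?_⟩
    rw [mul_assoc, hc, mul_one]
  · intro k f hf
    have hli : LinearIndependent F[X] (fun i : Fin (k + 1) => ((f (i : ℕ) : V) : L)) := by
      rw [Fintype.linearIndependent_iff]
      have hrel : ∀ (g : Fin (k + 1) → F[X]),
          ∑ i, g i • ((f (i : ℕ) : V) : L) = 0 → ∑ i, ψ (g i) * f (i : ℕ) = 0 := by
        intro g hg
        apply Subtype.ext
        rw [← V.subtype_apply, map_sum]
        exact hg
      have hcoef : ∀ (n : ℕ) (g : Fin (k + 1) → F[X]), ∑ i, ψ (g i) * f (i : ℕ) = 0 →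
          ∀ i, (g i).coeff n = 0 := by
        intro n
        induction n with
        | zero =>
          intro g hg i
          exact rel0 ψ (fun a : F[X] => a.coeff 0 = 0) τ hτ0 hunit hdvd hf g hg i
        | succ n ih =>
          intro g hg i
          have h0 : ∀ i, (g i).coeff 0 = 0 := fun i =>
            rel0 ψ (fun a : F[X] => a.coeff 0 = 0) τ hτ0 hunit hdvd hf g hg i
          have h1 : ∀ i, g i = divX (g i) * X := by
            intro i
            have h2 := Polynomial.divX_mul_X_add (g i)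
            rw [h0 i, C_0, add_zero] at h2
            exact h2.symm
          have h3 : τ * ∑ i, ψ (divX (g i)) * f (i : ℕ) = 0 := by
            rw [Finset.mul_sum, ← hg]
            refine Finset.sum_congr rfl fun i _ => ?_
            conv_rhs => rw [h1 i]
            rw [map_mul, ← hτ]
            ring
          have h4 := ih (fun i => divX (g i)) ((mul_eq_zero.1 h3).resolve_left hτ0) i
          rw [← h4]
          exact (Polynomial.coeff_divX).symm
      intro g hg i
      ext n
      rw [hcoef n g (hrel g hg) i, coeff_zero]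
    have hli2 : LinearIndependent (RatFunc F) (fun i : Fin (k + 1) => ((f (i : ℕ) : V) : L)) :=
      (LinearIndependent.iff_fractionRing F[X] (RatFunc F)).1 hli
    have h := hli2.fintype_card_le_finrank
    rwa [Fintype.card_fin] at h

end Pool.Agent.FRM
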