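import Pool.Agent.FRM.Stmts

/-!
# FIN: linear forms without common zero are parameters
-/

set_option autoImplicit false

noncomputable section

namespace Pool.Agent.FRM

open scoped Classical
open MvPolynomial Pool.Agent.LibDb3ab1 Pool.Agent.DC

namespace FIN64_

theorem dim_le {A B : Type} [CommRing A] [CommRing B] (f : A →+* B) (hf : f.IsIntegral) :
    ringKrullDim B ≤ ringKrullDim A := by
  let : Algebra A B := f.toAlgebra
  have : Algebra.IsIntegral A B := ⟨hf⟩
  apply Order.krullDim_le_of_strictMono (fun P => PrimeSpectrum.comap (algebraMap A B) P)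
  intro P Q hPQ
  exact Ideal.IsIntegral.comap_lt_comap (R := A) (I := P.asIdeal) (J := Q.asIdeal) hPQ

theorem inj {k B : Type} [Field k] [CommRing B] (d : ℕ) (f : MvPolynomial (Fin (d + 1)) k →+* B)
    (hf : f.IsIntegral) (hdim : ringKrullDim B = (d + 1 : ℕ)) : Function.Injective f := by
  rw [injective_iff_map_eq_zero]
  intro r hr
  by_contra h0
  have h1 := ringKrullDim_quotient_succ_le_of_nonZeroDivisor (mem_nonZeroDivisors_of_ne_zero h0)
  rw [MvPolynomial.ringKrullDim_of_isNoetherianRing, ringKrullDim_eq_zero_of_field] at h1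
  let g : (MvPolynomial (Fin (d + 1)) k ⧸ Ideal.span {r}) →+* B :=
    Ideal.Quotient.lift _ f (by
      intro a ha
      obtain ⟨c, rfl⟩ := Ideal.mem_span_singleton.1 ha
      rw [map_mul, hr, zero_mul])
  have hg : g.IsIntegral := by
    apply RingHom.IsIntegral.tower_top (Ideal.Quotient.mk (Ideal.span {r})) g
    have : g.comp (Ideal.Quotient.mk (Ideal.span {r})) = f := by
      ext <;> simp [g]
    rw [this]
    exact hf
  have h2 := dim_le g hg
  rw [hdim] at h2
  have h3 : ((d + 1 : ℕ) : WithBot ℕ∞) + 1 ≤ 0 + ((Nat.card (Fin (d + 1)) : ℕ) : WithBot ℕ∞) :=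
    le_trans (by gcongr) h1
  rw [zero_add, Nat.card_eq_fintype_card, Fintype.card_fin] at h3
  have h4 : (((d + 1 + 1 : ℕ) : ℕ) : WithBot ℕ∞) ≤ ((d + 1 : ℕ) : WithBot ℕ∞) := by
    push_cast at h3 ⊢
    exact h3
  have h5 : d + 1 + 1 ≤ d + 1 := by exact_mod_cast h4
  omega

/-- the Nullstellensatz -/
theorem pow_mem {k : Type} [Field k] [IsAlgClosed k] {n : ℕ} (I : Ideal (MvPolynomial (Fin n) k))
    (h : ∀ y : Fin n → k, y ≠ 0 → ∃ F ∈ I, eval y F ≠ 0) (i : Fin n) : ∃ m : ℕ, X i ^ m ∈ I := by
  have h1 : (X i : MvPolynomial (Fin n) k) ∈ I.radical := by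
    rw [← vanishingIdeal_zeroLocus_eq_radical (K := k), mem_vanishingIdeal_iff]
    intro y hy
    rw [mem_zeroLocus_iff] at hy
    by_cases h0 : y = 0
    · rw [h0]; simp
    · obtain ⟨F, hF, hF'⟩ := h y h0
      exfalso
      apply hF'
      have := hy F hF
      rwa [aeval_eq_eval] at this
  exact h1

variable {k : Type} [Field k] {N r : ℕ} (P : Ideal (MvPolynomial (Fin (N + 1)) k))

theorem comp_mul {G x : MvPolynomial (Fin (N + 1)) k} (hx : x.IsHomogeneous 1) (m : ℕ) :
    homogeneousComponent (m + 1) (G * x) = homogeneousComponent m G * x := by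
  induction G using MvPolynomial.induction_on' with
  | monomial s a =>
    have h1 : (monomial s a : MvPolynomial (Fin (N + 1)) k).IsHomogeneous s.degree :=
      isHomogeneous_monomial a rfl
    have h2 : (monomial s a * x).IsHomogeneous (s.degree + 1) := h1.mul hx
    rw [homogeneousComponent_of_mem (m := m + 1) (mem_homogeneousSubmodule _ _ |>.2 h2),
      homogeneousComponent_of_mem (m := m) (mem_homogeneousSubmodule _ _ |>.2 h1)]
    by_cases h : m = s.degree
    · rw [if_pos h, if_pos (by omega)]
    · rw [if_neg h, if_neg (by omega), zero_mul]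
  | add p q hp hq => rw [add_mul, map_add, hp, hq, map_add, add_mul]

/-- homogeneous relations -/
theorem homog_rel (hP : Homog P) (z : Fin r → MvPolynomial (Fin (N + 1)) k)
    (hz : ∀ i, (z i).IsHomogeneous 1) (F : MvPolynomial (Fin (N + 1)) k) (m : ℕ)
    (hF : F.IsHomogeneous (m + 1)) (h : F ∈ P ⊔ Ideal.span (Set.range z)) :
    ∃ a : Fin r → MvPolynomial (Fin (N + 1)) k, (∀ i, (a i).IsHomogeneous m) ∧
      F - ∑ i, a i * z i ∈ P := by
  obtain ⟨q, hq, s, hs, rfl⟩ := Submodule.mem_sup.1 h
  obtain ⟨c, rfl⟩ := (Ideal.mem_span_range_iff_exists_fun).1 hs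
  refine ⟨fun i => homogeneousComponent m (c i), fun i => homogeneousComponent_isHomogeneous _ _,
    ?_⟩
  have h1 : homogeneousComponent (m + 1) (q + ∑ i, c i * z i) = q + ∑ i, c i * z i :=
    homogeneousComponent_eq_self hF
  rw [← h1, map_add, map_sum]
  have h2 : ∀ i, homogeneousComponent (m + 1) (c i * z i) = homogeneousComponent m (c i) * z i :=
    fun i => comp_mul (hz i) m
  rw [Finset.sum_congr rfl fun i _ => h2 i, add_sub_cancel_right]
  exact hP q hq _

/-- The Nakayama lemma for cones. -/
theorem integral (hP : Homog P) (z : Fin r → MvPolynomial (Fin (N + 1)) k)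
    (hz : ∀ i, (z i).IsHomogeneous 1)
    (h : ∀ i, ∃ m : ℕ, X i ^ m ∈ P ⊔ Ideal.span (Set.range z)) : (kmap P z).IsIntegral := by
  choose m hm using h
  obtain ⟨M, hM⟩ : ∃ M, ∀ i, m i ≤ M := by
    obtain ⟨M, hM⟩ := Finite.exists_max m
    exact ⟨m M, hM⟩
  have h1 : ∀ i, X i ^ (M + 1) ∈ P ⊔ Ideal.span (Set.range z) := by
    intro i
    have h2 : (X i : MvPolynomial (Fin (N + 1)) k) ^ (M + 1) = X i ^ (M + 1 - m i) * X i ^ m i := by
      rw [← pow_add]
      congr 1
      have := hM i
      omega
    rw [h2]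
    exact Ideal.mul_mem_left _ _ (hm i)
  have h2 : ∀ i, ∃ a : Fin r → MvPolynomial (Fin (N + 1)) k, (∀ j, (a j).IsHomogeneous M) ∧
      X i ^ (M + 1) - ∑ j, a j * z j ∈ P := fun i =>
    homog_rel P hP z hz _ M (by
      have := (isHomogeneous_X k i).pow (M + 1)
      rwa [one_mul] at this) (h1 i)
  choose a ha haP using h2
  letI : Algebra (MvPolynomial (Fin r) k) (MvPolynomial (Fin (N + 1)) k ⧸ P) := (kmap P z).toAlgebra
  have hkX : ∀ (j : Fin r) (x : MvPolynomial (Fin (N + 1)) k),
      Ideal.Quotient.mk P (x * z j) = (X j : MvPolynomial (Fin r) k) • Ideal.Quotient.mk P x := by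
    intro j x
    rw [Algebra.smul_def, map_mul, mul_comm]
    congr 1
    change _ = kmap P z (X j)
    simp [kmap]
  have hkC : ∀ (c : k) (x : MvPolynomial (Fin (N + 1)) k),
      Ideal.Quotient.mk P (C c * x) = (C c : MvPolynomial (Fin r) k) • Ideal.Quotient.mk P x := by
    intro c x
    rw [Algebra.smul_def, map_mul]
    congr 1
    change _ = kmap P z (C c)
    simp [kmap]
  set D := (N + 1) * (M + 1) with hD
  set S : Set (MvPolynomial (Fin (N + 1)) k ⧸ P) :=
    (fun d : Fin (N + 1) →₀ ℕ => Ideal.Quotient.mk P (monomial d 1)) '' {d | d.degree ≤ D} with hS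
  set T : Submodule (MvPolynomial (Fin r) k) (MvPolynomial (Fin (N + 1)) k ⧸ P) :=
    Submodule.span _ S with hT
  have hSf : S.Finite := (Finsupp.finite_of_degree_le D).image _
  -- homogeneous elements are in `T`
  have key : ∀ n : ℕ, ∀ F : MvPolynomial (Fin (N + 1)) k, F.IsHomogeneous n →
      Ideal.Quotient.mk P F ∈ T := by
    intro n
    induction n using Nat.strong_induction_on with
    | _ n ih =>
      intro F hF
      have hmon : ∀ d : Fin (N + 1) →₀ ℕ, d.degree = n → Ideal.Quotient.mk P (monomial d 1) ∈ T := by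
        intro d hd
        by_cases hn : n ≤ D
        · exact Submodule.subset_span ⟨d, by
            change d.degree ≤ D
            omega, rfl⟩
        · obtain ⟨i, hi⟩ : ∃ i, M + 1 ≤ d i := by
            by_contra hcon
            push Not at hcon
            have h3 : d.degree ≤ ∑ i : Fin (N + 1), M := by
              rw [Finsupp.degree_eq_sum]
              exact Finset.sum_le_sum fun i _ => Nat.lt_succ_iff.1 (hcon i)
            rw [Finset.sum_const, Finset.card_univ, Fintype.card_fin, smul_eq_mul] at h3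
            rw [hD] at hn
            nlinarith
          have h3 : Finsupp.single i (M + 1) ≤ d := by
            rw [Finsupp.single_le_iff]
            exact hi
          obtain ⟨e, he⟩ := le_iff_exists_add.1 h3
          have h4 : (monomial d 1 : MvPolynomial (Fin (N + 1)) k) =
              X i ^ (M + 1) * monomial e 1 := by
            rw [he, X_pow_eq_monomial, monomial_mul, one_mul]
          have h5 : e.degree + (M + 1) = n := by
            rw [← hd, he, map_add, Finsupp.degree_single]
            ring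
          have h6 : Ideal.Quotient.mk P (monomial d 1) =
              Ideal.Quotient.mk P ((∑ j, a i j * z j) * monomial e 1) := by
            rw [h4, Ideal.Quotient.eq, ← sub_mul]
            exact Ideal.mul_mem_right _ _ (haP i)
          rw [h6, Finset.sum_mul, map_sum]
          refine Submodule.sum_mem _ fun j _ => ?_
          rw [mul_right_comm, hkX]
          refine Submodule.smul_mem _ _ (ih (M + e.degree) (by omega) _ ?_)
          exact (ha i j).mul (isHomogeneous_monomial 1 rfl)
      rw [F.as_sum, map_sum]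
      refine Submodule.sum_mem _ fun d hd => ?_
      have h3 : (monomial d (coeff d F) : MvPolynomial (Fin (N + 1)) k) =
          C (coeff d F) * monomial d 1 := by
        rw [C_mul_monomial, mul_one]
      rw [h3, hkC]
      refine Submodule.smul_mem _ _ (hmon d ?_)
      have h4 := hF (mem_support_iff.1 hd)
      rw [← h4, Finsupp.degree_eq_weight_one]
      rfl
  have htop : T = ⊤ := by
    rw [eq_top_iff]
    rintro x -
    obtain ⟨F, rfl⟩ := Ideal.Quotient.mk_surjective x
    rw [← sum_homogeneousComponent F, map_sum]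
    exact Submodule.sum_mem _ fun j _ => key j _ (homogeneousComponent_isHomogeneous _ _)
  have hfin : Module.Finite (MvPolynomial (Fin r) k) (MvPolynomial (Fin (N + 1)) k ⧸ P) :=
    ⟨⟨hSf.toFinset, by rw [Set.Finite.coe_toFinset]; exact htop⟩⟩
  have h3 : (kmap P z).Finite := hfin
  exact h3.to_isIntegral

end FIN64_

open FIN64_ in
theorem fin64_proof : Stmt_Fin := by
  intro ka Ω _ _ _ β N d P hPp hPh hdim z hz hy
  have h1 : ∀ i, ∃ m : ℕ, X i ^ m ∈ P ⊔ Ideal.span (Set.range z) := by
    refine pow_mem _ fun y hy0 => ?_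
    by_contra hcon
    push Not at hcon
    have h2 : ∀ F : MvPolynomial (Fin (N + 1)) ka, eval₂ β (fun i => β (y i)) F = β (eval y F) := by
      intro F
      have h3 : eval y F = eval₂ (RingHom.id ka) y F := rfl
      rw [h3, eval₂_comp_left, RingHom.comp_id]
      rfl
    obtain ⟨i, hi⟩ := hy (fun i => β (y i)) (by
      intro h0
      apply hy0
      funext i
      exact (map_eq_zero β).1 (congrFun h0 i)) (fun F hF => by
        rw [h2, hcon F (Ideal.mem_sup_left hF), map_zero])
    apply hi
    rw [h2, hcon _ (Ideal.mem_sup_right (Ideal.subset_span ⟨i, rfl⟩)), map_zero]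
  have h2 := integral P hPh z hz h1
  exact ⟨fun i => h2 _, inj d _ h2 hdim⟩

end Pool.Agent.FRM
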