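import Pool.Agent.FRM.Stmts

set_option autoImplicit false

noncomputable section

namespace Pool.Agent.FRM

open scoped Classical
open MvPolynomial Pool.Agent.LibDb3ab1 Pool.Agent.DC

namespace FINA_

theorem dim_le {A B : Type} [CommRing A] [CommRing B] (f : A →+* B) (hf : f.IsIntegral) :
    ringKrullDim B ≤ ringKrullDim A := by
  let : Algebra A B := f.toAlgebra
  have : Algebra.IsIntegral A B := ⟨hf⟩
  apply Order.krullDim_le_of_strictMono (fun P => PrimeSpectrum.comap (algebraMap A B) P)
  intro P Q hPQ
  exact Ideal.IsIntegral.comap_lt_comap (R := A) (I := P.asIdeal) (J := Q.asIdeal) hPQ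

theorem inj {k B : Type} [Field k] [CommRing B] (d : ℕ) (f : MvPolynomial (Fin (d + 1)) k →+* B)
    (hf : f.IsIntegral) (hdim : ringKrullDim B = (d + 1 : ℕ)) : Function.Injective f := by
  rw [injective_iff_map_eq_zero]
  intro r hr
  by_contra h0
  have h1 := ringKrullDim_quotient_succ_le_of_nonZeroDivisor (mem_nonZeroDivisors_of_ne_zero h0)
  rw [MvPolynomial.ringKrullDim_of_isNoetherianRing, ringKrullDim_eq_zero_of_field] at h1
  let g : (MvPolynomial (Fin (d + 1)) k ⧸ Ideal.span {r}) →+* B :=
    Ideal.Quotient.lift _ f (by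
      intro a ha
      obtain ⟨c, rfl⟩ := Ideal.mem_span_singleton.1 ha
      rw [map_mul, hr, zero_mul])
  have hg : g.IsIntegral := by
    apply RingHom.IsIntegral.tower_top (Ideal.Quotient.mk (Ideal.span {r})) g
    have : g.comp (Ideal.Quotient.mk (Ideal.span {r})) = f := by
      ext <;> simp [g]
    rw [this]
    exact hf
  have h2 := dim_le g hg
  rw [hdim] at h2
  have h3 : ((d + 1 : ℕ) : WithBot ℕ∞) + 1 ≤ 0 + ((Nat.card (Fin (d + 1)) : ℕ) : WithBot ℕ∞) :=
    le_trans (by gcongr) h1
  rw [zero_add, Nat.card_eq_fintype_card, Fintype.card_fin] at h3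
  have h4 : (((d + 1 + 1 : ℕ) : ℕ) : WithBot ℕ∞) ≤ ((d + 1 : ℕ) : WithBot ℕ∞) := by
    push_cast at h3 ⊢
    exact h3
  have h5 : d + 1 + 1 ≤ d + 1 := by exact_mod_cast h4
  omega

/-- finite separable extensions from generators -/
theorem finsep {K L : Type} [Field K] [Field L] [Algebra K L] (S : Set L) [Finite S]
    (hS : ∀ x ∈ S, ∃ f : Polynomial K, Polynomial.aeval x f = 0 ∧
      Polynomial.aeval x (Polynomial.derivative f) ≠ 0)
    (htop : IntermediateField.adjoin K S = ⊤) :
    FiniteDimensional K L ∧ Algebra.IsSeparable K L := by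
  have h1 : ∀ x ∈ S, IsIntegral K x ∧ IsSeparable K x := by
    intro x hx
    obtain ⟨f, hf, hf'⟩ := hS x hx
    have hf0 : f ≠ 0 := by
      rintro rfl
      simp at hf'
    have hint : IsIntegral K x := (isAlgebraic_iff_isIntegral).1 ⟨f, hf0, hf⟩
    refine ⟨hint, ?_⟩
    have hirr := minpoly.irreducible hint
    rw [IsSeparable, Polynomial.separable_iff_derivative_ne_zero hirr]
    intro hd
    obtain ⟨h, hh⟩ := minpoly.dvd K x hf
    apply hf'
    rw [hh, Polynomial.derivative_mul, hd, zero_mul, zero_add, map_mul, minpoly.aeval, zero_mul]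
  have hfin : FiniteDimensional K (IntermediateField.adjoin K S) :=
    IntermediateField.finiteDimensional_adjoin fun x hx => (h1 x hx).1
  have hsep : Algebra.IsSeparable K (IntermediateField.adjoin K S) :=
    (IntermediateField.isSeparable_adjoin_iff_isSeparable K L).2 fun x hx => (h1 x hx).2
  rw [htop] at hfin hsep
  exact ⟨Module.Finite.equiv (IntermediateField.topEquiv (F := K) (E := L)).toLinearEquiv,
    AlgEquiv.Algebra.isSeparable (IntermediateField.topEquiv (F := K) (E := L))⟩

/-- finiteness of the integral closure in a subring -/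
theorem closure_fin (A B : Type) [CommRing A] [IsDomain A] [IsNoetherianRing A]
    [IsIntegrallyClosed A] [CommRing B] [IsDomain B] [Algebra A B] (K L : Type) [Field K] [Field L]
    [Algebra A K] [IsFractionRing A K] [Algebra B L] [IsFractionRing B L] [Algebra K L]
    [Algebra A L] [IsScalarTower A B L] [IsScalarTower A K L] [FiniteDimensional K L]
    [Algebra.IsSeparable K L] : Module.Finite A (integralClosure A B) := by
  have h1 : IsNoetherian A (integralClosure A L) :=
    IsIntegralClosure.isNoetherian A K L (integralClosure A L)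
  let φ : integralClosure A B →ₗ[A] integralClosure A L :=
    { toFun := fun x => ⟨algebraMap B L x, x.2.map (IsScalarTower.toAlgHom A B L)⟩
      map_add' := by
        intro x y
        apply Subtype.ext
        simp
      map_smul' := by
        intro a x
        apply Subtype.ext
        simp [Algebra.smul_def, IsScalarTower.algebraMap_apply A B L] }
  have hφ : Function.Injective φ := by
    intro x y hxy
    apply Subtype.ext
    apply IsFractionRing.injective B L
    exact congrArg Subtype.val hxy
  have h2 : IsNoetherian A (integralClosure A B) := isNoetherian_of_injective φ hφ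
  exact Module.IsNoetherian.finite A _

section main

variable {k : Type} [Field k] (V : ValuationSubring k) {N r : ℕ}
  (P : Ideal (MvPolynomial (Fin (N + 1)) k)) (z : Fin r → MvPolynomial (Fin (N + 1)) V)

lemma zmap_eq : zmap V P z = (kmap P fun i => MvPolynomial.map V.subtype (z i)).comp
    (MvPolynomial.map V.subtype) := by
  apply MvPolynomial.ringHom_ext
  · intro c
    simp [zmap, kmap, vmap]
  · intro i
    simp [zmap, kmap, vmap]

lemma kmap_int (hz : ∀ i, (zmap V P z).IsIntegralElem (Ideal.Quotient.mk P (X i))) :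
    (kmap P fun i => MvPolynomial.map V.subtype (z i)).IsIntegral := by
  intro b
  obtain ⟨F, rfl⟩ := Ideal.Quotient.mk_surjective b
  induction F using MvPolynomial.induction_on with
  | C c =>
    have : Ideal.Quotient.mk P (C c) = (kmap P fun i => MvPolynomial.map V.subtype (z i)) (C c) := by
      simp [kmap]
    rw [this]
    exact RingHom.isIntegralElem_map _
  | add p q hp hq =>
    rw [map_add]
    exact RingHom.IsIntegralElem.add _ hp hq
  | mul_X p i hp =>
    rw [map_mul]
    refine RingHom.IsIntegralElem.mul _ hp ?_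
    have h := hz i
    rw [zmap_eq] at h
    exact RingHom.isIntegralElem.of_comp _ _ h

lemma vmap_z (hz : ∀ i, (zmap V P z).IsIntegralElem (Ideal.Quotient.mk P (X i)))
    (b : MvPolynomial (Fin (N + 1)) k ⧸ P) (hb : (vmap V P).IsIntegralElem b) :
    (zmap V P z).IsIntegralElem b := by
  let : Algebra (MvPolynomial (Fin r) V) (MvPolynomial (Fin (N + 1)) k ⧸ P) :=
    (zmap V P z).toAlgebra
  have h1 : ∀ G : MvPolynomial (Fin (N + 1)) V, vmap V P G ∈
      integralClosure (MvPolynomial (Fin r) V) (MvPolynomial (Fin (N + 1)) k ⧸ P) := by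
    intro G
    induction G using MvPolynomial.induction_on with
    | C c =>
      have : vmap V P (C c) = algebraMap (MvPolynomial (Fin r) V) _ (C c) := by
        change _ = zmap V P z (C c)
        simp [vmap, zmap]
      rw [this]
      exact Subalgebra.algebraMap_mem _ _
    | add p q hp hq =>
      rw [map_add]
      exact Subalgebra.add_mem _ hp hq
    | mul_X p i hp =>
      rw [map_mul]
      refine Subalgebra.mul_mem _ hp ?_
      have h2 : vmap V P (X i) = Ideal.Quotient.mk P (X i) := by simp [vmap]
      rw [h2]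
      exact hz i
  let v' : MvPolynomial (Fin (N + 1)) V →+*
      integralClosure (MvPolynomial (Fin r) V) (MvPolynomial (Fin (N + 1)) k ⧸ P) :=
    (vmap V P).codRestrict _ h1
  have h3 : (algebraMap (integralClosure (MvPolynomial (Fin r) V)
      (MvPolynomial (Fin (N + 1)) k ⧸ P)) (MvPolynomial (Fin (N + 1)) k ⧸ P)).comp v' =
      vmap V P := by
    ext <;> rfl
  have h4 : IsIntegral (integralClosure (MvPolynomial (Fin r) V)
      (MvPolynomial (Fin (N + 1)) k ⧸ P)) b := by
    rw [← h3] at hb
    exact RingHom.isIntegralElem.of_comp _ _ hb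
  exact isIntegral_trans b h4

lemma z_vmap (b : MvPolynomial (Fin (N + 1)) k ⧸ P) (hb : (zmap V P z).IsIntegralElem b) :
    (vmap V P).IsIntegralElem b :=
  RingHom.isIntegralElem.of_comp _ _ hb

end main

theorem mf (k : Type) [Field k] (V : ValuationSubring k) (hV : IsDiscreteValuationRing V) (N d : ℕ)
    (P : Ideal (MvPolynomial (Fin (N + 1)) k)) (hP : P.IsPrime)
    (hdim : ringKrullDim (MvPolynomial (Fin (N + 1)) k ⧸ P) = (d + 1 : ℕ))
    (z : Fin (d + 1) → MvPolynomial (Fin (N + 1)) V)
    (hz : ∀ i, (zmap V P z).IsIntegralElem (Ideal.Quotient.mk P (X i)))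
    (hsep : Sepz P fun i => MvPolynomial.map V.subtype (z i))
    (K L : Type) [Field K] [Field L] [Algebra (MvPolynomial (Fin (d + 1)) V) K]
    [IsFractionRing (MvPolynomial (Fin (d + 1)) V) K]
    [Algebra (MvPolynomial (Fin (N + 1)) k ⧸ P) L]
    [IsFractionRing (MvPolynomial (Fin (N + 1)) k ⧸ P) L]
    [IsDomain (MvPolynomial (Fin (N + 1)) k ⧸ P)]
    [Algebra (MvPolynomial (Fin (d + 1)) V) (MvPolynomial (Fin (N + 1)) k ⧸ P)]
    (hal : algebraMap (MvPolynomial (Fin (d + 1)) V) (MvPolynomial (Fin (N + 1)) k ⧸ P) =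
      zmap V P z) :
    Module.Finite (MvPolynomial (Fin (d + 1)) V)
      (integralClosure (MvPolynomial (Fin (d + 1)) V) (MvPolynomial (Fin (N + 1)) k ⧸ P)) := by
  have hkinj := FINA_.inj d _ (FINA_.kmap_int V P z hz) hdim
  have hzinj : Function.Injective (zmap V P z) := by
    rw [FINA_.zmap_eq]
    exact hkinj.comp (MvPolynomial.map_injective _ Subtype.val_injective)
  have : IsNoetherianRing (MvPolynomial (Fin (d + 1)) V) := inferInstance
  have : IsIntegrallyClosed (MvPolynomial (Fin (d + 1)) V) := inferInstance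
  let : Algebra (MvPolynomial (Fin (d + 1)) V) L :=
    ((algebraMap (MvPolynomial (Fin (N + 1)) k ⧸ P) L).comp (zmap V P z)).toAlgebra
  have : IsScalarTower (MvPolynomial (Fin (d + 1)) V) (MvPolynomial (Fin (N + 1)) k ⧸ P) L := by
    apply IsScalarTower.of_algebraMap_eq'
    rw [hal]
    rfl
  have hAL : Function.Injective (algebraMap (MvPolynomial (Fin (d + 1)) V) L) :=
    (IsFractionRing.injective (MvPolynomial (Fin (N + 1)) k ⧸ P) L).comp hzinj
  let : Algebra K L := (IsFractionRing.lift hAL : K →+* L).toAlgebra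
  have : IsScalarTower (MvPolynomial (Fin (d + 1)) V) K L := by
    apply IsScalarTower.of_algebraMap_eq
    intro a
    exact (IsFractionRing.lift_algebraMap hAL a).symm
  -- the embedding of `k`
  let jk : k →+* K := IsFractionRing.lift (A := V) (K := k)
    (g := (algebraMap (MvPolynomial (Fin (d + 1)) V) K).comp MvPolynomial.C)
    ((IsFractionRing.injective (MvPolynomial (Fin (d + 1)) V) K).comp (MvPolynomial.C_injective _ _))
  have hjk : (algebraMap K L).comp jk =
      ((algebraMap (MvPolynomial (Fin (N + 1)) k ⧸ P) L).comp (Ideal.Quotient.mk P)).comp C := by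
    apply IsLocalization.ringHom_ext (nonZeroDivisors V)
    ext v
    have h1 : jk (algebraMap V k v) = algebraMap (MvPolynomial (Fin (d + 1)) V) K (C v) :=
      IsFractionRing.lift_algebraMap _ v
    simp only [RingHom.comp_apply, h1]
    rw [← IsScalarTower.algebraMap_apply (MvPolynomial (Fin (d + 1)) V) K L,
      IsScalarTower.algebraMap_apply (MvPolynomial (Fin (d + 1)) V)
        (MvPolynomial (Fin (N + 1)) k ⧸ P) L, hal]
    congr 1
    simp [zmap, vmap]
  let j : MvPolynomial (Fin (d + 1)) k →+* K :=
    MvPolynomial.eval₂Hom jk fun i => algebraMap (MvPolynomial (Fin (d + 1)) V) K (X i)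
  have hj : (algebraMap K L).comp j = (algebraMap (MvPolynomial (Fin (N + 1)) k ⧸ P) L).comp
      (kmap P fun i => MvPolynomial.map V.subtype (z i)) := by
    apply MvPolynomial.ringHom_ext
    · intro c
      have h2 := congrArg (fun f : k →+* L => f c) hjk
      simpa [j, kmap] using h2
    · intro i
      simp only [RingHom.comp_apply, j, MvPolynomial.coe_eval₂Hom, MvPolynomial.eval₂_X]
      rw [← IsScalarTower.algebraMap_apply (MvPolynomial (Fin (d + 1)) V) K L,
        IsScalarTower.algebraMap_apply (MvPolynomial (Fin (d + 1)) V)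
        (MvPolynomial (Fin (N + 1)) k ⧸ P) L, hal]
      congr 1
      simp [zmap, vmap, kmap]
  let x : Fin (N + 1) → L := fun i =>
    algebraMap (MvPolynomial (Fin (N + 1)) k ⧸ P) L (Ideal.Quotient.mk P (X i))
  have hx : ∀ y ∈ Set.range x, ∃ f : Polynomial K, Polynomial.aeval y f = 0 ∧
      Polynomial.aeval y (Polynomial.derivative f) ≠ 0 := by
    rintro _ ⟨i, rfl⟩
    obtain ⟨f, hf, hf'⟩ := hsep i
    have key : ∀ g : Polynomial (MvPolynomial (Fin (d + 1)) k),
        Polynomial.aeval (x i) (g.map j) = algebraMap (MvPolynomial (Fin (N + 1)) k ⧸ P) L (g.eval₂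
          (kmap P fun i => MvPolynomial.map V.subtype (z i)) (Ideal.Quotient.mk P (X i))) := by
      intro g
      rw [Polynomial.aeval_def, Polynomial.eval₂_map, hj, Polynomial.hom_eval₂]
    refine ⟨f.map j, ?_, ?_⟩
    · rw [key, hf, map_zero]
    · rw [Polynomial.derivative_map, key]
      intro h
      exact hf' ((IsFractionRing.injective (MvPolynomial (Fin (N + 1)) k ⧸ P) L)
        (h.trans (map_zero _).symm))
  have htop : IntermediateField.adjoin K (Set.range x) = ⊤ := by
    rw [eq_top_iff]
    intro l _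
    have h3 : ∀ b : MvPolynomial (Fin (N + 1)) k ⧸ P,
        algebraMap (MvPolynomial (Fin (N + 1)) k ⧸ P) L b ∈
          IntermediateField.adjoin K (Set.range x) := by
      intro b
      obtain ⟨F, rfl⟩ := Ideal.Quotient.mk_surjective b
      induction F using MvPolynomial.induction_on with
      | C c =>
        have h4 := congrArg (fun f : k →+* L => f c) hjk
        simp only [RingHom.comp_apply] at h4
        rw [← h4]
        exact IntermediateField.algebraMap_mem _ _
      | add p q hp hq =>
        rw [map_add, map_add]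
        exact add_mem hp hq
      | mul_X p i hp =>
        rw [map_mul, map_mul]
        exact mul_mem hp (IntermediateField.subset_adjoin _ _ ⟨i, rfl⟩)
    obtain ⟨a, b, -, hab⟩ := IsFractionRing.div_surjective
      (A := MvPolynomial (Fin (N + 1)) k ⧸ P) l
    rw [← hab]
    exact div_mem (h3 a) (h3 b)
  obtain ⟨hfd, hse⟩ := FINA_.finsep (Set.range x) hx htop
  have := hfd
  have := hse
  exact FINA_.closure_fin (MvPolynomial (Fin (d + 1)) V) (MvPolynomial (Fin (N + 1)) k ⧸ P) K L

end FINA_

theorem fina_proof : Stmt_FinA := by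
  intro k _ V hV N d P hP hH hdim z hz1 hz hsep
  have := hP
  have : IsDomain (MvPolynomial (Fin (N + 1)) k ⧸ P) := Ideal.Quotient.isDomain P
  let : Algebra (MvPolynomial (Fin (d + 1)) V) (MvPolynomial (Fin (N + 1)) k ⧸ P) :=
    (zmap V P z).toAlgebra
  have hmf := FINA_.mf k V hV N d P hP hdim z hz hsep (FractionRing (MvPolynomial (Fin (d + 1)) V))
    (FractionRing (MvPolynomial (Fin (N + 1)) k ⧸ P)) rfl
  obtain ⟨m, s, hs⟩ := hmf.exists_fin
  choose b hb using fun i => Ideal.Quotient.mk_surjective (I := P)
    (s i : MvPolynomial (Fin (N + 1)) k ⧸ P)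
  refine ⟨m, b, ?_, ?_⟩
  · intro i
    rw [hb i]
    exact FINA_.z_vmap V P z _ (s i).2
  · intro F hF
    have h5 := FINA_.vmap_z V P z hz _ hF
    have h6 : (⟨Ideal.Quotient.mk P F, h5⟩ : integralClosure (MvPolynomial (Fin (d + 1)) V)
        (MvPolynomial (Fin (N + 1)) k ⧸ P)) ∈
        Submodule.span (MvPolynomial (Fin (d + 1)) V) (Set.range s) := by rw [hs]; trivial
    obtain ⟨c, hc⟩ := (Submodule.mem_span_range_iff_exists_fun
      (MvPolynomial (Fin (d + 1)) V)).1 h6
    refine ⟨c, ?_⟩
    have h7 := congrArg Subtype.val hc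
    simp only [AddSubmonoidClass.coe_finsetSum, Subalgebra.coe_smul] at h7
    rw [← h7]
    refine Finset.sum_congr rfl fun i _ => ?_
    rw [Algebra.smul_def, hb i]
    rfl

end Pool.Agent.FRM
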