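import Pool.Agent.FRM.Stmts

/-!
# FRM, module GAU: polynomials which are bounded by `1` on the polydisc
-/

set_option autoImplicit false

noncomputable section

namespace Pool.Agent.FRM

open scoped Classical
open MvPolynomial Pool.Agent.LibDb3ab1 Pool.Agent.DC

theorem gau_proof : Stmt_Gau := by
  intro W Om _ _ _ _ _ _ _ n F hF
  by_cases hF0 : F = 0
  · intro m
    exact ⟨0, by rw [hF0, map_zero, MvPolynomial.coeff_zero]⟩
  obtain ⟨m0, hm0, hmax⟩ := F.support.exists_max_image
    (fun m => ValuationRing.valuation W Om (F.coeff m)) (by rwa [MvPolynomial.support_nonempty])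
  have hc : F.coeff m0 ≠ 0 := MvPolynomial.mem_support_iff.mp hm0
  have hle : ∀ m, ∃ w : W, algebraMap W Om w = (F.coeff m0)⁻¹ * F.coeff m := by
    intro m
    rw [← ValuationRing.mem_integer_iff, Valuation.mem_integer_iff, map_mul, map_inv₀]
    by_cases hm : m ∈ F.support
    · have h1 := hmax m hm
      have h2 : ValuationRing.valuation W Om (F.coeff m0) ≠ 0 := by
        rw [Ne, map_eq_zero]
        exact hc
      rw [inv_mul_le_iff₀ (zero_lt_iff.mpr h2), mul_one]
      exact h1
    · rw [MvPolynomial.notMem_support_iff.mp hm, map_zero, mul_zero]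
      exact zero_le_one' _
  choose w hw using hle
  have hw0 : w m0 = 1 := by
    apply IsFractionRing.injective W Om
    rw [hw, map_one, inv_mul_cancel₀ hc]
  set G : MvPolynomial (Fin n) W := ∑ m ∈ F.support, monomial m (w m) with hG
  have hGc : ∀ m, G.coeff m = if m ∈ F.support then w m else 0 := by
    intro m
    rw [hG, MvPolynomial.coeff_sum]
    simp only [MvPolynomial.coeff_monomial]
    rw [Finset.sum_ite_eq' F.support m (fun m => w m)]
  have hGF : C (F.coeff m0) * MvPolynomial.map (algebraMap W Om) G = F := by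
    ext m
    rw [MvPolynomial.coeff_C_mul, MvPolynomial.coeff_map, hGc]
    by_cases hm : m ∈ F.support
    · rw [if_pos hm, hw, mul_inv_cancel_left₀ hc]
    · rw [if_neg hm, map_zero, mul_zero, MvPolynomial.notMem_support_iff.mp hm]
  have hG1 : G.coeff m0 = 1 := by rw [hGc, if_pos hm0, hw0]
  -- reduction
  have hne : MvPolynomial.map (IsLocalRing.residue W) G ≠ 0 := by
    intro h
    have h1 := congrArg (MvPolynomial.coeff m0) h
    rw [MvPolynomial.coeff_map, hG1, map_one, MvPolynomial.coeff_zero] at h1
    exact one_ne_zero h1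
  obtain ⟨zb, hzb⟩ : ∃ zb : Fin n → IsLocalRing.ResidueField W,
      eval zb (MvPolynomial.map (IsLocalRing.residue W) G) ≠ 0 := by
    by_contra hcon
    push Not at hcon
    apply hne
    apply MvPolynomial.funext
    intro x
    rw [hcon x, map_zero]
  have hsurj : ∀ i, ∃ z : W, IsLocalRing.residue W z = zb i :=
    fun i => IsLocalRing.residue_surjective (zb i)
  choose z hz using hsurj
  have hunit : IsUnit (eval z G) := by
    rw [← IsLocalRing.residue_ne_zero_iff_isUnit]
    have h1 : IsLocalRing.residue W (eval z G) =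
        eval zb (MvPolynomial.map (IsLocalRing.residue W) G) := by
      rw [MvPolynomial.eval_map, ← MvPolynomial.eval₂_id, MvPolynomial.hom_eval₂, RingHomCompTriple.comp_eq]
      congr 1
      funext i
      exact hz i
    rw [h1]
    exact hzb
  obtain ⟨u, hu⟩ := hunit
  obtain ⟨a, ha⟩ := hF z
  have hval : eval (fun i => algebraMap W Om (z i)) F = F.coeff m0 * algebraMap W Om (u : W) := by
    conv_lhs => rw [← hGF]
    rw [map_mul, eval_C, MvPolynomial.eval_map, hu]
    congr 1
    rw [← MvPolynomial.eval₂_id, MvPolynomial.hom_eval₂, RingHomCompTriple.comp_eq]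
  have hcW : algebraMap W Om (a * ((u⁻¹ : Wˣ) : W)) = F.coeff m0 := by
    rw [map_mul, ha, hval, mul_assoc, ← map_mul, Units.mul_inv, map_one, mul_one]
  intro m
  refine ⟨a * ((u⁻¹ : Wˣ) : W) * w m, ?_⟩
  rw [map_mul, hcW, hw, mul_inv_cancel_left₀ hc]

end Pool.Agent.FRM
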