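import Pool.Agent.FRM.StmtsB

/-!
# GPR: prime ideals over an algebraically closed field remain prime
-/

set_option autoImplicit false
set_option linter.style.haveILetI false

noncomputable section

namespace Pool.Agent.FRM

open scoped Classical
open MvPolynomial

namespace GPR_

section coord

variable {k K : Type} [Field k] [Field K] [Algebra k K] {N : ℕ} {ι : Type}
  (e : Module.Basis ι k K)

/-- The coordinates of a polynomial over `K` with respect to a basis of `K` over `k`. -/
def co (i : ι) : MvPolynomial (Fin N) K → MvPolynomial (Fin N) k := fun F =>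
  ∑ m ∈ F.support, monomial m (e.repr (F.coeff m) i)

theorem coeff_co (i : ι) (F : MvPolynomial (Fin N) K) (m : Fin N →₀ ℕ) :
    (co e i F).coeff m = e.repr (F.coeff m) i := by
  unfold co
  rw [coeff_sum]
  simp only [coeff_monomial]
  rw [Finset.sum_ite_eq']
  split_ifs with h
  · rfl
  · rw [mem_support_iff, not_not] at h
    rw [h]
    simp

theorem co_add (i : ι) (F G : MvPolynomial (Fin N) K) :
    co e i (F + G) = co e i F + co e i G := by
  ext m
  simp [coeff_co]

theorem co_zero (i : ι) : co e i (0 : MvPolynomial (Fin N) K) = 0 := by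
  ext m
  simp [coeff_co]

theorem co_monomial_mul (i : ι) (F : MvPolynomial (Fin N) K) (s : Fin N →₀ ℕ) (a : k) :
    co e i (F * monomial s (algebraMap k K a)) = co e i F * monomial s a := by
  ext m
  rw [coeff_co, coeff_mul_monomial', coeff_mul_monomial']
  split_ifs with h
  · rw [coeff_co, mul_comm, ← Algebra.smul_def, map_smul]
    simp [mul_comm]
  · simp

theorem co_mul_map (i : ι) (F : MvPolynomial (Fin N) K) (f : MvPolynomial (Fin N) k) :
    co e i (F * MvPolynomial.map (algebraMap k K) f) = co e i F * f := by
  induction f using MvPolynomial.induction_on' with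
  | monomial s a =>
    rw [map_monomial, co_monomial_mul]
  | add p q hp hq =>
    rw [map_add, mul_add, co_add, hp, hq, mul_add]

theorem eq_sum (F : MvPolynomial (Fin N) K) :
    ∃ s : Finset ι, F = ∑ i ∈ s, C (e i) * MvPolynomial.map (algebraMap k K) (co e i F) := by
  refine ⟨F.support.biUnion fun m => (e.repr (F.coeff m)).support, ?_⟩
  ext m
  rw [coeff_sum]
  simp only [coeff_C_mul, coeff_map, coeff_co]
  by_cases hm : m ∈ F.support
  · conv_lhs => rw [← e.linearCombination_repr (F.coeff m)]
    rw [Finsupp.linearCombination_apply, Finsupp.sum]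
    refine (Finset.sum_subset (Finset.subset_biUnion_of_mem
      (fun m => (e.repr (F.coeff m)).support) hm) ?_).trans ?_
    · intro i _ hi
      rw [Finsupp.notMem_support_iff] at hi
      rw [hi, zero_smul]
    · refine Finset.sum_congr rfl fun i _ => ?_
      rw [Algebra.smul_def, mul_comm]
  · rw [mem_support_iff, not_not] at hm
    rw [hm]
    simp

/-- Membership in the extended ideal. -/
theorem mem_map_iff (P : Ideal (MvPolynomial (Fin N) k)) (F : MvPolynomial (Fin N) K) :
    F ∈ P.map (MvPolynomial.map (σ := Fin N) (algebraMap k K)) ↔ ∀ i, co e i F ∈ P := by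
  constructor
  · intro h
    refine Submodule.span_induction (p := fun F _ => ∀ i, co e i F ∈ P) ?_ ?_ ?_ ?_ h
    · rintro _ ⟨f, hf, rfl⟩ i
      rw [← one_mul (MvPolynomial.map (algebraMap k K) f), co_mul_map]
      exact P.mul_mem_left _ hf
    · intro i
      rw [co_zero]
      exact P.zero_mem
    · intro F G _ _ hF hG i
      rw [co_add]
      exact P.add_mem (hF i) (hG i)
    · intro G F _ hF i
      obtain ⟨s, hs⟩ := eq_sum e F
      have h1 : G • F = ∑ j ∈ s, (G * C (e j)) * MvPolynomial.map (algebraMap k K) (co e j F) := by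
        rw [smul_eq_mul]
        conv_lhs => rw [hs]
        rw [Finset.mul_sum]
        exact Finset.sum_congr rfl fun _ _ => (mul_assoc _ _ _).symm
      have h2 : ∀ (s : Finset ι), co e i (∑ j ∈ s, (G * C (e j)) *
          MvPolynomial.map (algebraMap k K) (co e j F)) ∈ P := by
        intro s
        induction s using Finset.induction_on with
        | empty => rw [Finset.sum_empty, co_zero]; exact P.zero_mem
        | insert a s ha ih =>
          rw [Finset.sum_insert ha, co_add, co_mul_map]
          exact P.add_mem (P.mul_mem_left _ (hF a)) ih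
      rw [h1]
      exact h2 s
  · intro h
    obtain ⟨s, hs⟩ := eq_sum e F
    rw [hs]
    exact Ideal.sum_mem _ fun i _ => Ideal.mul_mem_left _ _ (Ideal.mem_map_of_mem _ (h i))

theorem eval_co (i : ι) (y : Fin N → k) (F : MvPolynomial (Fin N) K) :
    eval y (co e i F) = e.repr (eval (fun l => algebraMap k K (y l)) F) i := by
  induction F using MvPolynomial.induction_on' with
  | monomial s a =>
    have h1 : monomial s a = C a * MvPolynomial.map (algebraMap k K) (monomial s (1 : k)) := by
      rw [map_monomial, map_one, C_mul_monomial, mul_one]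
    rw [h1, co_mul_map, map_mul, map_mul, eval_C, eval_map, eval₂_monomial,
      RingHom.map_one (algebraMap k K), one_mul]
    have h2 : co e i (C a : MvPolynomial (Fin N) K) = C (e.repr a i) := by
      ext m
      rw [coeff_co, coeff_C, coeff_C]
      split_ifs <;> simp
    have h3 : (s.prod fun n e => algebraMap k K (y n) ^ e) =
        algebraMap k K (s.prod fun n e => y n ^ e) := by
      rw [Finsupp.prod, Finsupp.prod, map_prod]
      simp
    rw [h2, h3, eval_C, eval_monomial, one_mul, mul_comm a, ← Algebra.smul_def, map_smul,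
      Finsupp.smul_apply, smul_eq_mul, mul_comm]
  | add p q hp hq =>
    rw [co_add, map_add, map_add, hp, hq, map_add, Finsupp.add_apply]

end coord

/-- Contraction of the extended ideal. -/
theorem comap_map {k K : Type} [Field k] [Field K] (μ : k →+* K) {N : ℕ}
    (P : Ideal (MvPolynomial (Fin N) k)) :
    (P.map (MvPolynomial.map μ)).comap (MvPolynomial.map μ) = P := by
  letI := μ.toAlgebra
  refine le_antisymm ?_ Ideal.le_comap_map
  intro f hf
  let e := Module.Basis.ofVectorSpace k K
  have h1 := (mem_map_iff e P _).1 hf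
  have h2 : ∃ i, e.repr 1 i ≠ 0 := by
    by_contra h
    push Not at h
    have h3 : e.repr 1 = 0 := Finsupp.ext h
    rw [map_eq_zero_iff _ e.repr.injective] at h3
    exact one_ne_zero h3
  obtain ⟨i, hi⟩ := h2
  have h3 := h1 i
  change co e i (MvPolynomial.map (algebraMap k K) f) ∈ P at h3
  rw [← one_mul (MvPolynomial.map (algebraMap k K) f), co_mul_map] at h3
  have h4 : co e i (1 : MvPolynomial (Fin N) K) = C (e.repr 1 i) := by
    ext m
    rw [coeff_co, coeff_C, coeff_one]
    split_ifs <;> simp
  rw [h4] at h3
  have h5 := P.mul_mem_left (C (e.repr 1 i)⁻¹) h3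
  rwa [← mul_assoc, ← C_mul, inv_mul_cancel₀ hi, C_1, one_mul] at h5

end GPR_

open GPR_

/-- Prime ideals over an algebraically closed field remain prime. -/
theorem gpr_proof : Stmt_Gpr := by
  intro k K _ _ _ μ N P hP
  letI := μ.toAlgebra
  let e := Module.Basis.ofVectorSpace k K
  haveI := hP
  -- points
  have hpt : ∀ f : MvPolynomial (Fin N) k, f ∉ P → ∃ y : Fin N → k,
      (∀ g ∈ P, eval y g = 0) ∧ eval y f ≠ 0 := by
    intro f hf
    by_contra h
    push Not at h
    apply hf
    rw [← IsPrime.vanishingIdeal_zeroLocus (K := k) P, mem_vanishingIdeal_iff]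
    intro y hy
    have hh : ∀ g : MvPolynomial (Fin N) k, aeval y g = eval y g := fun g => by
      rw [← coe_aeval_eq_eval]
      rfl
    rw [hh]
    exact h y (fun g hg => by
      rw [← hh]
      exact (mem_zeroLocus_iff.1 hy) g hg)
  have hev : ∀ y : Fin N → k, (∀ g ∈ P, eval y g = 0) →
      ∀ F ∈ P.map (MvPolynomial.map μ), eval (fun l => μ (y l)) F = 0 := by
    intro y hy F hF
    have h1 := (mem_map_iff e P F).1 hF
    have h2 : e.repr (eval (fun l => μ (y l)) F) = 0 := by
      ext i
      have h3 := eval_co e i y F
      rw [hy _ (h1 i)] at h3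
      exact h3.symm
    rwa [map_eq_zero_iff _ e.repr.injective] at h2
  constructor
  · intro htop
    obtain ⟨y, hy, -⟩ := hpt 1 (fun h => hP.ne_top ((Ideal.eq_top_iff_one P).2 h))
    have h1 := hev y hy 1 (by rw [htop]; exact Submodule.mem_top)
    rw [map_one] at h1
    exact one_ne_zero h1
  · intro F G hFG
    by_contra h
    push Not at h
    obtain ⟨hF, hG⟩ := h
    have hF' := fun h => hF ((mem_map_iff e P F).2 h)
    have hG' := fun h => hG ((mem_map_iff e P G).2 h)
    have hF'' : ∃ i, co e i F ∉ P := by
      by_contra h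
      push Not at h
      exact hF' h
    have hG'' : ∃ i, co e i G ∉ P := by
      by_contra h
      push Not at h
      exact hG' h
    obtain ⟨i, hi⟩ := hF''
    obtain ⟨j, hj⟩ := hG''
    obtain ⟨y, hy, hne⟩ := hpt (co e i F * co e j G) (fun h => (hP.mem_or_mem h).elim hi hj)
    have h1 := hev y hy _ hFG
    rw [map_mul] at h1
    rw [map_mul, eval_co, eval_co] at hne
    rcases mul_eq_zero.1 h1 with h2 | h2
    · apply hne
      change e.repr (eval (fun l => μ (y l)) F) i * _ = 0
      rw [h2]
      simp
    · apply hne
      change _ * e.repr (eval (fun l => μ (y l)) G) j = 0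
      rw [h2]
      simp

end Pool.Agent.FRM
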