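import Pool.Agent.FRM.StmtsB
import Pool.Agent.FRM.GPR

/-!
# GPS: geometrically prime ideals remain prime over every field
-/

set_option autoImplicit false
set_option linter.style.haveILetI false

noncomputable section

namespace Pool.Agent.FRM

open scoped Classical
open MvPolynomial

/-- Geometrically prime ideals remain prime after every extension of the field. -/
theorem gps_proof (hGpr : Stmt_Gpr) : Stmt_Gps := by
  intro L _ N P hP K _ μ
  letI : Algebra L K := μ.toAlgebra
  letI : Algebra L (AlgebraicClosure K) := ((algebraMap K (AlgebraicClosure K)).comp μ).toAlgebra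
  let φ : AlgebraicClosure L →ₐ[L] AlgebraicClosure K := IsAlgClosed.lift
  have h1 := hGpr (AlgebraicClosure L) (AlgebraicClosure K) φ.toRingHom N _ hP
  have h2 : (P.map (MvPolynomial.map (σ := Fin N) (algebraMap L (AlgebraicClosure L)))).map
      (MvPolynomial.map φ.toRingHom) =
      (P.map (MvPolynomial.map μ)).map
        (MvPolynomial.map (algebraMap K (AlgebraicClosure K))) := by
    rw [Ideal.map_map, Ideal.map_map]
    congr 1
    ext x
    · simp only [RingHom.coe_comp, Function.comp_apply, map_C]
      congr 2
      exact φ.commutes x
    · simp
  rw [h2] at h1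
  rw [← GPR_.comap_map (algebraMap K (AlgebraicClosure K)) (P.map (MvPolynomial.map μ))]
  exact Ideal.comap_isPrime _ _

end Pool.Agent.FRM
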