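import Pool.Agent.FRM.Stmts

/-!
# FRM, module HLA: the first consequence of closeness
-/

set_option autoImplicit false

noncomputable section

namespace Pool.Agent.FRM

open scoped Classical
open MvPolynomial Pool.Agent.LibDb3ab1 Pool.Agent.DC

namespace HLA_

lemma integral_of_pow {R A : Type} [CommRing R] [CommRing A] (f : R →+* A) (x : A) (n : ℕ)
    (hn : 0 < n) (h : f.IsIntegralElem (x ^ n)) : f.IsIntegralElem x := by
  algebraize [f]
  have h1 : IsIntegral R (x ^ n) := h
  exact IsIntegral.of_pow hn h1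

lemma vmap_red {N : ℕ} {k : Type} [Field k] (V : ValuationSubring k)
    (P : Ideal (MvPolynomial (Fin (N + 1)) k)) (F : MvPolynomial (Fin (N + 1)) ℤ) :
    vmap V P (red V F) = Ideal.Quotient.mk P (red k F) := by
  have h : MvPolynomial.map V.subtype (red V F) = red k F := by
    rw [red, red, MvPolynomial.map_map]
    congr 1
  rw [vmap, RingHom.comp_apply, h]

lemma vmap_C {N : ℕ} {k : Type} [Field k] (V : ValuationSubring k)
    (P : Ideal (MvPolynomial (Fin (N + 1)) k)) (t : V) :
    vmap V P (C t) = Ideal.Quotient.mk P (C (t : k)) := by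
  rw [vmap, RingHom.comp_apply, MvPolynomial.map_C]
  rfl

end HLA_

open HLA_ in
theorem hla_proof : Stmt_Hla := by
  intro p N d _ J E k _ _ V t P z hE j
  have hp : 0 < p := (Fact.out : p.Prime).pos
  have ht : (t : k) ≠ 0 := by
    intro h
    exact hE.t_ne (Subtype.ext h)
  apply integral_of_pow _ _ p hp
  have hkey : (Ideal.Quotient.mk P (C ((t : k)⁻¹) * red k (E.g j))) ^ p =
      vmap V P (C t) * (Ideal.Quotient.mk P
        (C (((t : k)⁻¹) ^ (p + 1)) * (red k (E.g j) ^ p + C ((t : k) ^ p) * red k (E.g₁ j)))) -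
      vmap V P (red V (E.g₁ j)) := by
    rw [vmap_red, vmap_C, ← map_pow, ← map_mul, ← map_sub]
    apply congrArg
    have h1 : (C ((t : k)⁻¹) : MvPolynomial (Fin (N + 1)) k) * C (t : k) = 1 := by
      rw [← C_mul, inv_mul_cancel₀ ht, C_1]
    have h2 : (C ((t : k)⁻¹) : MvPolynomial (Fin (N + 1)) k) ^ p * C (t : k) ^ p = 1 := by
      rw [← mul_pow, h1, one_pow]
    rw [C_pow, C_pow, mul_pow, pow_succ]
    generalize (C ((t : k)⁻¹) : MvPolynomial (Fin (N + 1)) k) = a at h1 h2 ⊢
    generalize (C (t : k) : MvPolynomial (Fin (N + 1)) k) = b at h1 h2 ⊢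
    generalize red k (E.g j) ^ p = G
    generalize red k (E.g₁ j) = G1
    linear_combination (-(a ^ p * G + G1)) * h1 - (a * b) * G1 * h2
  rw [hkey]
  apply RingHom.IsIntegralElem.sub
  · apply RingHom.IsIntegralElem.mul
    · exact RingHom.isIntegralElem_map _
    · exact hE.close j
  · exact RingHom.isIntegralElem_map _

end Pool.Agent.FRM
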