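import Pool.Agent.FRM.Stmts

/-!
# Squad FRM: module HLB (closeness for binomials)
-/

set_option autoImplicit false

noncomputable section

namespace Pool.Agent.FRM

open scoped Classical
open MvPolynomial Pool.Agent.LibDb3ab1 Pool.Agent.DC

namespace HLB_

/-- the factor `h` -/
lemma exists_h (p N : ℕ) [Fact p.Prime] (α β : Fin (N + 1) →₀ ℕ)
    (g g₁ : MvPolynomial (Fin (N + 1)) ℤ) (hg : g = monomial α 1 - monomial β 1)
    (hg₁ : C (p : ℤ) * g₁ = expand p g - g ^ p) :
    ∃ h : MvPolynomial (Fin (N + 1)) ℤ, g₁ = h * g := by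
  have hp : p.Prime := Fact.out
  have hp0 : (C (p : ℤ) : MvPolynomial (Fin (N + 1)) ℤ) ≠ 0 := by
    rw [Ne, C_eq_zero]
    exact_mod_cast hp.ne_zero
  set A : MvPolynomial (Fin (N + 1)) ℤ := monomial α 1 with hA
  set B : MvPolynomial (Fin (N + 1)) ℤ := monomial β 1 with hB
  have hex : expand p g = A ^ p - B ^ p := by
    rw [hg, map_sub, hA, hB, expand_monomial, expand_monomial, monomial_pow, monomial_pow]
    simp
  obtain ⟨Q, hQ⟩ : ∃ Q, A ^ p - B ^ p - g ^ p = g * Q := by
    obtain ⟨Q₁, h1⟩ := sub_dvd_pow_sub_pow A B p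
    refine ⟨Q₁ - g ^ (p - 1), ?_⟩
    have h2 : g ^ p = g * g ^ (p - 1) := by
      rw [← pow_succ']
      congr 1
      have := hp.pos
      omega
    rw [h1, h2, hg]
    ring
  by_cases hab : α = β
  · have hg0 : g = 0 := by
      rw [hg, hA, hB, hab, sub_self]
    refine ⟨0, ?_⟩
    rw [hg0, mul_zero]
    rw [hg0, map_zero, zero_pow hp.ne_zero, sub_zero] at hg₁
    exact (mul_eq_zero.1 hg₁).resolve_left hp0
  · have hgn : MvPolynomial.map (Int.castRingHom (ZMod p)) g ≠ 0 := by
      rw [hg, map_sub, hA, hB, map_monomial, map_monomial, map_one]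
      intro h
      have h1 := congrArg (coeff α) h
      rw [coeff_sub, coeff_monomial, coeff_monomial, coeff_zero, if_pos rfl,
        if_neg (fun h => hab h.symm)] at h1
      simp at h1
    have hQ0 : MvPolynomial.map (Int.castRingHom (ZMod p)) Q = 0 := by
      have h1 := congrArg (MvPolynomial.map (Int.castRingHom (ZMod p))) hQ
      have h2 : MvPolynomial.map (Int.castRingHom (ZMod p)) (A ^ p - B ^ p - g ^ p) = 0 := by
        rw [map_sub, map_sub, map_pow, map_pow, map_pow, hg, map_sub, sub_pow_char, sub_self]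
      rw [h2, map_mul] at h1
      exact (mul_eq_zero.1 h1.symm).resolve_left hgn
    obtain ⟨h, hh⟩ := (C_dvd_iff_zmod p Q).2 hQ0
    refine ⟨h, ?_⟩
    have h3 : C (p : ℤ) * g₁ = C (p : ℤ) * (h * g) := by
      rw [hg₁, hex, hQ, hh]
      ring
    exact mul_left_cancel₀ hp0 h3

end HLB_

theorem hlb_proof (hHLA : Stmt_Hla) : Stmt_Hlb := by
  intro p N d _ J E k _ _ V t P z hcl j hb
  obtain ⟨α, β, hg⟩ := hb
  obtain ⟨h, hh⟩ := HLB_.exists_h p N α β (E.g j) (E.g₁ j) hg (E.ghost j)
  have h1 := hHLA p N d J E k V t P z hcl j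
  have h2 := hcl.close j
  have ht : (t : k) ≠ 0 := by
    intro h0
    exact hcl.t_ne (Subtype.ext h0)
  have h3 : (vmap V P).IsIntegralElem (Ideal.Quotient.mk P (red k h)) := by
    have e : Ideal.Quotient.mk P (red k h) = vmap V P (red V h) := by
      unfold vmap
      rw [RingHom.comp_apply, MvPolynomial.map_map]
      have e1 : V.subtype.comp (Int.castRingHom V) = Int.castRingHom k := RingHom.ext_int _ _
      rw [e1]
    rw [e]
    exact RingHom.isIntegralElem_map _
  have h4 := h2.sub (vmap V P) (h3.mul (vmap V P) h1)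
  have e : Ideal.Quotient.mk P (C (((t : k)⁻¹) ^ (p + 1)) * red k (E.g j) ^ p) =
      Ideal.Quotient.mk P (C (((t : k)⁻¹) ^ (p + 1)) *
        (red k (E.g j) ^ p + C ((t : k) ^ p) * red k (E.g₁ j))) -
      Ideal.Quotient.mk P (red k h) * Ideal.Quotient.mk P (C ((t : k)⁻¹) * red k (E.g j)) := by
    rw [← map_mul, ← map_sub]
    congr 1
    have e2 : red k (E.g₁ j) = red k h * red k (E.g j) := by
      rw [hh]
      exact map_mul (MvPolynomial.map (Int.castRingHom k)) h (E.g j)
    have e3 : (C (((t : k)⁻¹) ^ (p + 1)) : MvPolynomial (Fin (N + 1)) k) * C ((t : k) ^ p) =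
        C ((t : k)⁻¹) := by
      rw [← C_mul, pow_succ, mul_comm (((t : k)⁻¹) ^ p), mul_assoc, ← mul_pow,
        inv_mul_cancel₀ ht, one_pow, mul_one]
    rw [e2, mul_add, ← mul_assoc, e3]
    ring
  rw [e]
  exact h4

end Pool.Agent.FRM
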