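import Pool.Agent.FRM.Stmts

/-!
Squad FRM, module HLC: the consequence of closeness for linear trinomials.
-/

set_option autoImplicit false

noncomputable section

namespace Pool.Agent.FRM

open scoped Classical
open MvPolynomial Pool.Agent.LibDb3ab1 Pool.Agent.DC

namespace HLC_

lemma ghost1 (p : ℕ) (hp : p.Prime) {N : ℕ} (a b c : Fin (N + 1))
    (g g₁ S : MvPolynomial (Fin (N + 1)) ℤ) (hg : g = X a + X b - X c)
    (hgh : C (p : ℤ) * g₁ = expand p g - g ^ p)
    (hS : C (p : ℤ) * S = X a ^ p + X b ^ p - (X a + X b) ^ p) :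
    ∃ h : MvPolynomial (Fin (N + 1)) ℤ, g₁ = S + g * h := by
  obtain ⟨r, hr⟩ := exists_add_pow_prime_eq hp (X a + X b - X c : MvPolynomial (Fin (N + 1)) ℤ)
    (X c)
  have hpz : (C (p : ℤ) : MvPolynomial (Fin (N + 1)) ℤ) ≠ 0 := by
    rw [Ne, C_eq_zero]
    exact_mod_cast hp.ne_zero
  refine ⟨X c * r, mul_left_cancel₀ hpz ?_⟩
  have h1 : expand p (X a + X b - X c : MvPolynomial (Fin (N + 1)) ℤ) =
      X a ^ p + X b ^ p - X c ^ p := by
    simp
  have h2 : (X a + X b - X c + X c : MvPolynomial (Fin (N + 1)) ℤ) = X a + X b := by ring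
  have h3 : (C (p : ℤ) : MvPolynomial (Fin (N + 1)) ℤ) = (p : MvPolynomial (Fin (N + 1)) ℤ) := by
    simp
  rw [h2] at hr
  rw [mul_add, hgh, hS, hg, h1, hr, h3]
  ring

end HLC_

open HLC_

theorem hlc_proof (hHLA : Stmt_Hla) : Stmt_Hlc := by
  intro p N d hp J E k _ _ V t P z hcl j a b c hg S hS
  obtain ⟨h, hg1⟩ := ghost1 p hp.out a b c (E.g j) (E.g₁ j) S hg (E.ghost j) hS
  have hA := hHLA p N d J E k V t P z hcl j
  have hc := hcl.close j
  have ht : (t : k) ≠ 0 := fun h0 => hcl.t_ne (Subtype.ext h0)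
  have hh : (vmap V P).IsIntegralElem (Ideal.Quotient.mk P (red k h)) := by
    have h1 : Ideal.Quotient.mk P (red k h) = vmap V P (red V h) := by
      unfold vmap red
      rw [RingHom.comp_apply, MvPolynomial.map_map]
      congr 2
    rw [h1]
    exact (vmap V P).isIntegralElem_map
  have hneg : (-1 : MvPolynomial (Fin (N + 1)) k) ^ p = -1 := by
    have h1 : (-1 : k) ^ p = -1 := neg_one_pow_char k p
    calc (-1 : MvPolynomial (Fin (N + 1)) k) ^ p = (C (-1 : k)) ^ p := by simp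
      _ = C ((-1 : k) ^ p) := by rw [C_pow]
      _ = -1 := by rw [h1]; simp
  have hgr : red k (E.g j) = X a + X b - X c := by
    rw [hg]
    simp [red]
  have key : C (((t : k)⁻¹) ^ (p + 1)) *
      ((X c - X a - X b) ^ p - C ((t : k) ^ p) * red k S) =
      -(C (((t : k)⁻¹) ^ (p + 1)) * (red k (E.g j) ^ p + C ((t : k) ^ p) * red k (E.g₁ j))) +
      (C ((t : k)⁻¹) * red k (E.g j)) * red k h := by
    have h1 : (X c - X a - X b : MvPolynomial (Fin (N + 1)) k) ^ p = -(red k (E.g j) ^ p) := by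
      rw [hgr, show (X c - X a - X b : MvPolynomial (Fin (N + 1)) k) =
        (-1) * (X a + X b - X c) by ring, mul_pow, hneg]
      ring
    have h2 : red k (E.g₁ j) = red k S + red k (E.g j) * red k h := by
      rw [hg1]
      simp [red]
    have h3 : (C (((t : k)⁻¹) ^ (p + 1)) * C ((t : k) ^ p) : MvPolynomial (Fin (N + 1)) k) =
        C ((t : k)⁻¹) := by
      have h4 : ((t : k)⁻¹) ^ (p + 1) * (t : k) ^ p = (t : k)⁻¹ := by
        rw [pow_succ, mul_right_comm, ← mul_pow, inv_mul_cancel₀ ht, one_pow, one_mul]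
      rw [← C_mul, h4]
    rw [h1, h2]
    calc _ = -(C (((t : k)⁻¹) ^ (p + 1)) * (red k (E.g j) ^ p + C ((t : k) ^ p) *
          (red k S + red k (E.g j) * red k h))) +
        (C (((t : k)⁻¹) ^ (p + 1)) * C ((t : k) ^ p)) * red k (E.g j) * red k h := by ring
      _ = _ := by rw [h3]
  rw [key, map_add, map_neg, map_mul]
  exact (hc.neg).add _ (RingHom.IsIntegralElem.mul _ hA hh)

end Pool.Agent.FRM
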