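import Pool.Agent.FRM.Stmts

/-!
Module HOMA of the squad FRM: the integral closure of `V[x]` in `k[x]/P` is graded.
-/

set_option autoImplicit false

noncomputable section

namespace Pool.Agent.FRM

open MvPolynomial Pool.Agent.LibDb3ab1 Pool.Agent.DC

namespace HOMA_

theorem prodlem {S ι : Type} [CommRing S] (s : Finset ι) (c : ι → S) (e : ι → ℕ) :
    ∏ i ∈ s, (Polynomial.C (c i) * Polynomial.X) ^ e i =
      (∏ i ∈ s, Polynomial.C (c i) ^ e i) * Polynomial.X ^ (∑ i ∈ s, e i) := by
  rw [← Finset.prod_pow_eq_pow_sum, ← Finset.prod_mul_distrib]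
  exact Finset.prod_congr rfl fun i _ => mul_pow _ _ _

section
variable {N : ℕ} {k : Type} [Field k] (P : Ideal (MvPolynomial (Fin (N + 1)) k))

/-- `F(x) ↦ F(x T)` -/
def lam : MvPolynomial (Fin (N + 1)) k →+*
    Polynomial (MvPolynomial (Fin (N + 1)) k ⧸ P) :=
  MvPolynomial.eval₂Hom (Polynomial.C.comp ((Ideal.Quotient.mk P).comp MvPolynomial.C))
    (fun i => Polynomial.C (Ideal.Quotient.mk P (X i)) * Polynomial.X)

theorem lam_monomial (d : Fin (N + 1) →₀ ℕ) (a : k) :
    lam P (monomial d a) =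
      Polynomial.C (Ideal.Quotient.mk P (monomial d a)) * Polynomial.X ^ d.degree := by
  have h0 : lam P (monomial d a) = Polynomial.C (Ideal.Quotient.mk P (C a)) *
      ∏ i ∈ d.support, (Polynomial.C (Ideal.Quotient.mk P (X i)) * Polynomial.X) ^ d i := by
    unfold lam
    rw [coe_eval₂Hom, eval₂_monomial]
    rfl
  have h1 : (monomial d a : MvPolynomial (Fin (N + 1)) k) = C a * ∏ i ∈ d.support, X i ^ d i := by
    rw [monomial_eq]; rfl
  have h2 : ∏ i ∈ d.support, (Polynomial.C (Ideal.Quotient.mk P (X i)) *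
      (Polynomial.X : Polynomial (MvPolynomial (Fin (N + 1)) k ⧸ P))) ^ d i =
      (∏ i ∈ d.support, Polynomial.C (Ideal.Quotient.mk P (X i)) ^ d i) *
        Polynomial.X ^ d.degree := by
    exact prodlem d.support (fun i => Ideal.Quotient.mk P (X i)) (fun i => d i)
  rw [h0, h2, h1]
  simp only [map_mul, map_prod, map_pow]
  rw [mul_assoc]

theorem lam_coeff (F : MvPolynomial (Fin (N + 1)) k) (m : ℕ) :
    (lam P F).coeff m = Ideal.Quotient.mk P (homogeneousComponent m F) := by
  induction F using MvPolynomial.induction_on' with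
  | monomial d a =>
    rw [lam_monomial, Polynomial.coeff_C_mul, Polynomial.coeff_X_pow,
      homogeneousComponent_of_mem (isHomogeneous_monomial a rfl)]
    split_ifs with h
    · rw [mul_one]
    · rw [mul_zero, map_zero]
  | add p q hp hq => rw [map_add, Polynomial.coeff_add, hp, hq, map_add, map_add]

/-- `F(x) ↦ F(x T)` on the quotient -/
def lamq (h : Homog P) : (MvPolynomial (Fin (N + 1)) k ⧸ P) →+*
    Polynomial (MvPolynomial (Fin (N + 1)) k ⧸ P) :=
  Ideal.Quotient.lift P (lam P) (fun F hF => by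
    ext m
    rw [lam_coeff, Polynomial.coeff_zero]
    exact Ideal.Quotient.eq_zero_iff_mem.2 (h F hF m))

theorem lamq_mk (h : Homog P) (F : MvPolynomial (Fin (N + 1)) k) :
    lamq P h (Ideal.Quotient.mk P F) = lam P F := by
  unfold lamq
  rw [Ideal.Quotient.lift_mk]

variable (V : ValuationSubring k)

/-- `F(x) ↦ F(x T)` on `V[x]` -/
def th : MvPolynomial (Fin (N + 1)) V →+* Polynomial (MvPolynomial (Fin (N + 1)) V) :=
  MvPolynomial.eval₂Hom (Polynomial.C.comp MvPolynomial.C)
    (fun i => Polynomial.C (X i) * Polynomial.X)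

theorem th_vmap (h : Homog P) :
    (lamq P h).comp (vmap V P) = (Polynomial.mapRingHom (vmap V P)).comp (th V) := by
  refine MvPolynomial.ringHom_ext ?_ ?_
  · intro a
    simp only [RingHom.comp_apply, th, coe_eval₂Hom, eval₂_C, vmap, lamq_mk, lam,
      MvPolynomial.map_C, Polynomial.coe_mapRingHom, Polynomial.map_C]
  · intro i
    simp only [RingHom.comp_apply, th, coe_eval₂Hom, eval₂_X, vmap, lamq_mk, lam,
      MvPolynomial.map_X, Polynomial.coe_mapRingHom, Polynomial.map_C, Polynomial.map_mul,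
      Polynomial.map_X]

end

end HOMA_

attribute [local instance] Polynomial.algebra in
theorem homa_proof : Stmt_HomA := by
  intro k _ V N P _ hH b hb m
  let _ : Algebra (MvPolynomial (Fin (N + 1)) V) (MvPolynomial (Fin (N + 1)) k ⧸ P) :=
    (vmap V P).toAlgebra
  obtain ⟨f, hf, hf0⟩ := hb
  have key : IsIntegral (Polynomial (MvPolynomial (Fin (N + 1)) V)) (HOMA_.lam P b) := by
    refine ⟨f.map (HOMA_.th V), hf.map _, ?_⟩
    have h1 : algebraMap (Polynomial (MvPolynomial (Fin (N + 1)) V))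
        (Polynomial (MvPolynomial (Fin (N + 1)) k ⧸ P)) =
        Polynomial.mapRingHom (vmap V P) := rfl
    rw [h1, Polynomial.eval₂_map, ← HOMA_.th_vmap P V hH, ← HOMA_.lamq_mk P hH]
    rw [← Polynomial.hom_eval₂, hf0, map_zero]
  have h2 := key.coeff m
  rw [HOMA_.lam_coeff] at h2
  exact h2

end Pool.Agent.FRM
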