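import Pool.Agent.FRM.Stmts

/-!
# KZ: the closure of `ℚ(p^(1/p^∞))` in `ℂ_[p]`
-/

set_option autoImplicit false

noncomputable section

namespace Pool.Agent.FRM

open scoped Classical
open MvPolynomial Pool.Agent.LibDb3ab1 Pool.Agent.DC

namespace KZ_

variable (p : ℕ) [Fact p.Prime] (K : Subfield ℂ_[p])

/-- The ring of integers. -/
def OK : ValuationSubring K := (𝓞_ℂ_[p]).comap K.subtype

theorem mem_OK {x : K} : x ∈ OK p K ↔ ‖(x : ℂ_[p])‖ ≤ 1 := mem_int p

/-- The absolute value of an integral element. -/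
def nm (x : OK p K) : ℝ := ‖((x : K) : ℂ_[p])‖

theorem nm_le (x : OK p K) : nm p K x ≤ 1 := (mem_OK p K).1 x.2

theorem nm_nonneg (x : OK p K) : 0 ≤ nm p K x := norm_nonneg _

theorem nm_mul (x y : OK p K) : nm p K (x * y) = nm p K x * nm p K y := norm_mul _ _

theorem nm_pow (x : OK p K) (n : ℕ) : nm p K (x ^ n) = nm p K x ^ n := norm_pow _ _

theorem nm_p : nm p K (p : OK p K) = ‖(p : ℂ_[p])‖ := by
  unfold nm
  norm_cast

theorem nm_eq_zero {x : OK p K} (h : nm p K x ≤ 0) : x = 0 := by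
  apply Subtype.ext
  apply Subtype.ext
  exact norm_le_zero_iff.1 h

theorem dvd_iff {x y : OK p K} : x ∣ y ↔ nm p K y ≤ nm p K x := by
  constructor
  · rintro ⟨z, rfl⟩
    rw [nm_mul]
    exact mul_le_of_le_one_right (nm_nonneg p K _) (nm_le p K _)
  · intro h
    by_cases hx : (x : K) = 0
    · have h0 : nm p K x = 0 := by
        unfold nm
        rw [hx]
        exact norm_zero
      rw [h0] at h
      rw [nm_eq_zero p K h]
      exact dvd_zero _
    · have hx' : ((x : K) : ℂ_[p]) ≠ 0 := fun h0 => hx (Subtype.ext h0)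
      refine ⟨⟨(y : K) / x, ?_⟩, ?_⟩
      · rw [mem_OK]
        change ‖((y : K) : ℂ_[p]) / ((x : K) : ℂ_[p])‖ ≤ 1
        rw [norm_div]
        exact div_le_one_of_le₀ h (norm_nonneg _)
      · apply Subtype.ext
        change (y : K) = x * (y / x)
        rw [mul_div_cancel₀ _ hx]

theorem isUnit_iff {x : OK p K} : IsUnit x ↔ nm p K x = 1 := by
  have h1 : nm p K (1 : OK p K) = 1 := norm_one
  rw [isUnit_iff_dvd_one, dvd_iff, h1]
  exact ⟨fun h => le_antisymm (nm_le p K x) h, fun h => h.ge⟩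

theorem pow_p_dvd {n : ℕ} {x : OK p K} : (p : OK p K) ^ n ∣ x ↔ nm p K x ≤ ‖(p : ℂ_[p])‖ ^ n := by
  rw [dvd_iff, nm_pow, nm_p]

theorem p_dvd {x : OK p K} : (p : OK p K) ∣ x ↔ nm p K x ≤ ‖(p : ℂ_[p])‖ := by
  rw [dvd_iff, nm_p]

instance fct : Fact ¬IsUnit (p : OK p K) := ⟨by
  rw [isUnit_iff, nm_p]
  exact (norm_p_lt p).ne⟩

theorem adic (hK : IsClosed (K : Set ℂ_[p])) :
    IsAdicComplete (Ideal.span {(p : OK p K)}) (OK p K) where
  haus' x hx := by
    have h1 : ∀ n : ℕ, nm p K x ≤ ‖(p : ℂ_[p])‖ ^ n := by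
      intro n
      have h2 := hx n
      rw [smul_eq_mul, Ideal.mul_top, SModEq.zero, Ideal.span_singleton_pow,
        Ideal.mem_span_singleton] at h2
      exact (pow_p_dvd p K).1 h2
    have h3 := tendsto_pow_atTop_nhds_zero_of_lt_one (norm_p_pos p).le (norm_p_lt p)
    exact nm_eq_zero p K (ge_of_tendsto' h3 h1)
  prec' f hf := by
    have h1 : ∀ m n : ℕ, m ≤ n → ‖(((f m : OK p K) : K) : ℂ_[p]) - ((f n : OK p K) : K)‖ ≤
        ‖(p : ℂ_[p])‖ ^ m := by
      intro m n hmn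
      have h2 := hf hmn
      rw [smul_eq_mul, Ideal.mul_top, SModEq.sub_mem, Ideal.span_singleton_pow,
        Ideal.mem_span_singleton] at h2
      exact (pow_p_dvd p K).1 h2
    have h2 : CauchySeq fun n => (((f n : OK p K) : K) : ℂ_[p]) := by
      rw [Metric.cauchySeq_iff']
      intro ε hε
      obtain ⟨N, hN⟩ := exists_pow_lt_of_lt_one hε (norm_p_lt p)
      refine ⟨N, fun n hn => ?_⟩
      rw [dist_comm, dist_eq_norm]
      exact (h1 N n hn).trans_lt hN
    obtain ⟨y, hy⟩ := cauchySeq_tendsto_of_complete h2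
    have hyK : y ∈ K := hK.mem_of_tendsto hy (Filter.Eventually.of_forall fun n =>
      ((f n : OK p K) : K).2)
    have h3 : ∀ m : ℕ, ‖(((f m : OK p K) : K) : ℂ_[p]) - y‖ ≤ ‖(p : ℂ_[p])‖ ^ m := by
      intro m
      have h4 : Filter.Tendsto (fun n => ‖(((f m : OK p K) : K) : ℂ_[p]) - ((f n : OK p K) : K)‖)
          Filter.atTop (nhds ‖(((f m : OK p K) : K) : ℂ_[p]) - y‖) :=
        (tendsto_const_nhds.sub hy).norm
      exact le_of_tendsto h4 (Filter.eventually_atTop.2 ⟨m, fun n hn => h1 m n hn⟩)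
    have h5 : ‖y‖ ≤ 1 := le_of_tendsto hy.norm (Filter.Eventually.of_forall fun n =>
      nm_le p K (f n))
    refine ⟨⟨⟨y, hyK⟩, (mem_OK p K).2 h5⟩, fun n => ?_⟩
    rw [smul_eq_mul, Ideal.mul_top, SModEq.sub_mem, Ideal.span_singleton_pow,
      Ideal.mem_span_singleton, pow_p_dvd]
    exact h3 n

theorem ext : ValuedExt (OK p K) K.subtype 𝓞_ℂ_[p] where
  comap_eq := rfl
  cont x hx := by
    obtain ⟨n, hn⟩ := exists_pow_lt_of_lt_one (norm_pos_iff.2 hx) (norm_p_lt p)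
    have hp0 : (p : ℂ_[p]) ≠ 0 := norm_pos_iff.1 (norm_p_pos p)
    have h1 : K.subtype ((p : K) ^ n) = (p : ℂ_[p]) ^ n := by
      rw [map_pow, map_natCast]
    refine ⟨(p : K) ^ n, ?_, ?_⟩
    · intro h0
      rw [h0, map_zero] at h1
      exact pow_ne_zero n hp0 h1.symm
    · rw [h1, mem_int, norm_div, norm_pow]
      exact div_le_one_of_le₀ hn.le (norm_nonneg _)

theorem rank (x : OK p K) (hx : ¬IsUnit x) : ∃ n : ℕ, (p : OK p K) ∣ x ^ n := by
  have h1 : nm p K x < 1 := by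
    rw [isUnit_iff] at hx
    exact lt_of_le_of_ne (nm_le p K x) hx
  obtain ⟨n, hn⟩ := exists_pow_lt_of_lt_one (norm_p_pos p) h1
  refine ⟨n, ?_⟩
  rw [p_dvd, nm_pow]
  exact hn.le

theorem p_ne : (p : K) ≠ 0 := by
  intro h
  have h1 := congrArg K.subtype h
  rw [map_natCast, map_zero] at h1
  exact norm_pos_iff.1 (norm_p_pos p) h1

section ring

variable {O : Type} [CommRing O] {p}
variable [Fact ¬IsUnit (p : O)] (q : ℕ → O) (hq : ∀ n, q (n + 1) ^ p = q n)

include hq in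
omit [Fact p.Prime] [Fact ¬IsUnit (p : O)] in
theorem q_pow (n k : ℕ) : q (n + k) ^ p ^ k = q n := by
  induction k with
  | zero => rw [add_zero, pow_zero, pow_one]
  | succ k ih => rw [← add_assoc, pow_succ, mul_comm, pow_mul, hq, ih]

/-- The compatible system of the residue classes of the `q n`. -/
def vp : PreTilt O p :=
  (⟨fun n => Ideal.Quotient.mk _ (q n), fun n => by
    change (Ideal.Quotient.mk _ (q (n + 1))) ^ p = Ideal.Quotient.mk _ (q n)
    rw [← map_pow, hq n]⟩ : Perfection (ModP O p) p)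

theorem coeff_vp (n : ℕ) : PreTilt.coeff n (vp q hq) = Ideal.Quotient.mk _ (q n) := rfl

include hq in
/-- The evaluation at `q n` commutes with the Frobenius. -/
theorem frob_ev (a : Polynomial ℤ) (n : ℕ) :
    (Ideal.Quotient.mk (Ideal.span {(p : O)}) (a.eval₂ (Int.castRingHom O) (q (n + 1)))) ^ p =
      Ideal.Quotient.mk (Ideal.span {(p : O)}) (a.eval₂ (Int.castRingHom O) (q n)) := by
  have h1 : ∀ z : ModP O p, z ^ p = frobenius (ModP O p) p z := fun z => rfl
  have h2 := h1 (Ideal.Quotient.mk (Ideal.span {(p : O)})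
    (a.eval₂ (Int.castRingHom O) (q (n + 1))))
  refine h2.trans ?_
  rw [Polynomial.hom_eval₂, Polynomial.hom_eval₂, Polynomial.hom_eval₂]
  have h3 : frobenius (ModP O p) p (Ideal.Quotient.mk (Ideal.span {(p : O)}) (q (n + 1))) =
      Ideal.Quotient.mk (Ideal.span {(p : O)}) (q n) := by
    rw [← h1, ← map_pow, hq n]
  rw [h3]
  congr 1
  exact RingHom.ext_int _ _

variable [IsAdicComplete (Ideal.span {(p : O)}) O]

theorem untilt_vp : PreTilt.untilt (vp q hq) = q 0 := by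
  apply eq_of_forall_dvd (p := p)
  intro n
  have h1 : (p : O) ∣ PreTilt.untilt (rt p n (vp q hq)) - q n :=
    dvd_of_mk_eq (mk_untilt_rt n _) rfl
  have h2 := dvd_pow_sub_pow h1 n
  have h3 : q n ^ p ^ n = q 0 := by
    have h4 := q_pow q hq 0 n
    rwa [zero_add] at h4
  rw [untilt_rt_pow, h3] at h2
  exact (pow_dvd_pow _ (Nat.le_succ n)).trans h2

end ring

theorem algT {A : Type} [CommRing A] [CharP A p] [PerfectRing A p] (w : A) (B : Polynomial ℤ)
    (j : ℕ) : AlgT p w (B.eval₂ (Int.castRingHom A) (rt p j w)) := by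
  refine ⟨Polynomial.X ^ p ^ j - Polynomial.C (B.map (Int.castRingHom (ZMod p))), ?_, ?_⟩
  · exact (Polynomial.monic_X_pow_sub_C _ (pow_ne_zero j (Fact.out : p.Prime).ne_zero)).ne_zero
  · rw [Polynomial.eval₂_sub, Polynomial.eval₂_pow, Polynomial.eval₂_X, Polynomial.eval₂_C,
      sub_eq_zero]
    have h1 : (B.eval₂ (Int.castRingHom A) (rt p j w)) ^ p ^ j =
        iterateFrobenius A p j (B.eval₂ (Int.castRingHom A) (rt p j w)) := rfl
    rw [h1, Polynomial.hom_eval₂]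
    have h2 : iterateFrobenius A p j (rt p j w) = w := rt_pow j w
    rw [h2]
    change _ = (B.map (Int.castRingHom (ZMod p))).eval₂ (ZMod.castHom (dvd_refl p) A) w
    rw [Polynomial.eval₂_map]
    congr 1
    exact RingHom.ext_int _ _

/-- Compatible roots of `p`. -/
theorem exists_roots : ∃ π : ℕ → ℂ_[p], π 0 = (p : ℂ_[p]) ∧ ∀ n, π (n + 1) ^ p = π n := by
  have h1 : ∀ x : ℂ_[p], ∃ y : ℂ_[p], y ^ p = x := fun x =>
    IsAlgClosed.exists_pow_nat_eq x (Fact.out : p.Prime).pos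
  choose f hf using h1
  refine ⟨fun n => f^[n] (p : ℂ_[p]), rfl, fun n => ?_⟩
  change (f^[n + 1] (p : ℂ_[p])) ^ p = f^[n] (p : ℂ_[p])
  rw [Function.iterate_succ_apply', hf]

theorem norm_pi {π : ℕ → ℂ_[p]} (h0 : π 0 = (p : ℂ_[p])) (h1 : ∀ n, π (n + 1) ^ p = π n)
    (n : ℕ) : ‖π n‖ ≤ 1 := by
  induction n with
  | zero => rw [h0]; exact (norm_p_lt p).le
  | succ n ih =>
    rw [← h1 n, norm_pow] at ih
    exact (pow_le_one_iff_of_nonneg (norm_nonneg _) (Fact.out : p.Prime).ne_zero).1 ih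

end KZ_

open KZ_ in
theorem kz_proof (hKZA : Stmt_Kza) : Stmt_KZ := by
  intro p _
  obtain ⟨π, h0, h1⟩ := exists_roots p
  let K : Subfield ℂ_[p] := (Subfield.closure (Set.range π)).topologicalClosure
  have hKc : IsClosed (K : Set ℂ_[p]) := Subfield.isClosed_topologicalClosure _
  have hKm : ∀ x : K, (x : ℂ_[p]) ∈
      closure ((Subfield.closure (Set.range π) : Subfield ℂ_[p]) : Set ℂ_[p]) := fun x => x.2
  have hpK : ∀ n, π n ∈ K := fun n =>
    Subfield.le_topologicalClosure _ (Subfield.subset_closure ⟨n, rfl⟩)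
  let q : ℕ → OK p K := fun n => ⟨⟨π n, hpK n⟩, (mem_OK p K).2 (norm_pi p h0 h1 n)⟩
  have hq : ∀ n, q (n + 1) ^ p = q n := fun n => by
    apply Subtype.ext
    apply Subtype.ext
    exact h1 n
  have hq0 : q 0 = (p : OK p K) := by
    apply Subtype.ext
    apply Subtype.ext
    change π 0 = _
    rw [h0]
    norm_cast
  have _hA := adic p K hKc
  -- approximation by polynomials in some `q n`
  have happ : ∀ x : OK p K, ∃ (n : ℕ) (a : Polynomial ℤ),
      Ideal.Quotient.mk (Ideal.span {(p : OK p K)}) x =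
        Ideal.Quotient.mk (Ideal.span {(p : OK p K)}) (a.eval₂ (Int.castRingHom (OK p K)) (q n)) := by
    intro x
    obtain ⟨n, a, ha⟩ := hKZA p π h0 h1 ((x : K) : ℂ_[p]) (hKm x) (nm_le p K x)
    refine ⟨n, a, ?_⟩
    rw [Ideal.Quotient.eq, Ideal.mem_span_singleton, p_dvd]
    have h2 : (K.subtype.comp (OK p K).subtype) (a.eval₂ (Int.castRingHom (OK p K)) (q n)) =
        a.eval₂ (Int.castRingHom ℂ_[p]) (π n) := by
      rw [Polynomial.hom_eval₂]
      congr 1
    change ‖((x : K) : ℂ_[p]) -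
      (K.subtype.comp (OK p K).subtype) (a.eval₂ (Int.castRingHom (OK p K)) (q n))‖ ≤ _
    rw [h2]
    exact ha
  have hun : PreTilt.untilt (vp q hq) = (p : OK p K) := by
    rw [untilt_vp q hq, hq0]
  refine ⟨K, inferInstance, OK p K, fct p K, adic p K hKc, K.subtype, ext p K,
    ⟨vp q hq, 1, isUnit_one, ?_, p_ne p K, rank p K, ?_⟩, rfl, ?_⟩
  · rw [hun, one_mul]
  · intro y
    obtain ⟨x, rfl⟩ := Ideal.Quotient.mk_surjective y
    obtain ⟨n, a, ha⟩ := happ x
    refine ⟨Ideal.Quotient.mk _ (a.eval₂ (Int.castRingHom (OK p K)) (q (n + 1))), ?_⟩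
    rw [ha]
    exact frob_ev q hq a n
  · intro x n
    obtain ⟨m, hm⟩ : ∃ m, n ≤ p ^ m :=
      ⟨n, (Nat.lt_pow_self (Fact.out : p.Prime).one_lt).le⟩
    obtain ⟨x', hx'⟩ := Ideal.Quotient.mk_surjective (PreTilt.coeff m x)
    obtain ⟨k, A, hA⟩ := happ x'
    obtain ⟨j, hj⟩ : ∃ j, k ≤ m + j := ⟨k, by omega⟩
    let B : Polynomial ℤ := A.comp (Polynomial.X ^ p ^ (m + j - k))
    refine ⟨B.eval₂ (Int.castRingHom (PreTilt (OK p K) p)) (rt p j (vp q hq)),
      algT p (vp q hq) B j, ?_⟩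
    refine (pow_dvd_pow _ hm).trans ?_
    rw [← coeff_eq_zero_iff (isUnit_one : IsUnit (1 : OK p K)) (by rw [hun, one_mul]) m, map_sub,
      sub_eq_zero, Polynomial.hom_eval₂, coeff_rt, coeff_vp, ← hx', hA, Polynomial.eval₂_comp,
      Polynomial.eval₂_pow, Polynomial.eval₂_X, Polynomial.hom_eval₂, ← map_pow]
    have h2 : q (m + j) ^ p ^ (m + j - k) = q k := by
      have h3 := q_pow q hq k (m + j - k)
      rwa [Nat.add_sub_of_le hj] at h3
    rw [h2]
    congr 1

end Pool.Agent.FRM
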