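import Pool.Agent.FRM.Stmts

set_option autoImplicit false

noncomputable section

namespace Pool.Agent.FRM

namespace KZA_

open scoped Classical
open Polynomial

variable {p : ℕ} [Fact p.Prime]

/-- the terms of a sum whose norms are pairwise different are bounded by the sum -/
theorem dom {ι : Type} (s : Finset ι) (a : ι → ℂ_[p])
    (h : ∀ i ∈ s, ∀ j ∈ s, i ≠ j → a i ≠ 0 → a j ≠ 0 → ‖a i‖ ≠ ‖a j‖) :
    ∀ i ∈ s, ‖a i‖ ≤ ‖∑ j ∈ s, a j‖ := by
  intro i hi
  obtain ⟨m, hm, hmax⟩ := Finset.exists_max_image s (fun j => ‖a j‖) ⟨i, hi⟩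
  by_cases h0 : a m = 0
  · have := hmax i hi
    rw [h0, norm_zero] at this
    exact this.trans (norm_nonneg _)
  · have hsplit : ∑ j ∈ s, a j = a m + ∑ j ∈ s.erase m, a j := (Finset.add_sum_erase s a hm).symm
    have hlt : ‖∑ j ∈ s.erase m, a j‖ < ‖a m‖ := by
      rcases (s.erase m).eq_empty_or_nonempty with he | he
      · rw [he, Finset.sum_empty, norm_zero]; exact norm_pos_iff.2 h0
      · obtain ⟨j, hj, hle⟩ := IsUltrametricDist.exists_norm_finsetSum_le_of_nonempty he a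
        refine hle.trans_lt ?_
        have hj' := Finset.mem_erase.1 hj
        by_cases hj0 : a j = 0
        · rw [hj0, norm_zero]; exact norm_pos_iff.2 h0
        · exact lt_of_le_of_ne (hmax j hj'.2) (h j hj'.2 m hm hj'.1 hj0 h0)
    have heq : ‖∑ j ∈ s, a j‖ = ‖a m‖ := by
      rw [hsplit, IsUltrametricDist.norm_add_eq_max_of_norm_ne_norm hlt.ne', max_eq_left hlt.le]
    rw [heq]
    exact hmax i hi

theorem norm_q (q : ℚ) : ‖(q : ℂ_[p])‖ = ‖(q : ℚ_[p])‖ := by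
  rw [← PadicComplex.norm_extends' p (q : ℚ_[p])]
  congr 1
  have : (((q : ℚ_[p]) : PadicAlgCl p) : ℂ_[p]) =
      ((algebraMap (PadicAlgCl p) ℂ_[p]).comp (algebraMap ℚ_[p] (PadicAlgCl p))) (q : ℚ_[p]) := rfl
  rw [this, map_ratCast]

/-- rational numbers of norm at most one are integers modulo `p` -/
theorem rat_int (q : ℚ) (h : ‖(q : ℂ_[p])‖ ≤ 1) : ∃ a : ℤ, ‖(q : ℂ_[p]) - a‖ ≤ ‖(p : ℂ_[p])‖ := by
  rw [norm_q] at h
  obtain ⟨n, -, -, hn⟩ := PadicInt.exists_mem_range_of_norm_rat_le_one q h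
  refine ⟨n, ?_⟩
  have h1 : ((q : ℂ_[p]) - n) = (((q - n : ℚ)) : ℂ_[p]) := by push_cast; ring
  rw [h1, norm_q, norm_p]
  have h2 : ‖((q - n : ℚ) : ℚ_[p])‖ < 1 := by
    have h3 : ‖(⟨q, h⟩ - n : ℤ_[p])‖ = ‖((q - n : ℚ) : ℚ_[p])‖ := by
      rw [PadicInt.norm_def]
      congr 1
    rw [← h3]; exact hn
  have h4 := (Padic.norm_le_pow_iff_norm_lt_pow_add_one ((q - n : ℚ) : ℚ_[p]) (-1)).2
    (by simpa using h2)
  simpa using h4

section gen

variable {L : Type} [Field L] [CharZero L] {π : ℕ → L}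

omit [Fact p.Prime] [CharZero L] in
theorem pi_pow (hs : ∀ n, π (n + 1) ^ p = π n) (m k : ℕ) :
    π (m + k) ^ (p ^ k) = π m := by
  induction k with
  | zero => simp
  | succ k ih =>
    rw [pow_succ', pow_mul, ← Nat.add_assoc, hs, ih]

omit [Fact p.Prime] [CharZero L] in
theorem pi_pow' (h0 : π 0 = (p : L)) (hs : ∀ n, π (n + 1) ^ p = π n) (n : ℕ) :
    π n ^ (p ^ n) = p := by
  have := pi_pow hs 0 n
  rwa [Nat.zero_add, h0] at this

omit [Fact p.Prime] in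
theorem mono (hs : ∀ n, π (n + 1) ^ p = π n) {m n : ℕ} (h : m ≤ n) :
    Algebra.adjoin ℚ {π m} ≤ Algebra.adjoin ℚ {π n} := by
  obtain ⟨k, rfl⟩ := Nat.exists_eq_add_of_le h
  rw [Algebra.adjoin_le_iff, Set.singleton_subset_iff]
  have h1 : π (m + k) ∈ Algebra.adjoin ℚ {π (m + k)} := Algebra.subset_adjoin (Set.mem_singleton _)
  have h2 := pow_mem h1 (p ^ k)
  rw [pi_pow hs m k] at h2
  exact h2

theorem integral (h0 : π 0 = (p : L)) (hs : ∀ n, π (n + 1) ^ p = π n) (n : ℕ) :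
    IsIntegral ℚ (π n) := by
  refine ⟨X ^ (p ^ n) - C (p : ℚ), monic_X_pow_sub_C _ (pow_ne_zero _ (Fact.out : p.Prime).ne_zero), ?_⟩
  simp [pi_pow' h0 hs n]

theorem mem (h0 : π 0 = (p : L)) (hs : ∀ n, π (n + 1) ^ p = π n) (y : L)
    (hy : y ∈ Subfield.closure (Set.range π)) : ∃ n, y ∈ Algebra.adjoin ℚ {π n} := by
  induction hy using Subfield.closure_induction with
  | mem x hx =>
    obtain ⟨n, rfl⟩ := hx
    exact ⟨n, Algebra.subset_adjoin rfl⟩
  | one => exact ⟨0, one_mem _⟩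
  | add x y _ _ hx hy =>
    obtain ⟨m, hm⟩ := hx
    obtain ⟨n, hn⟩ := hy
    exact ⟨max m n, add_mem (mono hs (le_max_left _ _) hm) (mono hs (le_max_right _ _) hn)⟩
  | neg x _ hx =>
    obtain ⟨m, hm⟩ := hx
    exact ⟨m, neg_mem hm⟩
  | inv x _ hx =>
    obtain ⟨m, hm⟩ := hx
    refine ⟨m, ?_⟩
    have hint : IsIntegral ℚ x := by
      have h1 : Algebra.adjoin ℚ {π m} ≤ integralClosure ℚ L := by
        rw [Algebra.adjoin_le_iff, Set.singleton_subset_iff]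
        exact integral h0 hs m
      exact h1 hm
    exact hint.inv_mem hm
  | mul x y _ _ hx hy =>
    obtain ⟨m, hm⟩ := hx
    obtain ⟨n, hn⟩ := hy
    exact ⟨max m n, mul_mem (mono hs (le_max_left _ _) hm) (mono hs (le_max_right _ _) hn)⟩

theorem mem' (h0 : π 0 = (p : L)) (hs : ∀ n, π (n + 1) ^ p = π n) (y : L)
    (hy : y ∈ Subfield.closure (Set.range π)) : ∃ (n : ℕ) (f : ℕ → ℚ),
      y = ∑ i ∈ Finset.range (p ^ n), (f i : L) * π n ^ i := by
  obtain ⟨n, hn⟩ := mem h0 hs y hy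
  have hP : 0 < p ^ n := pow_pos (Fact.out : p.Prime).pos _
  obtain ⟨f, hf, hfd⟩ : ∃ f : Polynomial ℚ, aeval (π n) f = y ∧ f.natDegree < p ^ n := by
    rw [Algebra.adjoin_singleton_eq_range_aeval] at hn
    obtain ⟨f, hf⟩ := hn
    have hm : (X ^ (p ^ n) - C (p : ℚ)).Monic := monic_X_pow_sub_C _ hP.ne'
    refine ⟨f %ₘ (X ^ (p ^ n) - C (p : ℚ)), ?_, ?_⟩
    · have h1 : aeval (π n) (X ^ (p ^ n) - C (p : ℚ)) = 0 := by
        simp [pi_pow' h0 hs n]
      have h2 := congrArg (aeval (π n)) (modByMonic_add_div f (X ^ (p ^ n) - C (p : ℚ)))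
      rw [map_add, map_mul, h1, zero_mul, add_zero] at h2
      rw [h2]; exact hf
    · have h3 := natDegree_modByMonic_lt f hm (by
        intro h
        have := congrArg natDegree h
        rw [natDegree_X_pow_sub_C, natDegree_one] at this
        omega)
      rwa [natDegree_X_pow_sub_C] at h3
  refine ⟨n, f.coeff, ?_⟩
  rw [← hf, aeval_eq_sum_range' hfd]
  refine Finset.sum_congr rfl fun i _ => ?_
  rw [Algebra.smul_def]
  rfl

end gen

variable {π : ℕ → ℂ_[p]}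

theorem norm_pi (h0 : π 0 = (p : ℂ_[p])) (hs : ∀ n, π (n + 1) ^ p = π n) (n : ℕ) :
    ‖π n‖ ^ (p ^ n) = (p : ℝ)⁻¹ := by
  rw [← norm_pow, pi_pow' h0 hs, norm_p]

theorem norm_term (h0 : π 0 = (p : ℂ_[p])) (hs : ∀ n, π (n + 1) ^ p = π n) (n i : ℕ) (c : ℚ)
    (hc : c ≠ 0) : ‖(c : ℂ_[p]) * π n ^ i‖ ^ (p ^ n) =
      (p : ℝ) ^ (-((c : ℚ_[p]).valuation * (p ^ n : ℕ) + i) : ℤ) := by
  have hp : (p : ℝ) ≠ 0 := by exact_mod_cast (Fact.out : p.Prime).ne_zero
  have hc' : (c : ℚ_[p]) ≠ 0 := by exact_mod_cast hc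
  rw [norm_mul, mul_pow, norm_pow, ← pow_mul, mul_comm i, pow_mul, norm_pi h0 hs, norm_q,
    Padic.norm_eq_zpow_neg_valuation hc', ← zpow_natCast, ← zpow_mul, inv_pow, ← zpow_natCast,
    ← zpow_neg, ← zpow_add₀ hp]
  congr 1
  ring

end KZA_

open KZA_ Polynomial in
theorem kza_proof : Stmt_Kza := by
  intro p _ π h0 hs x hx hx1
  have hppos := norm_p_pos p
  obtain ⟨y, hy, hxy⟩ := Metric.mem_closure_iff.1 hx ‖(p : ℂ_[p])‖ hppos
  rw [dist_eq_norm] at hxy
  obtain ⟨n, f, hsum⟩ := mem' h0 hs y hy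
  have hP : 0 < p ^ n := pow_pos (Fact.out : p.Prime).pos _
  have hp1 : (1 : ℝ) < p := by exact_mod_cast (Fact.out : p.Prime).one_lt
  have hp0 : (p : ℝ) ≠ 0 := by positivity
  have hy1 : ‖y‖ ≤ 1 := by
    have h1 : y = x + (y - x) := by ring
    rw [h1]
    refine (IsUltrametricDist.norm_add_le_max _ _).trans (max_le hx1 ?_)
    rw [norm_sub_rev]
    exact hxy.le.trans (norm_p_lt p).le
  have hterm : ∀ i ∈ Finset.range (p ^ n), ‖(f i : ℂ_[p]) * π n ^ i‖ ≤ 1 := by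
    intro i hi
    refine (dom (Finset.range (p ^ n)) (fun i => (f i : ℂ_[p]) * π n ^ i) ?_ i hi).trans ?_
    · intro i hi j hj hij hi0 hj0 he
      have hi' : f i ≠ 0 := by
        intro h; apply hi0; simp [h]
      have hj' : f j ≠ 0 := by
        intro h; apply hj0; simp [h]
      have h2 := congrArg (fun r => r ^ (p ^ n)) he
      rw [norm_term h0 hs n i _ hi', norm_term h0 hs n j _ hj'] at h2
      have h3 := zpow_right_injective₀ (by positivity) hp1.ne' h2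
      rw [Finset.mem_range] at hi hj
      have hP' : (0 : ℤ) < (p ^ n : ℕ) := by exact_mod_cast hP
      have h4 : ((f i : ℚ_[p]).valuation * (p ^ n : ℕ) + i) % (p ^ n : ℕ) =
          ((f j : ℚ_[p]).valuation * (p ^ n : ℕ) + j) % (p ^ n : ℕ) := by
        have : ((f i : ℚ_[p]).valuation * (p ^ n : ℕ) + i) =
          ((f j : ℚ_[p]).valuation * (p ^ n : ℕ) + j) := by linarith
        rw [this]
      rw [add_comm, Int.add_mul_emod_self_right, add_comm, Int.add_mul_emod_self_right,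
        Int.emod_eq_of_lt (by positivity) (by exact_mod_cast hi),
        Int.emod_eq_of_lt (by positivity) (by exact_mod_cast hj)] at h4
      exact hij (by exact_mod_cast h4)
    · rw [← hsum]; exact hy1
  have hcoef : ∀ i ∈ Finset.range (p ^ n), ‖(f i : ℂ_[p])‖ ≤ 1 := by
    intro i hi
    by_cases hc : f i = 0
    · simp [hc]
    have h1 := hterm i hi
    have h2 : ‖(f i : ℂ_[p]) * π n ^ i‖ ^ (p ^ n) ≤ 1 := pow_le_one₀ (norm_nonneg _) h1
    rw [norm_term h0 hs n i _ hc] at h2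
    rw [norm_q, Padic.norm_le_one_iff_val_nonneg]
    by_contra hneg
    push Not at hneg
    have h3 : (1 : ℝ) < (p : ℝ) ^ (-((f i : ℚ_[p]).valuation * (p ^ n : ℕ) + i) : ℤ) := by
      apply one_lt_zpow₀ hp1
      rw [Finset.mem_range] at hi
      have hi' : (i : ℤ) < (p ^ n : ℕ) := by exact_mod_cast hi
      nlinarith
    linarith
  choose! a ha using fun i (hi : i ∈ Finset.range (p ^ n)) => rat_int (f i) (hcoef i hi)
  refine ⟨n, ∑ i ∈ Finset.range (p ^ n), C (a i) * X ^ i, ?_⟩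
  have hpi : ‖π n‖ ≤ 1 := by
    by_contra h
    push Not at h
    have h1 := one_lt_pow₀ h hP.ne'
    rw [norm_pi h0 hs] at h1
    have := inv_lt_one_of_one_lt₀ hp1
    linarith
  have h1 : x - (∑ i ∈ Finset.range (p ^ n), C (a i) * X ^ i : Polynomial ℤ).eval₂
      (Int.castRingHom ℂ_[p]) (π n) =
      (x - y) + ∑ i ∈ Finset.range (p ^ n), ((f i : ℂ_[p]) - a i) * π n ^ i := by
    rw [eval₂_finsetSum]
    simp only [eval₂_mul, eval₂_C, eval₂_X_pow, sub_mul, Finset.sum_sub_distrib, ← hsum]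
    simp
  rw [h1]
  refine (IsUltrametricDist.norm_add_le_max _ _).trans (max_le hxy.le ?_)
  apply IsUltrametricDist.norm_sum_le_of_forall_le_of_nonneg hppos.le
  intro i hi
  rw [norm_mul, norm_pow]
  calc ‖(f i : ℂ_[p]) - a i‖ * ‖π n‖ ^ i ≤ ‖(p : ℂ_[p])‖ * 1 :=
        mul_le_mul (ha i hi) (pow_le_one₀ (norm_nonneg _) hpi) (by positivity) hppos.le
    _ = ‖(p : ℂ_[p])‖ := mul_one _

end Pool.Agent.FRM
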