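import Pool.Agent.FRM.Stmts

/-!
# LINZ: linear forms which are parameters and separating parameters
-/

set_option autoImplicit false

noncomputable section

namespace Pool.Agent.FRM

open scoped Classical
open MvPolynomial Pool.Agent.LibDb3ab1 Pool.Agent.DC

namespace LINZ_

section homog

attribute [local instance] MvPolynomial.gradedAlgebra

lemma homog_iff {k : Type} [CommRing k] {σ : Type} (P : Ideal (MvPolynomial σ k)) :
    Homog P ↔ P.IsHomogeneous (homogeneousSubmodule σ k) := by
  constructor
  · intro h m F hF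
    have h1 := h F hF m
    rw [← decomposition.decompose'_apply] at h1
    exact h1
  · intro h F hF m
    exact homogeneousComponent_mem_of_mem h hF m

lemma homog_sup_span {k : Type} [CommRing k] {σ ι : Type} (I : Ideal (MvPolynomial σ k)) (hI : Homog I)
    (z : ι → MvPolynomial σ k) (hz : ∀ i, (z i).IsHomogeneous 1) :
    Homog (I ⊔ Ideal.span (Set.range z)) := by
  rw [homog_iff] at hI ⊢
  refine Ideal.IsHomogeneous.sup hI (Ideal.homogeneous_span _ _ ?_)
  rintro _ ⟨i, rfl⟩
  exact ⟨1, hz i⟩

end homog

lemma lin_hom {k : Type} [CommRing k] {N : ℕ} (c : Fin (N + 1) → k) :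
    (∑ i, C (c i) * X i : MvPolynomial (Fin (N + 1)) k).IsHomogeneous 1 := by
  refine IsHomogeneous.sum _ _ _ (fun i _ => ?_)
  have := (isHomogeneous_C (Fin (N + 1)) (c i)).mul (isHomogeneous_X k i)
  rwa [zero_add] at this

/-- a vector outside of finitely many proper subspaces -/
lemma exists_avoid {k E : Type} [Field k] [Infinite k] [AddCommGroup E] [Module k E]
    (T : Set (Submodule k E)) (hT : T.Finite) (h : ∀ S ∈ T, S ≠ ⊤) : ∃ c : E, ∀ S ∈ T, c ∉ S := by
  have h1 := Subspace.biUnion_ne_univ_of_top_notMem (k := k) (E := E) (s := hT.toFinset)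
    (fun h2 => h ⊤ (hT.mem_toFinset.1 h2) rfl)
  rw [Set.ne_univ_iff_exists_notMem] at h1
  obtain ⟨c, hc⟩ := h1
  refine ⟨c, fun S hS hcS => hc ?_⟩
  simp only [Set.mem_iUnion]
  exact ⟨S, hT.mem_toFinset.2 hS, hcS⟩

section field

variable {ka : Type} [Field ka] {N : ℕ} (P : Ideal (MvPolynomial (Fin (N + 1)) ka)) [P.IsPrime]

/-- the coordinate functions -/
def xx (l : Fin (N + 1)) : FractionRing (MvPolynomial (Fin (N + 1)) ka ⧸ P) :=
  algebraMap _ _ (Ideal.Quotient.mk P (X l))

lemma adj : IntermediateField.adjoin ka (Set.range (xx P)) = ⊤ := by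
  rw [eq_top_iff]
  intro y _
  have key : ∀ F : MvPolynomial (Fin (N + 1)) ka,
      algebraMap (MvPolynomial (Fin (N + 1)) ka ⧸ P) (FractionRing (MvPolynomial (Fin (N + 1)) ka ⧸ P))
        (Ideal.Quotient.mk P F) ∈ IntermediateField.adjoin ka (Set.range (xx P)) := by
    intro F
    induction F using MvPolynomial.induction_on with
    | C a =>
      have : algebraMap (MvPolynomial (Fin (N + 1)) ka ⧸ P)
          (FractionRing (MvPolynomial (Fin (N + 1)) ka ⧸ P)) (Ideal.Quotient.mk P (C a)) =
          algebraMap ka _ a := by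
        rw [IsScalarTower.algebraMap_apply ka (MvPolynomial (Fin (N + 1)) ka ⧸ P)]
        rfl
      rw [this]
      exact (IntermediateField.adjoin ka (Set.range (xx P))).algebraMap_mem a
    | add p q hp hq =>
      rw [map_add, map_add]
      exact add_mem hp hq
    | mul_X p i hp =>
      rw [map_mul, map_mul]
      exact mul_mem hp (IntermediateField.subset_adjoin ka _ ⟨i, rfl⟩)
  obtain ⟨a, b, _, rfl⟩ := IsFractionRing.div_surjective (A := MvPolynomial (Fin (N + 1)) ka ⧸ P) y
  obtain ⟨a, rfl⟩ := Ideal.Quotient.mk_surjective a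
  obtain ⟨b, rfl⟩ := Ideal.Quotient.mk_surjective b
  exact div_mem (key a) (key b)

end field

end LINZ_

open LINZ_ in
theorem linz_proof (hLZA : Stmt_Lza) (hLZB : Stmt_Lzb) (hLZC : Stmt_Lzc) (hLZD : Stmt_Lzd)
    (hLZE : Stmt_Lze) : Stmt_Linz := by
  intro k ka _ _ _ _ α N d I hI hdI P hP hPh hdP
  haveI := hP
  set F := FractionRing (MvPolynomial (Fin (N + 1)) ka ⧸ P) with hF
  have hfr : Module.finrank F (KaehlerDifferential ka F) = d + 1 := hLZD ka N (d + 1) P hdP
  -- the induction
  have key : ∀ s : ℕ, s ≤ d + 1 → ∃ c : Fin s → (Fin (N + 1) → k),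
      ringKrullDim (MvPolynomial (Fin (N + 1)) k ⧸
        (I ⊔ Ideal.span (Set.range fun i => (∑ l, C (c i l) * X l : MvPolynomial (Fin (N + 1)) k)))) ≤
        ((d + 1 - s : ℕ) : WithBot ℕ∞) ∧
      LinearIndependent F (fun i => KaehlerDifferential.D ka F
        (∑ l, algebraMap ka F (α (c i l)) * xx P l)) := by
    intro s
    induction s with
    | zero =>
      intro _
      refine ⟨fun i => i.elim0, ?_, linearIndependent_empty_type⟩
      have h1 : (Set.range fun i : Fin 0 =>
          (∑ l, C ((i.elim0 : Fin (N + 1) → k) l) * X l : MvPolynomial (Fin (N + 1)) k)) = ∅ :=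
        Set.range_eq_empty _
      rw [h1, Ideal.span_empty, sup_bot_eq]
      exact hdI
    | succ s ih =>
      intro hs
      obtain ⟨c, hc1, hc2⟩ := ih (by omega)
      have hds : d + 1 - s = (d - s) + 1 := by omega
      rw [hds] at hc1
      obtain ⟨T, hT, hT1, hT2⟩ := hLZA k N (d - s) _
        (homog_sup_span I hI _ (fun i => lin_hom (c i))) hc1
      have hspan : Submodule.span F (Set.range fun i => KaehlerDifferential.D ka F
          (∑ l, algebraMap ka F (α (c i l)) * xx P l)) ≠ ⊤ := by
        intro h
        have h1 := finrank_span_eq_card hc2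
        rw [h, finrank_top, hfr, Fintype.card_fin] at h1
        omega
      obtain ⟨S, hS, hS2⟩ := hLZB k ka F α N s (xx P) (adj P)
        (fun i => ∑ l, algebraMap ka F (α (c i l)) * xx P l) hc2 hspan
      obtain ⟨c', hc'⟩ := exists_avoid (insert S T) (hT.insert S) (by
        intro S' hS'
        rcases Set.mem_insert_iff.1 hS' with rfl | h
        · exact hS
        · exact hT1 S' h)
      refine ⟨Fin.snoc c c', ?_, ?_⟩
      · have h1 := hT2 c' (fun S' hS' => hc' S' (Set.mem_insert_of_mem _ hS'))
        have h2 : (Set.range fun i : Fin (s + 1) =>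
            (∑ l, C ((Fin.snoc c c' : Fin (s + 1) → (Fin (N + 1) → k)) i l) * X l :
              MvPolynomial (Fin (N + 1)) k)) =
            (Set.range fun i => (∑ l, C (c i l) * X l : MvPolynomial (Fin (N + 1)) k)) ∪
              {∑ l, C (c' l) * X l} := by
          ext F
          constructor
          · rintro ⟨i, rfl⟩
            refine Fin.lastCases ?_ (fun i => ?_) i
            · right
              simp
            · left
              exact ⟨i, by simp⟩
          · rintro (⟨i, rfl⟩ | h)
            · exact ⟨i.castSucc, by simp⟩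
            · rw [Set.mem_singleton_iff] at h
              exact ⟨Fin.last s, by simp [h]⟩
        rw [h2, Ideal.span_union, ← sup_assoc]
        have h3 : d + 1 - (s + 1) = d - s := by omega
        rw [h3]
        exact h1
      · have h1 := hS2 c' (hc' S (Set.mem_insert _ _))
        have h2 : (fun i : Fin (s + 1) => KaehlerDifferential.D ka F
            (∑ l, algebraMap ka F (α ((Fin.snoc c c' : Fin (s + 1) → (Fin (N + 1) → k)) i l)) * xx P l)) =
            (fun i => KaehlerDifferential.D ka F
              ((Fin.snoc (fun i => ∑ l, algebraMap ka F (α (c i l)) * xx P l)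
                (∑ l, algebraMap ka F (α (c' l)) * xx P l) : Fin (s + 1) → F) i)) := by
          funext i
          refine Fin.lastCases ?_ (fun i => ?_) i
          · simp
          · simp
        rw [h2]
        exact h1
  obtain ⟨c, hc1, hc2⟩ := key (d + 1) le_rfl
  rw [Nat.sub_self, Nat.cast_zero] at hc1
  refine ⟨fun i => ∑ l, C (c i l) * X l, fun i => lin_hom (c i),
    hLZE k N _ (homog_sup_span I hI _ (fun i => lin_hom (c i))) hc1, ?_⟩
  -- separability
  have hv : Submodule.span F (Set.range fun i => KaehlerDifferential.D ka F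
      (∑ l, algebraMap ka F (α (c i l)) * xx P l)) = ⊤ := by
    haveI : FiniteDimensional F (KaehlerDifferential ka F) :=
      FiniteDimensional.of_finrank_pos (by rw [hfr]; omega)
    exact hc2.span_eq_top_of_card_eq_finrank' (by rw [Fintype.card_fin, hfr])
  intro i
  obtain ⟨f, hf1, hf2⟩ := hLZC ka F (d + 1) (fun i => ∑ l, algebraMap ka F (α (c i l)) * xx P l)
    ⟨Finset.univ.image (xx P), by
      rw [Finset.coe_image, Finset.coe_univ, Set.image_univ]; exact adj P⟩ hv (xx P i)
  have hcomp : (algebraMap (MvPolynomial (Fin (N + 1)) ka ⧸ P) F).comp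
      (kmap P fun i => MvPolynomial.map α (∑ l, C (c i l) * X l)) =
      (aeval (R := ka) (fun i => ∑ l, algebraMap ka F (α (c i l)) * xx P l)).toRingHom := by
    refine MvPolynomial.ringHom_ext (fun a => ?_) (fun j => ?_)
    · simp only [kmap, RingHom.comp_apply, AlgHom.toRingHom_eq_coe, RingHom.coe_coe, aeval_C]
      rw [IsScalarTower.algebraMap_apply ka (MvPolynomial (Fin (N + 1)) ka ⧸ P) F]
      rfl
    · simp only [kmap, RingHom.comp_apply, AlgHom.toRingHom_eq_coe, RingHom.coe_coe, aeval_X, map_sum,
        map_mul, map_C, map_X]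
      refine Finset.sum_congr rfl (fun l _ => ?_)
      congr 1
  have hinj : Function.Injective (algebraMap (MvPolynomial (Fin (N + 1)) ka ⧸ P) F) :=
    IsFractionRing.injective _ _
  refine ⟨f, ?_, ?_⟩
  · apply hinj
    rw [map_zero, Polynomial.hom_eval₂, hcomp]
    exact hf1
  · intro h
    apply hf2
    have := congrArg (algebraMap (MvPolynomial (Fin (N + 1)) ka ⧸ P) F) h
    rw [map_zero, Polynomial.hom_eval₂, hcomp] at this
    exact this

end Pool.Agent.FRM
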