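import Pool.Agent.FRM.Stmts

/-!
# Frame: module LZA (linear forms which cut down the dimension)
-/

set_option autoImplicit false

noncomputable section

namespace Pool.Agent.FRM

open scoped Classical
open MvPolynomial Pool.Agent.LibDb3ab1 Pool.Agent.DC

namespace LZA_

/-- the linear form with coefficients `c` -/
def lf (k : Type) [Field k] (N : ℕ) :
    (Fin (N + 1) → k) →ₗ[k] MvPolynomial (Fin (N + 1)) k :=
  Fintype.linearCombination k (fun i => (X i : MvPolynomial (Fin (N + 1)) k))

lemma lf_apply {k : Type} [Field k] {N : ℕ} (c : Fin (N + 1) → k) :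
    lf k N c = ∑ i, C (c i) * X i := by
  unfold lf
  rw [Fintype.linearCombination_apply]
  exact Finset.sum_congr rfl fun i _ => by rw [smul_eq_C_mul]

/-- a proper quotient in which all variables vanish has dimension at most zero -/
lemma dim_zero {k : Type} [Field k] {N : ℕ} (Q : Ideal (MvPolynomial (Fin (N + 1)) k))
    (h : ∀ i, X i ∈ Q) : ringKrullDim (MvPolynomial (Fin (N + 1)) k ⧸ Q) ≤ 0 := by
  have hs : Function.Surjective ((Ideal.Quotient.mk Q).comp (C : k →+* MvPolynomial (Fin (N + 1)) k)) := by
    intro y
    obtain ⟨F, rfl⟩ := Ideal.Quotient.mk_surjective y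
    induction F using MvPolynomial.induction_on with
    | C a => exact ⟨a, rfl⟩
    | add p q hp hq =>
      obtain ⟨a, ha⟩ := hp
      obtain ⟨b, hb⟩ := hq
      exact ⟨a + b, by rw [map_add, ha, hb, map_add]⟩
    | mul_X p n _ =>
      refine ⟨0, ?_⟩
      rw [map_zero, map_mul, Ideal.Quotient.eq_zero_iff_mem.2 (h n), mul_zero]
  exact (ringKrullDim_le_of_surjective _ hs).trans (ringKrullDim_eq_zero_of_field k).le

end LZA_

open LZA_ in
theorem lza_proof : Stmt_Lza := by
  intro k _ N s I _ hdim
  refine ⟨(fun Q : Ideal (MvPolynomial (Fin (N + 1)) k) =>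
    Submodule.comap (lf k N) (Q.restrictScalars k)) ''
      {Q | Q ∈ I.minimalPrimes ∧ ¬ ringKrullDim (MvPolynomial (Fin (N + 1)) k ⧸ Q) ≤ (s : ℕ)},
    ?_, ?_, ?_⟩
  · exact ((Ideal.finite_minimalPrimes_of_isNoetherianRing _ I).subset fun Q hQ => hQ.1).image _
  · rintro _ ⟨Q, ⟨_, hQ⟩, rfl⟩ htop
    refine hQ ((dim_zero Q fun i => ?_).trans (by exact_mod_cast Nat.zero_le s))
    have h1 : (Pi.single i 1 : Fin (N + 1) → k) ∈
        Submodule.comap (lf k N) (Q.restrictScalars k) := by
      have h0 : Submodule.comap (lf k N) (Q.restrictScalars k) = ⊤ := htop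
      rw [h0]
      exact Submodule.mem_top
    rw [Submodule.mem_comap] at h1
    have h2 : lf k N (Pi.single i 1) = X i := by
      unfold lf
      rw [Fintype.linearCombination_apply_single, one_smul]
    rw [h2] at h1
    exact h1
  · intro c hc
    rw [ringKrullDim_quotient]
    rw [ringKrullDim_quotient] at hdim
    set J := I ⊔ Ideal.span {∑ i, C (c i) * X i} with hJ
    refine iSup_le fun p => ?_
    have hle : ∀ i, J ≤ (p i).1.asIdeal := fun i => by
      have h1 := (p i).2
      rw [PrimeSpectrum.mem_zeroLocus] at h1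
      exact h1
    have hprime : ∀ i, (p i).1.asIdeal.IsPrime := fun i => (p i).1.isPrime
    obtain ⟨Q, hQm, hQle⟩ := Ideal.exists_minimalPrimes_le (I := I) (J := (p 0).1.asIdeal)
      (le_sup_left.trans (hle 0))
    have hQp : Q.IsPrime := hQm.1.1
    by_cases hQd : ringKrullDim (MvPolynomial (Fin (N + 1)) k ⧸ Q) ≤ (s : ℕ)
    · rw [ringKrullDim_quotient] at hQd
      refine le_trans ?_ hQd
      let p' : LTSeries (PrimeSpectrum.zeroLocus (Q : Set (MvPolynomial (Fin (N + 1)) k))) :=
        { length := p.length
          toFun := fun i => ⟨(p i).1, by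
            rw [PrimeSpectrum.mem_zeroLocus]
            have h2 : (p 0).1.asIdeal ≤ (p i).1.asIdeal := by
              have h3 : p 0 ≤ p i := p.monotone (Fin.zero_le i)
              exact h3
            exact hQle.trans h2⟩
          step := fun i => p.step i }
      exact Order.LTSeries.length_le_krullDim p'
    · have hcQ : ∑ i, C (c i) * X i ∉ Q := by
        intro hin
        refine hc _ ⟨Q, ⟨hQm, hQd⟩, rfl⟩ ?_
        rw [Submodule.mem_comap, lf_apply]
        exact hin
      let p' : LTSeries (PrimeSpectrum.zeroLocus (I : Set (MvPolynomial (Fin (N + 1)) k))) :=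
        { length := p.length
          toFun := fun i => ⟨(p i).1, by
            rw [PrimeSpectrum.mem_zeroLocus]
            have h2 : I ≤ (p i).1.asIdeal := le_sup_left.trans (hle i)
            exact h2⟩
          step := fun i => p.step i }
      let q : PrimeSpectrum.zeroLocus (I : Set (MvPolynomial (Fin (N + 1)) k)) :=
        ⟨⟨Q, hQp⟩, by
          rw [PrimeSpectrum.mem_zeroLocus]
          exact hQm.1.2⟩
      have hlt : q < p'.head := by
        have h1 : Q < (p 0).1.asIdeal := by
          refine lt_of_le_of_ne hQle fun h => hcQ ?_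
          rw [h]
          exact (hle 0) (le_sup_right (a := I) (Ideal.subset_span rfl))
        exact h1
      have h2 := Order.LTSeries.length_le_krullDim (p'.cons q hlt)
      have h3 := h2.trans hdim
      have h4 : (p'.cons q hlt).length = p.length + 1 := by
        simp [p']
      rw [h4] at h3
      have h5 : p.length + 1 ≤ s + 1 := by exact_mod_cast h3
      have h6 : p.length ≤ s := by omega
      exact_mod_cast h6

end Pool.Agent.FRM
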