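import Pool.Agent.FRM.Stmts

/-!
Squad FRM: module LZB (linear forms with independent differentials)
-/

set_option autoImplicit false

noncomputable section

namespace Pool.Agent.FRM

namespace LZB_

variable {ka F : Type} [Field ka] [Field F] [Algebra ka F]

/-- the elements whose differentials are in `W` -/
theorem mem_of_adjoin {ι : Type} (x : ι → F) (W : Submodule F (Ω[F⁄ka]))
    (hx : ∀ l, KaehlerDifferential.D ka F (x l) ∈ W)
    (hgen : IntermediateField.adjoin ka (Set.range x) = ⊤) : ∀ f : F,
    KaehlerDifferential.D ka F f ∈ W := by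
  intro f
  have hf : f ∈ IntermediateField.adjoin ka (Set.range x) := by rw [hgen]; trivial
  refine IntermediateField.adjoin_induction ka
    (p := fun f _ => KaehlerDifferential.D ka F f ∈ W) ?_ ?_ ?_ ?_ ?_ hf
  · rintro _ ⟨l, rfl⟩
    exact hx l
  · intro a
    rw [Derivation.map_algebraMap]
    exact W.zero_mem
  · intro a b _ _ ha hb
    rw [map_add]
    exact W.add_mem ha hb
  · intro a _ ha
    rw [Derivation.leibniz_inv]
    exact W.smul_mem _ ha
  · intro a b _ _ ha hb
    rw [Derivation.leibniz]
    exact W.add_mem (W.smul_mem _ hb) (W.smul_mem _ ha)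

end LZB_

open LZB_ in
theorem lzb_proof : Stmt_Lzb := by
  intro k ka F _ _ _ α _ N s x hgen v hli hne
  obtain ⟨W, hW⟩ : ∃ W : Submodule F (Ω[F⁄ka]),
    W = Submodule.span F (Set.range fun i => KaehlerDifferential.D ka F (v i)) := ⟨_, rfl⟩
  rw [← hW] at hne
  have hadd : ∀ a b : Fin (N + 1) → k, (∑ l, algebraMap ka F (α ((a + b) l)) * x l) =
      (∑ l, algebraMap ka F (α (a l)) * x l) + ∑ l, algebraMap ka F (α (b l)) * x l := by
    intro a b
    rw [← Finset.sum_add_distrib]
    refine Finset.sum_congr rfl fun l _ => ?_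
    rw [Pi.add_apply, map_add, map_add, add_mul]
  have hsm : ∀ (r : k) (a : Fin (N + 1) → k), (∑ l, algebraMap ka F (α ((r • a) l)) * x l) =
      (α r) • (∑ l, algebraMap ka F (α (a l)) * x l) := by
    intro r a
    rw [Finset.smul_sum]
    refine Finset.sum_congr rfl fun l _ => ?_
    rw [Pi.smul_apply, smul_eq_mul, map_mul, map_mul, Algebra.smul_def, mul_assoc]
  refine ⟨{ carrier := {c | KaehlerDifferential.D ka F (∑ l, algebraMap ka F (α (c l)) * x l) ∈ W}
            zero_mem' := ?_
            add_mem' := ?_
            smul_mem' := ?_ }, ?_, ?_⟩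
  · intro a b ha hb
    change KaehlerDifferential.D ka F _ ∈ W
    rw [hadd, map_add]
    exact W.add_mem ha hb
  · change KaehlerDifferential.D ka F _ ∈ W
    simp
  · intro r a ha
    change KaehlerDifferential.D ka F _ ∈ W
    rw [hsm, Derivation.map_smul, ← algebraMap_smul F]
    exact W.smul_mem _ ha
  · intro htop
    apply hne
    have hx : ∀ l, KaehlerDifferential.D ka F (x l) ∈ W := by
      intro l
      have h1 : Pi.single l 1 ∈ (⊤ : Submodule k (Fin (N + 1) → k)) := trivial
      rw [← htop] at h1
      have h2 : KaehlerDifferential.D ka F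
        (∑ m, algebraMap ka F (α ((Pi.single l 1 : Fin (N + 1) → k) m)) * x m) ∈ W := h1
      have h3 : (∑ m, algebraMap ka F (α ((Pi.single l 1 : Fin (N + 1) → k) m)) * x m) = x l := by
        rw [Finset.sum_eq_single l]
        · simp
        · intro m _ hm
          rw [Pi.single_eq_of_ne hm]
          simp
        · intro h
          exact absurd (Finset.mem_univ l) h
      rw [h3] at h2
      exact h2
    rw [eq_top_iff, ← KaehlerDifferential.span_range_derivation]
    refine Submodule.span_le.2 ?_
    rintro _ ⟨f, rfl⟩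
    exact mem_of_adjoin x W hx hgen f
  · intro c hc
    have h1 : (fun i => KaehlerDifferential.D ka F
        ((Fin.snoc v (∑ l, algebraMap ka F (α (c l)) * x l) : Fin (s + 1) → F) i)) =
        Fin.snoc (fun i => KaehlerDifferential.D ka F (v i))
          (KaehlerDifferential.D ka F (∑ l, algebraMap ka F (α (c l)) * x l)) := by
      funext i
      refine Fin.lastCases ?_ (fun j => ?_) i
      · rw [Fin.snoc_last, Fin.snoc_last]
      · rw [Fin.snoc_castSucc, Fin.snoc_castSucc]
    rw [h1, linearIndependent_finSnoc]
    refine ⟨hli, ?_⟩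
    rw [← hW]
    exact hc

end Pool.Agent.FRM
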