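import Pool.Agent.FRM.Stmts

/-!
# Module LZC: if the differentials of `v` generate, then `F` is separable over `ka(v)`
-/

set_option autoImplicit false

noncomputable section

namespace Pool.Agent.FRM

open scoped Classical
open MvPolynomial Pool.Agent.LibDb3ab1 Pool.Agent.DC

namespace LZC_

/-- if the differentials of `v` generate, then `F` is separable over the field `ka(v)` -/
theorem separable {ka F : Type} [Field ka] [Field F] [Algebra ka F] {r : ℕ} (v : Fin r → F)
    (hfg : ∃ s : Finset F, IntermediateField.adjoin ka (s : Set F) = ⊤)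
    (hspan : Submodule.span F (Set.range fun i => KaehlerDifferential.D ka F (v i)) = ⊤) :
    Algebra.IsSeparable (IntermediateField.adjoin ka (Set.range v)) F := by
  have hE1 : Algebra.EssFiniteType ka F := by
    rw [← IntermediateField.fg_top_iff]
    exact hfg
  have hE2 : Algebra.EssFiniteType (IntermediateField.adjoin ka (Set.range v)) F :=
    Algebra.EssFiniteType.of_comp ka (IntermediateField.adjoin ka (Set.range v)) F
  rw [← Algebra.FormallyUnramified.iff_isSeparable]
  rw [Algebra.formallyUnramified_iff]
  have hs := KaehlerDifferential.map_surjective ka (IntermediateField.adjoin ka (Set.range v)) F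
  have h0 : ∀ w, KaehlerDifferential.map ka (IntermediateField.adjoin ka (Set.range v)) F F w = 0 := by
    intro w
    have hw : w ∈ Submodule.span F (Set.range fun i => KaehlerDifferential.D ka F (v i)) := by
      rw [hspan]
      trivial
    have hle : Submodule.span F (Set.range fun i => KaehlerDifferential.D ka F (v i)) ≤
        LinearMap.ker (KaehlerDifferential.map ka (IntermediateField.adjoin ka (Set.range v)) F F) := by
      rw [Submodule.span_le]
      rintro _ ⟨i, rfl⟩
      rw [SetLike.mem_coe, LinearMap.mem_ker, KaehlerDifferential.map_D]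
      have h1 : v i ∈ IntermediateField.adjoin ka (Set.range v) :=
        IntermediateField.subset_adjoin ka _ ⟨i, rfl⟩
      exact (KaehlerDifferential.D (IntermediateField.adjoin ka (Set.range v)) F).map_algebraMap
        ⟨v i, h1⟩
    exact hle hw
  refine ⟨fun a b => ?_⟩
  obtain ⟨a', rfl⟩ := hs a
  obtain ⟨b', rfl⟩ := hs b
  rw [h0, h0]

end LZC_

open LZC_ in
open scoped IntermediateField.algebraAdjoinAdjoin in
theorem lzc_proof : Stmt_Lzc := by
  intro ka F _ _ _ r v hfg hspan x
  have hsep := LZC_.separable v hfg hspan
  set E := IntermediateField.adjoin ka (Set.range v) with hE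
  have hx : IsSeparable E x := Algebra.IsSeparable.isSeparable E x
  set m := minpoly E x with hm
  have hm0 : Polynomial.aeval x m = 0 := minpoly.aeval E x
  have hm1 : Polynomial.aeval x m.derivative ≠ 0 := Polynomial.Separable.aeval_derivative_ne_zero hx hm0
  -- clear denominators
  obtain ⟨b, hb, hbq⟩ := IsLocalization.integerNormalization_spec
    (nonZeroDivisors (Algebra.adjoin ka (Set.range v))) (S := E) m
  set q := IsLocalization.integerNormalization (nonZeroDivisors (Algebra.adjoin ka (Set.range v))) m with hq
  have hb0 : (b : Algebra.adjoin ka (Set.range v)) ≠ 0 := nonZeroDivisors.ne_zero hb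
  -- the lift to polynomials in `v`
  let ρ : MvPolynomial (Fin r) ka →+* Algebra.adjoin ka (Set.range v) :=
    ((aeval v).codRestrict (Algebra.adjoin ka (Set.range v)) (fun P => by
      rw [Algebra.adjoin_range_eq_range_aeval]
      exact ⟨P, rfl⟩)).toRingHom
  have hρ : ∀ P, ((ρ P : Algebra.adjoin ka (Set.range v)) : F) = aeval v P := fun P => rfl
  have hρs : Function.Surjective ρ := by
    rintro ⟨y, hy⟩
    rw [Algebra.adjoin_range_eq_range_aeval] at hy
    obtain ⟨P, hP⟩ := hy
    exact ⟨P, Subtype.ext hP⟩
  obtain ⟨f, hf⟩ := Polynomial.map_surjective ρ hρs q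
  have hcomp : (aeval v : MvPolynomial (Fin r) ka →ₐ[ka] F).toRingHom =
      ((algebraMap E F).comp (algebraMap (Algebra.adjoin ka (Set.range v)) E)).comp ρ :=
    RingHom.ext fun P => rfl
  have hbE : ∀ g : Polynomial E, Polynomial.eval₂ (algebraMap E F) x (b • g) =
      (b : F) * Polynomial.aeval x g := by
    intro g
    have e : b • g = Polynomial.C (algebraMap (Algebra.adjoin ka (Set.range v)) E b) * g := by
      rw [← Polynomial.smul_eq_C_mul, algebraMap_smul]
    rw [e, Polynomial.eval₂_mul, Polynomial.eval₂_C, Polynomial.aeval_def]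
    rfl
  have hbF : (b : F) ≠ 0 := fun h => hb0 (Subtype.ext h)
  refine ⟨f, ?_, ?_⟩
  · rw [hcomp, ← Polynomial.eval₂_map, hf, ← Polynomial.eval₂_map, hbq, hbE, hm0, mul_zero]
  · rw [hcomp, ← Polynomial.eval₂_map, ← Polynomial.derivative_map, hf, ← Polynomial.eval₂_map,
      ← Polynomial.derivative_map, hbq, Polynomial.derivative_smul, hbE]
    exact mul_ne_zero hbF hm1

end Pool.Agent.FRM
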