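import Pool.Agent.FRM.Stmts
import Pool.Agent.LibDb3ab1.Dim

set_option linter.style.haveILetI false

namespace Pool.Agent.FRM

open MvPolynomial

namespace LZD_

open scoped IntermediateField.algebraAdjoinAdjoin in
theorem finrank_eq_card {k F : Type} [Field k] [Field F] [Algebra k F] (s : Finset F)
    (hs : AlgebraicIndependent k ((↑) : s → F))
    (hsep : Algebra.IsSeparable (IntermediateField.adjoin k (Set.range ((↑) : s → F))) F) :
    Module.finrank F (KaehlerDifferential k F) = s.card := by
  have h1 : Algebra.FormallyEtale (Algebra.adjoin k (Set.range ((↑) : s → F)))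
      (IntermediateField.adjoin k (Set.range ((↑) : s → F))) :=
    .of_isLocalization (nonZeroDivisors _)
  have h2 : Algebra.FormallyEtale (IntermediateField.adjoin k (Set.range ((↑) : s → F))) F :=
    Algebra.FormallyEtale.of_isSeparable _ F
  have h3 : Algebra.FormallyEtale (Algebra.adjoin k (Set.range ((↑) : s → F))) F :=
    .comp _ (IntermediateField.adjoin k (Set.range ((↑) : s → F))) _
  letI a1 : Algebra (MvPolynomial s k) (Algebra.adjoin k (Set.range ((↑) : s → F))) :=
    hs.aevalEquiv.toRingEquiv.toRingHom.toAlgebra
  letI a2 : Algebra (MvPolynomial s k) F :=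
    (aeval ((↑) : s → F) : MvPolynomial s k →ₐ[k] F).toRingHom.toAlgebra
  haveI t1 : IsScalarTower (MvPolynomial s k) (Algebra.adjoin k (Set.range ((↑) : s → F))) F :=
    IsScalarTower.of_algebraMap_eq (fun x => (hs.algebraMap_aevalEquiv x).symm)
  haveI t2 : IsScalarTower k (MvPolynomial s k) F :=
    IsScalarTower.of_algebraMap_eq (fun x => by
      change _ = aeval ((↑) : s → F) (algebraMap k (MvPolynomial s k) x)
      rw [AlgHom.commutes])
  have h4 : Algebra.FormallyEtale (MvPolynomial s k)
      (Algebra.adjoin k (Set.range ((↑) : s → F))) :=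
    Algebra.FormallyEtale.of_equiv (A := MvPolynomial s k)
      (AlgEquiv.ofRingEquiv (f := hs.aevalEquiv.toRingEquiv) (fun _ => rfl))
  have h5 : Algebra.FormallyEtale (MvPolynomial s k) F :=
    .comp _ (Algebra.adjoin k (Set.range ((↑) : s → F))) _
  have e := KaehlerDifferential.tensorKaehlerEquivOfFormallyEtale k (MvPolynomial s k) F
  rw [← e.finrank_eq, Module.finrank_eq_card_basis
    ((KaehlerDifferential.mvPolynomialBasis k s).baseChange F)]
  simp

end LZD_

theorem lzd_proof : Stmt_Lzd := by
  intro ka _ _ N d P _ hd
  have key : ∀ (A F : Type) [CommRing A] [IsDomain A] [Algebra ka A] [Algebra.FiniteType ka A]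
      [Field F] [Algebra A F] [IsFractionRing A F] [Algebra ka F] [IsScalarTower ka A F],
      ringKrullDim A = (d : ℕ) → Module.finrank F (KaehlerDifferential ka F) = d := by
    intro A F _ _ _ _ _ _ _ _ _ hd
    haveI : Algebra.EssFiniteType A F :=
      Algebra.EssFiniteType.of_isLocalization F (nonZeroDivisors A)
    haveI : Algebra.EssFiniteType ka F := Algebra.EssFiniteType.comp ka A F
    obtain ⟨s, hs, hsep⟩ := exists_isTranscendenceBasis_and_isSeparable_of_perfectField ka F
    have h1 : Module.finrank F (KaehlerDifferential ka F) = s.card := by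
      have h0 : Set.range ((↑) : s → F) = (s : Set F) := by simp
      apply LZD_.finrank_eq_card s hs.1
      rw [h0]
      exact hsep
    rw [h1]
    have h2 : Algebra.trdeg ka F = s.card := by
      rw [← hs.cardinalMk_eq_trdeg]
      simp
    haveI : FaithfulSMul A F := (faithfulSMul_iff_algebraMap_injective _ _).mpr
      (IsFractionRing.injective A F)
    have h3 := trdeg_add_eq ka A (A := F)
    have h4 : Algebra.trdeg A F = 0 := by
      haveI : Algebra.IsAlgebraic A F := IsLocalization.isAlgebraic F (nonZeroDivisors A)
      exact trdeg_eq_zero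
    rw [h4, add_zero, h2] at h3
    have h5 := LibDb3ab1.ringKrullDim_eq_trdeg ka A h3
    rw [h5] at hd
    exact_mod_cast hd
  exact key _ _ hd

end Pool.Agent.FRM
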