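import Pool.Agent.FRM.Stmts

/-!
Module LZE of the squad FRM: a homogeneous ideal with quotient of dimension at most `0` contains
powers of the variables.
-/

set_option autoImplicit false

noncomputable section

namespace Pool.Agent.FRM

open MvPolynomial Pool.Agent.LibDb3ab1 Pool.Agent.DC

namespace LZE_

theorem comp_aeval {k : Type} [Field k] {N : ℕ} (i : Fin (N + 1)) (f : Polynomial k) (n : ℕ) :
    homogeneousComponent n (Polynomial.aeval (X i : MvPolynomial (Fin (N + 1)) k) f) =
      f.coeff n • X i ^ n := by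
  rw [Polynomial.aeval_eq_sum_range, map_sum]
  have h1 : ∀ j ∈ Finset.range (f.natDegree + 1),
      homogeneousComponent n (f.coeff j • (X i : MvPolynomial (Fin (N + 1)) k) ^ j) =
        if n = j then f.coeff n • X i ^ n else 0 := by
    intro j _
    rw [map_smul, homogeneousComponent_of_mem (isHomogeneous_X_pow i j)]
    split_ifs with h
    · rw [h]
    · rw [smul_zero]
  rw [Finset.sum_congr rfl h1, Finset.sum_ite_eq]
  split_ifs with h
  · rfl
  · rw [Finset.mem_range, not_lt] at h
    rw [Polynomial.coeff_eq_zero_of_natDegree_lt (by omega), zero_smul]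

end LZE_

theorem lze_proof : Stmt_Lze := by
  intro k _ N I hI hd i
  have h1 : Ring.KrullDimLE 0 (MvPolynomial (Fin (N + 1)) k ⧸ I) := by
    rw [Ring.krullDimLE_iff]; exact_mod_cast hd
  have h2 : IsArtinianRing (MvPolynomial (Fin (N + 1)) k ⧸ I) :=
    IsNoetherianRing.isArtinianRing_of_krullDimLE_zero
  have h3 : Module.Finite k (MvPolynomial (Fin (N + 1)) k ⧸ I) := Module.finite_of_isArtinianRing _ _
  have h4 : IsIntegral k (Ideal.Quotient.mk I (X i)) := Algebra.IsIntegral.isIntegral _
  obtain ⟨f, hf, hf0⟩ := h4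
  refine ⟨f.natDegree, ?_⟩
  have h5 : Polynomial.aeval (X i : MvPolynomial (Fin (N + 1)) k) f ∈ I := by
    rw [← Ideal.Quotient.eq_zero_iff_mem]
    have h6 : Ideal.Quotient.mk I (Polynomial.aeval (X i : MvPolynomial (Fin (N + 1)) k) f) =
        Polynomial.aeval (Ideal.Quotient.mk I (X i)) f := by
      rw [← Ideal.Quotient.mkₐ_eq_mk k I, Polynomial.aeval_algHom_apply]
    rw [h6]
    exact hf0
  have h7 := hI _ h5 f.natDegree
  rw [LZE_.comp_aeval, Polynomial.coeff_natDegree, hf.leadingCoeff, one_smul] at h7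
  exact h7

end Pool.Agent.FRM
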