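import Pool.Agent.FRM.Stmts

/-!
Module MINP: a homogeneous prime ideal of the same dimension above a homogeneous ideal.
-/

set_option autoImplicit false

noncomputable section

namespace Pool.Agent.FRM

attribute [local instance] MvPolynomial.gradedAlgebra

namespace MINP_

open MvPolynomial

variable {k : Type} [Field k] {σ : Type}

theorem homog_iff (P : Ideal (MvPolynomial σ k)) :
    Homog P ↔ P.IsHomogeneous (homogeneousSubmodule σ k) := by
  constructor
  · intro h i F hF
    have h1 := h F hF i
    rw [← decomposition.decompose'_apply] at h1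
    exact h1
  · intro h F hF m
    have h1 := h m hF
    rw [← decomposition.decompose'_apply]
    exact h1

end MINP_

open MINP_ in
theorem minp_proof : Stmt_MinP := by
  intro k _ N d I hI hd
  have hdim := ringKrullDim_quotient I
  rw [hd] at hdim
  obtain ⟨l, hl⟩ := Order.le_krullDim_iff.1 (le_of_eq hdim)
  set Q := (l.head).1.asIdeal with hQ
  have hQp : Q.IsPrime := (l.head).1.isPrime
  have hIQ : I ≤ Q := (l.head).2
  set P := (Q.homogeneousCore (MvPolynomial.homogeneousSubmodule (Fin (N + 1)) k)).toIdeal with hP
  have hPp : P.IsPrime := hQp.homogeneousCore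
  have hPQ : P ≤ Q := Ideal.toIdeal_homogeneousCore_le _ Q
  have hPh : Homog P := (homog_iff P).2 (Q.homogeneousCore _).isHomogeneous
  have hIP : I ≤ P := by
    have h1 := ((homog_iff I).1 hI).toIdeal_homogeneousCore_eq_self
    rw [← h1]
    exact Ideal.homogeneousCore_mono _ hIQ
  refine ⟨P, hIP, hPp, hPh, le_antisymm ?_ ?_⟩
  · rw [← hd]
    exact ringKrullDim_le_of_surjective (Ideal.Quotient.factor hIP)
      (Ideal.Quotient.factor_surjective hIP)
  · rw [ringKrullDim_quotient P, Order.le_krullDim_iff]
    refine ⟨{ length := l.length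
              toFun := fun i => ⟨(l i).1, ?_⟩
              step := ?_ }, hl⟩
    · have h2 : l.head ≤ l i := l.head_le i
      exact hPQ.trans h2
    · intro i
      exact l.step i

end Pool.Agent.FRM
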