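import Pool.Agent.FRM.Stmts
import Pool.Agent.DC.OPENU

/-!
# Module OPU: open tubes around a closed subscheme
-/

set_option autoImplicit false

noncomputable section

namespace Pool.Agent.FRM

open scoped Classical
open MvPolynomial Pool.Agent.LibDb3ab1 Pool.Agent.DC Pool.Agent.DC.OPENUX

theorem opu_proof : Stmt_Opu := by
  intro p _ K _ O _ hp0 n J _ P dP I hP hPI M
  refine ⟨⋃ l, chart P dP ((p : K) ^ M) l, isOpen_iUnion fun l => chart_open P dP hP _ l, ?_, ?_⟩
  · rintro ⟨R, L, fL, ι, V, x, hV, hx, rfl⟩ ha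
    obtain ⟨l, -, hl⟩ := Finset.exists_max_image Finset.univ (fun l => V.valuation (x l))
      ⟨0, Finset.mem_univ _⟩
    have hxl : x l ≠ 0 := by
      intro h0
      apply hx
      funext l2
      have h1 := hl l2 (Finset.mem_univ _)
      simp only [h0, map_zero] at h1
      exact (map_eq_zero V.valuation).1 (le_antisymm h1 zero_le)
    refine Set.mem_iUnion.2 ⟨l, ?_, ?_⟩
    · refine Set.mem_iInter.2 fun l2 => ?_
      change (X l2, X l) ∈ pointRel ι V x ∧ (X l, 0) ∉ pointRel ι V x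
      rw [pointRel_basic (isHomogeneous_X K l2) (isHomogeneous_X K l), eval₂_X, eval₂_X]
      exact ⟨hl l2 (Finset.mem_univ _), hxl⟩
    · refine Set.mem_iInter.2 fun j => ?_
      change (MvPolynomial.map O.subtype (P j), cmp ((p : K) ^ M) l (dP j)) ∈ pointRel ι V x ∧
        (cmp ((p : K) ^ M) l (dP j), 0) ∉ pointRel ι V x
      rw [pointRel_basic ((hP j).map _) (cmp_hom _ _ _), eval_cmp]
      obtain ⟨d, -, -, h2⟩ := ha _ (hPI j) (dP j) ((hP j).map _)
      rw [eval₂_zero, map_zero] at h2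
      refine ⟨h2.trans zero_le, mul_ne_zero ?_ (pow_ne_zero _ hxl)⟩
      rw [Ne, map_eq_zero]
      exact pow_ne_zero _ hp0
  · intro C' _ _ ι V hV _ _ y hy hT j
    obtain ⟨a, haU, ha⟩ := hT
    obtain ⟨l, hl⟩ := Set.mem_iUnion.1 haU
    have h1 := Set.mem_iInter.1 hl.2 j
    change (MvPolynomial.map O.subtype (P j), cmp ((p : K) ^ M) l (dP j)) ∈ a.1 ∧
        (cmp ((p : K) ^ M) l (dP j), 0) ∉ a.1 at h1
    rw [ha, pointRel_basic ((hP j).map _) (cmp_hom _ _ _), eval_cmp] at h1
    obtain ⟨h2, -⟩ := h1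
    have h3 : eval₂ ι (fun l => ((PreTilt.untilt (y l) : V) : C'))
        (MvPolynomial.map O.subtype (P j)) =
        ((eval₂ hV.incl (fun i => PreTilt.untilt (y i)) (P j) : V) : C') := by
      rw [eval₂_map]
      change _ = V.subtype (eval₂ hV.incl _ (P j))
      rw [hom_eval₂]
      rfl
    rw [h3] at h2
    have h4 : ((((p : V) ^ M : V)) : C') ≠ 0 := by
      have h5 : (((p : V) ^ M : V) : C') = ι ((p : K) ^ M) := by
        rw [map_pow, map_natCast]
        rfl
      rw [h5, Ne, map_eq_zero]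
      exact pow_ne_zero _ hp0
    refine dvd_of_val V _ _ h4 (h2.trans ?_)
    have h5 : ι ((p : K) ^ M) = (((p : V) ^ M : V) : C') := by
      rw [map_pow, map_natCast]
      rfl
    rw [h5, map_mul]
    refine mul_le_of_le_one_right' ?_
    rw [V.valuation_le_one_iff]
    exact V.pow_mem (PreTilt.untilt (y l) : V).2 _

end Pool.Agent.FRM
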