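import Pool.Agent.FRM.Stmts
import Pool.Agent.FRM.CMA
import Pool.Agent.DC.MainG
import Pool.Agent.DC.HOMEXT
import Pool.Agent.DC.DENS
import Pool.Agent.DC.PERT
import Pool.Agent.DC.ULTA
import Pool.Agent.DC.ULTB
import Pool.Agent.DC.ULTC

/-!
# PTB: perturbation to a prime ideal over an algebraically closed field, algebraic over `F_p(ϖ)`
-/

set_option autoImplicit false
set_option linter.style.haveILetI false

noncomputable section

namespace Pool.Agent.FRM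

open scoped Classical
open MvPolynomial Pool.Agent.LibDb3ab1 Pool.Agent.DC

namespace PTB64_

/-- evaluation at a nonunit is injective -/
theorem evt_inj {p : ℕ} [Fact p.Prime] {A : Type} [CommRing A] [IsDomain A] [CharP A p] {a : A}
    (ha : a ≠ 0) (hu : ¬IsUnit a) : Function.Injective (evt p a) := by
  rw [injective_iff_map_eq_zero]
  intro f hf
  by_contra h0
  obtain ⟨n, g, hg, hfg⟩ := WfDvdMonoid.max_power_factor' (x := (Polynomial.X :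
    Polynomial (ZMod p))) h0 Polynomial.not_isUnit_X
  rw [hfg, map_mul, map_pow] at hf
  have h1 : evt p a Polynomial.X = a := by
    rw [evt, Polynomial.coe_eval₂RingHom, Polynomial.eval₂_X]
  rw [h1] at hf
  have h2 : evt p a g = 0 := (mul_eq_zero.1 hf).resolve_left (pow_ne_zero n ha)
  have h3 : g.coeff 0 ≠ 0 := by
    intro h
    exact hg (Polynomial.X_dvd_iff.2 h)
  have h4 : g = Polynomial.X * g.divX + Polynomial.C (g.coeff 0) := (Polynomial.X_mul_divX_add g).symm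
  rw [h4, map_add, map_mul, h1] at h2
  apply hu
  have h5 : evt p a (Polynomial.C (g.coeff 0)) = ZMod.castHom (dvd_refl p) A (g.coeff 0) := by
    rw [evt, Polynomial.coe_eval₂RingHom, Polynomial.eval₂_C]
  have h6 : IsUnit (evt p a (Polynomial.C (g.coeff 0))) := by
    rw [h5]
    exact (isUnit_iff_ne_zero.2 h3).map _
  have h7 : a * (- evt p a g.divX) = evt p a (Polynomial.C (g.coeff 0)) := by
    linear_combination -h2
  rw [← h7] at h6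
  exact isUnit_of_mul_isUnit_left h6

end PTB64_

open PTB64_ in
set_option maxHeartbeats 4000000 in
theorem ptb64_proof (hOpu : Stmt_Opu) : Stmt_Ptb := by
  intro p _ ϖ hϖ hdens N d M J _ G e I hG hGI
  have hp0 : (p : ℂ_[p]) ≠ 0 := by exact_mod_cast (Fact.out : p.Prime).ne_zero
  obtain ⟨U, hU, hIU, hmain⟩ := hOpu p ℂ_[p] 𝓞_ℂ_[p] hp0 N J G e I hG hGI M
  refine ⟨U, hU, hIU, fun 𝔓 h𝔓1 h𝔓2 h𝔓3 h𝔓4 => ?_⟩
  have hp0O : (p : 𝓞_ℂ_[p]) ≠ 0 := by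
    intro h
    apply hp0
    have := congrArg (𝓞_ℂ_[p]).subtype h
    rwa [map_natCast, map_zero] at this
  let b : TB 𝓞_ℂ_[p] p :=
    { ϖ := ϖ
      u := 1
      hu := isUnit_one
      hϖ := by rw [one_mul, hϖ]
      hp0 := hp0
      hr := rank_one p
      hF := frob_surj _ }
  obtain ⟨J', _, f, hf⟩ := exists_gens (A := PreTilt 𝓞_ℂ_[p] p) (Q := TF 𝓞_ℂ_[p] p) 𝔓
  obtain ⟨N', hN⟩ := (ultc_proof ulta_proof ultb_proof) p ℂ_[p] 𝓞_ℂ_[p] b N U hU J' f (by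
    rw [hf]
    exact h𝔓4)
  -- the normed field
  have hpux := pux_proof 𝓞_ℂ_[p] p b
  letI iN : NontriviallyNormedField (TF 𝓞_ℂ_[p] p) := nnfPU (F := TF 𝓞_ℂ_[p] p) hpux.1
  haveI : IsUltrametricDist (TF 𝓞_ℂ_[p] p) := ultra_nfPU hpux.1
  haveI : IsAlgClosed (TF 𝓞_ℂ_[p] p) := tilt_isAlgClosed 𝓞_ℂ_[p] isUnit_one hp0O
    (by rw [one_mul, hϖ])
  have hnorm : ∀ x : TF 𝓞_ℂ_[p] p, ‖x‖ = vn (TF 𝓞_ℂ_[p] p) ϖ x := fun x => rfl
  have hϖ0 : ϖ ≠ 0 := by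
    rintro rfl
    rw [untilt_zero] at hϖ
    exact hp0O hϖ.symm
  have hϖu : ¬IsUnit ϖ := by
    intro h
    have h1 := h.map (PreTilt.untilt (O := 𝓞_ℂ_[p]) (p := p))
    rw [hϖ] at h1
    exact (Fact.out : ¬IsUnit (p : 𝓞_ℂ_[p])) h1
  -- the subfield
  have hinjA : Function.Injective (algebraMap (PreTilt 𝓞_ℂ_[p] p) (TF 𝓞_ℂ_[p] p)) :=
    IsFractionRing.injective _ _
  have hinj : Function.Injective ((algebraMap (PreTilt 𝓞_ℂ_[p] p) (TF 𝓞_ℂ_[p] p)).comp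
      (evt p ϖ)) := hinjA.comp (evt_inj hϖ0 hϖu)
  let σ : RatFunc (ZMod p) →+* TF 𝓞_ℂ_[p] p := IsFractionRing.lift hinj
  have hσ : ∀ g : Polynomial (ZMod p), σ (algebraMap _ _ g) =
      algebraMap (PreTilt 𝓞_ℂ_[p] p) (TF 𝓞_ℂ_[p] p) (evt p ϖ g) := fun g =>
    IsFractionRing.lift_algebraMap hinj g
  obtain ⟨ka, _, _, α, β, hβα, hαint, hβsurj⟩ := exists_ka σ
  haveI : CharP (RatFunc (ZMod p)) p :=
    charP_of_injective_algebraMap (FaithfulSMul.algebraMap_injective (ZMod p) _) p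
  haveI : CharP ka p := charP_of_injective_ringHom α.injective p
  have hβt : β (α RatFunc.X) = algebraMap (PreTilt 𝓞_ℂ_[p] p) (TF 𝓞_ℂ_[p] p) ϖ := by
    have h1 : β (α RatFunc.X) = σ RatFunc.X := RingHom.congr_fun hβα _
    rw [h1, ← RatFunc.algebraMap_X, hσ, evt, Polynomial.coe_eval₂RingHom, Polynomial.eval₂_X]
  -- density
  have hdens₁ : ∀ (y : PreTilt 𝓞_ℂ_[p] p) (n : ℕ), ∃ (a : ka) (w : PreTilt 𝓞_ℂ_[p] p),
      β a = algebraMap (PreTilt 𝓞_ℂ_[p] p) (TF 𝓞_ℂ_[p] p) w ∧ ϖ ^ n ∣ y - w := by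
    intro y n
    obtain ⟨w, ⟨g, hg0, hg⟩, hw⟩ := hdens y n
    obtain ⟨a, ha⟩ := hβsurj (algebraMap (PreTilt 𝓞_ℂ_[p] p) (TF 𝓞_ℂ_[p] p) w)
      ⟨g.map (algebraMap (Polynomial (ZMod p)) (RatFunc (ZMod p))), by
        rwa [Ne, Polynomial.map_eq_zero_iff (RatFunc.algebraMap_injective (ZMod p))],
        by
        rw [Polynomial.eval₂_map]
        have h2 : σ.comp (algebraMap (Polynomial (ZMod p)) (RatFunc (ZMod p))) =
            (algebraMap (PreTilt 𝓞_ℂ_[p] p) (TF 𝓞_ℂ_[p] p)).comp (evt p ϖ) :=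
          RingHom.ext hσ
        rw [h2, ← Polynomial.hom_eval₂, hg, map_zero]⟩
    exact ⟨a, w, ha, hw⟩
  have hdense : ∀ (x : TF 𝓞_ℂ_[p] p) (ε : ℝ), 0 < ε → ∃ a : ka, ‖x - β a‖ < ε := by
    intro x ε hε
    obtain ⟨r, w, hw⟩ := PU.dvd_pow hpux.1 x
    have hϖ0' : algebraMap (PreTilt 𝓞_ℂ_[p] p) (TF 𝓞_ℂ_[p] p) ϖ ≠ 0 := hpux.1.map_ne
    obtain ⟨M', hM'⟩ := exists_pow_lt_of_lt_one (show 0 < ε * (1 / 2) ^ r by positivity)
      (show (1 / 2 : ℝ) < 1 by norm_num)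
    obtain ⟨a, w', ha, hw'⟩ := hdens₁ w M'
    refine ⟨a / α RatFunc.X ^ r, ?_⟩
    have h2 : x - β (a / α RatFunc.X ^ r) =
        algebraMap (PreTilt 𝓞_ℂ_[p] p) (TF 𝓞_ℂ_[p] p) (w - w') /
          algebraMap (PreTilt 𝓞_ℂ_[p] p) (TF 𝓞_ℂ_[p] p) ϖ ^ r := by
      rw [map_div₀, map_pow, hβt, map_sub, ← hw, ha]
      change x - _ = (algebraMap _ _ ϖ ^ r * x - _) / _
      field_simp
    rw [h2, norm_div, norm_pow, hnorm (algebraMap _ _ ϖ), vn_self hpux.1,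
      div_lt_iff₀ (by positivity)]
    refine lt_of_le_of_lt ?_ hM'
    rw [hnorm]
    exact TN.vn_le_of_dvd hpux.1 hw'
  -- the perturbed ideal
  obtain ⟨𝔓a, h𝔓a1, h𝔓a2, h𝔓a3, h𝔓a4⟩ := (pert_proof (dens_proof homext_proof))
    (TF 𝓞_ℂ_[p] p) ka β hdense N (d + 1) 𝔓 h𝔓1 h𝔓2
    (by rw [h𝔓3]) J'
    (fun j => MvPolynomial.map (algebraMap (PreTilt 𝓞_ℂ_[p] p) (TF 𝓞_ℂ_[p] p)) (f j)) (fun j => by
      rw [← hf]
      exact Ideal.subset_span ⟨j, rfl⟩) ((1 / 2) ^ (N' + 1)) (by positivity)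
  refine ⟨ka, inferInstance, inferInstance, inferInstance, β, α RatFunc.X, 𝔓a, hβt, ?_, h𝔓a1,
    h𝔓a2, h𝔓a3, ?_⟩
  · intro x
    obtain ⟨q, hq, hqx⟩ := hαint x
    obtain ⟨P, hP, hPx⟩ := CMA_.clear α x q hq.ne_zero hqx
    refine ⟨P, hP, ?_⟩
    have h1 : evt p (α RatFunc.X) = α.comp (algebraMap (Polynomial (ZMod p)) (RatFunc (ZMod p))) := by
      refine Polynomial.ringHom_ext (fun a => ?_) ?_
      · rw [evt, Polynomial.coe_eval₂RingHom, Polynomial.eval₂_C, RingHom.comp_apply,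
          RatFunc.algebraMap_C]
        exact RingHom.congr_fun (RingHom.ext_zmod (ZMod.castHom (dvd_refl p) ka)
          (α.comp RatFunc.C)) a
      · rw [evt, Polynomial.coe_eval₂RingHom, Polynomial.eval₂_X, RingHom.comp_apply,
          RatFunc.algebraMap_X]
    rw [h1]
    exact hPx
  · intro y l hl hy j
    have hsmall := h𝔓a4 (TF 𝓞_ℂ_[p] p)
      (fun i => algebraMap (PreTilt 𝓞_ℂ_[p] p) (TF 𝓞_ℂ_[p] p) (y i))
      (fun i => vn_le_one _) (by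
        intro F hF
        have h1 : (algebraMap (TF 𝓞_ℂ_[p] p) (TF 𝓞_ℂ_[p] p)).comp β = β := rfl
        rw [h1]
        exact hy F hF)
    have hdvd : ∀ i, b.ϖV (valuedExt_id (O := 𝓞_ℂ_[p])) ^ N' ∣
        MvPolynomial.eval₂ (tmap (valuedExt_id (O := 𝓞_ℂ_[p])).incl) y (f i) := by
      intro i
      rw [ϖV_id, incl_id, tmap_id]
      apply TN.dvd_of_vn_lt (F := TF 𝓞_ℂ_[p] p) hpux.1
      have h1 : algebraMap (PreTilt 𝓞_ℂ_[p] p) (TF 𝓞_ℂ_[p] p)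
          (MvPolynomial.eval₂ (RingHom.id _) y (f i)) =
          MvPolynomial.aeval (fun i => algebraMap (PreTilt 𝓞_ℂ_[p] p) (TF 𝓞_ℂ_[p] p) (y i))
            (MvPolynomial.map (algebraMap (PreTilt 𝓞_ℂ_[p] p) (TF 𝓞_ℂ_[p] p)) (f i)) := by
        rw [MvPolynomial.aeval_def, MvPolynomial.eval₂_map, MvPolynomial.hom_eval₂]
        rfl
      rw [h1]
      refine lt_of_le_of_lt (hsmall i) ?_
      exact pow_lt_pow_right_of_lt_one₀ (by norm_num) (by norm_num) (Nat.lt_succ_self N')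
    have h1 := hN ℂ_[p] (RingHom.id _) 𝓞_ℂ_[p] valuedExt_id y l hl hdvd
    have hy0 : y ≠ 0 := by
      rintro rfl
      exact zero_ne_one hl
    have h2 := hmain ℂ_[p] (RingHom.id _) 𝓞_ℂ_[p] valuedExt_id y hy0 h1 j
    rwa [incl_id] at h2

end Pool.Agent.FRM
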