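import Pool.Agent.FRM.Stmts

/-!
Module SHP: comparison of the sharp map and the difference at the level `1 + 1 / p`.
-/

set_option autoImplicit false

noncomputable section

namespace Pool.Agent.FRM

open Pool.Agent.LibDb3ab1 Pool.Agent.DC

namespace SHP_

theorem core {O : Type} [CommRing O] [IsDomain O] [ValuationRing O] (p : ℕ)
    (hp : p.Prime) (hpu : ¬ IsUnit (p : O)) (hp0 : (p : O) ≠ 0) (q u v : O)
    (hq : q ^ (p ^ 2) = (p : O)) (h : q ^ (p * (p + 1)) ∣ u ^ p - v ^ p) :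
    q ^ (p + 1) ∣ u - v := by
  rcases ValuationRing.dvd_total (q ^ (p + 1)) (u - v) with h1 | ⟨m, hm⟩
  · exact h1
  by_contra hn
  have hw0 : u - v ≠ 0 := by
    intro h0
    exact hn (h0 ▸ dvd_zero _)
  have hmu : ¬ IsUnit m := by
    intro hu
    exact hn (by rw [hm]; exact (hu.mul_right_dvd).2 dvd_rfl)
  obtain ⟨e, he⟩ := h
  obtain ⟨c, hc⟩ : ∃ c : O, u ^ p - v ^ p = (u - v) ^ p + p * (u - v) * c := by
    have h2 := add_pow_prime_eq hp (u - v) v
    rw [sub_add_cancel] at h2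
    refine ⟨v * ∑ k ∈ Finset.Ioo 0 p, (u - v) ^ (k - 1) * v ^ (p - k - 1) *
      ((p.choose k / p : ℕ) : O), ?_⟩
    rw [h2]
    ring
  set w := u - v with hw
  have hp1 : p = (p - 1) + 1 := (Nat.sub_add_cancel hp.one_le).symm
  have hq0 : q ≠ 0 := by
    rintro rfl
    apply hp0
    rw [← hq, zero_pow (pow_ne_zero _ hp.ne_zero)]
  have e1 : w * ((p : O) * c) = w * (w ^ (p - 1) * (m ^ p * e - 1)) := by
    have e2 : q ^ (p * (p + 1)) = w ^ p * m ^ p := by
      rw [mul_comm p (p + 1), pow_mul, hm, mul_pow]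
    have e3 : w ^ p + (p : O) * w * c = w ^ p * m ^ p * e := by
      rw [← hc, he, e2]
    have e4 : w * w ^ (p - 1) = w ^ p := by
      rw [← pow_succ', ← hp1]
    calc w * ((p : O) * c) = (w ^ p + (p : O) * w * c) - w ^ p := by ring
      _ = w ^ p * m ^ p * e - w ^ p := by rw [e3]
      _ = (w * w ^ (p - 1)) * (m ^ p * e - 1) := by rw [e4]; ring
      _ = w * (w ^ (p - 1) * (m ^ p * e - 1)) := by ring
  have e5 := mul_left_cancel₀ hw0 e1
  have hun : IsUnit (m ^ p * e - 1) := by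
    have h6 : m ^ p * e ∈ nonunits O := by
      intro hu
      apply hmu
      have h7 := isUnit_of_mul_isUnit_left hu
      exact (isUnit_pow_iff hp.ne_zero).1 h7
    have h8 := IsLocalRing.isUnit_one_sub_self_of_mem_nonunits _ h6
    have h9 := h8.neg
    rwa [neg_sub] at h9
  have h10 : (p : O) ∣ w ^ (p - 1) := by
    have h11 : (p : O) ∣ w ^ (p - 1) * (m ^ p * e - 1) := ⟨c, e5.symm⟩
    exact (hun.dvd_mul_right).1 h11
  have h12 : q ^ (p ^ 2) ∣ q ^ (p ^ 2 - 1) := by
    have h13 : q ^ (p ^ 2 - 1) = w ^ (p - 1) * m ^ (p - 1) := by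
      have h14 : p ^ 2 - 1 = (p + 1) * (p - 1) := by
        have := Nat.sq_sub_sq p 1
        simpa using this
      rw [h14, pow_mul, hm, mul_pow]
    rw [hq, h13]
    exact h10.mul_right _
  have h15 : 1 ≤ p ^ 2 := Nat.one_le_pow _ _ hp.pos
  have h16 : q ∣ 1 := by
    have h17 : q ^ (p ^ 2 - 1) * q ∣ q ^ (p ^ 2 - 1) * 1 := by
      rw [mul_one, ← pow_succ, Nat.sub_add_cancel h15]
      exact h12
    exact (mul_dvd_mul_iff_left (pow_ne_zero _ hq0)).1 h17
  apply hpu
  rw [← hq]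
  exact (isUnit_of_dvd_one h16).pow _

end SHP_

variable {K : Type} [Field K] (O : ValuationSubring K) (p : ℕ) [Fact p.Prime]
  [Fact ¬IsUnit (p : O)] [IsAdicComplete (Ideal.span {(p : O)}) O]

theorem shp_proof : Stmt_Shp O p := by
  intro hpK s hs a b hab
  have hp : p.Prime := Fact.out
  have hp0 : (p : O) ≠ 0 := by
    intro h0
    apply hpK
    have := congrArg (fun x : O => (x : K)) h0
    simpa using this
  have hpu : ¬ IsUnit (p : O) := Fact.out
  have r : ∀ x : PreTilt O p, (PreTilt.untilt (rt p 1 x) : O) ^ p = PreTilt.untilt x := by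
    intro x
    have := untilt_rt_pow (O := O) 1 x
    rwa [pow_one] at this
  have r2 : ∀ x : PreTilt O p, (rt p 1 x) ^ p = x := by
    intro x
    have := rt_pow (p := p) 1 x
    rwa [pow_one] at this
  have hq : (PreTilt.untilt (rt p 1 s) : O) ^ (p ^ 2) = (p : O) := by
    rw [pow_two, pow_mul, r, hs]
  have h1 : (PreTilt.untilt (rt p 1 s) : O) ^ (p * (p + 1)) ∣
      (PreTilt.untilt (rt p 1 a) : O) ^ p - (PreTilt.untilt (rt p 1 b)) ^ p := by
    rw [pow_mul, r, r, r]
    exact hab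
  have h2 := SHP_.core p hp hpu hp0 _ _ _ hq h1
  have h3 : (p : O) ∣ PreTilt.untilt (rt p 1 a - rt p 1 b) -
      (PreTilt.untilt (rt p 1 a) - PreTilt.untilt (rt p 1 b)) := by
    apply dvd_of_mk_eq (p := p) (x := PreTilt.coeff 0 (rt p 1 a - rt p 1 b))
    · exact PreTilt.mk_untilt_eq_coeff_zero _
    · rw [map_sub, map_sub, PreTilt.mk_untilt_eq_coeff_zero, PreTilt.mk_untilt_eq_coeff_zero]
  have h4 : (PreTilt.untilt (rt p 1 s) : O) ^ (p + 1) ∣ (p : O) := by
    rw [← hq]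
    apply pow_dvd_pow
    have := hp.two_le
    nlinarith
  have h5 : (PreTilt.untilt (rt p 1 s) : O) ^ (p + 1) ∣
      PreTilt.untilt (rt p 1 a - rt p 1 b) := by
    have := dvd_add (h4.trans h3) h2
    rwa [sub_add_cancel] at this
  rw [← map_pow, untilt_dvd_iff] at h5
  have h6 := pow_dvd_pow_of_dvd h5 p
  rw [← pow_mul, mul_comm, pow_mul, r2, sub_pow_char, r2, r2] at h6
  exact h6

end Pool.Agent.FRM
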