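import Pool.Agent.FRM.Stmts

/-!
# WIT: the congruence in characteristic `p` which is satisfied by approximate zeros
-/

set_option autoImplicit false

noncomputable section

namespace Pool.Agent.FRM

open scoped Classical
open MvPolynomial Pool.Agent.LibDb3ab1 Pool.Agent.DC

namespace WIT_

theorem ev_expand {R : Type} [CommRing R] {σ : Type} (p : ℕ) (u : σ → R)
    (g : MvPolynomial σ ℤ) :
    eval₂ (Int.castRingHom R) u (expand p g) = eval₂ (Int.castRingHom R) (fun i => u i ^ p) g := by
  induction g using MvPolynomial.induction_on with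
  | C a => rw [expand_C, eval₂_C, eval₂_C]
  | add f g hf hg => rw [map_add, eval₂_add, eval₂_add, hf, hg]
  | mul_X f i hf => rw [map_mul, expand_X, eval₂_mul, eval₂_mul, hf, eval₂_pow, eval₂_X, eval₂_X]

section frob

variable {T : Type} [CommRing T] (p : ℕ) [Fact p.Prime] [CharP T p]

theorem eval₂_pow_p {σ : Type} (y : σ → T) (g : MvPolynomial σ ℤ) :
    eval₂ (Int.castRingHom T) y g ^ p = eval₂ (Int.castRingHom T) (fun i => y i ^ p) g := by
  have h := hom_eval₂ g (Int.castRingHom T) (frobenius T p) y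
  have h1 : (frobenius T p).comp (Int.castRingHom T) = Int.castRingHom T := RingHom.ext_int _ _
  rw [h1] at h
  exact h

end frob

variable {K : Type} [Field K] (O : ValuationSubring K) (p : ℕ) [Fact p.Prime]
  [Fact ¬IsUnit (p : O)] [IsAdicComplete (Ideal.span {(p : O)}) O]

/-- modulo `p` the sharp map is a homomorphism -/
theorem sharp_mod {σ : Type} (y : σ → PreTilt O p) (g : MvPolynomial σ ℤ) :
    (p : O) ∣ eval₂ (Int.castRingHom O) (fun i => PreTilt.untilt (y i)) g -
      PreTilt.untilt (eval₂ (Int.castRingHom (PreTilt O p)) y g) := by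
  have h0 : ∀ x : PreTilt O p, Ideal.Quotient.mk (Ideal.span {(p : O)}) (PreTilt.untilt x) =
      PreTilt.coeff 0 x := fun x => PreTilt.mk_untilt_eq_coeff_zero x
  refine dvd_of_mk_eq (p := p) (x := PreTilt.coeff 0 (eval₂ (Int.castRingHom (PreTilt O p)) y g))
    ?_ (h0 _)
  have h1 := hom_eval₂ g (Int.castRingHom O) (Ideal.Quotient.mk (Ideal.span {(p : O)}))
    (fun i => PreTilt.untilt (y i))
  have h2 := hom_eval₂ g (Int.castRingHom (PreTilt O p)) (PreTilt.coeff (O := O) (p := p) 0) y
  refine h1.trans (Eq.trans ?_ h2.symm)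
  have e1 : (Ideal.Quotient.mk (Ideal.span {(p : O)})).comp (Int.castRingHom O) =
      Int.castRingHom _ := RingHom.ext_int _ _
  have e2 : (PreTilt.coeff (O := O) (p := p) 0).comp (Int.castRingHom (PreTilt O p)) =
      Int.castRingHom _ := RingHom.ext_int _ _
  rw [e1, e2]
  congr 1
  funext i
  exact h0 (y i)

theorem untilt_neg_or (x : PreTilt O p) :
    PreTilt.untilt (-x) = - PreTilt.untilt x ∨ p = 2 := by
  by_cases hp : p = 2
  · exact Or.inr hp
  left
  have h1 : PreTilt.untilt (-1 : PreTilt O p) = -1 := by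
    have h2 : (PreTilt.untilt (-1 : PreTilt O p)) * PreTilt.untilt (-1 : PreTilt O p) = 1 := by
      rw [← map_mul]
      simp
    rcases mul_self_eq_one_iff.1 h2 with h3 | h3
    · exfalso
      have hu1 : PreTilt.untilt (1 : PreTilt O p) = 1 := map_one _
      have h5 : Ideal.Quotient.mk (Ideal.span {(p : O)}) (2 : O) = 0 := by
        have h6 : PreTilt.coeff 0 (-1 : PreTilt O p) + PreTilt.coeff 0 (1 : PreTilt O p) = 0 := by
          rw [← map_add]
          simp
        rw [← PreTilt.mk_untilt_eq_coeff_zero, ← PreTilt.mk_untilt_eq_coeff_zero, h3, hu1] at h6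
        rw [show (2 : O) = 1 + 1 by norm_num, map_add]
        exact h6
      rw [Ideal.Quotient.eq_zero_iff_mem, Ideal.mem_span_singleton] at h5
      have h6 : (p : O) ∣ 1 := by
        have h7 : Nat.Coprime 2 p := (Nat.coprime_primes Nat.prime_two Fact.out).2 (Ne.symm hp)
        have h8 : IsCoprime ((2 : ℤ)) (p : ℤ) := by exact_mod_cast Nat.isCoprime_iff_coprime.2 h7
        obtain ⟨a, b, hab⟩ := h8
        have h9 : (a : O) * 2 + (b : O) * (p : O) = 1 := by exact_mod_cast congrArg (Int.cast : ℤ → O) hab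
        rw [← h9]
        exact dvd_add (Dvd.dvd.mul_left h5 _) (dvd_mul_left _ _)
      exact (Fact.out : ¬IsUnit (p : O)) (isUnit_of_dvd_one h6)
    · exact h3
  rw [← neg_one_mul, map_mul, h1, neg_one_mul]

end WIT_

open WIT_

theorem wit_proof {K : Type} [Field K] (O : ValuationSubring K) (p : ℕ) [Fact p.Prime]
    [Fact ¬IsUnit (p : O)] [IsAdicComplete (Ideal.span {(p : O)}) O] (hSHP : Stmt_Shp O p) :
    Stmt_Wit O p := by
  intro hp0 s hs σ g g₁ hg y hy
  have hp2 : 2 ≤ p := (Fact.out : p.Prime).two_le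
  set y' : σ → PreTilt O p := fun i => rt p 1 (y i) with hy'
  have hyy : ∀ i, y' i ^ p = y i := by
    intro i
    have := rt_pow (p := p) 1 (y i)
    rwa [pow_one] at this
  set c : PreTilt O p := eval₂ (Int.castRingHom (PreTilt O p)) y g with hc
  set c' : PreTilt O p := eval₂ (Int.castRingHom (PreTilt O p)) y' g with hc'
  set d : PreTilt O p := eval₂ (Int.castRingHom (PreTilt O p)) y g₁ with hd
  set d' : PreTilt O p := eval₂ (Int.castRingHom (PreTilt O p)) y' g₁ with hd'
  have hcc : c' ^ p = c := by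
    rw [hc', hc, eval₂_pow_p]
    congr 1
    funext i
    exact hyy i
  have hdd : d' ^ p = d := by
    rw [hd', hd, eval₂_pow_p]
    congr 1
    funext i
    exact hyy i
  -- the values over `O`
  set G : O := eval₂ (Int.castRingHom O) (fun i => PreTilt.untilt (y' i)) g with hG
  set G₁ : O := eval₂ (Int.castRingHom O) (fun i => PreTilt.untilt (y' i)) g₁ with hG₁
  have h1 : (p : O) ^ 2 ∣ G ^ p - PreTilt.untilt c := by
    have h2 := dvd_pow_sub_pow (p := p) (sharp_mod O p y' g) 1
    rw [pow_one, ← map_pow, ← hc', hcc] at h2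
    exact h2
  obtain ⟨e, he⟩ := sharp_mod O p y' g₁
  have h2 : eval₂ (Int.castRingHom O) (fun i => PreTilt.untilt (y i)) g = G ^ p + p * G₁ := by
    have h3 := congrArg (eval₂ (Int.castRingHom O) (fun i => PreTilt.untilt (y' i))) hg
    rw [eval₂_mul, eval₂_C, eval₂_sub, eval₂_pow, ev_expand] at h3
    have h4 : (fun i => PreTilt.untilt (y' i) ^ p) = fun i => PreTilt.untilt (y i) := by
      funext i
      rw [← map_pow, hyy]
    rw [h4] at h3
    have h5 : (Int.castRingHom O) (p : ℤ) = (p : O) := by simp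
    rw [h5] at h3
    rw [hG, hG₁, h3]
    ring
  have hw : PreTilt.untilt (s ^ p * d') = (p : O) * PreTilt.untilt d' := by
    rw [map_mul, map_pow, hs]
  -- the congruence modulo `p ^ 2`
  have h3 : (p : O) ^ 2 ∣ PreTilt.untilt c + PreTilt.untilt (s ^ p * d') := by
    rw [h2] at hy
    have h4 : PreTilt.untilt c + PreTilt.untilt (s ^ p * d') =
        (G ^ p + p * G₁) - (G ^ p - PreTilt.untilt c) - (p : O) ^ 2 * e := by
      rw [hw]
      have h5 : G₁ = PreTilt.untilt d' + p * e := by
        rw [← he]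
        ring
      rw [h5]
      ring
    rw [h4]
    exact dvd_sub (dvd_sub hy h1) (dvd_mul_right _ _)
  have h4 : (p : O) ^ 2 ∣ PreTilt.untilt c - PreTilt.untilt (-(s ^ p * d')) := by
    rcases untilt_neg_or O p (s ^ p * d') with h5 | h5
    · rw [h5, sub_neg_eq_add]
      exact h3
    · have h6 : -(s ^ p * d') = s ^ p * d' := by
        have h7 : (p : PreTilt O p) = 0 := CharP.cast_eq_zero _ _
        have h8' : ((p : ℕ) : PreTilt O p) = ((2 : ℕ) : PreTilt O p) := congrArg (Nat.cast) h5
        have h8 : (2 : PreTilt O p) = 0 := by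
          rw [← h7, h8']
          norm_num
        have h9 : s ^ p * d' + s ^ p * d' = 0 := by
          rw [← two_mul, h8, zero_mul]
        exact neg_eq_of_add_eq_zero_left h9
      rw [h6]
      have h7 : PreTilt.untilt c - PreTilt.untilt (s ^ p * d') =
          (PreTilt.untilt c + PreTilt.untilt (s ^ p * d')) - (p : O) ^ 2 * PreTilt.untilt d' := by
        rw [hw, pow_two]
        have h8' : ((p : ℕ) : O) = ((2 : ℕ) : O) := congrArg (Nat.cast) h5
        have h8 : (2 : O) = (p : O) := by
          rw [h8']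
          norm_num
        calc PreTilt.untilt c - (p : O) * PreTilt.untilt d' =
            (PreTilt.untilt c + (p : O) * PreTilt.untilt d') - 2 * ((p : O) * PreTilt.untilt d') := by
              ring
          _ = _ := by rw [h8]; ring
      rw [h7]
      exact dvd_sub h3 (dvd_mul_right _ _)
  have h5 : PreTilt.untilt s ^ (p + 1) ∣ (p : O) ^ 2 := by
    rw [← hs, ← pow_mul]
    exact pow_dvd_pow _ (by omega)
  have h6 := hSHP hp0 s hs c (-(s ^ p * d')) (h5.trans h4)
  rw [sub_neg_eq_add] at h6
  have h7 := pow_dvd_pow_of_dvd h6 p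
  rw [add_pow_char, mul_pow, hdd] at h7
  have h8 : (s ^ (p + 1)) ^ p = (s ^ p) ^ (p + 1) := by
    rw [← pow_mul, ← pow_mul, mul_comm]
  rw [h8] at h7
  exact h7

end Pool.Agent.FRM
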