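import Pool.Agent.FRM.MainB
import Pool.Agent.FRM.KZA
import Pool.Agent.FRM.KZ
import Pool.Agent.FRM.CLO
import Pool.Agent.FRM.DEN
import Pool.Agent.FRM.SHP
import Pool.Agent.FRM.WIT
import Pool.Agent.FRM.MINP
import Pool.Agent.FRM.OPU
import Pool.Agent.FRM.PTB64
import Pool.Agent.FRM.LZA
import Pool.Agent.FRM.LZB
import Pool.Agent.FRM.LZC
import Pool.Agent.FRM.LZD
import Pool.Agent.FRM.LZE
import Pool.Agent.FRM.LINZ
import Pool.Agent.FRM.FIN64
import Pool.Agent.FRM.GAU
import Pool.Agent.FRM.BDI
import Pool.Agent.FRM.DVR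
import Pool.Agent.FRM.DSC
import Pool.Agent.FRM.DVG
import Pool.Agent.FRM.GPR
import Pool.Agent.FRM.GPS
import Pool.Agent.FRM.BCH
import Pool.Agent.FRM.CMA
import Pool.Agent.FRM.CMB
import Pool.Agent.FRM.HLA
import Pool.Agent.FRM.HLB
import Pool.Agent.FRM.HLC
import Pool.Agent.FRM.HOMA
import Pool.Agent.FRM.FINA

/-!
# The frame: all modules together
-/

set_option autoImplicit false

noncomputable section

namespace Pool.Agent.FRM

/-- **The frame.** -/
theorem frame_proof : Stmt_Frame :=
  frame (den_proof (kz_proof kza_proof) clo_proof)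
    (fun _ _ O p _ _ _ => wit_proof O p (shp_proof O p)) minp_proof (ptb64_proof opu_proof)
    (linz_proof lza_proof lzb_proof lzc_proof lzd_proof lze_proof) fin64_proof
    (bdi_proof gau_proof) (dsc_proof dvr_proof)

/-- **The frame, complete version.** -/
theorem frameC_proof : Stmt_FrameC :=
  frameC frame_proof (gps_proof gpr_proof) bch_proof (cma_proof dvg_proof) cmb_proof

theorem hla : Stmt_Hla := hla_proof
theorem hlb : Stmt_Hlb := hlb_proof hla_proof
theorem hlc : Stmt_Hlc := hlc_proof hla_proof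
theorem homa : Stmt_HomA := homa_proof
theorem fina : Stmt_FinA := fina_proof
theorem bdi : Stmt_Bdi := bdi_proof gau_proof
theorem bch : Stmt_Bch := bch_proof
theorem gps : Stmt_Gps := gps_proof gpr_proof

end Pool.Agent.FRM
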