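import Pool.Agent.DC.Inst

/-!
# The ring of integers of `ℂ_[p]`

`p` is not a unit, the ring is `p`-adically complete and has rank one.
-/

set_option autoImplicit false

noncomputable section

namespace Pool.Agent.FRM

open scoped Classical NNReal
open Pool.Agent.LibDb3ab1 Pool.Agent.DC MonoidWithZeroHom.ValueGroup₀

variable (p : ℕ) [Fact p.Prime]

theorem norm_eq_v (x : ℂ_[p]) : ((Valued.v x : ℝ≥0) : ℝ) = ‖x‖ := by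
  rw [PadicComplex.norm_eq_norm, Valuation.norm_def, PadicComplex.RankOne.hom_eq_embedding,
    Valuation.embedding_restrict (PadicComplex.valued p).v x]

theorem mem_int {x : ℂ_[p]} : x ∈ 𝓞_ℂ_[p] ↔ ‖x‖ ≤ 1 := by
  rw [PadicComplexInt, Valuation.mem_valuationSubring_iff, ← norm_eq_v, ← NNReal.coe_le_coe,
    NNReal.coe_one]

theorem norm_p : ‖(p : ℂ_[p])‖ = (p : ℝ)⁻¹ := by
  rw [← norm_eq_v, PadicComplex.valuation_p, one_div, NNReal.coe_inv, NNReal.coe_natCast]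

theorem norm_p_lt : ‖(p : ℂ_[p])‖ < 1 := by
  rw [norm_p]
  exact inv_lt_one_of_one_lt₀ (by exact_mod_cast (Fact.out : p.Prime).one_lt)

theorem norm_p_pos : 0 < ‖(p : ℂ_[p])‖ := by
  rw [norm_p, inv_pos]
  exact_mod_cast (Fact.out : p.Prime).pos

theorem isUnit_int {x : 𝓞_ℂ_[p]} : IsUnit x ↔ ‖(x : ℂ_[p])‖ = 1 := by
  constructor
  · rintro ⟨u, rfl⟩
    have h1 : ‖((u : 𝓞_ℂ_[p]) : ℂ_[p])‖ ≤ 1 := (mem_int p).1 (u : 𝓞_ℂ_[p]).2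
    have h2 : ‖((u⁻¹ : (𝓞_ℂ_[p])ˣ) : ℂ_[p])‖ ≤ 1 := (mem_int p).1 ((u⁻¹ : (𝓞_ℂ_[p])ˣ) : 𝓞_ℂ_[p]).2
    have h3 : ‖((u : 𝓞_ℂ_[p]) : ℂ_[p])‖ * ‖((u⁻¹ : (𝓞_ℂ_[p])ˣ) : ℂ_[p])‖ = 1 := by
      rw [← norm_mul]
      have h4 : ((u : 𝓞_ℂ_[p]) : ℂ_[p]) * (((u⁻¹ : (𝓞_ℂ_[p])ˣ) : 𝓞_ℂ_[p]) : ℂ_[p]) = 1 := by
        exact congrArg (fun y : 𝓞_ℂ_[p] => (y : ℂ_[p])) (Units.mul_inv u)
      rw [h4, norm_one]
    nlinarith [norm_nonneg (((u : 𝓞_ℂ_[p]) : ℂ_[p])), norm_nonneg (((u⁻¹ : (𝓞_ℂ_[p])ˣ) : ℂ_[p]))]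
  · intro h
    have h0 : (x : ℂ_[p]) ≠ 0 := by
      intro h0
      rw [h0, norm_zero] at h
      exact zero_ne_one h
    refine IsUnit.of_mul_eq_one ⟨(x : ℂ_[p])⁻¹, ?_⟩ ?_
    · rw [mem_int, norm_inv, h, inv_one]
    · apply Subtype.ext
      change (x : ℂ_[p]) * (x : ℂ_[p])⁻¹ = 1
      exact mul_inv_cancel₀ h0

theorem dvd_int {x y : 𝓞_ℂ_[p]} : x ∣ y ↔ ‖(y : ℂ_[p])‖ ≤ ‖(x : ℂ_[p])‖ := by
  constructor
  · rintro ⟨z, rfl⟩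
    have h1 : ‖(z : ℂ_[p])‖ ≤ 1 := (mem_int p).1 z.2
    change ‖(x : ℂ_[p]) * (z : ℂ_[p])‖ ≤ _
    rw [norm_mul]
    exact mul_le_of_le_one_right (norm_nonneg _) h1
  · intro h
    by_cases hx : (x : ℂ_[p]) = 0
    · rw [hx, norm_zero] at h
      have hy : y = 0 := Subtype.ext (norm_le_zero_iff.1 h)
      rw [hy]
      exact dvd_zero _
    · refine ⟨⟨(y : ℂ_[p]) / x, ?_⟩, ?_⟩
      · rw [mem_int, norm_div]
        exact div_le_one_of_le₀ h (norm_nonneg _)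
      · apply Subtype.ext
        change (y : ℂ_[p]) = x * (y / x)
        rw [mul_div_cancel₀ _ hx]

instance : Fact ¬IsUnit (p : 𝓞_ℂ_[p]) := ⟨by
  rw [isUnit_int]
  have h := norm_p_lt p
  intro h1
  have h2 : (((p : 𝓞_ℂ_[p]) : ℂ_[p])) = p := by norm_cast
  rw [h2] at h1
  linarith⟩

theorem coe_p : ((p : 𝓞_ℂ_[p]) : ℂ_[p]) = p := by norm_cast

theorem rank_one (x : 𝓞_ℂ_[p]) (hx : ¬IsUnit x) : ∃ n : ℕ, (p : 𝓞_ℂ_[p]) ∣ x ^ n := by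
  have h1 : ‖(x : ℂ_[p])‖ < 1 := by
    rw [isUnit_int] at hx
    exact lt_of_le_of_ne ((mem_int p).1 x.2) hx
  obtain ⟨n, hn⟩ := exists_pow_lt_of_lt_one (norm_p_pos p) h1
  refine ⟨n, ?_⟩
  rw [dvd_int, coe_p]
  have h2 : ((x ^ n : 𝓞_ℂ_[p]) : ℂ_[p]) = (x : ℂ_[p]) ^ n := by norm_cast
  rw [h2, norm_pow]
  exact hn.le

theorem pow_dvd_int {n : ℕ} {x : 𝓞_ℂ_[p]} :
    (p : 𝓞_ℂ_[p]) ^ n ∣ x ↔ ‖(x : ℂ_[p])‖ ≤ ‖(p : ℂ_[p])‖ ^ n := by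
  rw [dvd_int]
  have h2 : (((p : 𝓞_ℂ_[p]) ^ n : 𝓞_ℂ_[p]) : ℂ_[p]) = (p : ℂ_[p]) ^ n := by norm_cast
  rw [h2, norm_pow]

instance : IsAdicComplete (Ideal.span {(p : 𝓞_ℂ_[p])}) 𝓞_ℂ_[p] where
  haus' x hx := by
    have h1 : ∀ n : ℕ, ‖(x : ℂ_[p])‖ ≤ ‖(p : ℂ_[p])‖ ^ n := by
      intro n
      have h2 := hx n
      rw [smul_eq_mul, Ideal.mul_top, SModEq.zero, Ideal.span_singleton_pow,
        Ideal.mem_span_singleton] at h2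
      exact (pow_dvd_int p).1 h2
    have h3 := tendsto_pow_atTop_nhds_zero_of_lt_one (norm_p_pos p).le (norm_p_lt p)
    have h4 : ‖(x : ℂ_[p])‖ ≤ 0 := ge_of_tendsto' h3 h1
    exact Subtype.ext (norm_le_zero_iff.1 h4)
  prec' f hf := by
    have h1 : ∀ m n : ℕ, m ≤ n → ‖((f m : 𝓞_ℂ_[p]) : ℂ_[p]) - f n‖ ≤ ‖(p : ℂ_[p])‖ ^ m := by
      intro m n hmn
      have h2 := hf hmn
      rw [smul_eq_mul, Ideal.mul_top, SModEq.sub_mem, Ideal.span_singleton_pow,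
        Ideal.mem_span_singleton] at h2
      exact (pow_dvd_int p).1 h2
    have h2 : CauchySeq fun n => ((f n : 𝓞_ℂ_[p]) : ℂ_[p]) := by
      rw [Metric.cauchySeq_iff']
      intro ε hε
      obtain ⟨N, hN⟩ := exists_pow_lt_of_lt_one hε (norm_p_lt p)
      refine ⟨N, fun n hn => ?_⟩
      rw [dist_comm, dist_eq_norm]
      exact (h1 N n hn).trans_lt hN
    obtain ⟨y, hy⟩ := cauchySeq_tendsto_of_complete h2
    have h3 : ∀ m : ℕ, ‖((f m : 𝓞_ℂ_[p]) : ℂ_[p]) - y‖ ≤ ‖(p : ℂ_[p])‖ ^ m := by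
      intro m
      have h4 : Filter.Tendsto (fun n => ‖((f m : 𝓞_ℂ_[p]) : ℂ_[p]) - f n‖) Filter.atTop
          (nhds ‖((f m : 𝓞_ℂ_[p]) : ℂ_[p]) - y‖) := (tendsto_const_nhds.sub hy).norm
      exact le_of_tendsto h4 (Filter.eventually_atTop.2 ⟨m, fun n hn => h1 m n hn⟩)
    have h5 : ‖y‖ ≤ 1 := le_of_tendsto hy.norm (Filter.Eventually.of_forall fun n =>
      (mem_int p).1 (f n).2)
    refine ⟨⟨y, (mem_int p).2 h5⟩, fun n => ?_⟩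
    rw [smul_eq_mul, Ideal.mul_top, SModEq.sub_mem, Ideal.span_singleton_pow,
      Ideal.mem_span_singleton, pow_dvd_int]
    exact h3 n

end Pool.Agent.FRM
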