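import Pool.Agent.DC.StmtsG
import Pool.Agent.DC.StmtsF
import Pool.Agent.FRM.Cp

/-!
# Close models

A finite family `E` of homogeneous equations `g` over `ℤ`, and the notion of a close model of `E`
over a global function field: a homogeneous prime ideal which satisfies the equations to the
precision `t ^ (1 + 1 / p)`, in the sense of the tilt.
-/

set_option autoImplicit false

noncomputable section

namespace Pool.Agent.FRM

open scoped Classical
open MvPolynomial Pool.Agent.LibDb3ab1 Pool.Agent.DC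

/-- An integer polynomial, with coefficients in the ring `A`. -/
abbrev red (A : Type) [CommRing A] {σ : Type} (F : MvPolynomial σ ℤ) : MvPolynomial σ A :=
  MvPolynomial.map (Int.castRingHom A) F

/-- A finite family of homogeneous equations over `ℤ`, with `g₁ = (g(x^p) - g(x)^p) / p`. -/
structure Eqs (p N : ℕ) (J : Type) where
  /-- the equations -/
  g : J → MvPolynomial (Fin (N + 1)) ℤ
  /-- the polynomials `(g(x^p) - g(x)^p) / p` -/
  g₁ : J → MvPolynomial (Fin (N + 1)) ℤ
  /-- the degrees -/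
  e : J → ℕ
  pos : ∀ j, 0 < e j
  hom : ∀ j, (g j).IsHomogeneous (e j)
  ghost : ∀ j, C (p : ℤ) * g₁ j = expand p (g j) - g j ^ p

section maps

variable {N r : ℕ} {k : Type} [Field k] (V : ValuationSubring k)
  (P : Ideal (MvPolynomial (Fin (N + 1)) k))

/-- The homomorphism `V[x_0, …, x_N] → k[x_0, …, x_N] / P`. -/
def vmap : MvPolynomial (Fin (N + 1)) V →+* MvPolynomial (Fin (N + 1)) k ⧸ P :=
  (Ideal.Quotient.mk P).comp (MvPolynomial.map V.subtype)

/-- The homomorphism `V[z_1, …, z_r] → k[x_0, …, x_N] / P`. -/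
def zmap (z : Fin r → MvPolynomial (Fin (N + 1)) V) :
    MvPolynomial (Fin r) V →+* MvPolynomial (Fin (N + 1)) k ⧸ P :=
  (vmap V P).comp (MvPolynomial.aeval z).toRingHom

/-- The homomorphism `k[z_1, …, z_r] → k[x_0, …, x_N] / P`. -/
def kmap (z : Fin r → MvPolynomial (Fin (N + 1)) k) :
    MvPolynomial (Fin r) k →+* MvPolynomial (Fin (N + 1)) k ⧸ P :=
  (Ideal.Quotient.mk P).comp (MvPolynomial.aeval z).toRingHom

end maps

/-- Homogeneous ideals. -/
def Homog {k : Type} [CommRing k] {σ : Type} (P : Ideal (MvPolynomial σ k)) : Prop :=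
  ∀ F ∈ P, ∀ m, homogeneousComponent m F ∈ P

/-- The elements `x i` of the quotient by `P` are separable over the ring of polynomials in the
linear forms `z`: they are simple zeros of polynomials. -/
def Sepz {N r : ℕ} {k : Type} [Field k] (P : Ideal (MvPolynomial (Fin (N + 1)) k))
    (z : Fin r → MvPolynomial (Fin (N + 1)) k) : Prop :=
  ∀ i : Fin (N + 1), ∃ f : Polynomial (MvPolynomial (Fin r) k),
    f.eval₂ (kmap P z) (Ideal.Quotient.mk P (X i)) = 0 ∧
    f.derivative.eval₂ (kmap P z) (Ideal.Quotient.mk P (X i)) ≠ 0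

/-- `P` is a close model of the equations `E` over the field `k` with valuation ring `V`, of
dimension `d`; the `z i` are linear forms over `V` such that the `x i` are integral over `V[z]` and
separable over `k[z]`. -/
structure IsClose {p N : ℕ} {J : Type} (E : Eqs p N J) (d : ℕ) {k : Type} [Field k]
    (V : ValuationSubring k) (t : V) (P : Ideal (MvPolynomial (Fin (N + 1)) k))
    (z : Fin (d + 1) → MvPolynomial (Fin (N + 1)) V) : Prop where
  prime : P.IsPrime
  hom : Homog P
  dim : ringKrullDim (MvPolynomial (Fin (N + 1)) k ⧸ P) = (d + 1 : ℕ)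
  t_ne : t ≠ 0
  t_nonunit : ¬IsUnit t
  z_hom : ∀ i, (z i).IsHomogeneous 1
  z_int : ∀ i, (zmap V P z).IsIntegralElem (Ideal.Quotient.mk P (X i))
  z_sep : Sepz P fun i => MvPolynomial.map V.subtype (z i)
  close : ∀ j, (vmap V P).IsIntegralElem (Ideal.Quotient.mk P
    (C (((t : k)⁻¹) ^ (p + 1)) * (red k (E.g j) ^ p + C ((t : k) ^ p) * red k (E.g₁ j))))

/-- Close models over global function fields. -/
structure CloseModel {p N : ℕ} [Fact p.Prime] {J : Type} (E : Eqs p N J) (d : ℕ) where
  /-- the field, a finite extension of `F_p(t)` -/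
  L : Type
  [field : Field L]
  [alg : Algebra (RatFunc (ZMod p)) L]
  [fin : FiniteDimensional (RatFunc (ZMod p)) L]
  /-- the valuation ring -/
  V : ValuationSubring L
  dvr : IsDiscreteValuationRing V
  /-- the variable of the rational function field -/
  t : V
  coe_t : (t : L) = algebraMap (RatFunc (ZMod p)) L RatFunc.X
  /-- the ideal -/
  P : Ideal (MvPolynomial (Fin (N + 1)) L)
  /-- the linear forms -/
  z : Fin (d + 1) → MvPolynomial (Fin (N + 1)) V
  close : IsClose E d V t P z
  geom : (P.map (MvPolynomial.map (σ := Fin (N + 1)) (algebraMap L (AlgebraicClosure L)))).IsPrime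

/-- **The frame**: if there is no close model of the equations `E`, then no closed subscheme of
dimension `d` is in a suitable tube around the closed subscheme defined by `E` over `ℂ_[p]`. -/
def Stmt_Frame : Prop :=
  ∀ (p N d : ℕ) [Fact p.Prime] (J : Type) [Finite J] (E : Eqs p N J),
    ringKrullDim (MvPolynomial (Fin (N + 1)) (ZMod p) ⧸
      Ideal.span (Set.range fun j => red (ZMod p) (E.g j))) ≤ (d + 1 : ℕ) →
    IsEmpty (CloseModel E d) →
    ∀ I : Ideal (MvPolynomial (Fin (N + 1)) ℂ_[p]), (∀ j, red ℂ_[p] (E.g j) ∈ I) →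
    ∃ U : Set (AdicProj 𝓞_ℂ_[p] N), IsOpen U ∧ adicLocus 𝓞_ℂ_[p] I ⊆ U ∧
      ∀ 𝔓 : Ideal (MvPolynomial (Fin (N + 1)) (FractionRing (PreTilt 𝓞_ℂ_[p] p))), Homog 𝔓 →
        ringKrullDim (MvPolynomial (Fin (N + 1)) (FractionRing (PreTilt 𝓞_ℂ_[p] p)) ⧸ 𝔓) =
          (d + 1 : ℕ) → ¬TiltInside p 𝓞_ℂ_[p] 𝔓 U

end Pool.Agent.FRM
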