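import Pool.Agent.FRM.Stmts
import Pool.Agent.DC.MainG
import Pool.Agent.DC.DIMF

/-!
# The assembly of the frame
-/

set_option autoImplicit false
set_option linter.unusedSectionVars false
set_option linter.style.haveILetI false

noncomputable section

namespace Pool.Agent.FRM

open scoped Classical
open MvPolynomial Pool.Agent.LibDb3ab1 Pool.Agent.DC

section prep

/-- The ghost polynomials are homogeneous. -/
theorem Eqs.hom₁ {p N : ℕ} [Fact p.Prime] {J : Type} (E : Eqs p N J) (j : J) :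
    (E.g₁ j).IsHomogeneous (p * E.e j) := by
  have hp : (p : ℤ) ≠ 0 := by exact_mod_cast (Fact.out : p.Prime).ne_zero
  have h1 : (C (p : ℤ) * E.g₁ j).IsHomogeneous (p * E.e j) := by
    rw [E.ghost]
    apply IsHomogeneous.sub
    · intro m hm
      have h2 : m ∈ (expand p (E.g j)).support := by rwa [mem_support_iff]
      obtain ⟨m', hm', rfl⟩ := Finset.mem_image.1 (support_expand_subset _ h2)
      have h3 := E.hom j (mem_support_iff.1 hm')
      change Finsupp.weight 1 (p • m') = _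
      rw [map_nsmul, h3, smul_eq_mul]
    · rw [mul_comm]
      exact (E.hom j).pow p
  intro m hm
  apply h1
  rw [coeff_C_mul]
  exact mul_ne_zero hp hm

theorem homog_span {k : Type} [CommRing k] {σ : Type} (S : Set (MvPolynomial σ k))
    (hS : ∀ F ∈ S, ∃ n, F.IsHomogeneous n) : Homog (Ideal.span S) := by
  letI := MvPolynomial.gradedAlgebra (R := k) (σ := σ)
  have h1 : (Ideal.span S).IsHomogeneous (homogeneousSubmodule σ k) := by
    apply Ideal.homogeneous_span
    intro F hF
    obtain ⟨n, hn⟩ := hS F hF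
    exact ⟨n, hn⟩
  intro F hF m
  exact (mem_iff_homogeneousComponent_mem h1 F).1 hF m

/-- The valuation ring of the fraction field. -/
theorem mem_vr {W Ω : Type} [CommRing W] [IsDomain W] [ValuationRing W] [Field Ω] [Algebra W Ω]
    [IsFractionRing W Ω] (x : Ω) :
    x ∈ (ValuationRing.valuation W Ω).valuationSubring ↔ ∃ w : W, algebraMap W Ω w = x := by
  rw [Valuation.mem_valuationSubring_iff, ← Valuation.mem_integer_iff,
    ValuationRing.mem_integer_iff]

/-- Points with coordinates in the fraction field can be scaled. -/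
theorem exists_scale {W Ω : Type} [CommRing W] [IsDomain W] [ValuationRing W] [Field Ω]
    [Algebra W Ω] [IsFractionRing W Ω] {n : ℕ} (y : Fin (n + 1) → Ω) (hy : y ≠ 0) :
    ∃ (c : Ω) (x : Fin (n + 1) → W) (l : Fin (n + 1)), c ≠ 0 ∧ x l = 1 ∧
      ∀ i, y i = c * algebraMap W Ω (x i) := by
  obtain ⟨l, -, hl⟩ := Finset.exists_max_image Finset.univ
    (fun l => ValuationRing.valuation W Ω (y l)) ⟨0, Finset.mem_univ _⟩
  have hyl : y l ≠ 0 := by
    intro h0
    apply hy
    funext i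
    have h1 := hl i (Finset.mem_univ _)
    rw [h0, map_zero] at h1
    exact (map_eq_zero (ValuationRing.valuation W Ω)).1 (le_antisymm h1 zero_le)
  have hv : ∀ i, ∃ w : W, algebraMap W Ω w = y i / y l := by
    intro i
    rw [← mem_vr, Valuation.mem_valuationSubring_iff, map_div₀]
    have h2 : 0 < ValuationRing.valuation W Ω (y l) := by
      rw [zero_lt_iff, Ne, map_eq_zero]
      exact hyl
    exact (div_le_one₀ h2).2 (hl i (Finset.mem_univ _))
  choose x hx using hv
  refine ⟨y l, x, l, hyl, ?_, fun i => ?_⟩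
  · apply IsFractionRing.injective W Ω
    rw [hx, map_one, div_self hyl]
  · rw [hx, mul_div_cancel₀ _ hyl]

section toW

variable {W Ω ka : Type} [CommRing W] [IsDomain W] [ValuationRing W] [Field Ω] [Algebra W Ω]
  [IsFractionRing W Ω] [Field ka] (β : ka →+* Ω)

/-- The map from the valuation ring `β⁻¹(W)` to `W`. -/
def toWf (x : (ValuationRing.valuation W Ω).valuationSubring.comap β) : W :=
  ((mem_vr (W := W) (β x)).1 x.2).choose

theorem toWf_spec (x : (ValuationRing.valuation W Ω).valuationSubring.comap β) :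
    algebraMap W Ω (toWf β x) = β x := ((mem_vr (W := W) (β x)).1 x.2).choose_spec

/-- The map from the valuation ring `β⁻¹(W)` to `W`. -/
def toW : ((ValuationRing.valuation W Ω).valuationSubring.comap β) →+* W where
  toFun := toWf β
  map_one' := IsFractionRing.injective W Ω (by rw [toWf_spec]; simp)
  map_mul' x y := IsFractionRing.injective W Ω (by
    rw [map_mul, toWf_spec, toWf_spec, toWf_spec]; simp)
  map_zero' := IsFractionRing.injective W Ω (by rw [toWf_spec]; simp)
  map_add' x y := IsFractionRing.injective W Ω (by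
    rw [map_add, toWf_spec, toWf_spec, toWf_spec]; simp)

theorem toW_spec (x : (ValuationRing.valuation W Ω).valuationSubring.comap β) :
    algebraMap W Ω (toW β x) = β x := toWf_spec β x

end toW

theorem eval₂_scale {k Ω : Type} [Field k] [Field Ω] (φ : k →+* Ω) {n : ℕ} (c : Ω)
    {x y : Fin n → Ω} (hxy : ∀ i, y i = c * x i) {F : MvPolynomial (Fin n) k} {m : ℕ}
    (hF : F.IsHomogeneous m) : eval₂ φ y F = c ^ m * eval₂ φ x F := by
  rw [eval₂_eq, eval₂_eq, Finset.mul_sum]
  refine Finset.sum_congr rfl fun e he => ?_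
  have h1 : e.degree = m := by
    have h2 := hF (mem_support_iff.1 he)
    have h3 : e.degree = Finsupp.weight 1 e := by
      rw [Finsupp.degree_eq_weight_one]
      rfl
    rw [h3, h2]
  have h2 : ∏ i ∈ e.support, y i ^ e i = c ^ m * ∏ i ∈ e.support, x i ^ e i := by
    rw [← h1, Finsupp.degree_apply, ← Finset.prod_pow_eq_pow_sum, ← Finset.prod_mul_distrib]
    exact Finset.prod_congr rfl fun i _ => by rw [hxy, mul_pow]
  rw [h2]
  ring

theorem vmap_of_zmap {N r : ℕ} {k : Type} [Field k] (V : ValuationSubring k)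
    (P : Ideal (MvPolynomial (Fin (N + 1)) k)) (z : Fin r → MvPolynomial (Fin (N + 1)) V)
    {b : MvPolynomial (Fin (N + 1)) k ⧸ P} (hb : (zmap V P z).IsIntegralElem b) :
    (vmap V P).IsIntegralElem b := by
  obtain ⟨f, hf, hfb⟩ := hb
  refine ⟨f.map (MvPolynomial.aeval z).toRingHom, hf.map _, ?_⟩
  rw [Polynomial.eval₂_map]
  exact hfb

end prep

section alg

/-- The algebraic part of the frame: from a prime ideal over an algebraically closed field, whose
zeros satisfy the congruences, to a close model. -/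
theorem close_of_points (hLinz : Stmt_Linz) (hFin : Stmt_Fin) (hBdi : Stmt_Bdi)
    (hDsc : Stmt_Dsc) {p N d : ℕ} [Fact p.Prime] {J : Type} [Finite J] (E : Eqs p N J)
    (hdim : ringKrullDim (MvPolynomial (Fin (N + 1)) (ZMod p) ⧸
      Ideal.span (Set.range fun j => red (ZMod p) (E.g j))) ≤ (d + 1 : ℕ))
    {W Ω ka : Type} [CommRing W] [IsDomain W] [ValuationRing W] [Field Ω] [Algebra W Ω]
    [IsFractionRing W Ω] [IsAlgClosed Ω] [Field ka] [IsAlgClosed ka] [CharP ka p]
    (β : ka →+* Ω) (t : ka) (ϖ : W) (hϖ : algebraMap W Ω ϖ = β t) (hϖ0 : ϖ ≠ 0)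
    (hϖu : ¬IsUnit ϖ) (halg : ∀ x : ka, AlgT p t x)
    (P : Ideal (MvPolynomial (Fin (N + 1)) ka)) (hP : P.IsPrime) (hPh : Homog P)
    (hPd : ringKrullDim (MvPolynomial (Fin (N + 1)) ka ⧸ P) = (d + 1 : ℕ))
    (hz : ∀ (y : Fin (N + 1) → W) (l : Fin (N + 1)), y l = 1 →
      (∀ F ∈ P, eval₂ β (fun i => algebraMap W Ω (y i)) F = 0) →
      ∀ j, ϖ ^ (p + 1) ∣ eval₂ (Int.castRingHom W) y (E.g j) ^ p +
        ϖ ^ p * eval₂ (Int.castRingHom W) y (E.g₁ j)) : Nonempty (CloseModel E d) := by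
  have hp0 : p ≠ 0 := (Fact.out : p.Prime).ne_zero
  set Va : ValuationSubring ka := (ValuationRing.valuation W Ω).valuationSubring.comap β with hVa
  have hmem : ∀ x, x ∈ Va ↔ ∃ w : W, algebraMap W Ω w = β x := fun x => mem_vr (W := W) (β x)
  -- the constants
  obtain ⟨k₀, _, _, α₀, β₀, hαβ, hint, -⟩ := exists_ka (ZMod.castHom (dvd_refl p) ka)
  have hk₀ : ∀ x : k₀, β₀ x ∈ Va := by
    intro x
    obtain ⟨f, hf, hfx⟩ := hint x
    have h1 : IsIntegral Va (β₀ x) := by
      refine ⟨f.map (ZMod.castHom (dvd_refl p) Va), hf.map _, ?_⟩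
      rw [Polynomial.eval₂_map, RingHom.ext_zmod ((algebraMap Va ka).comp
        (ZMod.castHom (dvd_refl p) Va)) (β₀.comp α₀), ← Polynomial.hom_eval₂, hfx, map_zero]
    obtain ⟨y, hy⟩ := IsIntegrallyClosed.isIntegral_iff.1 h1
    rw [← hy]
    exact y.2
  let γ : k₀ →+* Va := β₀.codRestrict Va.toSubring hk₀
  have hγ : Va.subtype.comp γ = β₀ := rfl
  -- the linear forms
  obtain ⟨z, hz1, hz2, hz3⟩ := hLinz k₀ ka β₀ N d
    (Ideal.span (Set.range fun j => red k₀ (E.g j)))
    (homog_span _ (by rintro _ ⟨j, rfl⟩; exact ⟨E.e j, (E.hom j).map _⟩)) (by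
      have h1 := dimf_proof (ZMod p) k₀ α₀ (N + 1)
        (Ideal.span (Set.range fun j => red (ZMod p) (E.g j)))
      have h2 : (Ideal.span (Set.range fun j => red (ZMod p) (E.g j))).map
          (MvPolynomial.map α₀) = Ideal.span (Set.range fun j => red k₀ (E.g j)) := by
        rw [Ideal.map_span, ← Set.range_comp]
        refine congrArg (fun u => Ideal.span (Set.range u)) (funext fun j => ?_)
        change MvPolynomial.map α₀ (MvPolynomial.map (Int.castRingHom (ZMod p)) (E.g j)) =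
          MvPolynomial.map (Int.castRingHom k₀) (E.g j)
        rw [MvPolynomial.map_map,
          RingHom.ext_int (α₀.comp (Int.castRingHom (ZMod p))) (Int.castRingHom k₀)]
      rw [h2] at h1
      rw [h1]
      exact hdim) P hP hPh hPd
  let zV : Fin (d + 1) → MvPolynomial (Fin (N + 1)) Va := fun i => MvPolynomial.map γ (z i)
  have hzV : ∀ i, MvPolynomial.map Va.subtype (zV i) = MvPolynomial.map β₀ (z i) := by
    intro i
    change MvPolynomial.map Va.subtype (MvPolynomial.map γ (z i)) = _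
    rw [MvPolynomial.map_map, hγ]
  have hzVh : ∀ i, (zV i).IsHomogeneous 1 := fun i => (hz1 i).map _
  -- the values of the linear forms at integral points
  have hval : ∀ (y : Fin (N + 1) → W) (i : Fin (d + 1)),
      algebraMap W Ω (eval₂ ((toW (W := W) β).comp γ) y (z i)) =
      eval₂ (β.comp Va.subtype) (fun i => algebraMap W Ω (y i)) (zV i) := by
    intro y i
    have h1 : (algebraMap W Ω).comp ((toW (W := W) β).comp γ) = (β.comp Va.subtype).comp γ := by
      ext x
      exact toW_spec (W := W) β (γ x)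
    change _ = eval₂ (β.comp Va.subtype) (fun i => algebraMap W Ω (y i))
      (MvPolynomial.map γ (z i))
    rw [eval₂_map, ← h1, hom_eval₂]
  have hunit : ∀ y : Fin (N + 1) → W, (∃ l, y l = 1) →
      (∀ F ∈ P, eval₂ β (fun i => algebraMap W Ω (y i)) F = 0) →
      ∃ (i : Fin (d + 1)) (w : W), IsUnit w ∧
        algebraMap W Ω w = eval₂ (β.comp Va.subtype) (fun i => algebraMap W Ω (y i)) (zV i) := by
    rintro y ⟨l, hl⟩ hy
    by_contra hcon
    push Not at hcon
    obtain ⟨M, hM⟩ := hz2 l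
    have h1 : Ideal.span (Set.range fun j => red k₀ (E.g j)) ⊔ Ideal.span (Set.range z) ≤
        (IsLocalRing.maximalIdeal W).comap (eval₂Hom ((toW (W := W) β).comp γ) y) := by
      rw [sup_le_iff, Ideal.span_le, Ideal.span_le]
      constructor
      · rintro _ ⟨j, rfl⟩
        change eval₂ _ _ (MvPolynomial.map _ _) ∈ IsLocalRing.maximalIdeal W
        rw [eval₂_map, RingHom.ext_int (((toW (W := W) β).comp γ).comp (Int.castRingHom k₀))
          (Int.castRingHom W), IsLocalRing.mem_maximalIdeal, mem_nonunits_iff]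
        intro hu
        have h2 := hz y l hl hy j
        have h3 : ϖ ∣ eval₂ (Int.castRingHom W) y (E.g j) ^ p := by
          rw [← dvd_add_left (Dvd.dvd.mul_right (dvd_pow_self ϖ hp0) _)]
          exact (dvd_pow_self ϖ (Nat.succ_ne_zero p)).trans h2
        exact hϖu (isUnit_of_dvd_unit h3 (hu.pow p))
      · rintro _ ⟨i, rfl⟩
        change eval₂ _ _ (z i) ∈ IsLocalRing.maximalIdeal W
        rw [IsLocalRing.mem_maximalIdeal, mem_nonunits_iff]
        intro hu
        exact hcon i _ hu (hval y i)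
    have h2 := h1 hM
    rw [Ideal.mem_comap, map_pow, coe_eval₂Hom, eval₂_X, hl, one_pow] at h2
    exact (Ideal.ne_top_iff_one _).1 (IsLocalRing.maximalIdeal.isMaximal W).ne_top h2
  have hfin := hFin ka Ω β N d P hP hPh hPd (fun i => MvPolynomial.map β₀ (z i))
    (fun i => (hz1 i).map _) (by
      intro y hy hyP
      obtain ⟨c, x, l, hc, hxl, hyx⟩ := exists_scale (W := W) y hy
      have hxP := zero_scale (n := N) hPh β hc hyx hyP
      obtain ⟨i, w, hw, hwx⟩ := hunit x ⟨l, hxl⟩ hxP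
      refine ⟨i, ?_⟩
      rw [eval₂_scale β c hyx ((hz1 i).map _), ← hzV, eval₂_map, ← hwx]
      refine mul_ne_zero (pow_ne_zero _ hc) ?_
      rw [Ne, map_eq_zero_iff _ (IsFractionRing.injective W Ω)]
      exact hw.ne_zero)
  have hb := hBdi W Ω ka β Va hmem N (d + 1) P hP hPh zV hzVh (by simpa only [hzV] using hfin.1)
    (by simpa only [hzV] using hfin.2) hunit
  have htV : t ∈ Va := (hmem t).2 ⟨ϖ, hϖ⟩
  have ht0 : t ≠ 0 := by
    rintro rfl
    rw [map_zero, map_eq_zero_iff _ (IsFractionRing.injective W Ω)] at hϖ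
    exact hϖ0 hϖ
  refine hDsc p N d J E ka Va ⟨t, htV⟩ halg P zV ⟨hP, hPh, hPd, ?_, ?_, hzVh, ?_, ?_, ?_⟩
  · intro h
    exact ht0 (congrArg Subtype.val h)
  · intro h
    apply hϖu
    have h1 : toW (W := W) β ⟨t, htV⟩ = ϖ := by
      apply IsFractionRing.injective W Ω
      rw [toW_spec, hϖ]
    rw [← h1]
    exact h.map _
  · intro i
    refine hb (X i) 1 one_pos (isHomogeneous_X _ _) ?_
    intro y _ _
    exact ⟨y i, by rw [eval₂_X]⟩
  · simpa only [hzV] using hz3
  · intro j
    have hβt : β t ≠ 0 := (map_ne_zero β).2 ht0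
    refine vmap_of_zmap Va P zV (hb _ (p * E.e j) (Nat.mul_pos (Fact.out : p.Prime).pos (E.pos j))
      ?_ ?_)
    · have h1 : (red ka (E.g j) ^ p).IsHomogeneous (p * E.e j) := by
        rw [mul_comm]
        exact ((E.hom j).map _).pow p
      have h2 : (C (t ^ p) * red ka (E.g₁ j)).IsHomogeneous (p * E.e j) := by
        have := (isHomogeneous_C (Fin (N + 1)) (t ^ p)).mul ((E.hom₁ j).map (Int.castRingHom ka))
        rwa [zero_add] at this
      have := (isHomogeneous_C (Fin (N + 1)) ((t⁻¹) ^ (p + 1))).mul (h1.add h2)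
      rwa [zero_add] at this
    · rintro y ⟨l, hl⟩ hy
      obtain ⟨w, hw⟩ := hz y l hl hy j
      refine ⟨w, ?_⟩
      have h1 : ∀ F : MvPolynomial (Fin (N + 1)) ℤ,
          eval₂ β (fun i => algebraMap W Ω (y i)) (red ka F) =
          algebraMap W Ω (eval₂ (Int.castRingHom W) y F) := by
        intro F
        rw [eval₂_map, hom_eval₂, RingHom.ext_int (β.comp (Int.castRingHom ka))
          ((algebraMap W Ω).comp (Int.castRingHom W))]
      rw [eval₂_mul, eval₂_add, eval₂_pow, eval₂_mul, eval₂_C, eval₂_C, h1, h1, map_pow,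
        map_pow, map_inv₀]
      have h2 := congrArg (algebraMap W Ω) hw
      rw [map_add, map_mul, map_mul, map_pow, map_pow, map_pow, hϖ] at h2
      rw [h2, inv_pow, inv_mul_cancel_left₀ (pow_ne_zero _ hβt)]

end alg

section final

/-- **The frame**, from its modules. -/
theorem frame (hDen : Stmt_Den)
    (hWit : ∀ (K : Type) [Field K] (O : ValuationSubring K) (p : ℕ) [Fact p.Prime]
      [Fact ¬IsUnit (p : O)] [IsAdicComplete (Ideal.span {(p : O)}) O], Stmt_Wit O p)
    (hMinP : Stmt_MinP) (hPtb : Stmt_Ptb) (hLinz : Stmt_Linz) (hFin : Stmt_Fin)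
    (hBdi : Stmt_Bdi) (hDsc : Stmt_Dsc) : Stmt_Frame := by
  intro p N d _ J _ E hdim hE I hI
  obtain ⟨ϖ, hϖ, hdens⟩ := hDen p
  have hp0 : (p : ℂ_[p]) ≠ 0 := by exact_mod_cast (Fact.out : p.Prime).ne_zero
  obtain ⟨U, hU, hIU, hmain⟩ := hPtb p ϖ hϖ hdens N d 2 J (fun j => red 𝓞_ℂ_[p] (E.g j)) E.e I
    (fun j => (E.hom j).map _) (fun j => by
      have h1 : MvPolynomial.map (𝓞_ℂ_[p]).subtype (red 𝓞_ℂ_[p] (E.g j)) = red ℂ_[p] (E.g j) := by
        rw [MvPolynomial.map_map, RingHom.ext_int ((𝓞_ℂ_[p]).subtype.comp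
          (Int.castRingHom 𝓞_ℂ_[p])) (Int.castRingHom ℂ_[p])]
      rw [h1]
      exact hI j)
  refine ⟨U, hU, hIU, fun 𝔓 h𝔓 hd hT => ?_⟩
  obtain ⟨P', hle, hprime, hhom, hd'⟩ := hMinP _ N d 𝔓 h𝔓 hd
  have hT' : TiltInside p 𝓞_ℂ_[p] P' U := fun C _ _ ι V hV _ _ y hy hF =>
    hT C ι V hV y hy fun F hF' => hF F (hle hF')
  obtain ⟨ka, _, _, _, β, t, P, hβt, halg, hP1, hP2, hP3, hzero⟩ :=
    hmain P' hprime hhom hd' hT'
  have hp0O : (p : 𝓞_ℂ_[p]) ≠ 0 := by
    intro h
    apply hp0
    have := congrArg (𝓞_ℂ_[p]).subtype h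
    rwa [map_natCast, map_zero] at this
  have hϖ0 : ϖ ≠ 0 := by
    rintro rfl
    rw [untilt_zero] at hϖ
    exact hp0O hϖ.symm
  have hϖu : ¬IsUnit ϖ := by
    intro h
    have h1 := h.map (PreTilt.untilt (O := 𝓞_ℂ_[p]) (p := p))
    rw [hϖ] at h1
    exact (Fact.out : ¬IsUnit (p : 𝓞_ℂ_[p])) h1
  haveI : IsAlgClosed (TF 𝓞_ℂ_[p] p) := tilt_isAlgClosed 𝓞_ℂ_[p] isUnit_one hp0O
    (by rw [one_mul, hϖ])
  obtain ⟨M⟩ := close_of_points hLinz hFin hBdi hDsc E hdim β t ϖ hβt.symm hϖ0 hϖu halg P hP1 hP2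
    hP3 (by
      intro y l hl hy j
      have h1 := hzero y l hl hy j
      have h2 : (p : 𝓞_ℂ_[p]) ^ 2 ∣ eval₂ (Int.castRingHom 𝓞_ℂ_[p])
          (fun i => PreTilt.untilt (y i)) (E.g j) := by
        rw [eval₂_map] at h1
        exact h1
      have h3 : (rt p 1 ϖ) ^ p = ϖ := by
        have := rt_pow 1 ϖ
        rwa [pow_one] at this
      have h4 := hWit ℂ_[p] 𝓞_ℂ_[p] p hp0 (rt p 1 ϖ) (by rw [← map_pow, h3, hϖ]) _ (E.g j) (E.g₁ j)
        (E.ghost j) y h2
      rwa [h3] at h4)
  exact hE.false M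

end final

end Pool.Agent.FRM
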