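import Pool.Agent.FRM.StmtsB
import Pool.Agent.FRM.Main

/-!
# The frame, complete version: assembly
-/

set_option autoImplicit false
set_option linter.unusedSectionVars false
set_option linter.style.haveILetI false

noncomputable section

namespace Pool.Agent.FRM

open scoped Classical
open MvPolynomial Pool.Agent.LibDb3ab1 Pool.Agent.DC

/-- From a close model over a function field to a complete close model. -/
theorem complete_of_close (hGps : Stmt_Gps) (hBch : Stmt_Bch) (hCma : Stmt_Cma)
    (hCmb : Stmt_Cmb) {p N d : ℕ} [Fact p.Prime] {J : Type} {E : Eqs p N J}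
    (M : CloseModel E d) : Nonempty (CompleteModel E d) := by
  letI := M.field
  letI := M.alg
  haveI := M.fin
  have hX : algebraMap (RatFunc (ZMod p)) M.L RatFunc.X ∈ M.V := by
    rw [← M.coe_t]
    exact M.t.2
  have hX' : (algebraMap (RatFunc (ZMod p)) M.L RatFunc.X)⁻¹ ∉ M.V := by
    intro h
    apply M.close.t_nonunit
    refine IsUnit.of_mul_eq_one ⟨_, h⟩ ?_
    apply Subtype.ext
    change (M.t : M.L) * (algebraMap (RatFunc (ZMod p)) M.L RatFunc.X)⁻¹ = 1
    rw [M.coe_t]
    apply mul_inv_cancel₀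
    rw [← M.coe_t]
    intro h0
    exact M.close.t_ne (Subtype.ext h0)
  obtain ⟨L', _, V₁, μ₁, F, _, _, _, c₁, h1, h2, h3, h4⟩ := hCma p M.L M.V hX hX'
  obtain ⟨K, _, V', μ₂, c, h5, h6, h7, h8, -⟩ := hCmb L' V₁ h2 F c₁ h4
  have hcomap : V'.comap (μ₂.comp μ₁) = M.V := by
    rw [← h1, ← h5]
    rfl
  have hmem : ∀ x : M.V, (μ₂.comp μ₁) x ∈ V' := by
    intro x
    have h9 : (x : M.L) ∈ V'.comap (μ₂.comp μ₁) := by rw [hcomap]; exact x.2
    exact h9
  let μV : M.V →+* V' := ((μ₂.comp μ₁).comp M.V.subtype).codRestrict V'.toSubring hmem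
  have hchar : CharP M.L p := by
    haveI : CharP (RatFunc (ZMod p)) p :=
      charP_of_injective_algebraMap (FaithfulSMul.algebraMap_injective (ZMod p) _) p
    exact charP_of_injective_algebraMap (FaithfulSMul.algebraMap_injective
      (RatFunc (ZMod p)) M.L) p
  have hchar' : CharP K p := charP_of_injective_ringHom (μ₂.comp μ₁).injective p
  have hgeom := hGps M.L (N + 1) M.P M.geom
  exact ⟨{
    K := K
    char := hchar'
    V := V'
    dvr := h6
    complete := h7
    F := F
    algebraic := h3
    c := c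
    bij := h8
    t := μV M.t
    P := M.P.map (MvPolynomial.map (μ₂.comp μ₁))
    z := fun i => MvPolynomial.map μV (M.z i)
    close := hBch p N d J E M.L M.V M.t M.P M.z M.close K V' (μ₂.comp μ₁) μV (fun _ => rfl)
      hcomap (hgeom K _)
    geom := fun K' _ ν => by
      have h9 : (MvPolynomial.map (σ := Fin (N + 1)) ν).comp (MvPolynomial.map (μ₂.comp μ₁)) =
          MvPolynomial.map (ν.comp (μ₂.comp μ₁)) := by
        ext x
        · simp
        · simp
      rw [Ideal.map_map, h9]
      exact hgeom K' _ }⟩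

/-- **The frame, complete version.** -/
theorem frameC (h : Stmt_Frame) (hGps : Stmt_Gps) (hBch : Stmt_Bch) (hCma : Stmt_Cma)
    (hCmb : Stmt_Cmb) : Stmt_FrameC := by
  intro p N d _ J _ E hdim hE I hI
  refine h p N d J E hdim ⟨fun M => ?_⟩ I hI
  obtain ⟨M'⟩ := complete_of_close hGps hBch hCma hCmb M
  exact hE.false M'

end Pool.Agent.FRM
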