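import Pool.Agent.FRM.Stmts
import Pool.Agent.DC.MainG
import Pool.Agent.DC.HOMEXT
import Pool.Agent.DC.DENS
import Pool.Agent.DC.PERT
import Pool.Agent.DC.ULTA
import Pool.Agent.DC.ULTB
import Pool.Agent.DC.ULTC

/-!
# Module PTB: perturbation to a prime ideal over an algebraically closed field which is algebraic
over `F_p(ϖ)`
-/

set_option autoImplicit false
set_option linter.style.haveILetI false

noncomputable section

namespace Pool.Agent.FRM

open scoped Classical
open MvPolynomial Pool.Agent.LibDb3ab1 Pool.Agent.DC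

namespace PTB_

/-- Elements of `F_p[t]` at a nonzero nonunit of a local domain. -/
theorem evt_inj {p : ℕ} [Fact p.Prime] {A : Type} [CommRing A] [IsDomain A] [IsLocalRing A]
    [CharP A p] {a : A} (ha0 : a ≠ 0) (hau : ¬IsUnit a) : Function.Injective (evt p a) := by
  rw [injective_iff_map_eq_zero]
  intro q hq
  by_contra hq0
  obtain ⟨n, r, hr, hqr⟩ : ∃ (n : ℕ) (r : Polynomial (ZMod p)), r.coeff 0 ≠ 0 ∧
      q = Polynomial.X ^ n * r := by
    obtain ⟨r, hr⟩ := Polynomial.exists_eq_pow_rootMultiplicity_mul_and_not_dvd q hq0 0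
    refine ⟨q.rootMultiplicity 0, r, ?_, ?_⟩
    · intro h0
      apply hr.2
      rw [Polynomial.C_0, sub_zero, Polynomial.X_dvd_iff]
      exact h0
    · have h1 := hr.1
      rw [Polynomial.C_0, sub_zero] at h1
      exact h1
  have h1 : evt p a q = a ^ n * evt p a r := by
    rw [hqr, map_mul, map_pow]
    congr 1
    congr 1
    exact Polynomial.eval₂_X _ _
  rw [hq] at h1
  have h2 : evt p a r = 0 := (mul_eq_zero.1 h1.symm).resolve_left (pow_ne_zero n ha0)
  obtain ⟨s, hs⟩ : Polynomial.X ∣ r - Polynomial.C (r.coeff 0) := by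
    rw [Polynomial.X_dvd_iff]; simp
  have h3 : r = Polynomial.C (r.coeff 0) + Polynomial.X * s := by rw [← hs]; ring
  have h4 : evt p a r = ZMod.castHom (dvd_refl p) A (r.coeff 0) + a * evt p a s := by
    conv_lhs => rw [h3]
    rw [map_add, map_mul]
    have e1 : evt p a (Polynomial.C (r.coeff 0)) = ZMod.castHom (dvd_refl p) A (r.coeff 0) :=
      Polynomial.eval₂_C _ _
    have e2 : evt p a Polynomial.X = a := Polynomial.eval₂_X _ _
    rw [e1, e2]
  rw [h2] at h4
  have h5 : IsUnit (ZMod.castHom (dvd_refl p) A (r.coeff 0)) := (isUnit_iff_ne_zero.2 hr).map _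
  have h6 : ZMod.castHom (dvd_refl p) A (r.coeff 0) ∈ IsLocalRing.maximalIdeal A := by
    have h7 : ZMod.castHom (dvd_refl p) A (r.coeff 0) = -(a * evt p a s) := by
      linear_combination -h4
    rw [h7]
    apply neg_mem
    exact Ideal.mul_mem_right _ _ ((IsLocalRing.mem_maximalIdeal _).2 hau)
  exact (IsLocalRing.mem_maximalIdeal _).1 h6 h5

theorem evt_comp {p : ℕ} [Fact p.Prime] {A B : Type} [CommRing A] [CommRing B] [CharP A p]
    [CharP B p] (f : A →+* B) (a : A) : f.comp (evt p a) = evt p (f a) := by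
  apply Polynomial.ringHom_ext
  · intro c
    have e1 : evt p a (Polynomial.C c) = ZMod.castHom (dvd_refl p) A c := Polynomial.eval₂_C _ _
    have e2 : evt p (f a) (Polynomial.C c) = ZMod.castHom (dvd_refl p) B c :=
      Polynomial.eval₂_C _ _
    rw [RingHom.comp_apply, e1, e2]
    exact RingHom.congr_fun (RingHom.ext_zmod (f.comp (ZMod.castHom (dvd_refl p) A))
      (ZMod.castHom (dvd_refl p) B)) c
  · have e1 : evt p a Polynomial.X = a := Polynomial.eval₂_X _ _
    have e2 : evt p (f a) Polynomial.X = f a := Polynomial.eval₂_X _ _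
    rw [RingHom.comp_apply, e1, e2]

theorem ext_evt {p : ℕ} [Fact p.Prime] {B : Type} [CommRing B] [CharP B p]
    (f : Polynomial (ZMod p) →+* B) : f = evt p (f Polynomial.X) := by
  apply Polynomial.ringHom_ext
  · intro c
    have e2 : evt p (f Polynomial.X) (Polynomial.C c) = ZMod.castHom (dvd_refl p) B c :=
      Polynomial.eval₂_C _ _
    rw [e2]
    exact RingHom.congr_fun (RingHom.ext_zmod (f.comp Polynomial.C)
      (ZMod.castHom (dvd_refl p) B)) c
  · exact (Polynomial.eval₂_X _ _).symm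


theorem algT_map {p : ℕ} [Fact p.Prime] {A B : Type} [CommRing A] [CommRing B] [CharP A p]
    [CharP B p] (f : A →+* B) {a x : A} (hx : AlgT p a x) : AlgT p (f a) (f x) := by
  obtain ⟨F, hF, hFx⟩ := hx
  refine ⟨F, hF, ?_⟩
  rw [← evt_comp, ← Polynomial.hom_eval₂, hFx, map_zero]

/-- The algebraic closure of `F_p(x₀)` in an algebraically closed field. -/
theorem small {p : ℕ} [Fact p.Prime] {k₁ : Type} [Field k₁] [IsAlgClosed k₁] [CharP k₁ p]
    (x₀ : k₁) (hinj : Function.Injective (evt p x₀)) :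
    ∃ (ka : Type) (_ : Field ka) (_ : IsAlgClosed ka) (_ : CharP ka p) (β : ka →+* k₁) (t : ka),
      β t = x₀ ∧ (∀ x : ka, AlgT p t x) ∧ ∀ x : k₁, AlgT p x₀ x → ∃ a, β a = x := by
  obtain ⟨σ, hσψ⟩ : ∃ σ : FractionRing (Polynomial (ZMod p)) →+* k₁,
      σ.comp (algebraMap (Polynomial (ZMod p)) (FractionRing (Polynomial (ZMod p)))) =
        evt p x₀ :=
    ⟨IsFractionRing.lift hinj, RingHom.ext fun x => IsFractionRing.lift_algebraMap hinj x⟩
  obtain ⟨ka, _, _, α, β, hβα, hαint, hβsurj⟩ := exists_ka σ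
  haveI hch : CharP ka p := RingHom.charP β β.injective p
  have hαt : α.comp (algebraMap (Polynomial (ZMod p)) (FractionRing (Polynomial (ZMod p)))) =
      evt p (α (algebraMap (Polynomial (ZMod p))
        (FractionRing (Polynomial (ZMod p))) Polynomial.X)) := ext_evt _
  refine ⟨ka, inferInstance, inferInstance, hch, β, α (algebraMap (Polynomial (ZMod p))
    (FractionRing (Polynomial (ZMod p))) Polynomial.X), ?_, ?_, ?_⟩
  · have h1 : β (α (algebraMap (Polynomial (ZMod p)) (FractionRing (Polynomial (ZMod p)))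
        Polynomial.X)) = (β.comp α) (algebraMap (Polynomial (ZMod p))
        (FractionRing (Polynomial (ZMod p))) Polynomial.X) := rfl
    rw [h1, hβα]
    have h2 := RingHom.congr_fun hσψ Polynomial.X
    rw [RingHom.comp_apply] at h2
    rw [h2]
    exact Polynomial.eval₂_X _ _
  · intro x
    obtain ⟨g, hg1, hg2⟩ := hαint x
    refine ⟨IsLocalization.integerNormalization (nonZeroDivisors (Polynomial (ZMod p))) g, ?_, ?_⟩
    · rw [Ne, IsFractionRing.integerNormalization_eq_zero_iff]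
      exact hg1.ne_zero
    · rw [← hαt]
      exact IsLocalization.integerNormalization_eval₂_eq_zero _ _ _ hg2
  · rintro x ⟨g, hg0, hg⟩
    exact hβsurj x ⟨g.map (algebraMap (Polynomial (ZMod p))
      (FractionRing (Polynomial (ZMod p)))), by
        rwa [Ne, Polynomial.map_eq_zero_iff (IsFractionRing.injective _ _)], by
        rw [Polynomial.eval₂_map, hσψ, hg]⟩

/-- The general form: `O` is the ring of integers of an algebraically closed field. -/
theorem main {K : Type} [Field K] [IsAlgClosed K] {O : ValuationSubring K} {p : ℕ} [Fact p.Prime]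
    [Fact ¬IsUnit (p : O)] [IsAdicComplete (Ideal.span {(p : O)}) O] (b : TB O p)
    (hden : ∀ (y : PreTilt O p) (n : ℕ), ∃ a : PreTilt O p, AlgT p b.ϖ a ∧ b.ϖ ^ n ∣ y - a)
    (N d : ℕ) (U : Set (AdicProj O N)) (hU : IsOpen U)
    (𝔓 : Ideal (MvPolynomial (Fin (N + 1)) (TF O p))) (h𝔓1 : 𝔓.IsPrime) (h𝔓2 : Homog 𝔓)
    (h𝔓3 : ringKrullDim (MvPolynomial (Fin (N + 1)) (TF O p) ⧸ 𝔓) = (d + 1 : ℕ))
    (h𝔓4 : TiltInside p O 𝔓 U) :
    ∃ (ka : Type) (_ : Field ka) (_ : IsAlgClosed ka) (_ : CharP ka p)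
      (β : ka →+* TF O p) (t : ka) (P : Ideal (MvPolynomial (Fin (N + 1)) ka)),
      β t = algebraMap (PreTilt O p) (TF O p) b.ϖ ∧ (∀ x : ka, AlgT p t x) ∧
      P.IsPrime ∧ Homog P ∧
      ringKrullDim (MvPolynomial (Fin (N + 1)) ka ⧸ P) = (d + 1 : ℕ) ∧
      ∀ (y : Fin (N + 1) → PreTilt O p) (l : Fin (N + 1)), y l = 1 →
        (∀ F ∈ P, eval₂ β (fun i => algebraMap (PreTilt O p) (TF O p) (y i)) F = 0) →
        ∃ a ∈ U, a.1 = pointRel (RingHom.id K) O (fun l => ((PreTilt.untilt (y l) : O) : K)) := by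
  obtain ⟨J', _, f, hf⟩ := exists_gens (A := PreTilt O p) (Q := TF O p) 𝔓
  obtain ⟨n₀, hn₀⟩ := (ultc_proof ulta_proof ultb_proof) p K O b N U hU J' f (by
    rw [hf]
    exact h𝔓4)
  -- the normed field
  have hpux := pux_proof O p b
  letI iN : NontriviallyNormedField (TF O p) := nnfPU (F := TF O p) hpux.1
  haveI : IsUltrametricDist (TF O p) := ultra_nfPU hpux.1
  have hp0O : (p : O) ≠ 0 := by
    intro h
    apply b.hp0
    have := congrArg O.subtype h
    rwa [map_natCast, map_zero] at this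
  haveI : IsAlgClosed (TF O p) := tilt_isAlgClosed O b.hu hp0O b.hϖ
  have hnorm : ∀ x : TF O p, ‖x‖ = vn (TF O p) b.ϖ x := fun x => rfl
  have hϖ0 : b.ϖ ≠ 0 := by
    intro h0
    apply hp0O
    rw [b.hϖ, h0, untilt_zero, mul_zero]
  have hϖu : ¬IsUnit b.ϖ := by
    intro h0
    apply (Fact.out : ¬IsUnit (p : O))
    rw [b.hϖ]
    exact b.hu.mul (isUnit_untilt.2 h0)
  have hinjT : Function.Injective (algebraMap (PreTilt O p) (TF O p)) :=
    IsFractionRing.injective _ _
  -- the small field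
  have hψinj : Function.Injective (evt p (algebraMap (PreTilt O p) (TF O p) b.ϖ)) := by
    rw [← evt_comp]
    exact hinjT.comp (evt_inj hϖ0 hϖu)
  obtain ⟨ka, _, _, hch, β, t, hβt, halg, hβsurj⟩ := small _ hψinj
  -- density
  have hdens₁ : ∀ (y : PreTilt O p) (n : ℕ), ∃ (a : ka) (w : PreTilt O p),
      β a = algebraMap (PreTilt O p) (TF O p) w ∧ b.ϖ ^ n ∣ y - w := by
    intro y n
    obtain ⟨w, hw1, hw⟩ := hden y n
    obtain ⟨a, ha⟩ := hβsurj (algebraMap (PreTilt O p) (TF O p) w) (algT_map _ hw1)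
    exact ⟨a, w, ha, hw⟩
  have hϖ0' : algebraMap (PreTilt O p) (TF O p) b.ϖ ≠ 0 := hpux.1.map_ne
  have hdense : ∀ (x : TF O p) (ε : ℝ), 0 < ε → ∃ a : ka, ‖x - β a‖ < ε := by
    intro x ε hε
    obtain ⟨r, w, hw⟩ := PU.dvd_pow hpux.1 x
    obtain ⟨m, hm⟩ := exists_pow_lt_of_lt_one (show 0 < ε * (1 / 2) ^ r by positivity)
      (show (1 / 2 : ℝ) < 1 by norm_num)
    obtain ⟨a, w', ha, hw'⟩ := hdens₁ w m
    refine ⟨a / t ^ r, ?_⟩
    have h2 : x - β (a / t ^ r) =
        algebraMap (PreTilt O p) (TF O p) (w - w') /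
          algebraMap (PreTilt O p) (TF O p) b.ϖ ^ r := by
      rw [map_div₀, map_pow, hβt, map_sub, ← hw, ha]
      field_simp
    rw [h2, norm_div, norm_pow, hnorm (algebraMap _ _ b.ϖ), vn_self hpux.1,
      div_lt_iff₀ (by positivity)]
    refine lt_of_le_of_lt ?_ hm
    rw [hnorm]
    exact TN.vn_le_of_dvd hpux.1 hw'
  -- the perturbed ideal
  obtain ⟨P, hP1, hP2, hP3, hP4⟩ := (pert_proof (dens_proof homext_proof)) (TF O p) ka β
    hdense N (d + 1) 𝔓 h𝔓1 h𝔓2 (by rw [h𝔓3]) J'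
    (fun j => MvPolynomial.map (algebraMap (PreTilt O p) (TF O p)) (f j)) (fun j => by
      rw [← hf]
      exact Ideal.subset_span ⟨j, rfl⟩) ((1 / 2) ^ (n₀ + 1)) (by positivity)
  refine ⟨ka, inferInstance, inferInstance, hch, β, t, P, hβt, halg, hP1, hP2, hP3, ?_⟩
  intro y l hyl hyP
  have hsmall := hP4 (TF O p)
    (fun i => algebraMap (PreTilt O p) (TF O p) (y i)) (fun i => vn_le_one _) (by
      intro F hF
      have h1 : (algebraMap (TF O p) (TF O p)).comp β = β := by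
        rw [Algebra.algebraMap_self, RingHom.id_comp]
      rw [h1]
      exact hyP F hF)
  refine hn₀ K (RingHom.id K) O valuedExt_id y l hyl ?_
  intro i
  rw [ϖV_id, incl_id, tmap_id]
  apply TN.dvd_of_vn_lt (F := TF O p) hpux.1
  have h1 : algebraMap (PreTilt O p) (TF O p)
      (MvPolynomial.eval₂ (RingHom.id (PreTilt O p)) y (f i)) =
      MvPolynomial.aeval (fun i => algebraMap (PreTilt O p) (TF O p) (y i))
        (MvPolynomial.map (algebraMap (PreTilt O p) (TF O p)) (f i)) := by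
    rw [MvPolynomial.aeval_def, MvPolynomial.eval₂_map, MvPolynomial.hom_eval₂,
      Algebra.algebraMap_self, RingHom.id_comp, RingHom.comp_id]
  rw [h1]
  refine lt_of_le_of_lt (hsmall i) ?_
  exact pow_lt_pow_right_of_lt_one₀ (by norm_num) (by norm_num) (Nat.lt_succ_self n₀)

end PTB_

open PTB_

theorem ptb_proof (hOpu : Stmt_Opu) : Stmt_Ptb := by
  intro p _ ϖ hϖ hden N d M J _ G e I hG hGI
  have hp0 : (p : ℂ_[p]) ≠ 0 := by
    intro h
    have := norm_p_pos p
    rw [h, norm_zero] at this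
    exact lt_irrefl _ this
  obtain ⟨U, hU, hIU, hUp⟩ := hOpu p ℂ_[p] 𝓞_ℂ_[p] hp0 N J G e I hG hGI M
  refine ⟨U, hU, hIU, ?_⟩
  intro 𝔓 h𝔓1 h𝔓2 h𝔓3 h𝔓4
  obtain ⟨b, hb⟩ : ∃ b : TB 𝓞_ℂ_[p] p, b.ϖ = ϖ := ⟨
    { ϖ := ϖ
      u := 1
      hu := isUnit_one
      hϖ := by rw [one_mul, hϖ]
      hp0 := hp0
      hr := rank_one p
      hF := frob_surj _ }, rfl⟩
  subst hb
  obtain ⟨ka, i1, i2, i3, β, t, P, h1, h2, h3, h4, h5, h6⟩ :=
    main b hden N d U hU 𝔓 h𝔓1 h𝔓2 h𝔓3 h𝔓4
  refine ⟨ka, i1, i2, i3, β, t, P, h1, h2, h3, h4, h5, ?_⟩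
  intro y l hyl hyP j
  have hy0 : y ≠ 0 := by
    intro h0
    rw [h0] at hyl
    exact zero_ne_one hyl
  have hfin := hUp ℂ_[p] (RingHom.id ℂ_[p]) 𝓞_ℂ_[p] valuedExt_id y hy0 (h6 y l hyl hyP) j
  rwa [incl_id] at hfin

end Pool.Agent.FRM
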