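import Pool.Agent.FRM.Defs

/-!
# Statements of the modules of the frame
-/

set_option autoImplicit false

noncomputable section

namespace Pool.Agent.FRM

open scoped Classical
open MvPolynomial Pool.Agent.LibDb3ab1 Pool.Agent.DC

section density

/-- The homomorphism `F_p[t] → A` with `t ↦ a`. -/
def evt (p : ℕ) [Fact p.Prime] {A : Type} [CommRing A] [CharP A p] (a : A) :
    Polynomial (ZMod p) →+* A :=
  Polynomial.eval₂RingHom (ZMod.castHom (dvd_refl p) A) a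

/-- `x` is algebraic over `F_p[a]`. -/
def AlgT (p : ℕ) [Fact p.Prime] {A : Type} [CommRing A] [CharP A p] (a x : A) : Prop :=
  ∃ f : Polynomial (Polynomial (ZMod p)), f ≠ 0 ∧ f.eval₂ (evt p a) x = 0

instance charP_tf {C : Type} [Field C] (V : ValuationSubring C) (p : ℕ) [Fact p.Prime]
    [Fact ¬IsUnit (p : V)] : CharP (TF V p) p := charP_TF V

/-- KZA: integral elements of the closure of `ℚ(p^(1/p^∞))` in `ℂ_[p]` are modulo `p` polynomials
in some `p^(1/p^n)` with integer coefficients. -/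
def Stmt_Kza : Prop :=
  ∀ (p : ℕ) [Fact p.Prime] (π : ℕ → ℂ_[p]), π 0 = (p : ℂ_[p]) → (∀ n, π (n + 1) ^ p = π n) →
    ∀ x : ℂ_[p], x ∈ closure ((Subfield.closure (Set.range π) : Subfield ℂ_[p]) : Set ℂ_[p]) →
      ‖x‖ ≤ 1 → ∃ (n : ℕ) (a : Polynomial ℤ),
        ‖x - a.eval₂ (Int.castRingHom ℂ_[p]) (π n)‖ ≤ ‖(p : ℂ_[p])‖

/-- KZ: the closure `K` of `ℚ(p^(1/p^∞))` in `ℂ_[p]`; the elements of the tilt which are algebraic
over `F_p(ϖ)` are dense (uses KZA). -/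
def Stmt_KZ : Prop :=
  ∀ (p : ℕ) [Fact p.Prime], ∃ (K : Type) (_ : Field K) (O : ValuationSubring K)
    (_ : Fact ¬IsUnit (p : O)) (_ : IsAdicComplete (Ideal.span {(p : O)}) O)
    (ι : K →+* ℂ_[p]) (_ : ValuedExt O ι 𝓞_ℂ_[p]) (b : TB O p), b.u = 1 ∧
    ∀ (x : PreTilt O p) (n : ℕ), ∃ a : PreTilt O p, AlgT p b.ϖ a ∧ b.ϖ ^ n ∣ x - a

/-- CLO: an algebraically closed subfield of `ℂ_[p]` which is closed is everything. -/
def Stmt_Clo : Prop :=
  ∀ (p : ℕ) [Fact p.Prime] (C₁ : Type) [Field C₁] [IsAlgClosed C₁] (κ : C₁ →+* ℂ_[p]),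
    (∀ x : ℂ_[p], (∀ n : ℕ, ∃ c : C₁, ‖x - κ c‖ ≤ ‖(p : ℂ_[p])‖ ^ n) → ∃ c, κ c = x) →
    Function.Surjective κ

/-- DEN: the elements which are algebraic over `F_p(ϖ)` are dense in the tilt of `𝓞_ℂ_[p]`
(uses KZ, CLO). -/
def Stmt_Den : Prop :=
  ∀ (p : ℕ) [Fact p.Prime], ∃ ϖ : PreTilt 𝓞_ℂ_[p] p, PreTilt.untilt ϖ = (p : 𝓞_ℂ_[p]) ∧
    ∀ (y : PreTilt 𝓞_ℂ_[p] p) (n : ℕ), ∃ a : PreTilt 𝓞_ℂ_[p] p, AlgT p ϖ a ∧ ϖ ^ n ∣ y - a

end density

section sharp

variable {K : Type} [Field K] (O : ValuationSubring K) (p : ℕ) [Fact p.Prime]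
  [Fact ¬IsUnit (p : O)] [IsAdicComplete (Ideal.span {(p : O)}) O]

/-- SHP: comparison of `a ^ ♯ - b ^ ♯` and `a - b` at the level `1 + 1 / p`. -/
def Stmt_Shp : Prop :=
  (p : K) ≠ 0 → ∀ s : PreTilt O p, PreTilt.untilt s ^ p = (p : O) → ∀ a b : PreTilt O p,
    PreTilt.untilt s ^ (p + 1) ∣ PreTilt.untilt a - PreTilt.untilt b → s ^ (p + 1) ∣ a - b

/-- WIT: the congruence in characteristic `p` which is satisfied by approximate zeros
(uses SHP). -/
def Stmt_Wit : Prop :=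
  (p : K) ≠ 0 → ∀ s : PreTilt O p, PreTilt.untilt s ^ p = (p : O) →
    ∀ (σ : Type) (g g₁ : MvPolynomial σ ℤ), C (p : ℤ) * g₁ = expand p g - g ^ p →
    ∀ y : σ → PreTilt O p,
      (p : O) ^ 2 ∣ eval₂ (Int.castRingHom O) (fun i => PreTilt.untilt (y i)) g →
      (s ^ p) ^ (p + 1) ∣ eval₂ (Int.castRingHom (PreTilt O p)) y g ^ p +
        (s ^ p) ^ p * eval₂ (Int.castRingHom (PreTilt O p)) y g₁

end sharp

section reduction

/-- MINP: a homogeneous prime ideal of the same dimension above a homogeneous ideal. -/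
def Stmt_MinP : Prop :=
  ∀ (k : Type) [Field k] (N d : ℕ) (I : Ideal (MvPolynomial (Fin (N + 1)) k)), Homog I →
    ringKrullDim (MvPolynomial (Fin (N + 1)) k ⧸ I) = (d + 1 : ℕ) →
    ∃ P : Ideal (MvPolynomial (Fin (N + 1)) k), I ≤ P ∧ P.IsPrime ∧ Homog P ∧
      ringKrullDim (MvPolynomial (Fin (N + 1)) k ⧸ P) = (d + 1 : ℕ)

/-- OPU: the open tube `|G_j(x)| ≤ |p| ^ M max |x_l| ^ deg G_j` (compare OPENU in DC). -/
def Stmt_Opu : Prop :=
  ∀ (p : ℕ) [Fact p.Prime] (K : Type) [Field K] (O : ValuationSubring K)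
    [Fact ¬IsUnit (p : O)], (p : K) ≠ 0 → ∀ (N : ℕ) (J : Type) [Finite J]
    (G : J → MvPolynomial (Fin (N + 1)) O) (e : J → ℕ) (I : Ideal (MvPolynomial (Fin (N + 1)) K)),
    (∀ j, (G j).IsHomogeneous (e j)) → (∀ j, MvPolynomial.map O.subtype (G j) ∈ I) →
    ∀ M : ℕ, ∃ U : Set (AdicProj O N), IsOpen U ∧ adicLocus O I ⊆ U ∧
      ∀ (C' : Type) [Field C'] [IsAlgClosed C'] (ι : K →+* C') (V : ValuationSubring C')
        (hV : ValuedExt O ι V) [Fact ¬IsUnit (p : V)] [IsAdicComplete (Ideal.span {(p : V)}) V]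
        (y : Fin (N + 1) → PreTilt V p), y ≠ 0 →
        (∃ a ∈ U, a.1 = pointRel ι V (fun l => ((PreTilt.untilt (y l) : V) : C'))) →
        ∀ j, (p : V) ^ M ∣ eval₂ hV.incl (fun i => PreTilt.untilt (y i)) (G j)

/-- PTB: perturbation to a prime ideal over an algebraically closed field which is algebraic over
`F_p(ϖ)` (uses OPU; UltC, Pert of DC). -/
def Stmt_Ptb : Prop :=
  ∀ (p : ℕ) [Fact p.Prime] (ϖ : PreTilt 𝓞_ℂ_[p] p), PreTilt.untilt ϖ = (p : 𝓞_ℂ_[p]) →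
    (∀ (y : PreTilt 𝓞_ℂ_[p] p) (n : ℕ), ∃ a : PreTilt 𝓞_ℂ_[p] p, AlgT p ϖ a ∧ ϖ ^ n ∣ y - a) →
    ∀ (N d M : ℕ) (J : Type) [Finite J] (G : J → MvPolynomial (Fin (N + 1)) 𝓞_ℂ_[p]) (e : J → ℕ)
      (I : Ideal (MvPolynomial (Fin (N + 1)) ℂ_[p])), (∀ j, (G j).IsHomogeneous (e j)) →
    (∀ j, MvPolynomial.map (𝓞_ℂ_[p]).subtype (G j) ∈ I) →
    ∃ U : Set (AdicProj 𝓞_ℂ_[p] N), IsOpen U ∧ adicLocus 𝓞_ℂ_[p] I ⊆ U ∧
      ∀ 𝔓 : Ideal (MvPolynomial (Fin (N + 1)) (TF 𝓞_ℂ_[p] p)), 𝔓.IsPrime → Homog 𝔓 →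
        ringKrullDim (MvPolynomial (Fin (N + 1)) (TF 𝓞_ℂ_[p] p) ⧸ 𝔓) = (d + 1 : ℕ) →
        TiltInside p 𝓞_ℂ_[p] 𝔓 U →
        ∃ (ka : Type) (_ : Field ka) (_ : IsAlgClosed ka) (_ : CharP ka p)
          (β : ka →+* TF 𝓞_ℂ_[p] p) (t : ka) (P : Ideal (MvPolynomial (Fin (N + 1)) ka)),
          β t = algebraMap (PreTilt 𝓞_ℂ_[p] p) (TF 𝓞_ℂ_[p] p) ϖ ∧ (∀ x : ka, AlgT p t x) ∧
          P.IsPrime ∧ Homog P ∧
          ringKrullDim (MvPolynomial (Fin (N + 1)) ka ⧸ P) = (d + 1 : ℕ) ∧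
          ∀ (y : Fin (N + 1) → PreTilt 𝓞_ℂ_[p] p) (l : Fin (N + 1)), y l = 1 →
            (∀ F ∈ P, eval₂ β
              (fun i => algebraMap (PreTilt 𝓞_ℂ_[p] p) (TF 𝓞_ℂ_[p] p) (y i)) F = 0) →
            ∀ j, (p : 𝓞_ℂ_[p]) ^ M ∣
              eval₂ (RingHom.id 𝓞_ℂ_[p]) (fun i => PreTilt.untilt (y i)) (G j)

end reduction

section algebra

/-- LZA: linear forms which cut down the dimension. -/
def Stmt_Lza : Prop :=
  ∀ (k : Type) [Field k] (N s : ℕ) (I : Ideal (MvPolynomial (Fin (N + 1)) k)), Homog I →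
    ringKrullDim (MvPolynomial (Fin (N + 1)) k ⧸ I) ≤ (s + 1 : ℕ) →
    ∃ T : Set (Submodule k (Fin (N + 1) → k)), T.Finite ∧ (∀ S ∈ T, S ≠ ⊤) ∧
      ∀ c : Fin (N + 1) → k, (∀ S ∈ T, c ∉ S) →
        ringKrullDim (MvPolynomial (Fin (N + 1)) k ⧸
          (I ⊔ Ideal.span {∑ i, C (c i) * X i})) ≤ (s : ℕ)

/-- LZB: linear forms with independent differentials. -/
def Stmt_Lzb : Prop :=
  ∀ (k ka F : Type) [Field k] [Field ka] [Field F] (α : k →+* ka) [Algebra ka F] (N s : ℕ)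
    (x : Fin (N + 1) → F), IntermediateField.adjoin ka (Set.range x) = ⊤ →
    ∀ v : Fin s → F, LinearIndependent F (fun i => KaehlerDifferential.D ka F (v i)) →
      Submodule.span F (Set.range fun i => KaehlerDifferential.D ka F (v i)) ≠ ⊤ →
      ∃ S : Submodule k (Fin (N + 1) → k), S ≠ ⊤ ∧ ∀ c : Fin (N + 1) → k, c ∉ S →
        LinearIndependent F (fun i => KaehlerDifferential.D ka F
          ((Fin.snoc v (∑ l, algebraMap ka F (α (c l)) * x l) : Fin (s + 1) → F) i))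

/-- LZC: if the differentials of `v` generate, then `F` is separable over `ka(v)`. -/
def Stmt_Lzc : Prop :=
  ∀ (ka F : Type) [Field ka] [Field F] [Algebra ka F] (r : ℕ) (v : Fin r → F),
    (∃ s : Finset F, IntermediateField.adjoin ka (s : Set F) = ⊤) →
    Submodule.span F (Set.range fun i => KaehlerDifferential.D ka F (v i)) = ⊤ →
    ∀ x : F, ∃ f : Polynomial (MvPolynomial (Fin r) ka),
      f.eval₂ (aeval v).toRingHom x = 0 ∧ f.derivative.eval₂ (aeval v).toRingHom x ≠ 0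

/-- LZD: the dimension of the module of differentials of the function field of a variety over an
algebraically closed field. -/
def Stmt_Lzd : Prop :=
  ∀ (ka : Type) [Field ka] [IsAlgClosed ka] (N d : ℕ) (P : Ideal (MvPolynomial (Fin (N + 1)) ka))
    [P.IsPrime], ringKrullDim (MvPolynomial (Fin (N + 1)) ka ⧸ P) = (d : ℕ) →
    Module.finrank (FractionRing (MvPolynomial (Fin (N + 1)) ka ⧸ P))
      (KaehlerDifferential ka (FractionRing (MvPolynomial (Fin (N + 1)) ka ⧸ P))) = d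

/-- LZE: a homogeneous ideal with quotient of dimension at most `0` contains powers of the
variables. -/
def Stmt_Lze : Prop :=
  ∀ (k : Type) [Field k] (N : ℕ) (I : Ideal (MvPolynomial (Fin (N + 1)) k)), Homog I →
    ringKrullDim (MvPolynomial (Fin (N + 1)) k ⧸ I) ≤ 0 → ∀ i, ∃ M : ℕ, X i ^ M ∈ I

/-- LINZ: linear forms over `k` which are parameters for the ideal `I` and separating parameters
for the prime ideal `P` (uses LZA, LZB, LZC, LZD, LZE). -/
def Stmt_Linz : Prop :=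
  ∀ (k ka : Type) [Field k] [Infinite k] [Field ka] [IsAlgClosed ka] (α : k →+* ka) (N d : ℕ)
    (I : Ideal (MvPolynomial (Fin (N + 1)) k)), Homog I →
    ringKrullDim (MvPolynomial (Fin (N + 1)) k ⧸ I) ≤ (d + 1 : ℕ) →
    ∀ P : Ideal (MvPolynomial (Fin (N + 1)) ka), P.IsPrime → Homog P →
      ringKrullDim (MvPolynomial (Fin (N + 1)) ka ⧸ P) = (d + 1 : ℕ) →
      ∃ z : Fin (d + 1) → MvPolynomial (Fin (N + 1)) k, (∀ i, (z i).IsHomogeneous 1) ∧
        (∀ i, ∃ M : ℕ, X i ^ M ∈ I ⊔ Ideal.span (Set.range z)) ∧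
        Sepz P fun i => MvPolynomial.map α (z i)

/-- FIN: linear forms without common zero on a projective variety are parameters. -/
def Stmt_Fin : Prop :=
  ∀ (ka Ω : Type) [Field ka] [IsAlgClosed ka] [Field Ω] (β : ka →+* Ω) (N d : ℕ)
    (P : Ideal (MvPolynomial (Fin (N + 1)) ka)), P.IsPrime → Homog P →
    ringKrullDim (MvPolynomial (Fin (N + 1)) ka ⧸ P) = (d + 1 : ℕ) →
    ∀ z : Fin (d + 1) → MvPolynomial (Fin (N + 1)) ka, (∀ i, (z i).IsHomogeneous 1) →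
    (∀ y : Fin (N + 1) → Ω, y ≠ 0 → (∀ F ∈ P, eval₂ β y F = 0) →
      ∃ i, eval₂ β y (z i) ≠ 0) →
    (∀ i, (kmap P z).IsIntegralElem (Ideal.Quotient.mk P (X i))) ∧
      Function.Injective (kmap P z)

/-- GAU: polynomials which are bounded by `1` on the polydisc have coefficients in the valuation
ring. -/
def Stmt_Gau : Prop :=
  ∀ (W Ω : Type) [CommRing W] [IsDomain W] [ValuationRing W] [Field Ω] [Algebra W Ω]
    [IsFractionRing W Ω] [Infinite (IsLocalRing.ResidueField W)] (n : ℕ)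
    (F : MvPolynomial (Fin n) Ω),
    (∀ ζ : Fin n → W, ∃ w : W, algebraMap W Ω w = eval (fun i => algebraMap W Ω (ζ i)) F) →
    ∀ m, ∃ w : W, algebraMap W Ω w = F.coeff m

/-- BDI: elements which are bounded by `1` at all points of the unit polydisc are integral
(uses GAU, and HomExt of DC). -/
def Stmt_Bdi : Prop :=
  ∀ (W Ω ka : Type) [CommRing W] [IsDomain W] [ValuationRing W] [Field Ω] [Algebra W Ω]
    [IsFractionRing W Ω] [IsAlgClosed Ω] [Field ka] (β : ka →+* Ω) (Wa : ValuationSubring ka),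
    (∀ x, x ∈ Wa ↔ ∃ w : W, algebraMap W Ω w = β x) → ∀ (N r : ℕ)
    (P : Ideal (MvPolynomial (Fin (N + 1)) ka)), P.IsPrime → Homog P →
    ∀ z : Fin r → MvPolynomial (Fin (N + 1)) Wa, (∀ i, (z i).IsHomogeneous 1) →
    (∀ i, (kmap P fun i => MvPolynomial.map Wa.subtype (z i)).IsIntegralElem
      (Ideal.Quotient.mk P (X i))) →
    Function.Injective (kmap P fun i => MvPolynomial.map Wa.subtype (z i)) →
    (∀ y : Fin (N + 1) → W, (∃ l, y l = 1) →
      (∀ F ∈ P, eval₂ β (fun i => algebraMap W Ω (y i)) F = 0) →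
      ∃ (i : Fin r) (w : W), IsUnit w ∧
        algebraMap W Ω w = eval₂ (β.comp Wa.subtype) (fun i => algebraMap W Ω (y i)) (z i)) →
    ∀ (b : MvPolynomial (Fin (N + 1)) ka) (m : ℕ), 0 < m → b.IsHomogeneous m →
      (∀ y : Fin (N + 1) → W, (∃ l, y l = 1) →
        (∀ F ∈ P, eval₂ β (fun i => algebraMap W Ω (y i)) F = 0) →
        ∃ w : W, algebraMap W Ω w = eval₂ β (fun i => algebraMap W Ω (y i)) b) →
      (zmap Wa P z).IsIntegralElem (Ideal.Quotient.mk P b)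

/-- DVR: valuation rings of finite extensions of `F_p(t)` are discrete. -/
def Stmt_Dvr : Prop :=
  ∀ (p : ℕ) [Fact p.Prime] (L : Type) [Field L] [Algebra (RatFunc (ZMod p)) L]
    [FiniteDimensional (RatFunc (ZMod p)) L] (V : ValuationSubring L),
    algebraMap (RatFunc (ZMod p)) L RatFunc.X ∈ V →
    (algebraMap (RatFunc (ZMod p)) L RatFunc.X)⁻¹ ∉ V → IsDiscreteValuationRing V

/-- DSC: descent of a close model from an algebraic closure of `F_p(t)` to a finite extension of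
`F_p(t)` (uses DVR, and Desc of DC). -/
def Stmt_Dsc : Prop :=
  ∀ (p N d : ℕ) [Fact p.Prime] (J : Type) [Finite J] (E : Eqs p N J) (ka : Type) [Field ka]
    [IsAlgClosed ka] [CharP ka p] (V : ValuationSubring ka) (t : V),
    (∀ x : ka, AlgT p (t : ka) x) → ∀ (P : Ideal (MvPolynomial (Fin (N + 1)) ka))
    (z : Fin (d + 1) → MvPolynomial (Fin (N + 1)) V), IsClose E d V t P z →
    Nonempty (CloseModel E d)

end algebra

section library

/-- HLA: the first consequence of closeness. -/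
def Stmt_Hla : Prop :=
  ∀ (p N d : ℕ) [Fact p.Prime] (J : Type) (E : Eqs p N J) (k : Type) [Field k] [CharP k p]
    (V : ValuationSubring k) (t : V) (P : Ideal (MvPolynomial (Fin (N + 1)) k))
    (z : Fin (d + 1) → MvPolynomial (Fin (N + 1)) V), IsClose E d V t P z → ∀ j,
    (vmap V P).IsIntegralElem (Ideal.Quotient.mk P (C ((t : k)⁻¹) * red k (E.g j)))

/-- HLB: the consequence for binomials `a - b` (all products `h` with `p ∣ g₁ - h g`). -/
def Stmt_Hlb : Prop :=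
  ∀ (p N d : ℕ) [Fact p.Prime] (J : Type) (E : Eqs p N J) (k : Type) [Field k] [CharP k p]
    (V : ValuationSubring k) (t : V) (P : Ideal (MvPolynomial (Fin (N + 1)) k))
    (z : Fin (d + 1) → MvPolynomial (Fin (N + 1)) V), IsClose E d V t P z → ∀ j,
    (∃ α β : Fin (N + 1) →₀ ℕ, E.g j = monomial α 1 - monomial β 1) →
    (vmap V P).IsIntegralElem
      (Ideal.Quotient.mk P (C (((t : k)⁻¹) ^ (p + 1)) * red k (E.g j) ^ p))

/-- HLC: the consequence for linear trinomials `x_a + x_b - x_c`, with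
`p * S = X ^ p + Y ^ p - (X + Y) ^ p`. -/
def Stmt_Hlc : Prop :=
  ∀ (p N d : ℕ) [Fact p.Prime] (J : Type) (E : Eqs p N J) (k : Type) [Field k] [CharP k p]
    (V : ValuationSubring k) (t : V) (P : Ideal (MvPolynomial (Fin (N + 1)) k))
    (z : Fin (d + 1) → MvPolynomial (Fin (N + 1)) V), IsClose E d V t P z → ∀ j,
    ∀ a b c : Fin (N + 1), E.g j = X a + X b - X c →
    ∀ S : MvPolynomial (Fin (N + 1)) ℤ, C (p : ℤ) * S = X a ^ p + X b ^ p - (X a + X b) ^ p →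
    (vmap V P).IsIntegralElem (Ideal.Quotient.mk P (C (((t : k)⁻¹) ^ (p + 1)) *
      ((X c - X a - X b) ^ p - C ((t : k) ^ p) * red k S)))

/-- HOMA: the integral closure of `V[x]` in `k[x]/P` is graded. -/
def Stmt_HomA : Prop :=
  ∀ (k : Type) [Field k] (V : ValuationSubring k) (N : ℕ)
    (P : Ideal (MvPolynomial (Fin (N + 1)) k)), P.IsPrime → Homog P →
    ∀ (b : MvPolynomial (Fin (N + 1)) k), (vmap V P).IsIntegralElem (Ideal.Quotient.mk P b) →
      ∀ m, (vmap V P).IsIntegralElem (Ideal.Quotient.mk P (homogeneousComponent m b))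

/-- FINA: the integral closure of `V[x]` in `k[x]/P` is a finite module over `V[z]`. -/
def Stmt_FinA : Prop :=
  ∀ (k : Type) [Field k] (V : ValuationSubring k), IsDiscreteValuationRing V → ∀ (N d : ℕ)
    (P : Ideal (MvPolynomial (Fin (N + 1)) k)), P.IsPrime → Homog P →
    ringKrullDim (MvPolynomial (Fin (N + 1)) k ⧸ P) = (d + 1 : ℕ) →
    ∀ z : Fin (d + 1) → MvPolynomial (Fin (N + 1)) V, (∀ i, (z i).IsHomogeneous 1) →
    (∀ i, (zmap V P z).IsIntegralElem (Ideal.Quotient.mk P (X i))) →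
    (Sepz P fun i => MvPolynomial.map V.subtype (z i)) →
    ∃ (m : ℕ) (b : Fin m → MvPolynomial (Fin (N + 1)) k),
      (∀ i, (vmap V P).IsIntegralElem (Ideal.Quotient.mk P (b i))) ∧
      ∀ F : MvPolynomial (Fin (N + 1)) k, (vmap V P).IsIntegralElem (Ideal.Quotient.mk P F) →
        ∃ c : Fin m → MvPolynomial (Fin (d + 1)) V,
          Ideal.Quotient.mk P F = ∑ i, zmap V P z (c i) * Ideal.Quotient.mk P (b i)

end library

end Pool.Agent.FRM
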