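import Pool.Agent.FRM.Stmts

/-!
# The frame, stage B: base change of close models, complete close models
-/

set_option autoImplicit false

noncomputable section

namespace Pool.Agent.FRM

open scoped Classical
open MvPolynomial Pool.Agent.LibDb3ab1 Pool.Agent.DC

/-- Close models over a complete discrete valuation ring with algebraically closed coefficient
field `F`, algebraic over `F_p`. The prime ideal `P` is geometrically prime. -/
structure CompleteModel {p N : ℕ} [Fact p.Prime] {J : Type} (E : Eqs p N J) (d : ℕ) where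
  /-- the field -/
  K : Type
  [field : Field K]
  [char : CharP K p]
  /-- the valuation ring -/
  V : ValuationSubring K
  dvr : IsDiscreteValuationRing V
  complete : IsAdicComplete (IsLocalRing.maximalIdeal V) V
  /-- the coefficient field -/
  F : Type
  [fieldF : Field F]
  [closedF : IsAlgClosed F]
  [algF : Algebra (ZMod p) F]
  algebraic : Algebra.IsAlgebraic (ZMod p) F
  /-- the embedding of the coefficient field -/
  c : F →+* V
  bij : Function.Bijective ((IsLocalRing.residue V).comp c)
  /-- the parameter of the tilt -/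
  t : V
  /-- the ideal -/
  P : Ideal (MvPolynomial (Fin (N + 1)) K)
  /-- the linear forms -/
  z : Fin (d + 1) → MvPolynomial (Fin (N + 1)) V
  close : IsClose E d V t P z
  geom : ∀ (K' : Type) [Field K'] (μ : K →+* K'), (P.map (MvPolynomial.map μ)).IsPrime

/-- DVG: valuation rings of finite extensions of `F(t)` which contain `F` and in which `t` is not
a unit are discrete (generalises DVR). -/
def Stmt_Dvg : Prop :=
  ∀ (F L : Type) [Field F] [Field L] [Algebra (RatFunc F) L] [FiniteDimensional (RatFunc F) L]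
    (V : ValuationSubring L), (∀ c : F, algebraMap (RatFunc F) L (RatFunc.C c) ∈ V) →
    algebraMap (RatFunc F) L RatFunc.X ∈ V → (algebraMap (RatFunc F) L RatFunc.X)⁻¹ ∉ V →
    IsDiscreteValuationRing V

/-- GPR: prime ideals over an algebraically closed field remain prime. -/
def Stmt_Gpr : Prop :=
  ∀ (k K : Type) [Field k] [IsAlgClosed k] [Field K] (μ : k →+* K) (N : ℕ)
    (P : Ideal (MvPolynomial (Fin N) k)), P.IsPrime → (P.map (MvPolynomial.map μ)).IsPrime

/-- GPS: geometrically prime ideals (uses GPR). -/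
def Stmt_Gps : Prop :=
  ∀ (L : Type) [Field L] (N : ℕ) (P : Ideal (MvPolynomial (Fin N) L)),
    (P.map (MvPolynomial.map (σ := Fin N) (algebraMap L (AlgebraicClosure L)))).IsPrime →
    ∀ (K : Type) [Field K] (μ : L →+* K), (P.map (MvPolynomial.map μ)).IsPrime

/-- BCH: base change of close models along local extensions of valuation rings. -/
def Stmt_Bch : Prop :=
  ∀ (p N d : ℕ) [Fact p.Prime] (J : Type) (E : Eqs p N J) (L : Type) [Field L]
    (V : ValuationSubring L) (t : V) (P : Ideal (MvPolynomial (Fin (N + 1)) L))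
    (z : Fin (d + 1) → MvPolynomial (Fin (N + 1)) V), IsClose E d V t P z →
    ∀ (K : Type) [Field K] (V' : ValuationSubring K) (μ : L →+* K) (μV : V →+* V'),
    (∀ x : V, ((μV x : V') : K) = μ x) → V'.comap μ = V → (P.map (MvPolynomial.map μ)).IsPrime →
    IsClose E d V' (μV t) (P.map (MvPolynomial.map μ)) (fun i => MvPolynomial.map μV (z i))

/-- CMA: extension of the constants to the algebraic closure of `F_p` (uses DVG). -/
def Stmt_Cma : Prop :=
  ∀ (p : ℕ) [Fact p.Prime] (L : Type) [Field L] [Algebra (RatFunc (ZMod p)) L]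
    [FiniteDimensional (RatFunc (ZMod p)) L] (V : ValuationSubring L),
    algebraMap (RatFunc (ZMod p)) L RatFunc.X ∈ V →
    (algebraMap (RatFunc (ZMod p)) L RatFunc.X)⁻¹ ∉ V →
    ∃ (L' : Type) (_ : Field L') (V' : ValuationSubring L') (μ : L →+* L') (F : Type)
      (_ : Field F) (_ : IsAlgClosed F) (_ : Algebra (ZMod p) F) (c : F →+* V'),
      V'.comap μ = V ∧ IsDiscreteValuationRing V' ∧ Algebra.IsAlgebraic (ZMod p) F ∧
      Function.Bijective ((IsLocalRing.residue V').comp c)

/-- CMB: completion of a discretely valued field. -/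
def Stmt_Cmb : Prop :=
  ∀ (L : Type) [Field L] (V : ValuationSubring L), IsDiscreteValuationRing V →
    ∀ (F : Type) [Field F] (c : F →+* V), Function.Bijective ((IsLocalRing.residue V).comp c) →
    ∃ (K : Type) (_ : Field K) (V' : ValuationSubring K) (μ : L →+* K) (c' : F →+* V'),
      V'.comap μ = V ∧ IsDiscreteValuationRing V' ∧
      IsAdicComplete (IsLocalRing.maximalIdeal V') V' ∧
      Function.Bijective ((IsLocalRing.residue V').comp c') ∧
      ∀ x : F, ((c' x : V') : K) = μ (c x : V)

/-- **The frame, complete version.** -/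
def Stmt_FrameC : Prop :=
  ∀ (p N d : ℕ) [Fact p.Prime] (J : Type) [Finite J] (E : Eqs p N J),
    ringKrullDim (MvPolynomial (Fin (N + 1)) (ZMod p) ⧸
      Ideal.span (Set.range fun j => red (ZMod p) (E.g j))) ≤ (d + 1 : ℕ) →
    IsEmpty (CompleteModel E d) →
    ∀ I : Ideal (MvPolynomial (Fin (N + 1)) ℂ_[p]), (∀ j, red ℂ_[p] (E.g j) ∈ I) →
    ∃ U : Set (AdicProj 𝓞_ℂ_[p] N), IsOpen U ∧ adicLocus 𝓞_ℂ_[p] I ⊆ U ∧
      ∀ 𝔓 : Ideal (MvPolynomial (Fin (N + 1)) (FractionRing (PreTilt 𝓞_ℂ_[p] p))), Homog 𝔓 →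
        ringKrullDim (MvPolynomial (Fin (N + 1)) (FractionRing (PreTilt 𝓞_ℂ_[p] p)) ⧸ 𝔓) =
          (d + 1 : ℕ) → ¬TiltInside p 𝓞_ℂ_[p] 𝔓 U

end Pool.Agent.FRM
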